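import Pool.Agent.RN.Defs

set_option autoImplicit false

/-! RN1b: structure lemmas for nets. -/

namespace TW

open Finset

theorem cap0 (N : Net) (q : ℕ) : N.step.cap (3 * q) = if N.st q then 2 else 0 := by
  show (if (3 * q) % 3 = 1 then _ else _) = _
  rw [if_neg (by omega), show 3 * q / 3 = q by omega]

theorem cap1 (N : Net) (q : ℕ) :
    N.step.cap (3 * q + 1) = if N.st q then N.cap q else 2 * N.cap q := by
  show (if (3 * q + 1) % 3 = 1 then _ else _) = _
  rw [if_pos (by omega), show (3 * q + 1) / 3 = q by omega]

theorem cap2 (N : Net) (q : ℕ) : N.step.cap (3 * q + 2) = if N.st q then 2 else 0 := by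
  show (if (3 * q + 2) % 3 = 1 then _ else _) = _
  rw [if_neg (by omega), show (3 * q + 2) / 3 = q by omega]

theorem st0 (N : Net) (q : ℕ) : N.step.st (3 * q) = false := by
  show (decide _ && _) = _
  rw [show (3 * q) % 3 = 0 by omega]; rfl

theorem st1 (N : Net) (q : ℕ) : N.step.st (3 * q + 1) = N.st q := by
  show (decide _ && _) = _
  rw [show (3 * q + 1) % 3 = 1 by omega, show (3 * q + 1) / 3 = q by omega]; simp

theorem st2 (N : Net) (q : ℕ) : N.step.st (3 * q + 2) = false := by
  show (decide _ && _) = _
  rw [show (3 * q + 2) % 3 = 2 by omega]; rfl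

theorem row_cases (i : ℕ) : ∃ q, i = 3 * q ∨ i = 3 * q + 1 ∨ i = 3 * q + 2 :=
  ⟨i / 3, by omega⟩

theorem WF_base : Net.base.WF where
  cap_out := by
    intro r hr
    have hr' : 1 ≤ r := hr
    show (if r = 0 then 1 else 0) = 0
    rw [if_neg (by omega)]
  st_pos := by intro r hr; exact absurd hr (by simp [Net.base])
  lt := by intro ℓ h; exact absurd h (by simp [Net.base])

theorem WF_freeze (N : Net) (h : N.WF) : N.freeze.WF where
  cap_out := h.cap_out
  st_pos := by
    intro r hr
    have : decide (0 < N.cap r) = true := hr
    exact of_decide_eq_true this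
  lt := h.lt

/-- no used row between neighbouring used rows -/
theorem gap_aux (N : Net) (h : N.WF) (a b : ℕ) (_hab : a < b)
    (hz : ∀ i, a < i → i < b → N.cap i = 0) (i : ℕ) (h1 : 3 * a + 2 < i) (h2 : i < 3 * b) :
    N.step.cap i = 0 := by
  obtain ⟨q, hq⟩ := row_cases i
  have hq' : N.cap q = 0 := hz q (by omega) (by omega)
  have hs : N.st q = false := by
    by_contra hc
    have := h.st_pos q (by simpa using hc)
    omega
  rcases hq with rfl | rfl | rfl
  · rw [cap0]; simp [hs]
  · rw [cap1]; simp [hs, hq']
  · rw [cap2]; simp [hs]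

theorem WF_step (N : Net) (h : N.WF) : N.step.WF where
  cap_out := by
    intro r hr
    have hr' : 3 * N.R ≤ r := hr
    obtain ⟨q, hq⟩ := row_cases r
    have hq' : N.cap q = 0 := h.cap_out q (by omega)
    have hs : N.st q = false := by
      by_contra hc
      have := h.st_pos q (by simpa using hc)
      omega
    rcases hq with rfl | rfl | rfl
    · rw [cap0]; simp [hs]
    · rw [cap1]; simp [hs, hq']
    · rw [cap2]; simp [hs]
  st_pos := by
    intro r hr
    obtain ⟨q, hq⟩ := row_cases r
    rcases hq with rfl | rfl | rfl
    · rw [st0] at hr; cases hr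
    · rw [st1] at hr; rw [cap1, if_pos hr]; exact h.st_pos q hr
    · rw [st2] at hr; cases hr
  lt := by
    intro ℓ hℓ
    have hR : N.step.R = 3 * N.R := rfl
    have hends : ∀ c, ∀ ℓ ∈ ends N c, ℓ.WF N.step.R N.step.cap := by
      intro c ℓ hℓ
      obtain ⟨r, hr, hm⟩ := List.mem_flatMap.1 hℓ
      have hr' : r < N.R := List.mem_range.1 hr
      by_cases hs : N.st r = true
      · rw [if_pos hs] at hm; simp at hm
      · rw [if_neg hs] at hm
        obtain ⟨hc, rfl⟩ := List.mem_replicate.1 hm
        refine ⟨by rw [hR]; omega, ?_⟩
        rw [cap1, if_neg hs]; omega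
    have hw : N.step.w = ends N true ++ N.w.flatMap (blk N.st) ++ ends N false := rfl
    rw [hw, List.mem_append, List.mem_append] at hℓ
    rcases hℓ with (hℓ | hℓ) | hℓ
    · exact hends _ _ hℓ
    · obtain ⟨ℓ₀, h0, hm⟩ := List.mem_flatMap.1 hℓ
      have hwf := h.lt ℓ₀ h0
      cases ℓ₀ with
      | leaf r c =>
        obtain ⟨hr, hc⟩ := hwf
        by_cases hs : N.st r = true
        · simp only [blk, if_pos hs, List.mem_cons, List.not_mem_nil, or_false] at hm
          rcases hm with rfl | rfl | rfl | rfl
          · refine ⟨by rw [hR]; omega, ?_⟩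
            rw [cap2, if_pos hs]; omega
          · refine ⟨by omega, by rw [hR]; omega, ?_, ?_, fun i h1 h2 => by omega⟩
            · rw [cap1, if_pos hs]; exact hc
            · rw [cap2, if_pos hs]; omega
          · refine ⟨by rw [hR]; omega, ?_⟩
            rw [cap2, if_pos hs]; omega
          · refine ⟨by rw [hR]; omega, ?_⟩
            rw [cap2, if_pos hs]; omega
        · simp only [blk, if_neg hs, List.mem_cons, List.not_mem_nil, or_false] at hm
          subst hm
          refine ⟨by rw [hR]; omega, ?_⟩
          rw [cap1, if_neg hs]; omega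
      | br a b c d =>
        obtain ⟨hab, hb, hca, hcb, hz⟩ := hwf
        have hgap := gap_aux N h a b hab hz
        by_cases hsa : N.st a = true
        · by_cases hsb : N.st b = true
          · simp only [blk, if_pos hsa, if_pos hsb, List.mem_cons, List.not_mem_nil,
              or_false] at hm
            rcases hm with rfl | rfl | rfl | rfl | rfl | rfl | rfl
            · exact ⟨by rw [hR]; omega, by rw [cap2, if_pos hsa]; omega⟩
            · exact ⟨by rw [hR]; omega, by rw [cap0, if_pos hsb]; omega⟩
            · exact ⟨by omega, by rw [hR]; omega, by rw [cap1, if_pos hsa]; exact hca,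
                by rw [cap2, if_pos hsa]; omega, fun i h1 h2 => by omega⟩
            · exact ⟨by omega, by rw [hR]; omega, by rw [cap0, if_pos hsb]; omega,
                by rw [cap1, if_pos hsb]; exact hcb, fun i h1 h2 => by omega⟩
            · exact ⟨by omega, by rw [hR]; omega, by rw [cap2, if_pos hsa]; omega,
                by rw [cap0, if_pos hsb]; omega, fun i h1 h2 => hgap i h1 h2⟩
            · exact ⟨by rw [hR]; omega, by rw [cap2, if_pos hsa]; omega⟩
            · exact ⟨by rw [hR]; omega, by rw [cap0, if_pos hsb]; omega⟩
          · simp only [blk, if_pos hsa, if_neg hsb, List.mem_cons, List.not_mem_nil,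
              or_false] at hm
            have hb0 : N.step.cap (3 * b) = 0 := by rw [cap0, if_neg hsb]
            rcases hm with rfl | rfl | rfl | rfl
            · exact ⟨by rw [hR]; omega, by rw [cap2, if_pos hsa]; omega⟩
            · exact ⟨by omega, by rw [hR]; omega, by rw [cap1, if_pos hsa]; exact hca,
                by rw [cap2, if_pos hsa]; omega, fun i h1 h2 => by omega⟩
            · refine ⟨by omega, by rw [hR]; omega, by rw [cap2, if_pos hsa]; omega,
                by rw [cap1, if_neg hsb]; omega, fun i h1 h2 => ?_⟩
              rcases Nat.lt_or_ge i (3 * b) with h3 | h3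
              · exact hgap i h1 h3
              · rw [show i = 3 * b by omega]; exact hb0
            · exact ⟨by rw [hR]; omega, by rw [cap2, if_pos hsa]; omega⟩
        · have ha2 : N.step.cap (3 * a + 2) = 0 := by rw [cap2, if_neg hsa]
          by_cases hsb : N.st b = true
          · simp only [blk, if_neg hsa, if_pos hsb, List.mem_cons, List.not_mem_nil,
              or_false] at hm
            rcases hm with rfl | rfl | rfl | rfl
            · exact ⟨by rw [hR]; omega, by rw [cap0, if_pos hsb]; omega⟩
            · exact ⟨by omega, by rw [hR]; omega, by rw [cap0, if_pos hsb]; omega,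
                by rw [cap1, if_pos hsb]; exact hcb, fun i h1 h2 => by omega⟩
            · refine ⟨by omega, by rw [hR]; omega, by rw [cap1, if_neg hsa]; omega,
                by rw [cap0, if_pos hsb]; omega, fun i h1 h2 => ?_⟩
              rcases Nat.lt_or_ge (3 * a + 2) i with h3 | h3
              · exact hgap i h3 h2
              · rw [show i = 3 * a + 2 by omega]; exact ha2
            · exact ⟨by rw [hR]; omega, by rw [cap0, if_pos hsb]; omega⟩
          · simp only [blk, if_neg hsa, if_neg hsb, List.mem_cons, List.not_mem_nil,
              or_false] at hm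
            have hb0 : N.step.cap (3 * b) = 0 := by rw [cap0, if_neg hsb]
            subst hm
            refine ⟨by omega, by rw [hR]; omega, by rw [cap1, if_neg hsa]; omega,
                by rw [cap1, if_neg hsb]; omega, fun i h1 h2 => ?_⟩
            rcases Nat.lt_or_ge (3 * a + 2) i with h3 | h3
            · rcases Nat.lt_or_ge i (3 * b) with h4 | h4
              · exact hgap i h3 h4
              · rw [show i = 3 * b by omega]; exact hb0
            · rw [show i = 3 * a + 2 by omega]; exact ha2
    · exact hends _ _ hℓ

theorem blk_length_pos (st : ℕ → Bool) (ℓ : Lt) : 0 < (blk st ℓ).length := by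
  cases ℓ with
  | leaf r c => simp only [blk]; split_ifs <;> simp
  | br a b c d => simp only [blk]; split_ifs <;> simp

theorem mainIdx_lt (st : ℕ → Bool) (ℓ : Lt) : mainIdx st ℓ < (blk st ℓ).length := by
  cases ℓ with
  | leaf r c => simp only [blk, mainIdx]; split_ifs <;> simp
  | br a b c d => simp only [blk, mainIdx]; split_ifs <;> simp

theorem w_ne_step (N : Net) (_h : N.WF) (hl : N.Live) : N.step.w ≠ [] := by
  have hw : N.step.w = ends N true ++ N.w.flatMap (blk N.st) ++ ends N false := rfl
  rw [hw]
  rcases hl with hl | ⟨r, hr, hc, hs⟩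
  · intro h0
    simp only [List.append_eq_nil_iff] at h0
    obtain ⟨ℓ, w', hw'⟩ := List.exists_cons_of_ne_nil hl
    rw [hw', List.flatMap_cons] at h0
    have := blk_length_pos N.st ℓ
    have h1 : blk N.st ℓ = [] := (List.append_eq_nil_iff.1 h0.1.2).1
    rw [h1] at this
    simp at this
  · intro h0
    have : Lt.leaf (3 * r + 1) true ∈ ends N true := by
      refine List.mem_flatMap.2 ⟨r, List.mem_range.2 hr, ?_⟩
      rw [if_neg (by simp [hs])]
      exact List.mem_replicate.2 ⟨by omega, rfl⟩
    simp only [List.append_eq_nil_iff] at h0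
    rw [h0.1.1] at this
    simp at this

/-- number of letters of the blocks -/
theorem length_flatMap_blk_cons (st : ℕ → Bool) (ℓ : Lt) (w : List Lt) :
    ((ℓ :: w).flatMap (blk st)).length = (blk st ℓ).length + (w.flatMap (blk st)).length := by
  rw [List.flatMap_cons, List.length_append]

theorem restr_length (st : ℕ → Bool) (w : List Lt) (xs : List ℝ) :
    (restr st w xs).length = w.length := by
  induction w generalizing xs with
  | nil => rfl
  | cons ℓ w ih => simp [restr, ih]

/-- every restricted position is one of the positions -/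
theorem mem_restr (st : ℕ → Bool) (w : List Lt) (xs : List ℝ)
    (hx : (w.flatMap (blk st)).length ≤ xs.length) (y : ℝ) (hy : y ∈ restr st w xs) :
    y ∈ xs := by
  induction w generalizing xs with
  | nil => simp [restr] at hy
  | cons ℓ w ih =>
    rw [length_flatMap_blk_cons] at hx
    have hm := mainIdx_lt st ℓ
    simp only [restr, List.mem_cons] at hy
    rcases hy with rfl | hy
    · have hne : xs.drop (mainIdx st ℓ) ≠ [] := by
        intro h0
        have := List.drop_eq_nil_iff.1 h0
        omega
      obtain ⟨a, l, hal⟩ := List.exists_cons_of_ne_nil hne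
      rw [hal]
      have : a ∈ xs.drop (mainIdx st ℓ) := by rw [hal]; simp
      exact List.mem_of_mem_drop this
    · refine List.mem_of_mem_drop (ih (xs.drop (blk st ℓ).length) ?_ hy)
      rw [List.length_drop]; omega

theorem restr_pairwise (st : ℕ → Bool) (w : List Lt) (xs : List ℝ)
    (hx : (w.flatMap (blk st)).length ≤ xs.length) (hs : xs.Pairwise (· < ·)) :
    (restr st w xs).Pairwise (· < ·) := by
  induction w generalizing xs with
  | nil => simp [restr]
  | cons ℓ w ih =>
    rw [length_flatMap_blk_cons] at hx
    have hm := mainIdx_lt st ℓ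
    simp only [restr]
    refine List.pairwise_cons.2 ⟨?_, ih _ (by rw [List.length_drop]; omega)
      (List.Pairwise.drop hs)⟩
    intro y hy
    have hy' := mem_restr st w _ (by rw [List.length_drop]; omega) y hy
    have hne : xs.drop (mainIdx st ℓ) ≠ [] := by
      intro h0
      have := List.drop_eq_nil_iff.1 h0
      omega
    obtain ⟨a, l, hal⟩ := List.exists_cons_of_ne_nil hne
    rw [hal]
    show a < y
    have h1 : (xs.drop (mainIdx st ℓ)).Pairwise (· < ·) := List.Pairwise.drop hs
    rw [hal] at h1
    refine (List.pairwise_cons.1 h1).1 y ?_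
    have h2 : xs.drop (blk st ℓ).length = l.drop ((blk st ℓ).length - mainIdx st ℓ - 1) := by
      have : (blk st ℓ).length
          = mainIdx st ℓ + ((blk st ℓ).length - mainIdx st ℓ - 1 + 1) := by omega
      rw [this, ← List.drop_drop, hal, List.drop_succ_cons]
      congr 1
      omega
    rw [h2] at hy'
    exact List.mem_of_mem_drop hy'

end TW
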