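import Pool.Agent.RN.LevelStmt

/-!
# RN2/RN3, part A (helper82): summation by parts and separate minimisation

Generic statements about any list of letters.  Every letter is annotated with a potential
`P : row → ℝ`, the height `h` (only relevant for leaves), the set of allowed bits, the allowed
states of the gap after the letter and the corresponding minimal values.

* `abel`      : `cost - dot used h = red + const - ⟨P₁, σ⟩` where `red` is a sum of functions of one
  bit and functions of the state of one row in one gap;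
* `red_ge`, `red_eq_iff` : if every summand is bounded below by its minimal value with equality iff
  the bit / state is allowed, then `red` is at least the sum of the minimal values, with
  equality iff the run is tight.
-/

set_option autoImplicit false

namespace TW

open Finset

/-- annotated letter -/
structure AL where
  e : Ev
  P : ℕ → ℝ
  h : ℝ
  bit : Bool → Prop
  gap : ℕ → ℤ → Prop
  lb : ℝ
  gb : ℕ → ℝ

/-- all rows touched by the letter are `< R` -/
def Lt.In (R : ℕ) : Lt → Prop
  | .leaf r _ => r < R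
  | .br a b _ _ => a < R ∧ b < R

theorem Lt.WF.In {R : ℕ} {cap : ℕ → ℕ} {l : Lt} (h : l.WF R cap) : l.In R := by
  cases l with
  | leaf r c => exact h.1
  | br a b c d => exact ⟨by have := h.1; have := h.2.1; omega, h.2.1⟩

/-- real value of a bit -/
noncomputable def rb (z : Bool) : ℝ := if z then 1 else 0

theorem bz_cast (z : Bool) : ((bz z : ℤ) : ℝ) = rb z := by cases z <;> simp [bz, rb]

/-- the constant part of `⟨P, eff⟩` -/
noncomputable def Lt.A (P : ℕ → ℝ) : Lt → ℝ
  | .leaf r c => P r * rb c
  | .br a b c d => P a * rb c + P b * (rb d - 1)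

/-- minus the coefficient of the bit in `⟨P, eff⟩` -/
def Lt.B (P : ℕ → ℝ) : Lt → ℝ
  | .leaf r _ => P r
  | .br a b _ _ => P a - P b

theorem sum_eff (R : ℕ) (P : ℕ → ℝ) (l : Lt) (hl : l.In R) (z : Bool) :
    ∑ r ∈ range R, P r * ((l.eff z r : ℤ) : ℝ) = l.A P - l.B P * rb z := by
  cases l with
  | leaf a c =>
    have h : a ∈ range R := by simpa [Lt.In] using hl
    rw [Finset.sum_eq_single_of_mem a h]
    · simp only [Lt.eff, if_pos, Lt.A, Lt.B]
      push_cast
      rw [bz_cast, bz_cast]; ring
    · intro b _ hb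
      simp [Lt.eff, hb]
  | br a b c d =>
    have ha : a ∈ range R := by simpa using hl.1
    have hb : b ∈ range R := by simpa using hl.2
    have h1 : ∀ r, P r * (((Lt.br a b c d).eff z r : ℤ) : ℝ)
        = (if r = a then P r * (rb c - rb z) else 0) + (if r = b then P r * (rb d - 1 + rb z) else 0) := by
      intro r
      simp only [Lt.eff]
      push_cast
      rw [bz_cast, bz_cast, bz_cast]
      split_ifs <;> ring
    simp only [h1]
    rw [Finset.sum_add_distrib, Finset.sum_ite_eq' , Finset.sum_ite_eq', if_pos ha, if_pos hb]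
    simp only [Lt.A, Lt.B]; ring

/-- potential of a state -/
noncomputable def pot (R : ℕ) (P : ℕ → ℝ) (σ : St) : ℝ := ∑ r ∈ range R, P r * ((σ r : ℤ) : ℝ)

theorem pot_add (R : ℕ) (P : ℕ → ℝ) (l : Lt) (hl : l.In R) (z : Bool) (σ : St) :
    pot R P (σ + l.eff z) = pot R P σ + (l.A P - l.B P * rb z) := by
  rw [← sum_eff R P l hl z]
  unfold pot
  rw [← Finset.sum_add_distrib]
  refine Finset.sum_congr rfl fun r _ => ?_
  simp only [Pi.add_apply]
  push_cast; ring

/-- potential of the next letter (`Pe` after the last one) -/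
def nextP (Pe : ℕ → ℝ) : List AL → ℕ → ℝ
  | [] => Pe
  | a :: _ => a.P

/-- the reduced cost of the bit of an annotated letter -/
noncomputable def AL.lc (a : AL) (z : Bool) : ℝ :=
  if z then a.e.w - (if a.e.lt.isLeaf then a.h else 0) + a.e.lt.B a.P else 0

/-- the reduced cost of the state of row `r` in the gap after the letter -/
noncomputable def AL.gc (a : AL) (Pn : ℕ → ℝ) (r : ℕ) (k : ℤ) : ℝ :=
  a.e.φ r k - (Pn r - a.P r) * (k : ℝ)

/-- the reduced cost of a run -/
noncomputable def red (R : ℕ) (Pe : ℕ → ℝ) : List AL → List Bool → St → ℝ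
  | a :: w, z :: zs, σ =>
      a.lc z + (∑ r ∈ range R, a.gc (nextP Pe w) r ((σ + a.e.lt.eff z) r)) +
        red R Pe w zs (σ + a.e.lt.eff z)
  | _, _, _ => 0

/-- the constant of the summation by parts -/
noncomputable def cst (w : List AL) : ℝ := (w.map fun a => a.e.lt.A a.P).sum

/-- **Summation by parts.** -/
theorem abel (R : ℕ) (cap : ℕ → ℕ) (Pe : ℕ → ℝ) :
    ∀ (w : List AL) (zs : List Bool) (σ : St), (∀ a ∈ w, a.e.lt.In R) →
      Run R cap (w.map AL.e) zs σ →
      cost R (0, 0) (w.map AL.e) zs σ - dot (used (w.map AL.e) zs) (w.map AL.h)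
        = red R Pe w zs σ - cst w - pot R (nextP Pe w) σ := by
  intro w
  induction w with
  | nil =>
    intro zs σ _ hrun
    cases zs with
    | nil =>
      have h0 : pot R Pe σ = 0 := by
        unfold pot
        refine Finset.sum_eq_zero fun r hr => ?_
        have : σ r = 0 := hrun r (by simpa using hr)
        rw [this]; simp
      simp [cost, used, dot, red, cst, nextP, h0]
    | cons z zs => exact absurd hrun (by simp [Run])
  | cons a w ih =>
    intro zs σ hin hrun
    cases zs with
    | nil => exact absurd hrun (by simp [Run])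
    | cons z zs =>
      obtain ⟨_, hrun'⟩ : Ok R cap (σ + a.e.lt.eff z) ∧
        Run R cap (w.map AL.e) zs (σ + a.e.lt.eff z) := hrun
      have hih := ih zs (σ + a.e.lt.eff z) (fun b hb => hin b (List.mem_cons_of_mem _ hb)) hrun'
      have hpa := pot_add R a.P a.e.lt (hin a List.mem_cons_self) z σ
      have hgap : ∑ r ∈ range R, a.gc (nextP Pe w) r ((σ + a.e.lt.eff z) r)
          = (∑ r ∈ range R, a.e.φ r ((σ + a.e.lt.eff z) r))
            - (pot R (nextP Pe w) (σ + a.e.lt.eff z) - pot R a.P (σ + a.e.lt.eff z)) := by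
        unfold pot AL.gc
        rw [← Finset.sum_sub_distrib, ← Finset.sum_sub_distrib]
        refine Finset.sum_congr rfl fun r _ => ?_
        ring
      have huse : a.e.use (0, 0) z - (if a.e.lt.isLeaf && z then a.h else 0)
          = a.lc z - a.e.lt.B a.P * rb z := by
        unfold Ev.use AL.lc rb
        cases z
        · simp
        · cases a.e.lt.isLeaf <;> simp
      have hcost : cost R (0, 0) ((a :: w).map AL.e) (z :: zs) σ
          = a.e.use (0, 0) z + (∑ r ∈ range R, a.e.φ r ((σ + a.e.lt.eff z) r)) +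
            cost R (0, 0) (w.map AL.e) zs (σ + a.e.lt.eff z) := rfl
      have hdot : dot (used ((a :: w).map AL.e) (z :: zs)) ((a :: w).map AL.h)
          = (if a.e.lt.isLeaf && z then a.h else 0) + dot (used (w.map AL.e) zs) (w.map AL.h) := rfl
      have hred : red R Pe (a :: w) (z :: zs) σ
          = a.lc z + (∑ r ∈ range R, a.gc (nextP Pe w) r ((σ + a.e.lt.eff z) r)) +
            red R Pe w zs (σ + a.e.lt.eff z) := rfl
      have hcst : cst (a :: w) = a.e.lt.A a.P + cst w := by simp [cst]
      have hnext : nextP Pe (a :: w) = a.P := rfl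
      rw [hcost, hdot, hred, hcst, hnext, hgap]
      linarith

/-- the same with all potentials and heights `0`: the plain cost -/
theorem cost_eq_red_zero (R : ℕ) (cap : ℕ → ℕ) (w : List AL) (hP : ∀ a ∈ w, a.P = 0 ∧ a.h = 0) :
    ∀ (zs : List Bool) (σ : St), Run R cap (w.map AL.e) zs σ →
      cost R (0, 0) (w.map AL.e) zs σ = red R 0 w zs σ := by
  induction w with
  | nil =>
    intro zs σ _
    cases zs <;> rfl
  | cons a w ih =>
    intro zs σ hrun
    cases zs with
    | nil => exact absurd hrun (by simp [Run])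
    | cons z zs =>
      obtain ⟨_, hrun'⟩ : Ok R cap (σ + a.e.lt.eff z) ∧
        Run R cap (w.map AL.e) zs (σ + a.e.lt.eff z) := hrun
      have hih := ih (fun b hb => hP b (List.mem_cons_of_mem _ hb)) zs (σ + a.e.lt.eff z) hrun'
      have hnext : nextP 0 w = 0 := by
        cases w with
        | nil => rfl
        | cons b w => exact (hP b (by simp)).1
      have ha := hP a List.mem_cons_self
      have hcost : cost R (0, 0) ((a :: w).map AL.e) (z :: zs) σ
          = a.e.use (0, 0) z + (∑ r ∈ range R, a.e.φ r ((σ + a.e.lt.eff z) r)) +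
            cost R (0, 0) (w.map AL.e) zs (σ + a.e.lt.eff z) := rfl
      have hred : red R 0 (a :: w) (z :: zs) σ
          = a.lc z + (∑ r ∈ range R, a.gc (nextP 0 w) r ((σ + a.e.lt.eff z) r)) +
            red R 0 w zs (σ + a.e.lt.eff z) := rfl
      rw [hcost, hred, hih, hnext]
      have h1 : a.e.use (0, 0) z = a.lc z := by
        unfold Ev.use AL.lc
        have hB : a.e.lt.B a.P = 0 := by
          rw [ha.1]; cases a.e.lt <;> simp [Lt.B]
        rw [ha.2, hB]
        cases z <;> simp
      have h2 : ∀ r k, a.gc 0 r k = a.e.φ r k := by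
        intro r k; unfold AL.gc; rw [ha.1]; simp
      simp only [h1, h2]

/-- tight runs: allowed bits and allowed gap states -/
def Tight (R : ℕ) : List AL → List Bool → St → Prop
  | a :: w, z :: zs, σ =>
      a.bit z ∧ (∀ r < R, a.gap r ((σ + a.e.lt.eff z) r)) ∧ Tight R w zs (σ + a.e.lt.eff z)
  | _, _, _ => True

/-- the annotation of one letter is correct for the next potential `Pn` -/
structure AL.OK (R : ℕ) (cap : ℕ → ℕ) (Pn : ℕ → ℝ) (a : AL) : Prop where
  bit_le : ∀ z, a.lb ≤ a.lc z
  bit_eq : ∀ z, a.lc z = a.lb ↔ a.bit z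
  gap_le : ∀ r < R, ∀ k : ℤ, 0 ≤ k → k ≤ cap r → a.gb r ≤ a.gc Pn r k
  gap_eq : ∀ r < R, ∀ k : ℤ, 0 ≤ k → k ≤ cap r → (a.gc Pn r k = a.gb r ↔ a.gap r k)

/-- all annotations are correct -/
def OKs (R : ℕ) (cap : ℕ → ℕ) (Pe : ℕ → ℝ) : List AL → Prop
  | [] => True
  | a :: w => a.OK R cap (nextP Pe w) ∧ OKs R cap Pe w

/-- the sum of the minimal values -/
noncomputable def minv (R : ℕ) (w : List AL) : ℝ :=
  (w.map fun a => a.lb + ∑ r ∈ range R, a.gb r).sum

theorem red_ge_and_eq_iff (R : ℕ) (cap : ℕ → ℕ) (Pe : ℕ → ℝ) :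
    ∀ (w : List AL) (zs : List Bool) (σ : St), OKs R cap Pe w →
      Run R cap (w.map AL.e) zs σ →
      minv R w ≤ red R Pe w zs σ ∧ (red R Pe w zs σ = minv R w ↔ Tight R w zs σ) := by
  intro w
  induction w with
  | nil =>
    intro zs σ _ hrun
    cases zs with
    | nil => simp [minv, red, Tight]
    | cons z zs => exact absurd hrun (by simp [Run])
  | cons a w ih =>
    intro zs σ hok hrun
    cases zs with
    | nil => exact absurd hrun (by simp [Run])
    | cons z zs =>
      obtain ⟨hcap, hrun'⟩ : Ok R cap (σ + a.e.lt.eff z) ∧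
        Run R cap (w.map AL.e) zs (σ + a.e.lt.eff z) := hrun
      obtain ⟨ha, hw⟩ : a.OK R cap (nextP Pe w) ∧ OKs R cap Pe w := hok
      obtain ⟨ih1, ih2⟩ := ih zs (σ + a.e.lt.eff z) hw hrun'
      have hred : red R Pe (a :: w) (z :: zs) σ
          = a.lc z + (∑ r ∈ range R, a.gc (nextP Pe w) r ((σ + a.e.lt.eff z) r)) +
            red R Pe w zs (σ + a.e.lt.eff z) := rfl
      have hmin : minv R (a :: w) = a.lb + (∑ r ∈ range R, a.gb r) + minv R w := by simp [minv]
      have hT : Tight R (a :: w) (z :: zs) σ ↔ (a.bit z ∧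
        (∀ r < R, a.gap r ((σ + a.e.lt.eff z) r)) ∧ Tight R w zs (σ + a.e.lt.eff z)) := Iff.rfl
      have h1 := ha.bit_le z
      have h2 : (∑ r ∈ range R, a.gb r) ≤
          ∑ r ∈ range R, a.gc (nextP Pe w) r ((σ + a.e.lt.eff z) r) := by
        refine Finset.sum_le_sum fun r hr => ?_
        have hr' := Finset.mem_range.mp hr
        exact ha.gap_le r hr' _ (hcap r hr').1 (hcap r hr').2
      have h3 : (∑ r ∈ range R, a.gc (nextP Pe w) r ((σ + a.e.lt.eff z) r)) = (∑ r ∈ range R, a.gb r)
          ↔ ∀ r < R, a.gap r ((σ + a.e.lt.eff z) r) := by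
        constructor
        · intro h r hr
          have h' := (Finset.sum_eq_sum_iff_of_le (s := range R) (f := fun r => a.gb r)
            (g := fun r => a.gc (nextP Pe w) r ((σ + a.e.lt.eff z) r)) (fun r hr => by
              have hr' := Finset.mem_range.mp hr
              exact ha.gap_le r hr' _ (hcap r hr').1 (hcap r hr').2)).mp h.symm
          exact (ha.gap_eq r hr _ (hcap r hr).1 (hcap r hr).2).mp (h' r (by simpa using hr)).symm
        · intro h
          refine Finset.sum_congr rfl fun r hr => ?_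
          have hr' := Finset.mem_range.mp hr
          exact (ha.gap_eq r hr' _ (hcap r hr').1 (hcap r hr').2).mpr (h r hr')
      refine ⟨by rw [hred, hmin]; linarith, ?_⟩
      rw [hT, ← h3, ← ha.bit_eq z, ← ih2, hred, hmin]
      constructor
      · intro h
        refine ⟨?_, ?_, ?_⟩ <;> linarith
      · rintro ⟨h4, h5, h6⟩
        rw [h4, h5, h6]

/-- right sign: the level objective `cost - dot used h` -/
theorem level_right (R : ℕ) (cap : ℕ → ℕ) (Pe : ℕ → ℝ) (w : List AL)
    (hin : ∀ a ∈ w, a.e.lt.In R) (hok : OKs R cap Pe w) (zs : List Bool)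
    (hrun : Run R cap (w.map AL.e) zs 0) :
    minv R w - cst w ≤ cost R (0, 0) (w.map AL.e) zs 0 -
        dot (used (w.map AL.e) zs) (w.map AL.h) ∧
      (cost R (0, 0) (w.map AL.e) zs 0 - dot (used (w.map AL.e) zs) (w.map AL.h)
        = minv R w - cst w ↔ Tight R w zs 0) := by
  have h1 := abel R cap Pe w zs 0 hin hrun
  have h0 : pot R (nextP Pe w) 0 = 0 := by simp [pot]
  obtain ⟨h2, h3⟩ := red_ge_and_eq_iff R cap Pe w zs 0 hok hrun
  rw [h1, h0]
  refine ⟨by linarith, ?_⟩
  rw [← h3]
  constructor <;> intro h <;> linarith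

/-- left sign: the plain level cost (potentials and heights `0`) -/
theorem level_left (R : ℕ) (cap : ℕ → ℕ) (w : List AL) (hP : ∀ a ∈ w, a.P = 0 ∧ a.h = 0)
    (hok : OKs R cap 0 w) (zs : List Bool) (hrun : Run R cap (w.map AL.e) zs 0) :
    minv R w ≤ cost R (0, 0) (w.map AL.e) zs 0 ∧
      (cost R (0, 0) (w.map AL.e) zs 0 = minv R w ↔ Tight R w zs 0) := by
  rw [cost_eq_red_zero R cap w hP zs 0 hrun]
  exact red_ge_and_eq_iff R cap 0 w zs 0 hok hrun

end TW
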