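import Pool.Agent.RN.Defs

/-!
# RN2, convexity of the gap costs of the step word (helper82)
-/

set_option autoImplicit false

namespace TW

open Finset

/-- one convex gap cost on `0..m` -/
def CvxF (m : ℤ) (f : ℤ → ℝ) : Prop :=
  f 0 = 0 ∧ ∀ k : ℤ, 0 ≤ k → k + 2 ≤ m → f (k + 1) - f k ≤ f (k + 2) - f (k + 1)

theorem cvx_iff (R : ℕ) (cap : ℕ → ℕ) (w : List Ev) :
    Cvx R cap w ↔ ∀ e ∈ w, ∀ r < R, CvxF (cap r) (e.φ r) := Iff.rfl

theorem CvxF.zero (m : ℤ) : CvxF m (fun _ => 0) := ⟨rfl, fun _ _ _ => le_refl _⟩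

theorem CvxF.add {m : ℤ} {f g : ℤ → ℝ} (hf : CvxF m f) (hg : CvxF m g) :
    CvxF m (fun k => f k + g k) := by
  refine ⟨by simp [hf.1, hg.1], fun k h1 h2 => ?_⟩
  have a := hf.2 k h1 h2
  have b := hg.2 k h1 h2
  simp only
  linarith

theorem CvxF.smul {m : ℤ} {f : ℤ → ℝ} (hf : CvxF m f) {c : ℝ} (hc : 0 ≤ c) :
    CvxF m (fun k => c * f k) := by
  refine ⟨by simp [hf.1], fun k h1 h2 => ?_⟩
  have a := mul_le_mul_of_nonneg_left (hf.2 k h1 h2) hc
  simp only
  linarith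

theorem CvxF.congr {m : ℤ} {f g : ℤ → ℝ} (hf : CvxF m f) (h : ∀ k, 0 ≤ k → g k = f k) :
    CvxF m g := by
  refine ⟨by rw [h 0 le_rfl]; exact hf.1, fun k h1 h2 => ?_⟩
  rw [h k h1, h (k + 1) (by omega), h (k + 2) (by omega)]
  exact hf.2 k h1 h2

theorem CvxF.lin (m : ℤ) (c : ℝ) : CvxF m (fun k => c * (k : ℝ)) := by
  refine ⟨by simp, fun k _ _ => ?_⟩
  push_cast
  apply le_of_eq; ring

theorem CvxF.hinge (m : ℤ) (a : ℤ) (ha : 0 ≤ a) : CvxF m (fun k => (max (k - a) 0 : ℤ)) := by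
  refine ⟨?_, fun k h1 h2 => ?_⟩
  · simp only
    rw [max_eq_right (by omega)]; simp
  · simp only
    have : max (k + 1 - a) 0 - max (k - a) 0 ≤ max (k + 2 - a) 0 - max (k + 1 - a) 0 := by omega
    exact_mod_cast this

/-- hinge in real form -/
theorem CvxF.hingeR (m : ℤ) (a : ℤ) (ha : 0 ≤ a) : CvxF m (fun k => max ((k : ℝ) - a) 0) := by
  refine (CvxF.hinge m a ha).congr fun k _ => ?_
  push_cast
  rfl

/-- the old cost on a doubled row -/
def dbl (m : ℕ) (φ : ℤ → ℝ) (k : ℤ) : ℝ := φ (min k m) + φ (max (k - m) 0)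

theorem dbl_le {m : ℕ} {φ : ℤ → ℝ} (h0 : φ 0 = 0) {k : ℤ} (h : k ≤ m) : dbl m φ k = φ k := by
  unfold dbl
  rw [min_eq_left h, max_eq_right (by omega), h0, add_zero]

theorem dbl_ge {m : ℕ} {φ : ℤ → ℝ} {k : ℤ} (h : (m : ℤ) ≤ k) :
    dbl m φ k = φ m + φ (k - m) := by
  unfold dbl
  rw [min_eq_right h, max_eq_left (by omega)]

theorem dbl_shift {m : ℕ} {φ : ℤ → ℝ} {k : ℤ} (h : 0 ≤ k) :
    dbl m φ (k + m) = φ m + φ k := by
  rw [dbl_ge (by omega)]
  congr 2; ring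

/-- **Young row**: the combined gap cost is convex once `M * D` is large. -/
theorem young_cvx (φ : ℤ → ℝ) (m : ℕ) (c : ℝ) (h : CvxF m φ)
    (hc : φ m - φ (m - 1) - φ 1 ≤ c) :
    CvxF (2 * m : ℕ) (fun k => c * (max (k - m) 0 : ℤ) + dbl m φ k) := by
  refine ⟨?_, fun k h1 h2 => ?_⟩
  · simp only
    rw [max_eq_right (by omega), dbl_le h.1 (by omega), h.1]; simp
  · simp only
    push_cast at h2
    rcases lt_trichotomy (k + 1) (m : ℤ) with hk | hk | hk
    · -- k + 2 ≤ m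
      rw [max_eq_right (by omega : k + 1 - (m : ℤ) ≤ 0), max_eq_right (by omega : k - (m : ℤ) ≤ 0),
        max_eq_right (by omega : k + 2 - (m : ℤ) ≤ 0), dbl_le h.1 (by omega), dbl_le h.1 (by omega),
        dbl_le h.1 (by omega)]
      have := h.2 k h1 (by omega)
      linarith
    · -- k + 1 = m
      have e0 : k = (m : ℤ) - 1 := by omega
      rw [max_eq_right (by omega : k + 1 - (m : ℤ) ≤ 0), max_eq_right (by omega : k - (m : ℤ) ≤ 0),
        max_eq_left (by omega : 0 ≤ k + 2 - (m : ℤ)), dbl_le h.1 (by omega),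
        dbl_le h.1 (by omega), dbl_ge (by omega : (m : ℤ) ≤ k + 2)]
      have e1 : k + 2 - (m : ℤ) = 1 := by omega
      rw [e1, hk]
      rw [e0]
      push_cast
      linarith
    · -- m ≤ k
      rw [max_eq_left (by omega : 0 ≤ k + 1 - (m : ℤ)), max_eq_left (by omega : 0 ≤ k - (m : ℤ)),
        max_eq_left (by omega : 0 ≤ k + 2 - (m : ℤ)), dbl_ge (by omega : (m : ℤ) ≤ k),
        dbl_ge (by omega : (m : ℤ) ≤ k + 1), dbl_ge (by omega : (m : ℤ) ≤ k + 2)]
      have := h.2 (k - m) (by omega) (by omega)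
      rw [show k - (m : ℤ) + 1 = k + 1 - m by ring, show k - (m : ℤ) + 2 = k + 2 - m by ring] at this
      push_cast
      linarith

/-- **Existence of `M0`** for a list of events with positive gap lengths. -/
theorem exists_M0 (R : ℕ) (cap : ℕ → ℕ) (L : List (Ev × ℝ)) (hL : ∀ p ∈ L, 0 < p.2) :
    ∃ M0 : ℝ, 0 ≤ M0 ∧ ∀ M, M0 ≤ M → ∀ p ∈ L, ∀ r < R,
      p.1.φ r (cap r) - p.1.φ r ((cap r : ℤ) - 1) - p.1.φ r 1 ≤ M * p.2 := by
  induction L with
  | nil => exact ⟨0, le_rfl, fun M _ p hp => absurd hp (by simp)⟩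
  | cons p L ih =>
    obtain ⟨M1, h1, h2⟩ := ih fun q hq => hL q (List.mem_cons_of_mem _ hq)
    have hp := hL p List.mem_cons_self
    set g : ℕ → ℝ := fun r => |p.1.φ r (cap r) - p.1.φ r ((cap r : ℤ) - 1) - p.1.φ r 1| with hg
    set S : ℝ := ∑ r ∈ range R, g r with hS
    have hS0 : 0 ≤ S := Finset.sum_nonneg fun r _ => abs_nonneg _
    refine ⟨M1 + S / p.2, by positivity, fun M hM q hq r hr => ?_⟩
    rcases List.mem_cons.mp hq with rfl | hq
    · have hgr : g r ≤ S := Finset.single_le_sum (f := g) (fun r _ => abs_nonneg _)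
        (by simpa using hr)
      have hMS : S ≤ M * q.2 := by
        have : S / q.2 ≤ M := by linarith
        rwa [div_le_iff₀ hp] at this
      exact (le_abs_self _).trans (hgr.trans hMS)
    · refine h2 M ?_ q hq r hr
      have : 0 ≤ S / p.2 := by positivity
      linarith

end TW
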