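import Pool.Agent.RN.LevelB
import Pool.Agent.RN.Convex

/-!
# Level lemma, T3 (helper82): the gap costs of the annotated step word are convex for large `M`
-/

set_option autoImplicit false

namespace TW

open Finset

/-- the three kinds of letters of the step word -/
def Kind (N : Net) (s0 x D : ℝ) (φ : ℕ → ℤ → ℝ) (t : TE) : Prop :=
  (t.f = fZ ∧ t.f' = fZ) ∨ (∃ ℓ, t.f = fM N s0 x ℓ ∧ t.f' = fZ) ∨
    (t.f = fE N D ∧ t.f' = fO N φ)

theorem kind_blk (N : Net) (s0 top x nxt : ℝ) (e : Ev) (hb : List ℝ) :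
    ∀ t ∈ tBlk N s0 top x nxt e hb, Kind N s0 x (nxt - x) e.φ t := by
  intro t ht
  unfold tBlk at ht
  cases hl : e.lt with
  | leaf r c =>
    rw [hl] at ht
    by_cases hr : N.st r = true
    · simp only [hr, if_true, List.mem_cons, List.not_mem_nil, or_false] at ht
      rcases ht with rfl | rfl | rfl | rfl
      · exact Or.inl ⟨rfl, rfl⟩
      · exact Or.inr (Or.inl ⟨_, rfl, rfl⟩)
      · exact Or.inl ⟨rfl, rfl⟩
      · exact Or.inr (Or.inr ⟨rfl, rfl⟩)
    · simp only [hr, List.mem_cons, List.not_mem_nil, or_false, Bool.false_eq_true, if_false] at ht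
      subst ht
      exact Or.inr (Or.inr ⟨rfl, rfl⟩)
  | br a b c d =>
    rw [hl] at ht
    by_cases ha : N.st a = true <;> by_cases hb' : N.st b = true
    · simp only [ha, hb', if_true, List.mem_cons, List.not_mem_nil, or_false] at ht
      rcases ht with rfl | rfl | rfl | rfl | rfl | rfl | rfl
      · exact Or.inl ⟨rfl, rfl⟩
      · exact Or.inl ⟨rfl, rfl⟩
      · exact Or.inl ⟨rfl, rfl⟩
      · exact Or.inr (Or.inl ⟨_, rfl, rfl⟩)
      · exact Or.inl ⟨rfl, rfl⟩
      · exact Or.inl ⟨rfl, rfl⟩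
      · exact Or.inr (Or.inr ⟨rfl, rfl⟩)
    · simp only [ha, hb', if_true, List.mem_cons, List.not_mem_nil, or_false, Bool.false_eq_true,
        if_false] at ht
      rcases ht with rfl | rfl | rfl | rfl
      · exact Or.inl ⟨rfl, rfl⟩
      · exact Or.inr (Or.inl ⟨_, rfl, rfl⟩)
      · exact Or.inl ⟨rfl, rfl⟩
      · exact Or.inr (Or.inr ⟨rfl, rfl⟩)
    · simp only [ha, hb', if_true, List.mem_cons, List.not_mem_nil, or_false, Bool.false_eq_true,
        if_false] at ht
      rcases ht with rfl | rfl | rfl | rfl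
      · exact Or.inl ⟨rfl, rfl⟩
      · exact Or.inr (Or.inl ⟨_, rfl, rfl⟩)
      · exact Or.inl ⟨rfl, rfl⟩
      · exact Or.inr (Or.inr ⟨rfl, rfl⟩)
    · simp only [ha, hb', List.mem_cons, List.not_mem_nil, or_false, Bool.false_eq_true,
        if_false] at ht
      subst ht
      exact Or.inr (Or.inr ⟨rfl, rfl⟩)

/-- old events with their gap lengths -/
noncomputable def gaps (top : ℝ) : List (Ev × ℝ × List ℝ) → List (Ev × ℝ)
  | [] => []
  | a :: A => (a.1, nx top A - a.2.1) :: gaps top A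

theorem gaps_mem_ev (top : ℝ) (A : List (Ev × ℝ × List ℝ)) :
    ∀ p ∈ gaps top A, p.1 ∈ A.map (fun a => a.1) := by
  induction A with
  | nil => intro p hp; simp [gaps] at hp
  | cons a A ih =>
    intro p hp
    simp only [gaps, List.mem_cons] at hp
    rcases hp with rfl | hp
    · simp
    · simp only [List.map_cons, List.mem_cons]
      exact Or.inr (ih p hp)

theorem gaps_pos (top : ℝ) (A : List (Ev × ℝ × List ℝ))
    (h1 : (A.map fun a => a.2.1).Pairwise (· < ·)) (h2 : ∀ a ∈ A, a.2.1 < top) :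
    ∀ p ∈ gaps top A, 0 < p.2 := by
  induction A with
  | nil => intro p hp; simp [gaps] at hp
  | cons a A ih =>
    intro p hp
    simp only [gaps, List.mem_cons] at hp
    simp only [List.map_cons, List.pairwise_cons] at h1
    rcases hp with rfl | hp
    · simp only [sub_pos]
      cases A with
      | nil => exact h2 a (by simp)
      | cons b B => exact h1.1 b.2.1 (by simp)
    · exact ih h1.2 (fun b hb => h2 b (List.mem_cons_of_mem _ hb)) p hp

theorem kind_body (N : Net) (s0 top : ℝ) (A : List (Ev × ℝ × List ℝ))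
    (h0 : ∀ a ∈ A, s0 < a.2.1) :
    ∀ t ∈ tBody N s0 top A, ∃ x p, p ∈ gaps top A ∧ s0 < x ∧ Kind N s0 x p.2 p.1.φ t := by
  induction A with
  | nil => intro t ht; simp [tBody] at ht
  | cons a A ih =>
    intro t ht
    simp only [tBody, List.mem_append] at ht
    rcases ht with ht | ht
    · exact ⟨a.2.1, (a.1, nx top A - a.2.1), by simp [gaps], h0 a (by simp),
        kind_blk N s0 top _ _ _ _ t ht⟩
    · obtain ⟨x, p, hp, hx, hk⟩ := ih (fun b hb => h0 b (List.mem_cons_of_mem _ hb)) t ht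
      exact ⟨x, p, by simp only [gaps, List.mem_cons]; exact Or.inr hp, hx, hk⟩

theorem zip_zero (g : Lt → ℝ → TE) (hg : ∀ l y, (g l y).f = fZ ∧ (g l y).f' = fZ) :
    ∀ (ls : List Lt) (hs : List ℝ), ∀ t ∈ List.zipWith g ls hs, t.f = fZ ∧ t.f' = fZ := by
  intro ls
  induction ls with
  | nil => intro hs t ht; simp at ht
  | cons l ls ih =>
    intro hs t ht
    cases hs with
    | nil => simp at ht
    | cons y hs =>
      simp only [List.zipWith_cons_cons, List.mem_cons] at ht
      rcases ht with rfl | ht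
      · exact hg l y
      · exact ih hs t ht

theorem cvx_zero {N : Net} {M : ℝ} {t : TE} (h : t.f = fZ ∧ t.f' = fZ) (i : ℕ) :
    CvxF (N.step.cap i) ((TE.ev M t).φ i) := by
  have : (TE.ev M t).φ i = fun _ => 0 := by
    funext k
    show M * t.f i k + t.f' i k = 0
    rw [h.1, h.2]; simp [fZ]
  rw [this]
  exact CvxF.zero _

theorem cvx_kind (N : Net) (s0 x M : ℝ) (p : Ev × ℝ) (hx : s0 < x) (hM : 0 ≤ M)
    (hφ : ∀ r < N.R, CvxF (N.cap r) (p.1.φ r))
    (hp : ∀ r < N.R, p.1.φ r (N.cap r) - p.1.φ r ((N.cap r : ℤ) - 1) - p.1.φ r 1 ≤ M * p.2)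
    (t : TE) (ht : Kind N s0 x p.2 p.1.φ t) (i : ℕ) (hi : i < N.step.R) :
    CvxF (N.step.cap i) ((TE.ev M t).φ i) := by
  have hi' : i < 3 * N.R := hi
  rcases ht with h | ⟨ℓ, h1, h2⟩ | ⟨h1, h2⟩
  · exact cvx_zero h i
  · have : (TE.ev M t).φ i = fun k =>
        (if cvr N.st ℓ i = true then M * (x - s0) else 0) * ((max (k - 1) 0 : ℤ) : ℝ) := by
      funext k
      show M * t.f i k + t.f' i k = _
      rw [h1, h2]
      simp only [fM, fZ, jp]
      split_ifs <;> push_cast <;> ring
    rw [this]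
    refine (CvxF.hinge _ 1 (by norm_num)).smul ?_
    split_ifs
    · have : 0 < x - s0 := by linarith
      positivity
    · exact le_rfl
  · obtain ⟨q, hq⟩ := row_cases i
    rcases hq with rfl | rfl | rfl
    · have : (TE.ev M t).φ (3 * q) = fun k : ℤ => M * (k : ℝ) := by
        funext k
        show M * t.f (3 * q) k + t.f' (3 * q) k = _
        rw [h1, h2]
        simp only [fE, fO]
        rw [if_neg (by omega), if_neg (by omega)]; ring
      rw [this]
      exact CvxF.lin _ _
    · have e1 : (3 * q + 1) % 3 = 1 := by omega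
      have e2 : (3 * q + 1) / 3 = q := by omega
      have hqR : q < N.R := by omega
      rw [cap1]
      by_cases hst : N.st q = true
      · have : (TE.ev M t).φ (3 * q + 1) = fun k => p.1.φ q k := by
          funext k
          show M * t.f (3 * q + 1) k + t.f' (3 * q + 1) k = _
          rw [h1, h2]
          simp only [fE, fO]
          rw [if_pos e1, if_pos e1, e2, if_pos hst, if_pos hst]; ring
        rw [this, if_pos hst]
        exact hφ q hqR
      · have : (TE.ev M t).φ (3 * q + 1) = fun k =>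
            (M * p.2) * ((max (k - N.cap q) 0 : ℤ) : ℝ) + dbl (N.cap q) (p.1.φ q) k := by
          funext k
          show M * t.f (3 * q + 1) k + t.f' (3 * q + 1) k = _
          rw [h1, h2]
          simp only [fE, fO]
          rw [if_pos e1, if_pos e1, e2, if_neg hst, if_neg hst]
          unfold dbl jp
          ring
        rw [this, if_neg hst]
        exact young_cvx (p.1.φ q) (N.cap q) (M * p.2) (hφ q hqR) (hp q hqR)
    · have : (TE.ev M t).φ (3 * q + 2) = fun k : ℤ => M * (k : ℝ) := by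
        funext k
        show M * t.f (3 * q + 2) k + t.f' (3 * q + 2) k = _
        rw [h1, h2]
        simp only [fE, fO]
        rw [if_neg (by omega), if_neg (by omega)]; ring
      rw [this]
      exact CvxF.lin _ _

/-- **T3.** -/
theorem cvx_all (N : Net) (s0 top : ℝ) (A : List (Ev × ℝ × List ℝ)) (hQ hP : List ℝ)
    (hc : Cvx N.R N.cap (A.map fun a => a.1))
    (h1 : (A.map fun a => a.2.1).Pairwise (· < ·)) (h0 : ∀ a ∈ A, s0 < a.2.1)
    (h2 : ∀ a ∈ A, a.2.1 < top) :
    ∃ M0 : ℝ, 0 ≤ M0 ∧ ∀ M, M0 ≤ M →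
      Cvx N.step.R N.step.cap ((tAll N s0 top A hQ hP).map (TE.ev M)) := by
  obtain ⟨M0, hM0, hM⟩ := exists_M0 N.R N.cap (gaps top A) (gaps_pos top A h1 h2)
  refine ⟨M0, hM0, fun M hMM => ?_⟩
  rw [cvx_iff]
  intro e he i hi
  obtain ⟨t, ht, rfl⟩ := List.mem_map.mp he
  simp only [tAll, List.mem_append] at ht
  rcases ht with (ht | ht) | ht
  · exact cvx_zero (zip_zero _ (fun l y => ⟨rfl, rfl⟩) _ _ t ht) i
  · obtain ⟨x, p, hp, hx, hk⟩ := kind_body N s0 top A h0 t ht
    exact cvx_kind N s0 x M p hx (hM0.trans hMM)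
      (fun r hr => hc p.1 (gaps_mem_ev top A p hp) r hr) (hM M hMM p hp) t hk i hi
  · exact cvx_zero (zip_zero _ (fun l y => ⟨rfl, rfl⟩) _ _ t ht) i

end TW
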