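import Pool.Agent.RN.LevelF
import Pool.Agent.RN.LevelCvx

set_option autoImplicit false

namespace TW

/-- T3 in the exact form of `LevelF` -/
theorem allCvx : AllCvx := by
  intro N _ s0 top A _ hc h0 h1 hQ hP
  obtain ⟨M0, _, h⟩ := cvx_all N s0 top A hQ hP hc h1 (fun a ha => (h0 a ha).1)
    (fun a ha => (h0 a ha).2)
  exact ⟨M0, h⟩

end TW
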