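import Pool.Agent.RN.Defs

/-!
# Statement of the level lemma (RN2 + RN3) for thick words, and `glue`

Written by helper80 (RN4).  `LevelOK N` is what RN2 + RN3 have to prove for every well-formed net.
-/

set_option autoImplicit false

namespace TW

open Finset

/-- scalar product of a list of bits and a list of reals -/
noncomputable def dot : List Bool → List ℝ → ℝ
  | z :: u, q :: qs => (if z then q else 0) + dot u qs
  | _, _ => 0

/-- used bits of the block of a letter in a tight run of sign `s`: new `Q` leaves (`c = true`) are
used iff `s = false`, new `P` leaves (`c = false`) iff `s = true`; the main letter carries the used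
bit `u` of the old letter; all other bridges have used bit `false`. -/
def blkUsed (s : Bool) (st : ℕ → Bool) : Lt → Bool → List Bool
  | .leaf r _, u => if st r then [!s, false, u, s] else [u]
  | .br a b _ _, u =>
      if st a then
        if st b then [!s, !s, false, false, u, s, s] else [!s, false, u, s]
      else
        if st b then [!s, false, u, s] else [u]

/-- used bits of the blocks of a word -/
def bodyUsed (s : Bool) (st : ℕ → Bool) : List Lt → List Bool → List Bool
  | ℓ :: w, u :: us => blkUsed s st ℓ u ++ bodyUsed s st w us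
  | _, _ => []

/-- the used set (as a list of bits) of the step word belonging to the used set `u` of the old
word and the sign `s` -/
def glue (s : Bool) (N : Net) (u : List Bool) : List Bool :=
  List.replicate (ends N true).length (!s) ++ bodyUsed s N.st N.w u ++
    List.replicate (ends N false).length s

/-- heights of the letters of the block of `ℓ`; `x` is the height of the old letter. New `Q` leaves
are below `s0`, new `P` leaves above `top`, the main letter has height `x`. -/
def BlkHt (st : ℕ → Bool) (s0 top : ℝ) : Lt → ℝ → List ℝ → Prop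
  | .leaf r _, x, hb =>
      if st r then ∃ q b p, hb = [q, b, x, p] ∧ q < s0 ∧ top < p else hb = [x]
  | .br a b _ _, x, hb =>
      if st a then
        if st b then ∃ q q' b b' p p', hb = [q, q', b, b', x, p, p'] ∧ q < s0 ∧ q' < s0 ∧
          top < p ∧ top < p'
        else ∃ q b p, hb = [q, b, x, p] ∧ q < s0 ∧ top < p
      else
        if st b then ∃ q b p, hb = [q, b, x, p] ∧ q < s0 ∧ top < p else hb = [x]

/-- heights of the letters of `w.flatMap (blk st)` -/
def BodyHt (st : ℕ → Bool) (s0 top : ℝ) : List Lt → List ℝ → List ℝ → Prop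
  | [], [], h => h = []
  | ℓ :: w, x :: H, h => ∃ hb h', h = hb ++ h' ∧ BlkHt st s0 top ℓ x hb ∧ BodyHt st s0 top w H h'
  | _, _, _ => False

/-- heights of all letters of `N.step.w` (`H` = heights of the letters of `N.w`) -/
def StepHt (N : Net) (s0 top : ℝ) (H h : List ℝ) : Prop :=
  ∃ hQ hm hP, h = hQ ++ hm ++ hP ∧ hQ.length = (ends N true).length ∧
    hP.length = (ends N false).length ∧ (∀ y ∈ hQ, y < s0) ∧ (∀ y ∈ hP, top < y) ∧
    BodyHt N.st s0 top N.w H hm

/-- one sign of the level lemma: `f` level objective of this sign (a function of the run of the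
step word), `m` its minimum, `old` the transported old cost, `c` a constant. -/
structure SignOK (N : Net) (ev : List Ev) (f old : List Bool → ℝ) (s : Bool) (m c : ℝ) : Prop where
  lower : ∀ evW : List Ev, evW.map Ev.lt = N.step.w → ∀ zs, Run N.step.R N.step.cap evW zs 0 →
    m ≤ f zs
  down : ∀ evW : List Ev, evW.map Ev.lt = N.step.w → ∀ zs, Run N.step.R N.step.cap evW zs 0 →
    f zs = m → ∃ zv, Run N.R N.cap ev zv 0 ∧ used evW zs = glue s N (used ev zv) ∧
      old zs = cost N.R (0, 0) ev zv 0 + c
  up : ∀ evW : List Ev, evW.map Ev.lt = N.step.w → ∀ zv, Run N.R N.cap ev zv 0 →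
    ∃ zs, Run N.step.R N.step.cap evW zs 0 ∧ f zs = m ∧
      used evW zs = glue s N (used ev zv) ∧ old zs = cost N.R (0, 0) ev zv 0 + c

/-- **The level lemma** (RN2 + RN3) for the net `N`. -/
def LevelOK (N : Net) : Prop :=
  ∀ (ev : List Ev) (H h : List ℝ) (s0 top : ℝ), ev.map Ev.lt = N.w → Cvx N.R N.cap ev →
    H.length = N.w.length → H.Pairwise (· < ·) → (∀ x ∈ H, s0 < x) → (∀ x ∈ H, x < top) →
    s0 < top → StepHt N s0 top H h →
    ∃ (κ old : List Bool → ℝ) (M0 mm mp cm cp : ℝ),
      (∀ M, M0 ≤ M → ∃ evW : List Ev, evW.map Ev.lt = N.step.w ∧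
        Cvx N.step.R N.step.cap evW ∧
        ∀ zs, Run N.step.R N.step.cap evW zs 0 →
          cost N.step.R (0, 0) evW zs 0 = M * κ zs + old zs) ∧
      SignOK N ev κ old false mm cm ∧
      (∀ evW : List Ev, evW.map Ev.lt = N.step.w →
        SignOK N ev (fun zs => κ zs - dot (used evW zs) h) old true mp cp)

end TW
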