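import Pool.Agent.RN.Struct
import Pool.Agent.RN.LevelStmt

/-!
# RN3: the blocks (converters) of the step, pure combinatorics

For every letter `ℓ` of a net `N` and every sign `s` the block `blk N.st ℓ` with the bits
`blkBits s N.st ℓ z` leads from the tight state `sim N s σ` to `sim N s (σ + ℓ.eff z)`, and these
are the only bits which are tight on the new leaves and leave the new rows empty.
-/

set_option autoImplicit false
set_option linter.unusedSimpArgs false
set_option linter.unusedTactic false
set_option linter.unreachableTactic false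

namespace TW

open Finset

/-- the state after a list of letters with given bits -/
def adv : List Lt → List Bool → St → St
  | ℓ :: w, z :: zs, σ => adv w zs (σ + ℓ.eff z)
  | _, _, σ => σ

/-- all states on the way are within the capacities -/
def OkAll (R : ℕ) (cap : ℕ → ℕ) : List Lt → List Bool → St → Prop
  | ℓ :: w, z :: zs, σ => Ok R cap (σ + ℓ.eff z) ∧ OkAll R cap w zs (σ + ℓ.eff z)
  | _, _, _ => True

@[simp] theorem adv_nil (zs : List Bool) (σ : St) : adv [] zs σ = σ := by
  cases zs <;> rfl

@[simp] theorem adv_cons (ℓ : Lt) (w : List Lt) (z : Bool) (zs : List Bool) (σ : St) :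
    adv (ℓ :: w) (z :: zs) σ = adv w zs (σ + ℓ.eff z) := rfl

@[simp] theorem okAll_nil (R : ℕ) (cap : ℕ → ℕ) (zs : List Bool) (σ : St) :
    OkAll R cap [] zs σ ↔ True := by
  cases zs <;> exact Iff.rfl

@[simp] theorem okAll_cons (R : ℕ) (cap : ℕ → ℕ) (ℓ : Lt) (w : List Lt) (z : Bool)
    (zs : List Bool) (σ : St) :
    OkAll R cap (ℓ :: w) (z :: zs) σ ↔
      Ok R cap (σ + ℓ.eff z) ∧ OkAll R cap w zs (σ + ℓ.eff z) := Iff.rfl

theorem adv_append (w w' : List Lt) (zs zs' : List Bool) (h : w.length = zs.length) (σ : St) :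
    adv (w ++ w') (zs ++ zs') σ = adv w' zs' (adv w zs σ) := by
  induction w generalizing zs σ with
  | nil =>
    cases zs with
    | nil => rfl
    | cons z zs => simp at h
  | cons ℓ w ih =>
    cases zs with
    | nil => simp at h
    | cons z zs =>
      simp only [List.cons_append, adv_cons]
      exact ih zs (by simpa using h) _

theorem okAll_append (R : ℕ) (cap : ℕ → ℕ) (w w' : List Lt) (zs zs' : List Bool)
    (h : w.length = zs.length) (σ : St) :
    OkAll R cap (w ++ w') (zs ++ zs') σ ↔
      OkAll R cap w zs σ ∧ OkAll R cap w' zs' (adv w zs σ) := by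
  induction w generalizing zs σ with
  | nil =>
    cases zs with
    | nil => simp
    | cons z zs => simp at h
  | cons ℓ w ih =>
    cases zs with
    | nil => simp at h
    | cons z zs =>
      simp only [List.cons_append, okAll_cons, adv_cons]
      rw [ih zs (by simpa using h) _, and_assoc]

/-- a run of a concatenation -/
theorem run_append (R : ℕ) (cap : ℕ → ℕ) (evB ev : List Ev) (ys zs : List Bool)
    (h : evB.length = ys.length) (σ : St) :
    Run R cap (evB ++ ev) (ys ++ zs) σ ↔
      OkAll R cap (evB.map Ev.lt) ys σ ∧ Run R cap ev zs (adv (evB.map Ev.lt) ys σ) := by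
  induction evB generalizing ys σ with
  | nil =>
    cases ys with
    | nil => simp
    | cons z zs => simp at h
  | cons e evB ih =>
    cases ys with
    | nil => simp at h
    | cons y ys =>
      simp only [List.cons_append, List.map_cons, okAll_cons, adv_cons, Run]
      rw [ih ys (by simpa using h) _, and_assoc]

/-- the tight state of the step net belonging to the state `σ` of the old net and the sign `s` -/
def sim (N : Net) (s : Bool) (σ : St) : St := fun i =>
  if i % 3 = 1 then σ (i / 3) + (if s && !N.st (i / 3) then (N.cap (i / 3) : ℤ) else 0) else 0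

theorem sim0 (N : Net) (s : Bool) (σ : St) (q : ℕ) : sim N s σ (3 * q) = 0 := by
  rw [sim, if_neg (by omega)]

theorem sim2 (N : Net) (s : Bool) (σ : St) (q : ℕ) : sim N s σ (3 * q + 2) = 0 := by
  rw [sim, if_neg (by omega)]

theorem sim1 (N : Net) (s : Bool) (σ : St) (q : ℕ) :
    sim N s σ (3 * q + 1) = σ q + (if s && !N.st q then (N.cap q : ℤ) else 0) := by
  rw [sim, if_pos (by omega), show (3 * q + 1) / 3 = q by omega]

/-- the tight bits of the block of a letter -/
def blkBits (s : Bool) (st : ℕ → Bool) : Lt → Bool → List Bool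
  | .leaf r _, z => if st r then [!s, z, z, s] else [z]
  | .br a b _ _, z =>
      if st a then
        if st b then [!s, !s, z, z, z, s, s] else [!s, z, z, s]
      else
        if st b then [!s, z, z, s] else [z]

theorem blkBits_length (s : Bool) (st : ℕ → Bool) (ℓ : Lt) (z : Bool) :
    (blkBits s st ℓ z).length = (blk st ℓ).length := by
  cases ℓ with
  | leaf r c => simp only [blkBits, blk]; split_ifs <;> rfl
  | br a b c d => simp only [blkBits, blk]; split_ifs <;> rfl

/-- the bits of the new leaves of the block are tight -/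
def newTight (s : Bool) (st : ℕ → Bool) : Lt → List Bool → Prop
  | .leaf r _, ys => if st r then ys[0]? = some (!s) ∧ ys[3]? = some s else True
  | .br a b _ _, ys =>
      if st a then
        if st b then ys[0]? = some (!s) ∧ ys[1]? = some (!s) ∧ ys[5]? = some s ∧ ys[6]? = some s
        else ys[0]? = some (!s) ∧ ys[3]? = some s
      else
        if st b then ys[0]? = some (!s) ∧ ys[3]? = some s else True

section arith

theorem e00 (q r : ℕ) : (3 * q = 3 * r) = (q = r) := by
  apply propext; constructor <;> intro h <;> omega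
theorem e01 (q r : ℕ) : (3 * q = 3 * r + 1) = False := by
  apply propext; constructor <;> intro h <;> first | omega | exact h.elim
theorem e02 (q r : ℕ) : (3 * q = 3 * r + 2) = False := by
  apply propext; constructor <;> intro h <;> first | omega | exact h.elim
theorem e10 (q r : ℕ) : (3 * q + 1 = 3 * r) = False := by
  apply propext; constructor <;> intro h <;> first | omega | exact h.elim
theorem e11 (q r : ℕ) : (3 * q + 1 = 3 * r + 1) = (q = r) := by
  apply propext; constructor <;> intro h <;> omega
theorem e12 (q r : ℕ) : (3 * q + 1 = 3 * r + 2) = False := by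
  apply propext; constructor <;> intro h <;> first | omega | exact h.elim
theorem e20 (q r : ℕ) : (3 * q + 2 = 3 * r) = False := by
  apply propext; constructor <;> intro h <;> first | omega | exact h.elim
theorem e21 (q r : ℕ) : (3 * q + 2 = 3 * r + 1) = False := by
  apply propext; constructor <;> intro h <;> first | omega | exact h.elim
theorem e22 (q r : ℕ) : (3 * q + 2 = 3 * r + 2) = (q = r) := by
  apply propext; constructor <;> intro h <;> omega

end arith

@[simp] theorem bz_true : bz true = 1 := rfl
@[simp] theorem bz_false : bz false = 0 := rfl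

theorem blk_adv (N : Net) (ℓ : Lt) (hℓ : ℓ.WF N.R N.cap) (s z : Bool) (σ : St) :
    adv (blk N.st ℓ) (blkBits s N.st ℓ z) (sim N s σ) = sim N s (σ + ℓ.eff z) := by
  funext i
  obtain ⟨q, hq⟩ := row_cases i
  cases ℓ with
  | leaf r c =>
    cases hs : N.st r <;>
      simp only [blk, blkBits, hs, if_true, Bool.false_eq_true, if_false, adv_cons, adv_nil,
        Pi.add_apply, Lt.eff] <;>
      rcases hq with rfl | rfl | rfl <;>
        simp only [sim0, sim1, sim2, e00, e01, e02, e10, e11, e12, e20, e21, e22, if_false,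
          Pi.add_apply, Lt.eff] <;>
        by_cases hr : q = r <;> cases s <;> cases z <;> simp [hr, hs] <;> ring
  | br a b c d =>
    have hab : a ≠ b := ne_of_lt hℓ.1
    cases hsa : N.st a <;> cases hsb : N.st b <;>
      simp only [blk, blkBits, hsa, hsb, if_true, Bool.false_eq_true, if_false, adv_cons, adv_nil,
        Pi.add_apply, Lt.eff] <;>
      rcases hq with rfl | rfl | rfl <;>
        simp only [sim0, sim1, sim2, e00, e01, e02, e10, e11, e12, e20, e21, e22, if_false,
          Pi.add_apply, Lt.eff] <;>
        by_cases hra : q = a <;> by_cases hrb : q = b <;> cases s <;> cases z <;>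
          simp_all <;> try ring

theorem ok_step (N : Net) (σ' : St)
    (h0 : ∀ q < N.R, 0 ≤ σ' (3 * q) ∧ σ' (3 * q) ≤ (if N.st q then 2 else 0))
    (h1 : ∀ q < N.R, 0 ≤ σ' (3 * q + 1) ∧
      σ' (3 * q + 1) ≤ (if N.st q then (N.cap q : ℤ) else 2 * (N.cap q : ℤ)))
    (h2 : ∀ q < N.R, 0 ≤ σ' (3 * q + 2) ∧ σ' (3 * q + 2) ≤ (if N.st q then 2 else 0)) :
    Ok N.step.R N.step.cap σ' := by
  intro i hi
  have hR : N.step.R = 3 * N.R := rfl
  rw [hR] at hi
  obtain ⟨q, hq⟩ := row_cases i
  rcases hq with rfl | rfl | rfl
  · rw [cap0]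
    have := h0 q (by omega)
    split_ifs at this ⊢ <;> simpa using this
  · rw [cap1]
    have := h1 q (by omega)
    split_ifs at this ⊢ <;> push_cast <;> simpa using this
  · rw [cap2]
    have := h2 q (by omega)
    split_ifs at this ⊢ <;> simpa using this

theorem bz_not (s : Bool) : bz (!s) = 1 - bz s := by cases s <;> rfl

theorem bz_nonneg (s : Bool) : 0 ≤ bz s := by cases s <;> decide

theorem bz_le (s : Bool) : bz s ≤ 1 := by cases s <;> decide

/-- the shift of the tight state on the row `3 q + 1` -/
theorem shift_facts (N : Net) (s : Bool) (q : ℕ) :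
    0 ≤ (if s && !N.st q then (N.cap q : ℤ) else 0) ∧
      (if s && !N.st q then (N.cap q : ℤ) else 0) ≤ (if N.st q then 0 else (N.cap q : ℤ)) := by
  cases s <;> cases N.st q <;> simp

theorem blk_okAll (N : Net) (ℓ : Lt) (hℓ : ℓ.WF N.R N.cap) (s z : Bool) (σ : St)
    (h0 : Ok N.R N.cap σ) (h1 : Ok N.R N.cap (σ + ℓ.eff z)) :
    OkAll N.step.R N.step.cap (blk N.st ℓ) (blkBits s N.st ℓ z) (sim N s σ) := by
  have b1 := bz_nonneg s
  have b2 := bz_le s
  have b3 := bz_nonneg z
  have b4 := bz_le z
  cases ℓ with
  | leaf r c =>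
    cases hs : N.st r
    · simp only [blk, blkBits, hs, Bool.false_eq_true, if_false, okAll_cons, okAll_nil, and_true]
      apply ok_step <;> intro q hq <;>
        have H0 := h0 q hq <;> have H1 := h1 q hq <;>
        obtain ⟨D1, D2⟩ := shift_facts N s q <;>
        simp only [Pi.add_apply, Lt.eff, sim0, sim1, sim2, e00, e01, e02, e10, e11, e12, e20, e21,
          e22, if_false] at H1 ⊢ <;>
        generalize (if s && !N.st q then (N.cap q : ℤ) else 0) = δ at * <;>
        by_cases hr : q = r <;> simp only [hr, hs, if_true, if_false] at * <;>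
        (try split_ifs at D2 ⊢) <;> omega
    · simp only [blk, blkBits, hs, if_true, okAll_cons, okAll_nil, and_true]
      refine ⟨?_, ?_, ?_, ?_⟩ <;> apply ok_step <;> intro q hq <;>
        have H0 := h0 q hq <;> have H1 := h1 q hq <;>
        obtain ⟨D1, D2⟩ := shift_facts N s q <;>
        simp only [Pi.add_apply, Lt.eff, sim0, sim1, sim2, e00, e01, e02, e10, e11, e12, e20, e21,
          e22, if_false, bz_true, bz_false, bz_not] at H1 ⊢ <;>
        generalize (if s && !N.st q then (N.cap q : ℤ) else 0) = δ at * <;>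
        by_cases hr : q = r <;> simp only [hr, hs, if_true, if_false, forall_const] at * <;>
        (try split_ifs at D2 ⊢) <;> omega
  | br a b c d =>
    have hab : a ≠ b := ne_of_lt hℓ.1
    have hba : b ≠ a := hab.symm
    cases hsa : N.st a <;> cases hsb : N.st b
    · simp only [blk, blkBits, hsa, hsb, Bool.false_eq_true, if_false, if_true, okAll_cons,
        okAll_nil, and_true]
      apply ok_step <;> intro q hq <;>
        have H0 := h0 q hq <;> have H1 := h1 q hq <;>
        obtain ⟨D1, D2⟩ := shift_facts N s q <;>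
        simp only [Pi.add_apply, Lt.eff, sim0, sim1, sim2, e00, e01, e02, e10, e11, e12, e20, e21,
          e22, if_false, bz_true, bz_false, bz_not] at H1 ⊢ <;>
        generalize (if s && !N.st q then (N.cap q : ℤ) else 0) = δ at * <;>
        by_cases hra : q = a <;> by_cases hrb : q = b <;>
        simp only [hra, hrb, hab, hba, hsa, hsb, if_true, if_false, forall_const] at * <;>
        (try split_ifs at D2 ⊢) <;> omega
    · simp only [blk, blkBits, hsa, hsb, Bool.false_eq_true, if_false, if_true, okAll_cons,
        okAll_nil, and_true]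
      refine ⟨?_, ?_, ?_, ?_⟩ <;> apply ok_step <;> intro q hq <;>
        have H0 := h0 q hq <;> have H1 := h1 q hq <;>
        obtain ⟨D1, D2⟩ := shift_facts N s q <;>
        simp only [Pi.add_apply, Lt.eff, sim0, sim1, sim2, e00, e01, e02, e10, e11, e12, e20, e21,
          e22, if_false, bz_true, bz_false, bz_not] at H1 ⊢ <;>
        generalize (if s && !N.st q then (N.cap q : ℤ) else 0) = δ at * <;>
        by_cases hra : q = a <;> by_cases hrb : q = b <;>
        simp only [hra, hrb, hab, hba, hsa, hsb, if_true, if_false, forall_const] at * <;>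
        (try split_ifs at D2 ⊢) <;> omega
    · simp only [blk, blkBits, hsa, hsb, Bool.false_eq_true, if_false, if_true, okAll_cons,
        okAll_nil, and_true]
      refine ⟨?_, ?_, ?_, ?_⟩ <;> apply ok_step <;> intro q hq <;>
        have H0 := h0 q hq <;> have H1 := h1 q hq <;>
        obtain ⟨D1, D2⟩ := shift_facts N s q <;>
        simp only [Pi.add_apply, Lt.eff, sim0, sim1, sim2, e00, e01, e02, e10, e11, e12, e20, e21,
          e22, if_false, bz_true, bz_false, bz_not] at H1 ⊢ <;>
        generalize (if s && !N.st q then (N.cap q : ℤ) else 0) = δ at * <;>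
        by_cases hra : q = a <;> by_cases hrb : q = b <;>
        simp only [hra, hrb, hab, hba, hsa, hsb, if_true, if_false, forall_const] at * <;>
        (try split_ifs at D2 ⊢) <;> omega
    · simp only [blk, blkBits, hsa, hsb, Bool.false_eq_true, if_false, if_true, okAll_cons,
        okAll_nil, and_true]
      refine ⟨?_, ?_, ?_, ?_, ?_, ?_, ?_⟩ <;> apply ok_step <;> intro q hq <;>
        have H0 := h0 q hq <;> have H1 := h1 q hq <;>
        obtain ⟨D1, D2⟩ := shift_facts N s q <;>
        simp only [Pi.add_apply, Lt.eff, sim0, sim1, sim2, e00, e01, e02, e10, e11, e12, e20, e21,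
          e22, if_false, bz_true, bz_false, bz_not] at H1 ⊢ <;>
        generalize (if s && !N.st q then (N.cap q : ℤ) else 0) = δ at * <;>
        by_cases hra : q = a <;> by_cases hrb : q = b <;>
        simp only [hra, hrb, hab, hba, hsa, hsb, if_true, if_false, forall_const] at * <;>
        (try split_ifs at D2 ⊢) <;> omega

theorem bz_inj {y z : Bool} (h : bz y = bz z) : y = z := by
  cases y <;> cases z <;> simp_all

/-- the only tight bits of a block -/
theorem blk_down (N : Net) (ℓ : Lt) (hℓ : ℓ.WF N.R N.cap) (s : Bool) (ys : List Bool) (σ : St)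
    (hlen : ys.length = (blk N.st ℓ).length) (hT : newTight s N.st ℓ ys)
    (hz : ∀ q, adv (blk N.st ℓ) ys (sim N s σ) (3 * q) = 0 ∧
      adv (blk N.st ℓ) ys (sim N s σ) (3 * q + 2) = 0) :
    ∃ z, ys = blkBits s N.st ℓ z := by
  cases ℓ with
  | leaf r c =>
    cases hs : N.st r <;>
      simp only [blk, newTight, blkBits, hs, if_true, Bool.false_eq_true, if_false] at hlen hT hz ⊢
    · rcases ys with _ | ⟨y0, _ | ⟨y1, ys⟩⟩ <;> simp at hlen
      exact ⟨y0, rfl⟩
    · rcases ys with _ | ⟨y0, _ | ⟨y1, _ | ⟨y2, _ | ⟨y3, _ | ⟨y4, ys⟩⟩⟩⟩⟩ <;> simp at hlen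
      simp only [List.getElem?_cons_zero, List.getElem?_cons_succ, Option.some.injEq] at hT
      obtain ⟨rfl, rfl⟩ := hT
      have h := (hz r).2
      simp only [adv_cons, adv_nil, Pi.add_apply, Lt.eff, sim2, e21, e22, if_true, if_false,
        bz_true, bz_false, bz_not] at h
      have h' : y1 = y2 := bz_inj (by omega)
      subst h'
      exact ⟨y1, rfl⟩
  | br a b c d =>
    cases hsa : N.st a <;> cases hsb : N.st b <;>
      simp only [blk, newTight, blkBits, hsa, hsb, if_true, Bool.false_eq_true, if_false]
        at hlen hT hz ⊢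
    · rcases ys with _ | ⟨y0, _ | ⟨y1, ys⟩⟩ <;> simp at hlen
      exact ⟨y0, rfl⟩
    · rcases ys with _ | ⟨y0, _ | ⟨y1, _ | ⟨y2, _ | ⟨y3, _ | ⟨y4, ys⟩⟩⟩⟩⟩ <;> simp at hlen
      simp only [List.getElem?_cons_zero, List.getElem?_cons_succ, Option.some.injEq] at hT
      obtain ⟨rfl, rfl⟩ := hT
      have h := (hz b).1
      simp only [adv_cons, adv_nil, Pi.add_apply, Lt.eff, sim0, e00, e01, e02, if_true, if_false,
        bz_true, bz_false, bz_not] at h
      have h' : y1 = y2 := bz_inj (by omega)
      subst h'
      exact ⟨y1, rfl⟩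
    · rcases ys with _ | ⟨y0, _ | ⟨y1, _ | ⟨y2, _ | ⟨y3, _ | ⟨y4, ys⟩⟩⟩⟩⟩ <;> simp at hlen
      simp only [List.getElem?_cons_zero, List.getElem?_cons_succ, Option.some.injEq] at hT
      obtain ⟨rfl, rfl⟩ := hT
      have h := (hz a).2
      simp only [adv_cons, adv_nil, Pi.add_apply, Lt.eff, sim2, e20, e21, e22, if_true, if_false,
        bz_true, bz_false, bz_not] at h
      have h' : y1 = y2 := bz_inj (by omega)
      subst h'
      exact ⟨y1, rfl⟩
    · rcases ys with _ | ⟨y0, _ | ⟨y1, _ | ⟨y2, _ | ⟨y3, _ | ⟨y4, _ | ⟨y5, _ | ⟨y6, _ |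
        ⟨y7, ys⟩⟩⟩⟩⟩⟩⟩⟩ <;> simp at hlen
      simp only [List.getElem?_cons_zero, List.getElem?_cons_succ, Option.some.injEq] at hT
      obtain ⟨rfl, rfl, rfl, rfl⟩ := hT
      have h := (hz a).2
      have k := (hz b).1
      simp only [adv_cons, adv_nil, Pi.add_apply, Lt.eff, sim0, sim2, e00, e01, e02, e20, e21, e22,
        if_true, if_false, bz_true, bz_false, bz_not] at h k
      have h' : y2 = y4 := bz_inj (by omega)
      have k' : y3 = y4 := bz_inj (by omega)
      subst h' k'
      exact ⟨_, rfl⟩

/-- used bits of a list of letters -/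
def usedL (w : List Lt) (zs : List Bool) : List Bool :=
  List.zipWith (fun ℓ z => ℓ.isLeaf && z) w zs

theorem used_eq_usedL (ev : List Ev) (zs : List Bool) : used ev zs = usedL (ev.map Ev.lt) zs := by
  simp [used, usedL, List.zipWith_map_left]

theorem usedL_append (w w' : List Lt) (zs zs' : List Bool) (h : w.length = zs.length) :
    usedL (w ++ w') (zs ++ zs') = usedL w zs ++ usedL w' zs' := by
  simp [usedL, List.zipWith_append h]

theorem blk_used (s : Bool) (st : ℕ → Bool) (ℓ : Lt) (z : Bool) :
    usedL (blk st ℓ) (blkBits s st ℓ z) = blkUsed s st ℓ (ℓ.isLeaf && z) := by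
  cases ℓ with
  | leaf r c =>
    cases hs : st r <;> simp [blk, blkBits, blkUsed, usedL, hs, Lt.isLeaf]
  | br a b c d =>
    cases hsa : st a <;> cases hsb : st b <;>
      simp [blk, blkBits, blkUsed, usedL, hsa, hsb, Lt.isLeaf]

end TW
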