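import Pool.Agent.RN.LevelA
import Pool.Agent.RN.Conv

/-!
# RN3: the whole body (all blocks), pure combinatorics

Induction over the word: tight paths of `w.flatMap (blk N.st)` from `sim N s σ` are exactly the
paths `bodyBits s N.st w zv` with `zv` a path of `w` from `σ`.
-/

set_option autoImplicit false
set_option linter.unusedSimpArgs false
set_option linter.unusedTactic false
set_option linter.unreachableTactic false

namespace TW

open Finset

theorem adv_eq_fin (w : List Lt) (zs : List Bool) (σ : St) : adv w zs σ = fin w zs σ := by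
  induction w generalizing zs σ with
  | nil => cases zs <;> rfl
  | cons ℓ w ih =>
    cases zs with
    | nil => rfl
    | cons z zs => exact ih zs _

theorem path_iff_okAll (R : ℕ) (cap : ℕ → ℕ) (w : List Lt) (zs : List Bool) (σ : St) :
    Path R cap w zs σ ↔ zs.length = w.length ∧ OkAll R cap w zs σ := by
  induction w generalizing zs σ with
  | nil => cases zs <;> simp [Path]
  | cons ℓ w ih =>
    cases zs with
    | nil => simp [Path]
    | cons z zs =>
      simp only [Path, okAll_cons, List.length_cons, ih]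
      constructor
      · rintro ⟨h1, h2, h3⟩; exact ⟨by omega, h1, h3⟩
      · rintro ⟨h1, h2, h3⟩; exact ⟨h2, by omega, h3⟩

theorem blk_fin (N : Net) (ℓ : Lt) (hℓ : ℓ.WF N.R N.cap) (s z : Bool) (σ : St) :
    fin (blk N.st ℓ) (blkBits s N.st ℓ z) (sim N s σ) = sim N s (σ + ℓ.eff z) := by
  rw [← adv_eq_fin]; exact blk_adv N ℓ hℓ s z σ

theorem blk_path (N : Net) (ℓ : Lt) (hℓ : ℓ.WF N.R N.cap) (s z : Bool) (σ : St)
    (h0 : Ok N.R N.cap σ) (h1 : Ok N.R N.cap (σ + ℓ.eff z)) :
    Path N.step.R N.step.cap (blk N.st ℓ) (blkBits s N.st ℓ z) (sim N s σ) :=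
  (path_iff_okAll _ _ _ _ _).2 ⟨blkBits_length s N.st ℓ z, blk_okAll N ℓ hℓ s z σ h0 h1⟩

/-- tightness of the state in the gap before the main letter -/
def barTight (s : Bool) (st : ℕ → Bool) : Lt → St → Prop
  | .leaf r _, σ => st r = true → (if s then 1 ≤ σ (3 * r + 2) else σ (3 * r + 2) ≤ 1)
  | .br a b _ _, σ =>
      (st a = true → (if s then 1 ≤ σ (3 * a + 2) else σ (3 * a + 2) ≤ 1)) ∧
      (st b = true → (if s then 1 ≤ σ (3 * b) else σ (3 * b) ≤ 1))

/-- tightness of the state in the gap after a block -/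
def EndTight (N : Net) (s : Bool) (σ : St) : Prop :=
  ∀ q < N.R, σ (3 * q) = 0 ∧ σ (3 * q + 2) = 0 ∧
    (N.st q = false → (if s then (N.cap q : ℤ) ≤ σ (3 * q + 1) else σ (3 * q + 1) ≤ (N.cap q : ℤ)))

/-- the state before the main letter -/
theorem blk_bar (N : Net) (ℓ : Lt) (hℓ : ℓ.WF N.R N.cap) (s z : Bool) (σ : St) :
    barTight s N.st ℓ (fin ((blk N.st ℓ).take (mainIdx N.st ℓ))
      ((blkBits s N.st ℓ z).take (mainIdx N.st ℓ)) (sim N s σ)) := by
  rw [← adv_eq_fin]
  cases ℓ with
  | leaf r c =>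
    intro hs
    simp only [blk, blkBits, mainIdx, hs, if_true, List.take_succ_cons, List.take_zero, adv_cons,
      adv_nil, Pi.add_apply, Lt.eff, sim2, e21, e22, if_false]
    cases s <;> cases z <;> simp
  | br a b c d =>
    have hab : a ≠ b := ne_of_lt hℓ.1
    cases hsa : N.st a <;> cases hsb : N.st b <;>
      simp only [barTight, blk, blkBits, mainIdx, hsa, hsb, if_true, List.take_succ_cons,
        List.take_zero, adv_cons, Bool.false_eq_true, if_false, false_imp_iff, true_imp_iff,
        adv_nil, Pi.add_apply, Lt.eff, sim0, sim2, e00, e01, e02, e10, e11, e12, e20, e21, e22] <;>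
      cases s <;> cases z <;> simp

/-- the only tight bits of a block (rows `< R` only) -/
theorem blk_down' (N : Net) (ℓ : Lt) (hℓ : ℓ.WF N.R N.cap) (s : Bool) (ys : List Bool) (σ : St)
    (hlen : ys.length = (blk N.st ℓ).length) (hT : newTight s N.st ℓ ys)
    (hz : ∀ q < N.R, fin (blk N.st ℓ) ys (sim N s σ) (3 * q) = 0 ∧
      fin (blk N.st ℓ) ys (sim N s σ) (3 * q + 2) = 0) :
    ∃ z, ys = blkBits s N.st ℓ z := by
  rw [← adv_eq_fin] at hz
  cases ℓ with
  | leaf r c =>
    have hr : r < N.R := hℓ.1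
    cases hs : N.st r <;>
      simp only [blk, newTight, blkBits, hs, if_true, Bool.false_eq_true, if_false] at hlen hT hz ⊢
    · rcases ys with _ | ⟨y0, _ | ⟨y1, ys⟩⟩ <;> simp at hlen
      exact ⟨y0, rfl⟩
    · rcases ys with _ | ⟨y0, _ | ⟨y1, _ | ⟨y2, _ | ⟨y3, _ | ⟨y4, ys⟩⟩⟩⟩⟩ <;> simp at hlen
      simp only [List.getElem?_cons_zero, List.getElem?_cons_succ, Option.some.injEq] at hT
      obtain ⟨rfl, rfl⟩ := hT
      have h := (hz r hr).2
      simp only [adv_cons, adv_nil, Pi.add_apply, Lt.eff, sim2, e21, e22, if_true, if_false,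
        bz_true, bz_false, bz_not] at h
      have h' : y1 = y2 := bz_inj (by omega)
      subst h'
      exact ⟨y1, rfl⟩
  | br a b c d =>
    have hb : b < N.R := hℓ.2.1
    have ha : a < N.R := lt_trans hℓ.1 hb
    cases hsa : N.st a <;> cases hsb : N.st b <;>
      simp only [blk, newTight, blkBits, hsa, hsb, if_true, Bool.false_eq_true, if_false]
        at hlen hT hz ⊢
    · rcases ys with _ | ⟨y0, _ | ⟨y1, ys⟩⟩ <;> simp at hlen
      exact ⟨y0, rfl⟩
    · rcases ys with _ | ⟨y0, _ | ⟨y1, _ | ⟨y2, _ | ⟨y3, _ | ⟨y4, ys⟩⟩⟩⟩⟩ <;> simp at hlen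
      simp only [List.getElem?_cons_zero, List.getElem?_cons_succ, Option.some.injEq] at hT
      obtain ⟨rfl, rfl⟩ := hT
      have h := (hz b hb).1
      simp only [adv_cons, adv_nil, Pi.add_apply, Lt.eff, sim0, e00, e01, e02, if_true, if_false,
        bz_true, bz_false, bz_not] at h
      have h' : y1 = y2 := bz_inj (by omega)
      subst h'
      exact ⟨y1, rfl⟩
    · rcases ys with _ | ⟨y0, _ | ⟨y1, _ | ⟨y2, _ | ⟨y3, _ | ⟨y4, ys⟩⟩⟩⟩⟩ <;> simp at hlen
      simp only [List.getElem?_cons_zero, List.getElem?_cons_succ, Option.some.injEq] at hT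
      obtain ⟨rfl, rfl⟩ := hT
      have h := (hz a ha).2
      simp only [adv_cons, adv_nil, Pi.add_apply, Lt.eff, sim2, e20, e21, e22, if_true, if_false,
        bz_true, bz_false, bz_not] at h
      have h' : y1 = y2 := bz_inj (by omega)
      subst h'
      exact ⟨y1, rfl⟩
    · rcases ys with _ | ⟨y0, _ | ⟨y1, _ | ⟨y2, _ | ⟨y3, _ | ⟨y4, _ | ⟨y5, _ | ⟨y6, _ |
        ⟨y7, ys⟩⟩⟩⟩⟩⟩⟩⟩ <;> simp at hlen
      simp only [List.getElem?_cons_zero, List.getElem?_cons_succ, Option.some.injEq] at hT
      obtain ⟨rfl, rfl, rfl, rfl⟩ := hT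
      have h := (hz a ha).2
      have k := (hz b hb).1
      simp only [adv_cons, adv_nil, Pi.add_apply, Lt.eff, sim0, sim2, e00, e01, e02, e20, e21, e22,
        if_true, if_false, bz_true, bz_false, bz_not] at h k
      have h' : y2 = y4 := bz_inj (by omega)
      have k' : y3 = y4 := bz_inj (by omega)
      subst h' k'
      exact ⟨_, rfl⟩

/-- the tight bits are tight on the new leaves -/
theorem newTight_blkBits (s : Bool) (st : ℕ → Bool) (ℓ : Lt) (z : Bool) :
    newTight s st ℓ (blkBits s st ℓ z) := by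
  cases ℓ with
  | leaf r c => cases hs : st r <;> simp [newTight, blkBits, hs]
  | br a b c d => cases hsa : st a <;> cases hsb : st b <;> simp [newTight, blkBits, hsa, hsb]

theorem sim_ok (N : Net) (s : Bool) (σ : St) (h : Ok N.R N.cap σ) :
    Ok N.step.R N.step.cap (sim N s σ) := by
  apply ok_step <;> intro q hq <;> have H := h q hq <;> obtain ⟨D1, D2⟩ := shift_facts N s q <;>
    simp only [sim0, sim1, sim2] <;>
    generalize (if s && !N.st q then (N.cap q : ℤ) else 0) = δ at * <;>
    (try split_ifs at D2 ⊢) <;> omega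

theorem sim_endTight (N : Net) (s : Bool) (σ : St) (h : Ok N.R N.cap σ) :
    EndTight N s (sim N s σ) := by
  intro q hq
  have H := h q hq
  refine ⟨sim0 N s σ q, sim2 N s σ q, fun hs => ?_⟩
  rw [sim1, hs]
  cases s
  · simpa using H.2
  · simpa using H.1

theorem ok_of_sim (N : Net) (s : Bool) (σ : St) (h : Ok N.step.R N.step.cap (sim N s σ))
    (ht : EndTight N s (sim N s σ)) : Ok N.R N.cap σ := by
  intro q hq
  have h1 := h (3 * q + 1) (by show 3 * q + 1 < 3 * N.R; omega)
  have h2 := (ht q hq).2.2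
  rw [cap1, sim1] at h1
  rw [sim1] at h2
  cases hs : N.st q
  · have h3 := h2 hs
    rw [hs] at h1 h3
    cases s
    · simp at h1 h3; omega
    · simp at h1 h3; omega
  · rw [hs] at h1
    simpa using h1

/-- the tight bits of the body -/
def bodyBits (s : Bool) (st : ℕ → Bool) : List Lt → List Bool → List Bool
  | ℓ :: w, z :: zs => blkBits s st ℓ z ++ bodyBits s st w zs
  | _, _ => []

/-- tightness of a path of the body, block by block -/
def BodyTight (N : Net) (s : Bool) : List Lt → List Bool → St → Prop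
  | [], _, _ => True
  | ℓ :: w, ys, σ =>
      newTight s N.st ℓ (ys.take (blk N.st ℓ).length) ∧
      barTight s N.st ℓ (fin ((blk N.st ℓ).take (mainIdx N.st ℓ)) (ys.take (mainIdx N.st ℓ)) σ) ∧
      EndTight N s (fin (blk N.st ℓ) (ys.take (blk N.st ℓ).length) σ) ∧
      BodyTight N s w (ys.drop (blk N.st ℓ).length)
        (fin (blk N.st ℓ) (ys.take (blk N.st ℓ).length) σ)

theorem bodyBits_length (s : Bool) (st : ℕ → Bool) (w : List Lt) (zs : List Bool)
    (h : zs.length = w.length) :
    (bodyBits s st w zs).length = (w.flatMap (blk st)).length := by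
  induction w generalizing zs with
  | nil => cases zs <;> simp [bodyBits]
  | cons ℓ w ih =>
    cases zs with
    | nil => simp at h
    | cons z zs =>
      simp only [bodyBits, List.length_append, List.flatMap_cons, blkBits_length]
      rw [ih zs (by simpa using h)]

/-- **up**: a path of the old word gives a tight path of the body -/
theorem body_up (N : Net) (s : Bool) (w : List Lt) (hw : ∀ ℓ ∈ w, ℓ.WF N.R N.cap)
    (zv : List Bool) (σ : St) (h0 : Ok N.R N.cap σ) (hp : Path N.R N.cap w zv σ) :
    Path N.step.R N.step.cap (w.flatMap (blk N.st)) (bodyBits s N.st w zv) (sim N s σ) ∧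
      BodyTight N s w (bodyBits s N.st w zv) (sim N s σ) ∧
      fin (w.flatMap (blk N.st)) (bodyBits s N.st w zv) (sim N s σ) = sim N s (fin w zv σ) := by
  induction w generalizing zv σ with
  | nil =>
    cases zv with
    | nil => exact ⟨trivial, trivial, rfl⟩
    | cons z zv => simp [Path] at hp
  | cons ℓ w ih =>
    cases zv with
    | nil => simp [Path] at hp
    | cons z zv =>
      obtain ⟨h1, h2⟩ := hp
      have hℓ := hw ℓ List.mem_cons_self
      obtain ⟨i1, i2, i3⟩ := ih (fun x hx => hw x (List.mem_cons_of_mem _ hx)) zv _ h1 h2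
      have hf := blk_fin N ℓ hℓ s z σ
      have hl := blkBits_length s N.st ℓ z
      have htake : (blkBits s N.st ℓ z ++ bodyBits s N.st w zv).take (blk N.st ℓ).length
          = blkBits s N.st ℓ z := by
        rw [← hl, List.take_left']; rfl
      have hdrop : (blkBits s N.st ℓ z ++ bodyBits s N.st w zv).drop (blk N.st ℓ).length
          = bodyBits s N.st w zv := by
        rw [← hl, List.drop_left']; rfl
      have hmain : (blkBits s N.st ℓ z ++ bodyBits s N.st w zv).take (mainIdx N.st ℓ)
          = (blkBits s N.st ℓ z).take (mainIdx N.st ℓ) := by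
        rw [List.take_append_of_le_length]
        rw [hl]; exact (mainIdx_lt N.st ℓ).le
      simp only [bodyBits, List.flatMap_cons, BodyTight]
      rw [path_append _ _ _ _ _ _ _ hl, fin_append _ _ _ _ _ hl, htake, hdrop, hmain, hf]
      refine ⟨⟨blk_path N ℓ hℓ s z σ h0 h1, i1⟩, ⟨newTight_blkBits s N.st ℓ z, ?_, ?_, i2⟩, i3⟩
      · exact blk_bar N ℓ hℓ s z σ
      · exact sim_endTight N s _ h1

/-- the last state of a (nonempty) path is within the capacities -/
theorem path_fin_ok {R : ℕ} {cap : ℕ → ℕ} {w : List Lt} {zs : List Bool} {σ : St}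
    (h : Path R cap w zs σ) (hne : w ≠ []) : Ok R cap (fin w zs σ) := by
  induction w generalizing zs σ with
  | nil => exact absurd rfl hne
  | cons ℓ w ih =>
    cases zs with
    | nil => simp [Path] at h
    | cons z zs =>
      obtain ⟨h1, h2⟩ := h
      show Ok R cap (fin w zs (σ + ℓ.eff z))
      cases w with
      | nil =>
        cases zs with
        | nil => exact h1
        | cons z' zs => simp [Path] at h2
      | cons ℓ' w => exact ih h2 (by simp)

theorem blk_ne_nil (st : ℕ → Bool) (ℓ : Lt) : blk st ℓ ≠ [] := by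
  have := blk_length_pos st ℓ
  intro h
  rw [h] at this
  simp at this

/-- **down**: every tight path of the body comes from a path of the old word -/
theorem body_down (N : Net) (s : Bool) (w : List Lt) (hw : ∀ ℓ ∈ w, ℓ.WF N.R N.cap)
    (ys : List Bool) (σ : St)
    (hp : Path N.step.R N.step.cap (w.flatMap (blk N.st)) ys (sim N s σ))
    (ht : BodyTight N s w ys (sim N s σ)) :
    ∃ zv, Path N.R N.cap w zv σ ∧ ys = bodyBits s N.st w zv ∧
      fin (w.flatMap (blk N.st)) ys (sim N s σ) = sim N s (fin w zv σ) := by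
  induction w generalizing ys σ with
  | nil =>
    cases ys with
    | nil => exact ⟨[], trivial, rfl, rfl⟩
    | cons y ys => simp [Path] at hp
  | cons ℓ w ih =>
    have hℓ := hw ℓ List.mem_cons_self
    rw [List.flatMap_cons] at hp
    obtain ⟨y1, y2, rfl, l1, l2⟩ := path_append_split hp
    rw [path_append _ _ _ _ _ _ _ l1] at hp
    obtain ⟨p1, p2⟩ := hp
    have htake : (y1 ++ y2).take (blk N.st ℓ).length = y1 := by
      rw [← l1, List.take_left']; rfl
    have hdrop : (y1 ++ y2).drop (blk N.st ℓ).length = y2 := by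
      rw [← l1, List.drop_left']; rfl
    simp only [BodyTight] at ht
    rw [htake, hdrop] at ht
    obtain ⟨t1, -, t3, t4⟩ := ht
    obtain ⟨z, rfl⟩ := blk_down' N ℓ hℓ s y1 σ l1 t1 (fun q hq => ⟨(t3 q hq).1, (t3 q hq).2.1⟩)
    have hf := blk_fin N ℓ hℓ s z σ
    have hok := path_fin_ok p1 (blk_ne_nil N.st ℓ)
    rw [hf] at p2 t3 t4 hok
    have h1 : Ok N.R N.cap (σ + ℓ.eff z) := ok_of_sim N s _ hok t3
    obtain ⟨zv, q1, q2, q3⟩ := ih (fun x hx => hw x (List.mem_cons_of_mem _ hx)) y2 _ p2 t4
    refine ⟨z :: zv, ⟨h1, q1⟩, by rw [q2]; rfl, ?_⟩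
    rw [List.flatMap_cons, fin_append _ _ _ _ _ l1, hf, q3]
    rfl

/-- used bits of the body -/
theorem body_used (s : Bool) (st : ℕ → Bool) (w : List Lt) (zv : List Bool)
    (h : zv.length = w.length) :
    usedL (w.flatMap (blk st)) (bodyBits s st w zv) = bodyUsed s st w (usedL w zv) := by
  induction w generalizing zv with
  | nil => cases zv <;> simp [usedL, bodyUsed, bodyBits]
  | cons ℓ w ih =>
    cases zv with
    | nil => simp at h
    | cons z zv =>
      simp only [bodyBits, List.flatMap_cons]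
      rw [usedL_append _ _ _ _ (blkBits_length s st ℓ z).symm, blk_used,
        ih zv (by simpa using h)]
      rfl

end TW
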