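import Pool.Agent.RN.LevelA

/-!
# RN2: START and END blocks of the step word (helper82)

`ends N true` (START, bits `!s`) leads from the state `0` to the tight state of `0`, `ends N false`
(END, bits `s`) leads back; the bits are forced by tightness.
-/

set_option autoImplicit false

namespace TW

open Finset

/-- the tight state of sign `s` belonging to the old state `σ` (same as helper74's `sim`) -/
def simE (N : Net) (s : Bool) (σ : St) : St := fun i =>
  if i % 3 = 1 then σ (i / 3) + (if s && !N.st (i / 3) then (N.cap (i / 3) : ℤ) else 0) else 0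

/-- number of letters touching row `i` in a list of leaves -/
def leafCnt (w : List Lt) (c : Bool) (i : ℕ) : ℤ := (w.count (Lt.leaf i c) : ℤ)

theorem fin_leaves (c z : Bool) : ∀ (w : List Lt) (σ : St), (∀ l ∈ w, ∃ r, l = Lt.leaf r c) →
    fin w (List.replicate w.length z) σ = fun i => σ i + (bz c - bz z) * leafCnt w c i := by
  intro w
  induction w with
  | nil => intro σ _; funext i; simp [fin, leafCnt]
  | cons l w ih =>
    intro σ hw
    obtain ⟨r, rfl⟩ := hw l List.mem_cons_self
    simp only [List.length_cons, List.replicate_succ, fin]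
    rw [ih _ fun l hl => hw l (List.mem_cons_of_mem _ hl)]
    funext i
    simp only [Pi.add_apply, Lt.eff, leafCnt, List.count_cons]
    by_cases h : i = r
    · subst h; simp; ring
    · have h' : ¬ (r = i) := fun e => h e.symm
      simp [h, h']

theorem leafCnt_nonneg (w : List Lt) (c : Bool) (i : ℕ) : 0 ≤ leafCnt w c i := by
  unfold leafCnt; positivity

theorem path_leaves (R : ℕ) (cap : ℕ → ℕ) (c z : Bool) : ∀ (w : List Lt) (σ : St),
    (∀ l ∈ w, ∃ r, l = Lt.leaf r c) → Ok R cap σ →
    Ok R cap (fin w (List.replicate w.length z) σ) →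
    Path R cap w (List.replicate w.length z) σ := by
  intro w
  induction w with
  | nil => intro σ _ _ _; simp [Path]
  | cons l w ih =>
    intro σ hw h0 h1
    have hw' : ∀ l ∈ w, ∃ r, l = Lt.leaf r c := fun l hl => hw l (List.mem_cons_of_mem _ hl)
    obtain ⟨r, rfl⟩ := hw l List.mem_cons_self
    simp only [List.length_cons, List.replicate_succ, fin, Path] at h1 ⊢
    have hmid : Ok R cap (σ + (Lt.leaf r c).eff z) := by
      rw [fin_leaves c z w _ hw'] at h1
      intro i hi
      have a := h0 i hi
      have b := h1 i hi
      have hc := leafCnt_nonneg w c i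
      simp only [Pi.add_apply, Lt.eff] at a b ⊢
      rcases c with _ | _ <;> rcases z with _ | _ <;>
        simp only [bz, Bool.false_eq_true, if_false, if_true] at a b ⊢ <;>
        constructor <;> split_ifs at a b ⊢ <;> nlinarith
    exact ⟨hmid, ih _ hw' hmid h1⟩

theorem ends_leaf (N : Net) (c : Bool) : ∀ l ∈ ends N c, ∃ r, l = Lt.leaf r c := by
  intro l hl
  simp only [ends, List.mem_flatMap, List.mem_range] at hl
  obtain ⟨r, _, hr⟩ := hl
  split_ifs at hr with h
  · simp at hr
  · exact ⟨_, (List.mem_replicate.mp hr).2⟩

theorem ends_isLeaf (N : Net) (c : Bool) : ∀ l ∈ ends N c, l.isLeaf = true := by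
  intro l hl
  obtain ⟨r, rfl⟩ := ends_leaf N c l hl
  rfl

theorem count_flat (N : Net) (c : Bool) (i : ℕ) (n : ℕ) :
    ((List.range n).flatMap fun r =>
      if N.st r then [] else List.replicate (N.cap r) (Lt.leaf (3 * r + 1) c)).count (Lt.leaf i c)
      = if i % 3 = 1 ∧ N.st (i / 3) = false ∧ i / 3 < n then N.cap (i / 3) else 0 := by
  induction n with
  | zero => simp
  | succ n ih =>
    rw [List.range_succ, List.flatMap_append, List.count_append, ih]
    simp only [List.flatMap_cons, List.flatMap_nil, List.append_nil]
    by_cases hst : N.st n = true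
    · rw [if_pos hst]
      simp only [List.count_nil, add_zero]
      by_cases h1 : i % 3 = 1 ∧ N.st (i / 3) = false ∧ i / 3 < n
      · rw [if_pos h1, if_pos ⟨h1.1, h1.2.1, by omega⟩]
      · rw [if_neg h1, if_neg]
        rintro ⟨a, b, c'⟩
        apply h1
        refine ⟨a, b, ?_⟩
        rcases Nat.lt_succ_iff_lt_or_eq.mp c' with h | h
        · exact h
        · rw [h] at b; rw [b] at hst; exact absurd hst (by simp)
    · rw [if_neg hst]
      have hst' : N.st n = false := by simpa using hst
      by_cases hi : i = 3 * n + 1
      · have e1 : i / 3 = n := by omega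
        have e2 : i % 3 = 1 := by omega
        rw [hi, List.count_replicate_self]
        have e1' : (3 * n + 1) / 3 = n := by omega
        have e2' : (3 * n + 1) % 3 = 1 := by omega
        rw [e1', e2', if_neg (by omega), if_pos ⟨rfl, hst', by omega⟩]
        simp
      · have hne : ¬ (Lt.leaf (3 * n + 1) c == Lt.leaf i c) = true := by
          intro hh
          have := eq_of_beq hh
          injection this with h1 h2
          exact hi h1.symm
        rw [List.count_replicate, if_neg hne, add_zero]
        by_cases h1 : i % 3 = 1 ∧ N.st (i / 3) = false ∧ i / 3 < n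
        · rw [if_pos h1, if_pos ⟨h1.1, h1.2.1, by omega⟩]
        · rw [if_neg h1, if_neg]
          rintro ⟨a, b, c'⟩
          apply h1
          refine ⟨a, b, ?_⟩
          rcases Nat.lt_succ_iff_lt_or_eq.mp c' with h | h
          · exact h
          · omega

theorem leafCnt_ends (N : Net) (h : N.WF) (c : Bool) (i : ℕ) :
    leafCnt (ends N c) c i
      = if i % 3 = 1 ∧ N.st (i / 3) = false then (N.cap (i / 3) : ℤ) else 0 := by
  unfold leafCnt ends
  rw [count_flat]
  by_cases h1 : i / 3 < N.R
  · by_cases h2 : i % 3 = 1 ∧ N.st (i / 3) = false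
    · rw [if_pos ⟨h2.1, h2.2, h1⟩, if_pos h2]
    · rw [if_neg (fun hh => h2 ⟨hh.1, hh.2.1⟩), if_neg h2]; rfl
  · have h0 : N.cap (i / 3) = 0 := h.cap_out _ (by omega)
    rw [if_neg (fun hh => h1 hh.2.2), h0]
    simp

/-- the state after `ends N c` with all bits equal to `z` -/
theorem fin_ends (N : Net) (h : N.WF) (c z : Bool) (σ : St) :
    fin (ends N c) (List.replicate (ends N c).length z) σ = fun i => σ i + (bz c - bz z) *
      (if i % 3 = 1 ∧ N.st (i / 3) = false then (N.cap (i / 3) : ℤ) else 0) := by
  rw [fin_leaves c z _ σ (ends_leaf N c)]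
  funext i
  rw [leafCnt_ends N h]

theorem simE_ok (N : Net) (s : Bool) (σ : St) (hσ : Ok N.R N.cap σ) :
    Ok N.step.R N.step.cap (simE N s σ) := by
  intro i hi
  have hi' : i < 3 * N.R := hi
  obtain ⟨q, hq⟩ := row_cases i
  rcases hq with rfl | rfl | rfl
  · have : simE N s σ (3 * q) = 0 := by
      unfold simE; rw [if_neg (by omega)]
    rw [this]; exact ⟨le_rfl, by positivity⟩
  · have hσq := hσ q (by omega)
    have : simE N s σ (3 * q + 1) = σ q + (if s && !N.st q then (N.cap q : ℤ) else 0) := by
      unfold simE
      rw [if_pos (by omega), show (3 * q + 1) / 3 = q by omega]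
    rw [this, cap1]
    rcases hst : N.st q with _ | _ <;> rcases s with _ | _ <;> simp <;> omega
  · have : simE N s σ (3 * q + 2) = 0 := by
      unfold simE; rw [if_neg (by omega)]
    rw [this]; exact ⟨le_rfl, by positivity⟩

theorem ok_zero (R : ℕ) (cap : ℕ → ℕ) : Ok R cap 0 := fun _ _ => ⟨le_rfl, by positivity⟩

/-- START: from `0` to the tight state of `0` -/
theorem start_fin (N : Net) (h : N.WF) (s : Bool) :
    fin (ends N true) (List.replicate (ends N true).length (!s)) 0 = simE N s 0 := by
  rw [fin_ends N h]
  funext i
  unfold simE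
  rcases s with _ | _ <;> rcases N.st (i / 3) with _ | _ <;> by_cases h1 : i % 3 = 1 <;>
    simp [bz, h1]

/-- END: from the tight state of `0` to `0` -/
theorem end_fin (N : Net) (h : N.WF) (s : Bool) :
    fin (ends N false) (List.replicate (ends N false).length s) (simE N s 0) = 0 := by
  rw [fin_ends N h]
  funext i
  unfold simE
  rcases s with _ | _ <;> rcases N.st (i / 3) with _ | _ <;> by_cases h1 : i % 3 = 1 <;>
    simp [bz, h1]

theorem start_path (N : Net) (h : N.WF) (s : Bool) :
    Path N.step.R N.step.cap (ends N true) (List.replicate (ends N true).length (!s)) 0 := by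
  refine path_leaves _ _ true (!s) _ 0 (ends_leaf N true) (ok_zero _ _) ?_
  rw [start_fin N h]
  exact simE_ok N s 0 (ok_zero _ _)

theorem end_path (N : Net) (h : N.WF) (s : Bool) :
    Path N.step.R N.step.cap (ends N false) (List.replicate (ends N false).length s)
      (simE N s 0) := by
  refine path_leaves _ _ false s _ _ (ends_leaf N false) (simE_ok N s 0 (ok_zero _ _)) ?_
  rw [end_fin N h]
  exact ok_zero _ _

/-- converse for END: if the final state is `0` then the state before END is the tight state of
`0` -/
theorem end_back (N : Net) (h : N.WF) (s : Bool) (σ : St)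
    (h0 : ∀ r < N.step.R, fin (ends N false) (List.replicate (ends N false).length s) σ r = 0) :
    ∀ r < N.step.R, σ r = simE N s 0 r := by
  intro r hr
  have := h0 r hr
  rw [fin_ends N h] at this
  simp only at this
  unfold simE
  rcases s with _ | _ <;> rcases hst : N.st (r / 3) with _ | _ <;> by_cases h1 : r % 3 = 1 <;>
    simp [bz, h1, hst] at this ⊢ <;> omega

/-! ### tightness of appended lists -/

theorem tight_append (s : Bool) (L L' : List TE) (zs zs' : List Bool) (σ : St)
    (h : zs.length = L.length) :
    Tight s (L ++ L') (zs ++ zs') σ ↔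
      Tight s L zs σ ∧ Tight s L' zs' (fin (L.map TE.lt) zs σ) := by
  induction L generalizing zs σ with
  | nil =>
    have : zs = [] := List.length_eq_zero_iff.1 h
    subst this; simp [Tight, fin]
  | cons e L ih =>
    cases zs with
    | nil => simp at h
    | cons z zs =>
      simp only [List.cons_append, Tight, List.map_cons, fin]
      rw [ih _ _ (by simpa using h)]
      tauto

/-- forced bits -/
theorem tight_forced (s b : Bool) (L : List TE) (hL : ∀ e ∈ L, ∀ z, e.bc s z → z = b)
    (zs : List Bool) (σ : St) (hlen : zs.length = L.length) (h : Tight s L zs σ) :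
    zs = List.replicate L.length b := by
  induction L generalizing zs σ with
  | nil => simpa using List.length_eq_zero_iff.1 hlen
  | cons e L ih =>
    cases zs with
    | nil => simp at hlen
    | cons z zs =>
      obtain ⟨h1, _, h3⟩ : e.bc s z ∧ e.gc s (σ + e.lt.eff z) ∧ Tight s L zs (σ + e.lt.eff z) := h
      rw [List.length_cons, List.replicate_succ, hL e List.mem_cons_self z h1,
        ih (fun x hx => hL x (List.mem_cons_of_mem _ hx)) zs _ (by simpa using hlen) h3]

/-- forced bits are tight when the gaps are free -/
theorem tight_replicate (s b : Bool) (L : List TE)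
    (hL : ∀ e ∈ L, e.bc s b ∧ ∀ σ, e.gc s σ) (σ : St) :
    Tight s L (List.replicate L.length b) σ := by
  induction L generalizing σ with
  | nil => simp [Tight]
  | cons e L ih =>
    rw [List.length_cons, List.replicate_succ]
    exact ⟨(hL e List.mem_cons_self).1, (hL e List.mem_cons_self).2 _,
      ih (fun x hx => hL x (List.mem_cons_of_mem _ hx)) _⟩

/-- no cost on letters without costs -/
theorem tc_zero (R : ℕ) (a : TE → ℝ) (f : TE → ℕ → ℤ → ℝ) (L : List TE)
    (hL : ∀ e ∈ L, a e = 0 ∧ ∀ r k, f e r k = 0) (zs : List Bool) (σ : St) :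
    tc R a f L zs σ = 0 := by
  induction L generalizing zs σ with
  | nil => cases zs <;> rfl
  | cons e L ih =>
    cases zs with
    | nil => rfl
    | cons z zs =>
      simp only [tc]
      rw [ih fun x hx => hL x (List.mem_cons_of_mem _ hx)]
      have h := hL e List.mem_cons_self
      simp [h.1, h.2]

/-- used bits of a list of leaves with constant bits -/
theorem used_leaves (b : Bool) (w : List Ev) (hw : ∀ e ∈ w, e.lt.isLeaf = true) :
    used w (List.replicate w.length b) = List.replicate w.length b := by
  unfold used
  induction w with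
  | nil => rfl
  | cons e w ih =>
    rw [List.length_cons, List.replicate_succ, List.zipWith_cons_cons,
      ih fun x hx => hw x (List.mem_cons_of_mem _ hx), hw e List.mem_cons_self, Bool.true_and]

theorem used_append (w w' : List Ev) (zs zs' : List Bool) (h : zs.length = w.length) :
    used (w ++ w') (zs ++ zs') = used w zs ++ used w' zs' := by
  unfold used
  exact List.zipWith_append h.symm

end TW
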