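import Pool.Agent.RN.LevelA

/-!
# Level lemma, part B: the annotated step word, all events are fine

Potentials: static rows `s0`; young rows the height `x` of the old letter on its whole block
(first height on the START letters, `top` on the END letters); new rows `s0`, except `x` from the
main letter to the end of a block which touches them.
-/

set_option autoImplicit false

namespace TW

open Finset

/-- positive part -/
def jp (m : ℕ) (k : ℤ) : ℤ := max (k - m) 0

/-- potentials outside -/
noncomputable def PY (N : Net) (s0 x : ℝ) (i : ℕ) : ℝ :=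
  if i % 3 = 1 ∧ N.st (i / 3) = false then x else s0

/-- converter rows touched by a letter -/
def cvr (st : ℕ → Bool) : Lt → ℕ → Bool
  | .leaf r _, i => st r && decide (i = 3 * r + 2)
  | .br a b _ _, i => (st a && decide (i = 3 * a + 2)) || (st b && decide (i = 3 * b))

/-- potentials from the main letter to the end of the block -/
noncomputable def PM (N : Net) (s0 x : ℝ) (ℓ : Lt) (i : ℕ) : ℝ :=
  if cvr N.st ℓ i = true then x else PY N s0 x i

theorem cvr_mod {st : ℕ → Bool} {ℓ : Lt} {i : ℕ} (h : cvr st ℓ i = true) : i % 3 ≠ 1 := by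
  cases ℓ with
  | leaf r c =>
    simp only [cvr, Bool.and_eq_true, decide_eq_true_eq] at h
    omega
  | br a b c d =>
    simp only [cvr, Bool.or_eq_true, Bool.and_eq_true, decide_eq_true_eq] at h
    omega

theorem PY_new (N : Net) (s0 x : ℝ) {i : ℕ} (h : i % 3 ≠ 1) : PY N s0 x i = s0 := by
  simp [PY, h]

/-- level gap costs: nothing -/
def fZ : ℕ → ℤ → ℝ := fun _ _ => 0

/-- level gap costs just before the main letter -/
noncomputable def fM (N : Net) (s0 x : ℝ) (ℓ : Lt) : ℕ → ℤ → ℝ := fun i k =>
  if cvr N.st ℓ i = true then (x - s0) * (jp 1 k : ℝ) else 0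

/-- level gap costs at the end of a block (`D = nxt - x`) -/
noncomputable def fE (N : Net) (D : ℝ) : ℕ → ℤ → ℝ := fun i k =>
  if i % 3 = 1 then (if N.st (i / 3) then 0 else D * (jp (N.cap (i / 3)) k : ℝ)) else (k : ℝ)

/-- transported old gap costs -/
noncomputable def fO (N : Net) (φ : ℕ → ℤ → ℝ) : ℕ → ℤ → ℝ := fun i k =>
  if i % 3 = 1 then
    (if N.st (i / 3) then φ (i / 3) k
      else φ (i / 3) (min k (N.cap (i / 3))) + φ (i / 3) (jp (N.cap (i / 3)) k))
  else 0

/-- tightness condition of one row just before the main letter -/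
def cM (N : Net) (ℓ : Lt) (s : Bool) (i : ℕ) (k : ℤ) : Prop :=
  cvr N.st ℓ i = true → (if s then 1 ≤ k else k ≤ 1)

/-- tightness condition of one row at the end of a block -/
def cE (N : Net) (s : Bool) (i : ℕ) (k : ℤ) : Prop :=
  if i % 3 = 1 then
    (N.st (i / 3) = false → (if s then (N.cap (i / 3) : ℤ) ≤ k else k ≤ (N.cap (i / 3) : ℤ)))
  else k = 0

def gT : Bool → St → Prop := fun _ _ => True

def gM (N : Net) (ℓ : Lt) : Bool → St → Prop := fun s σ => ∀ r < N.step.R, cM N ℓ s r (σ r)

def gE (N : Net) : Bool → St → Prop := fun s σ => ∀ r < N.step.R, cE N s r (σ r)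

/-- new `Q` leaf -/
noncomputable def tQ (s0 h : ℝ) (r : ℕ) (G : ℕ → ℝ) : TE where
  lt := .leaf r true
  a := (h - s0) / 2
  f := fZ
  a' := 0
  f' := fZ
  h := h
  G := G
  bc := fun s z => z = !s
  gc := gT

/-- new `P` leaf -/
noncomputable def tP (top h : ℝ) (r : ℕ) (G : ℕ → ℝ) (f f' : ℕ → ℤ → ℝ) (gc : Bool → St → Prop) :
    TE where
  lt := .leaf r false
  a := (h - top) / 2
  f := f
  a' := 0
  f' := f'
  h := h
  G := G
  bc := fun s z => z = s
  gc := gc

/-- free letter -/
noncomputable def tF (ℓ : Lt) (h : ℝ) (G : ℕ → ℝ) (f : ℕ → ℤ → ℝ) (a' : ℝ) (f' : ℕ → ℤ → ℝ)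
    (gc : Bool → St → Prop) : TE where
  lt := ℓ
  a := 0
  f := f
  a' := a'
  f' := f'
  h := h
  G := G
  bc := fun _ _ => True
  gc := gc

/-- the block of the old event `e` with height `x`, next height `nxt`, heights `hb` -/
noncomputable def tBlk (N : Net) (s0 top x nxt : ℝ) (e : Ev) (hb : List ℝ) : List TE :=
  match e.lt with
  | .leaf r c =>
      if N.st r then
        [tQ s0 (hb.getD 0 0) (3 * r + 2) (PY N s0 x),
         tF (.br (3 * r + 1) (3 * r + 2) c true) (hb.getD 1 0) (PY N s0 x)
           (fM N s0 x (.leaf r c)) 0 fZ (gM N (.leaf r c)),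
         tF (.leaf (3 * r + 2) false) (hb.getD 2 0) (PM N s0 x (.leaf r c)) fZ e.w fZ gT,
         tP top (hb.getD 3 0) (3 * r + 2) (PM N s0 x (.leaf r c)) (fE N (nxt - x)) (fO N e.φ)
           (gE N)]
      else
        [tF (.leaf (3 * r + 1) c) (hb.getD 0 0) (PM N s0 x (.leaf r c)) (fE N (nxt - x)) e.w
          (fO N e.φ) (gE N)]
  | .br a b c d =>
      if N.st a then
        if N.st b then
          [tQ s0 (hb.getD 0 0) (3 * a + 2) (PY N s0 x),
           tQ s0 (hb.getD 1 0) (3 * b) (PY N s0 x),
           tF (.br (3 * a + 1) (3 * a + 2) c true) (hb.getD 2 0) (PY N s0 x) fZ 0 fZ gT,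
           tF (.br (3 * b) (3 * b + 1) true d) (hb.getD 3 0) (PY N s0 x)
             (fM N s0 x (.br a b c d)) 0 fZ (gM N (.br a b c d)),
           tF (.br (3 * a + 2) (3 * b) false false) (hb.getD 4 0) (PM N s0 x (.br a b c d)) fZ
             e.w fZ gT,
           tP top (hb.getD 5 0) (3 * a + 2) (PM N s0 x (.br a b c d)) fZ fZ gT,
           tP top (hb.getD 6 0) (3 * b) (PM N s0 x (.br a b c d)) (fE N (nxt - x)) (fO N e.φ)
             (gE N)]
        else
          [tQ s0 (hb.getD 0 0) (3 * a + 2) (PY N s0 x),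
           tF (.br (3 * a + 1) (3 * a + 2) c true) (hb.getD 1 0) (PY N s0 x)
             (fM N s0 x (.br a b c d)) 0 fZ (gM N (.br a b c d)),
           tF (.br (3 * a + 2) (3 * b + 1) false d) (hb.getD 2 0) (PM N s0 x (.br a b c d)) fZ
             e.w fZ gT,
           tP top (hb.getD 3 0) (3 * a + 2) (PM N s0 x (.br a b c d)) (fE N (nxt - x))
             (fO N e.φ) (gE N)]
      else
        if N.st b then
          [tQ s0 (hb.getD 0 0) (3 * b) (PY N s0 x),
           tF (.br (3 * b) (3 * b + 1) true d) (hb.getD 1 0) (PY N s0 x)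
             (fM N s0 x (.br a b c d)) 0 fZ (gM N (.br a b c d)),
           tF (.br (3 * a + 1) (3 * b) c false) (hb.getD 2 0) (PM N s0 x (.br a b c d)) fZ
             e.w fZ gT,
           tP top (hb.getD 3 0) (3 * b) (PM N s0 x (.br a b c d)) (fE N (nxt - x))
             (fO N e.φ) (gE N)]
        else
          [tF (.br (3 * a + 1) (3 * b + 1) c d) (hb.getD 0 0) (PM N s0 x (.br a b c d))
            (fE N (nxt - x)) e.w (fO N e.φ) (gE N)]

/-- next height -/
def nx (top : ℝ) : List (Ev × ℝ × List ℝ) → ℝ
  | [] => top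
  | a :: _ => a.2.1

/-- all blocks; an item is (old event, height, heights of the block) -/
noncomputable def tBody (N : Net) (s0 top : ℝ) : List (Ev × ℝ × List ℝ) → List TE
  | [] => []
  | a :: A => tBlk N s0 top a.2.1 (nx top A) a.1 a.2.2 ++ tBody N s0 top A

/-- a START letter -/
noncomputable def tSt (s0 : ℝ) (G : ℕ → ℝ) (ℓ : Lt) (h : ℝ) : TE where
  lt := ℓ
  a := (h - s0) / 2
  f := fZ
  a' := 0
  f' := fZ
  h := h
  G := G
  bc := fun s z => z = !s
  gc := gT

/-- an END letter -/
noncomputable def tEn (top : ℝ) (G : ℕ → ℝ) (ℓ : Lt) (h : ℝ) : TE where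
  lt := ℓ
  a := (h - top) / 2
  f := fZ
  a' := 0
  f' := fZ
  h := h
  G := G
  bc := fun s z => z = s
  gc := gT

/-- START letters -/
noncomputable def tStart (s0 : ℝ) (G : ℕ → ℝ) (lts : List Lt) (hs : List ℝ) : List TE :=
  List.zipWith (tSt s0 G) lts hs

/-- END letters -/
noncomputable def tEnd (top : ℝ) (G : ℕ → ℝ) (lts : List Lt) (hs : List ℝ) : List TE :=
  List.zipWith (tEn top G) lts hs

/-- the annotated step word -/
noncomputable def tAll (N : Net) (s0 top : ℝ) (A : List (Ev × ℝ × List ℝ)) (hQ hP : List ℝ) :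
    List TE :=
  tStart s0 (PY N s0 (nx top A)) (ends N true) hQ ++ tBody N s0 top A ++
    tEnd top (PY N s0 top) (ends N false) hP

/-! ## letters -/

theorem tBlk_lt (N : Net) (s0 top x nxt : ℝ) (e : Ev) (hb : List ℝ) :
    (tBlk N s0 top x nxt e hb).map TE.lt = blk N.st e.lt := by
  unfold tBlk blk
  cases e.lt with
  | leaf r c => by_cases h : N.st r = true <;> simp [h, tQ, tF, tP]
  | br a b c d =>
    by_cases ha : N.st a = true <;> by_cases hb : N.st b = true <;> simp [ha, hb, tQ, tF, tP]

theorem tBody_lt (N : Net) (s0 top : ℝ) (A : List (Ev × ℝ × List ℝ)) :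
    (tBody N s0 top A).map TE.lt = (A.map (fun a => a.1.lt)).flatMap (blk N.st) := by
  induction A with
  | nil => rfl
  | cons a A ih => simp [tBody, tBlk_lt, ih]

theorem tStart_lt (s0 : ℝ) (G : ℕ → ℝ) (lts : List Lt) (hs : List ℝ)
    (h : hs.length = lts.length) : (tStart s0 G lts hs).map TE.lt = lts := by
  induction lts generalizing hs with
  | nil => simp [tStart]
  | cons ℓ lts ih =>
    cases hs with
    | nil => simp at h
    | cons y hs =>
      have := ih hs (by simpa using h)
      simp only [tStart] at this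
      simp [tStart, tSt, this]

theorem tEnd_lt (s0 : ℝ) (G : ℕ → ℝ) (lts : List Lt) (hs : List ℝ)
    (h : hs.length = lts.length) : (tEnd s0 G lts hs).map TE.lt = lts := by
  induction lts generalizing hs with
  | nil => simp [tEnd]
  | cons ℓ lts ih =>
    cases hs with
    | nil => simp at h
    | cons y hs =>
      have := ih hs (by simpa using h)
      simp only [tEnd] at this
      simp [tEnd, tEn, this]

theorem tStart_h (s0 : ℝ) (G : ℕ → ℝ) (lts : List Lt) (hs : List ℝ)
    (h : hs.length = lts.length) : (tStart s0 G lts hs).map TE.h = hs := by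
  induction lts generalizing hs with
  | nil =>
    have : hs = [] := List.length_eq_zero_iff.1 h
    simp [tStart, tSt, this]
  | cons ℓ lts ih =>
    cases hs with
    | nil => simp at h
    | cons y hs =>
      have := ih hs (by simpa using h)
      simp only [tStart] at this
      simp [tStart, tSt, this]

theorem tEnd_h (s0 : ℝ) (G : ℕ → ℝ) (lts : List Lt) (hs : List ℝ)
    (h : hs.length = lts.length) : (tEnd s0 G lts hs).map TE.h = hs := by
  induction lts generalizing hs with
  | nil =>
    have : hs = [] := List.length_eq_zero_iff.1 h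
    simp [tEnd, tEn, this]
  | cons ℓ lts ih =>
    cases hs with
    | nil => simp at h
    | cons y hs =>
      have := ih hs (by simpa using h)
      simp only [tEnd] at this
      simp [tEnd, tEn, this]

theorem tBlk_h (N : Net) (s0 top x nxt : ℝ) (e : Ev) (hb : List ℝ)
    (h : BlkHt N.st s0 top e.lt x hb) : (tBlk N s0 top x nxt e hb).map TE.h = hb := by
  unfold tBlk
  unfold BlkHt at h
  cases hl : e.lt with
  | leaf r c =>
    rw [hl] at h
    by_cases hr : N.st r = true
    · simp only [hr, if_true] at h ⊢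
      obtain ⟨q, b, p, rfl, _, _⟩ := h
      simp [tQ, tF, tP]
    · simp only [hr] at h ⊢
      simp only [Bool.false_eq_true, if_false] at h ⊢
      subst h
      simp [tF]
  | br a b c d =>
    rw [hl] at h
    by_cases ha : N.st a = true <;> by_cases hb' : N.st b = true
    · simp only [ha, hb', if_true] at h ⊢
      obtain ⟨q, q', b1, b2, p, p', rfl, _⟩ := h
      simp [tQ, tF, tP]
    · simp only [ha, hb', if_true] at h ⊢
      simp only [Bool.false_eq_true, if_false] at h ⊢
      obtain ⟨q, b1, p, rfl, _⟩ := h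
      simp [tQ, tF, tP]
    · simp only [ha, hb', if_true] at h ⊢
      simp only [Bool.false_eq_true, if_false] at h ⊢
      obtain ⟨q, b1, p, rfl, _⟩ := h
      simp [tQ, tF, tP]
    · simp only [ha, hb'] at h ⊢
      simp only [Bool.false_eq_true, if_false] at h ⊢
      subst h
      simp [tF]

/-- from the heights of the blocks to the annotated old word -/
theorem exists_ann (N : Net) (s0 top : ℝ) (ev : List Ev) (H h : List ℝ)
    (hb : BodyHt N.st s0 top (ev.map Ev.lt) H h) : ∃ A : List (Ev × ℝ × List ℝ),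
      A.map (fun a => a.1) = ev ∧ A.map (fun a => a.2.1) = H ∧
      (tBody N s0 top A).map TE.h = h ∧
      ∀ a ∈ A, BlkHt N.st s0 top a.1.lt a.2.1 a.2.2 := by
  induction ev generalizing H h with
  | nil =>
    cases H with
    | nil =>
      simp only [List.map_nil, BodyHt] at hb
      exact ⟨[], rfl, rfl, by simp [tBody, hb], by simp⟩
    | cons x H => simp [BodyHt] at hb
  | cons e ev ih =>
    cases H with
    | nil => simp [BodyHt] at hb
    | cons x H =>
      simp only [List.map_cons, BodyHt] at hb
      obtain ⟨hb1, h', rfl, hB, hrest⟩ := hb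
      obtain ⟨A, a1, a2, a3, a4⟩ := ih H h' hrest
      refine ⟨(e, x, hb1) :: A, by simp [a1], by simp [a2], ?_, ?_⟩
      · simp [tBody, tBlk_h N s0 top x (nx top A) e hb1 hB, a3]
      · intro a ha
        rcases List.mem_cons.1 ha with rfl | ha
        · exact hB
        · exact a4 a ha

end TW
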