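import Pool.Agent.RN.Body
import Pool.Agent.RN.LevelB
import Pool.Agent.RN.Ends

/-!
# RN3 / T1: the body of the annotated step word

`Tight s (tBody N s0 top A) ys σ` is `BodyTight`, hence the tight paths of the body are exactly
`bodyBits s N.st w zv` for the paths `zv` of the old word.
-/

set_option autoImplicit false
set_option linter.unusedSimpArgs false
set_option linter.unusedTactic false
set_option linter.unreachableTactic false

namespace TW

open Finset

theorem gM_iff (N : Net) (ℓ : Lt) (hℓ : ℓ.WF N.R N.cap) (s : Bool) (σ : St) :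
    gM N ℓ s σ ↔ barTight s N.st ℓ σ := by
  have hR : N.step.R = 3 * N.R := rfl
  cases ℓ with
  | leaf r c =>
    have hr : r < N.R := hℓ.1
    constructor
    · intro h hs
      exact h (3 * r + 2) (by rw [hR]; omega) (by simp [cvr, hs])
    · intro h i _ hc
      simp only [cvr, Bool.and_eq_true, decide_eq_true_eq] at hc
      obtain ⟨h1, rfl⟩ := hc
      exact h h1
  | br a b c d =>
    have hb : b < N.R := hℓ.2.1
    have ha : a < N.R := lt_trans hℓ.1 hb
    constructor
    · intro h
      exact ⟨fun hs => h (3 * a + 2) (by rw [hR]; omega) (by simp [cvr, hs]),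
        fun hs => h (3 * b) (by rw [hR]; omega) (by simp [cvr, hs])⟩
    · intro h i _ hc
      simp only [cvr, Bool.or_eq_true, Bool.and_eq_true, decide_eq_true_eq] at hc
      rcases hc with ⟨h1, rfl⟩ | ⟨h1, rfl⟩
      · exact h.1 h1
      · exact h.2 h1

theorem gE_iff (N : Net) (s : Bool) (σ : St) : gE N s σ ↔ EndTight N s σ := by
  have hR : N.step.R = 3 * N.R := rfl
  constructor
  · intro h q hq
    have h0 := h (3 * q) (by rw [hR]; omega)
    have h1 := h (3 * q + 1) (by rw [hR]; omega)
    have h2 := h (3 * q + 2) (by rw [hR]; omega)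
    simp only [cE] at h0 h1 h2
    rw [if_neg (by omega)] at h0 h2
    rw [if_pos (by omega), show (3 * q + 1) / 3 = q by omega] at h1
    exact ⟨h0, h2, h1⟩
  · intro h i hi
    obtain ⟨q, hq⟩ := row_cases i
    have H := h q (by omega)
    unfold cE
    rcases hq with rfl | rfl | rfl
    · rw [if_neg (by omega)]; exact H.1
    · rw [if_pos (by omega), show (3 * q + 1) / 3 = q by omega]; exact H.2.2
    · rw [if_neg (by omega)]; exact H.2.1

/-- tightness of one block -/
theorem tight_blk (N : Net) (s : Bool) (s0 top x nxt : ℝ) (e : Ev) (hb : List ℝ)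
    (hℓ : e.lt.WF N.R N.cap) (ys : List Bool) (σ : St)
    (hl : ys.length = (blk N.st e.lt).length) :
    Tight s (tBlk N s0 top x nxt e hb) ys σ ↔
      newTight s N.st e.lt ys ∧
      barTight s N.st e.lt (fin ((blk N.st e.lt).take (mainIdx N.st e.lt))
        (ys.take (mainIdx N.st e.lt)) σ) ∧
      EndTight N s (fin (blk N.st e.lt) ys σ) := by
  rw [← gM_iff N e.lt hℓ, ← gE_iff]
  unfold tBlk
  cases hlt : e.lt with
  | leaf r c =>
    rw [hlt] at hl hℓ
    have htriv : N.st r = false → ∀ τ, gM N (.leaf r c) s τ := by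
      intro hs τ i _ hc
      simp [cvr, hs] at hc
    cases hs : N.st r <;>
      simp only [blk, newTight, mainIdx, hs, if_true, Bool.false_eq_true, if_false] at hl ⊢
    · rcases ys with _ | ⟨y0, _ | ⟨y1, ys⟩⟩ <;> simp at hl
      have := htriv hs (fin ((blk N.st (.leaf r c)).take 0) ([y0].take 0) σ)
      simp only [Tight, tF, fin, List.take_zero, true_and, and_true]
      have h2 := htriv hs σ
      tauto
    · rcases ys with _ | ⟨y0, _ | ⟨y1, _ | ⟨y2, _ | ⟨y3, _ | ⟨y4, ys⟩⟩⟩⟩⟩ <;> simp at hl
      simp only [Tight, tF, tQ, tP, gT, fin, List.take_zero, List.take_succ_cons, true_and,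
        and_true, List.getElem?_cons_zero, List.getElem?_cons_succ, Option.some.injEq]
      tauto
  | br a b c d =>
    rw [hlt] at hl hℓ
    have htriv : N.st a = false → N.st b = false → ∀ τ, gM N (.br a b c d) s τ := by
      intro hs hs' τ i _ hc
      simp [cvr, hs, hs'] at hc
    cases hsa : N.st a <;> cases hsb : N.st b <;>
      simp only [blk, newTight, mainIdx, hsa, hsb, if_true, Bool.false_eq_true, if_false] at hl ⊢
    · rcases ys with _ | ⟨y0, _ | ⟨y1, ys⟩⟩ <;> simp at hl
      simp only [Tight, tF, fin, List.take_zero, true_and, and_true]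
      have h2 := htriv hsa hsb σ
      tauto
    · rcases ys with _ | ⟨y0, _ | ⟨y1, _ | ⟨y2, _ | ⟨y3, _ | ⟨y4, ys⟩⟩⟩⟩⟩ <;> simp at hl
      simp only [Tight, tF, tQ, tP, gT, fin, List.take_zero, List.take_succ_cons, true_and,
        and_true, List.getElem?_cons_zero, List.getElem?_cons_succ, Option.some.injEq]
      tauto
    · rcases ys with _ | ⟨y0, _ | ⟨y1, _ | ⟨y2, _ | ⟨y3, _ | ⟨y4, ys⟩⟩⟩⟩⟩ <;> simp at hl
      simp only [Tight, tF, tQ, tP, gT, fin, List.take_zero, List.take_succ_cons, true_and,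
        and_true, List.getElem?_cons_zero, List.getElem?_cons_succ, Option.some.injEq]
      tauto
    · rcases ys with _ | ⟨y0, _ | ⟨y1, _ | ⟨y2, _ | ⟨y3, _ | ⟨y4, _ | ⟨y5, _ | ⟨y6, _ |
        ⟨y7, ys⟩⟩⟩⟩⟩⟩⟩⟩ <;> simp at hl
      simp only [Tight, tF, tQ, tP, gT, fin, List.take_zero, List.take_succ_cons, true_and,
        and_true, List.getElem?_cons_zero, List.getElem?_cons_succ, Option.some.injEq]
      tauto

theorem tBlk_length (N : Net) (s0 top x nxt : ℝ) (e : Ev) (hb : List ℝ) :
    (tBlk N s0 top x nxt e hb).length = (blk N.st e.lt).length := by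
  rw [← tBlk_lt N s0 top x nxt e hb, List.length_map]

/-- tightness of the body -/
theorem tight_body (N : Net) (s : Bool) (s0 top : ℝ) (A : List (Ev × ℝ × List ℝ))
    (hA : ∀ a ∈ A, a.1.lt.WF N.R N.cap) (ys : List Bool) (σ : St)
    (hl : ys.length = ((A.map (fun a => a.1.lt)).flatMap (blk N.st)).length) :
    Tight s (tBody N s0 top A) ys σ ↔ BodyTight N s (A.map (fun a => a.1.lt)) ys σ := by
  induction A generalizing ys σ with
  | nil =>
    simp only [List.map_nil, BodyTight, tBody, iff_true]
    cases ys <;> simp [Tight]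
  | cons a A ih =>
    simp only [List.map_cons, List.flatMap_cons, List.length_append] at hl
    have hs : ys = ys.take (blk N.st a.1.lt).length ++ ys.drop (blk N.st a.1.lt).length :=
      (List.take_append_drop _ _).symm
    have l1 : (ys.take (blk N.st a.1.lt).length).length = (blk N.st a.1.lt).length := by
      rw [List.length_take]; omega
    have l2 : (ys.drop (blk N.st a.1.lt).length).length =
        ((A.map (fun a => a.1.lt)).flatMap (blk N.st)).length := by
      rw [List.length_drop]; omega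
    have hm : (ys.take (blk N.st a.1.lt).length).take (mainIdx N.st a.1.lt)
        = ys.take (mainIdx N.st a.1.lt) := by
      rw [List.take_take, min_eq_left (mainIdx_lt N.st a.1.lt).le]
    have h1 := tight_blk N s s0 top a.2.1 (nx top A) a.1 a.2.2 (hA a List.mem_cons_self)
      (ys.take (blk N.st a.1.lt).length) σ l1
    rw [hm] at h1
    have h2 := ih (fun x hx => hA x (List.mem_cons_of_mem _ hx))
      (ys.drop (blk N.st a.1.lt).length)
      (fin (blk N.st a.1.lt) (ys.take (blk N.st a.1.lt).length) σ) l2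
    have h3 : Tight s (tBody N s0 top (a :: A)) ys σ ↔
        Tight s (tBlk N s0 top a.2.1 (nx top A) a.1 a.2.2)
          (ys.take (blk N.st a.1.lt).length) σ ∧
        Tight s (tBody N s0 top A) (ys.drop (blk N.st a.1.lt).length)
          (fin (blk N.st a.1.lt) (ys.take (blk N.st a.1.lt).length) σ) := by
      conv_lhs => rw [hs]
      rw [tBody, tight_append s _ _ _ _ σ (by rw [l1, tBlk_length]), tBlk_lt]
    rw [h3, h1, h2]
    simp only [List.map_cons, BodyTight]
    tauto

/-- **T1 up** -/
theorem tBody_up (N : Net) (s : Bool) (s0 top : ℝ) (A : List (Ev × ℝ × List ℝ))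
    (hA : ∀ a ∈ A, a.1.lt.WF N.R N.cap) (zv : List Bool) (σ : St) (h0 : Ok N.R N.cap σ)
    (hp : Path N.R N.cap (A.map (fun a => a.1.lt)) zv σ) :
    Path N.step.R N.step.cap ((A.map (fun a => a.1.lt)).flatMap (blk N.st))
        (bodyBits s N.st (A.map (fun a => a.1.lt)) zv) (sim N s σ) ∧
      Tight s (tBody N s0 top A) (bodyBits s N.st (A.map (fun a => a.1.lt)) zv) (sim N s σ) ∧
      fin ((A.map (fun a => a.1.lt)).flatMap (blk N.st))
        (bodyBits s N.st (A.map (fun a => a.1.lt)) zv) (sim N s σ) =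
          sim N s (fin (A.map (fun a => a.1.lt)) zv σ) := by
  have hw : ∀ ℓ ∈ A.map (fun a => a.1.lt), ℓ.WF N.R N.cap := by
    intro ℓ hℓ
    obtain ⟨a, ha, rfl⟩ := List.mem_map.1 hℓ
    exact hA a ha
  obtain ⟨h1, h2, h3⟩ := body_up N s (A.map (fun a => a.1.lt)) hw zv σ h0 hp
  refine ⟨h1, ?_, h3⟩
  exact (tight_body N s s0 top A hA _ _
    (bodyBits_length s N.st _ zv hp.length)).2 h2

/-- **T1 down** -/
theorem tBody_down (N : Net) (s : Bool) (s0 top : ℝ) (A : List (Ev × ℝ × List ℝ))
    (hA : ∀ a ∈ A, a.1.lt.WF N.R N.cap) (ys : List Bool) (σ : St)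
    (hp : Path N.step.R N.step.cap ((A.map (fun a => a.1.lt)).flatMap (blk N.st)) ys
      (sim N s σ))
    (ht : Tight s (tBody N s0 top A) ys (sim N s σ)) :
    ∃ zv, Path N.R N.cap (A.map (fun a => a.1.lt)) zv σ ∧
      ys = bodyBits s N.st (A.map (fun a => a.1.lt)) zv ∧
      fin ((A.map (fun a => a.1.lt)).flatMap (blk N.st)) ys (sim N s σ) =
        sim N s (fin (A.map (fun a => a.1.lt)) zv σ) := by
  have hw : ∀ ℓ ∈ A.map (fun a => a.1.lt), ℓ.WF N.R N.cap := by
    intro ℓ hℓ
    obtain ⟨a, ha, rfl⟩ := List.mem_map.1 hℓ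
    exact hA a ha
  exact body_down N s _ hw ys σ hp ((tight_body N s s0 top A hA _ _ hp.length).1 ht)

end TW
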