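import Mathlib

set_option autoImplicit false

/-! # RN 7b3: `k` of the sorted slopes cost at least the first `k` slopes -/

namespace Pool.Agent.RN

/-- `j`-th smallest element of a finset of `Fin m` is at least `j`. -/
theorem le_orderEmbOfFin {m k : ℕ} (S : Finset (Fin m)) (h : S.card = k) (j : Fin k) :
    (j : ℕ) ≤ (S.orderEmbOfFin h j : Fin m) := by
  obtain ⟨j, hj⟩ := j
  induction j with
  | zero => exact Nat.zero_le _
  | succ j ih =>
    have h1 := ih (Nat.lt_of_succ_lt hj)
    have h2 : S.orderEmbOfFin h ⟨j, Nat.lt_of_succ_lt hj⟩ < S.orderEmbOfFin h ⟨j + 1, hj⟩ := by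
      apply (S.orderEmbOfFin h).strictMono
      exact Nat.lt_succ_self j
    have h3 : ((S.orderEmbOfFin h ⟨j, Nat.lt_of_succ_lt hj⟩ : Fin m) : ℕ)
        < (S.orderEmbOfFin h ⟨j + 1, hj⟩ : Fin m) := h2
    simp only at h1 ⊢
    omega

theorem card_le_of_finset_fin {m : ℕ} (S : Finset (Fin m)) : S.card ≤ m := by
  simpa using S.card_le_univ

/-- prefix sum of the slopes -/
noncomputable def pre {m : ℕ} (δ : Fin m → ℝ) (k : ℕ) : ℝ := ∑ i : Fin m, if (i : ℕ) < k then δ i else 0

theorem pre_eq_sum_fin {m : ℕ} (δ : Fin m → ℝ) {k : ℕ} (hk : k ≤ m) :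
    pre δ k = ∑ j : Fin k, δ (Fin.castLE hk j) := by
  unfold pre
  rw [← Finset.sum_filter]
  symm
  refine Finset.sum_bij (fun j _ => Fin.castLE hk j) ?_ ?_ ?_ ?_
  · intro j _; simp
  · intro a _ b _ h; exact Fin.castLE_injective hk h
  · intro b hb
    have hb' : (b : ℕ) < k := by simpa using hb
    exact ⟨⟨b, hb'⟩, Finset.mem_univ _, by ext; simp⟩
  · intro j _; rfl

/-- `k` slopes cost at least the first `k` slopes -/
theorem pre_card_le_sum {m : ℕ} (δ : Fin m → ℝ) (hδ : Monotone δ) (S : Finset (Fin m)) :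
    pre δ S.card ≤ ∑ i ∈ S, δ i := by
  rw [pre_eq_sum_fin δ (card_le_of_finset_fin S)]
  have hS : ∑ i ∈ S, δ i = ∑ j : Fin S.card, δ (S.orderEmbOfFin rfl j) := by
    symm
    have := Finset.sum_image (s := (Finset.univ : Finset (Fin S.card))) (f := fun i => δ i)
      (g := fun j => S.orderEmbOfFin rfl j) (fun a _ b _ h => (S.orderEmbOfFin rfl).injective h)
    rw [← this, Finset.image_orderEmbOfFin_univ]
  rw [hS]
  refine Finset.sum_le_sum fun j _ => hδ ?_
  rw [Fin.le_def]
  exact le_orderEmbOfFin S rfl j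

theorem pre_sub {m : ℕ} (δ : Fin m → ℝ) (k : ℕ) (hk : k < m) : pre δ (k + 1) - pre δ k = δ ⟨k, hk⟩ := by
  rw [pre_eq_sum_fin δ hk, pre_eq_sum_fin δ hk.le, Fin.sum_univ_castSucc]
  simp only [Fin.castLE, Fin.val_castSucc, Fin.val_last, add_sub_cancel_left]

theorem pre_zero {m : ℕ} (δ : Fin m → ℝ) : pre δ 0 = 0 := by simp [pre]

/-- every convex cost function with value `0` at `0` is a prefix sum of monotone slopes -/
theorem exists_slopes {m : ℕ} (φ : ℕ → ℝ) (h0 : φ 0 = 0)
    (hc : ∀ k, k + 2 ≤ m → φ (k + 1) - φ k ≤ φ (k + 2) - φ (k + 1)) :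
    ∃ δ : Fin m → ℝ, Monotone δ ∧ ∀ k ≤ m, pre δ k = φ k := by
  refine ⟨fun i => φ (i + 1) - φ i, ?_, ?_⟩
  · cases m with
    | zero => intro a; exact a.elim0
    | succ m =>
      refine Fin.monotone_iff_le_succ.2 fun i => ?_
      have := hc i (by omega)
      simpa [Fin.val_castSucc, Fin.val_succ, add_assoc] using this
  · intro k
    induction k with
    | zero => intro _; rw [pre_zero, h0]
    | succ k ih =>
      intro hk
      have h1 := pre_sub (fun i : Fin m => φ (i + 1) - φ i) k hk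
      have h2 := ih (by omega)
      simp only at h1
      linarith

end Pool.Agent.RN
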