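import Pool.Agent.RN.MatchRun
import Pool.Agent.RN.Sorted

/-!
# Project RN (S11118), part 7b3: the cost of a good matching is at least the cost of its run

`Draw.cst` = first order costs by location, `Draw.gcost_ge`, `Draw.gcost_eq`, `Draw.cst_hc`.
-/

set_option autoImplicit false

namespace Pool.Agent.RN



/-- natural number version of `pre_card_le_sum` -/
theorem sum_range_card_le {n : ℕ} (δ : ℕ → ℝ) (hδ : ∀ i j, i ≤ j → j < n → δ i ≤ δ j)
    (S : Finset (Fin n)) : ∑ i ∈ Finset.range S.card, δ i ≤ ∑ i ∈ S, δ i := by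
  have h := pre_card_le_sum (fun i : Fin n => δ i) (fun a b hab => hδ a b hab b.2) S
  rw [pre_eq_sum_fin _ (card_le_of_finset_fin S)] at h
  simpa [Finset.sum_range] using h

theorem sum_col (L J : ℕ) (hL : 2 ≤ L) (g : ℕ → ℝ) :
    ∑ x ∈ Finset.range (L * J), (if x % L = 1 then g x else 0) = ∑ j ∈ Finset.range J, g (L * j + 1) := by
  induction J with
  | zero => simp
  | succ J ih =>
    rw [Nat.mul_succ, Finset.sum_range_add, ih, Finset.sum_range_succ]
    congr 1
    rw [Finset.sum_eq_single 1]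
    · have : (L * J + 1) % L = 1 := by
        rw [Nat.mul_add_mod]; exact Nat.mod_eq_of_lt hL
      rw [if_pos this]
    · intro b hb hb1
      rw [if_neg]
      rw [Nat.mul_add_mod, Nat.mod_eq_of_lt (Finset.mem_range.1 hb)]
      exact hb1
    · intro h
      exact absurd (Finset.mem_range.2 (by omega)) h

namespace Draw

variable (D : Draw)

/-- First order costs: slopes in the columns after the letters, letter costs on the legs. -/
noncomputable def cst (dlt : ℕ → ℕ → ℕ → ℝ) (ac : ℕ → ℝ) : D.Ag → D.It → ℝ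
  | .inl s, y => if (s.1.2 : ℕ) % D.L = 1 ∧ D.locI y = .row s.1.1 ((s.1.2 : ℕ) + 1) then
      dlt s.1.1 ((s.1.2 : ℕ) / D.L) s.2 else 0
  | .inr s, y => if D.leaf s.1 = true then (if D.locI y = .real s.1 then ac s.1 else 0)
      else (if (s.2 : ℕ) = 1 ∧ D.locI y = .leg s.1 2 then ac s.1 else 0)

theorem kk_succ (σ : D.Ag → D.It) (r : Fin D.R) (x : Fin (D.L * D.J)) :
    D.kk σ r (x + 1) = (Finset.univ.filter (fun i : Fin (D.m r + D.ex r x) =>
      D.locI (σ (.inl ⟨(r, x), i⟩)) = .row r (x + 1))).card := by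
  classical
  unfold kk
  symm
  refine Finset.card_bij (fun i _ => (Sum.inl ⟨(r, x), i⟩ : D.Ag)) ?_ ?_ ?_
  · intro i hi
    simp only [Finset.mem_filter, Finset.mem_univ, true_and] at hi ⊢
    exact ⟨Nat.succ_pos _, rfl, hi⟩
  · intro a _ b _ h
    simpa using h
  · intro a ha
    simp only [Finset.mem_filter, Finset.mem_univ, true_and] at ha
    obtain ⟨_, h1, h2⟩ := ha
    rcases a with ⟨⟨r', x'⟩, i⟩ | s
    · simp only [locA, AgLoc.row.injEq, Nat.add_sub_cancel] at h1
      obtain ⟨h3, h4⟩ := h1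
      have h3' : r' = r := Fin.ext h3
      have h4' : x' = x := Fin.ext h4
      subst h3'; subst h4'
      exact ⟨i, by simpa using h2, rfl⟩
    · simp [locA] at h1

theorem ex_eq_zero {r x : ℕ} (hx : x % D.L = 1) : D.ex r x = 0 := by
  unfold ex
  rw [if_neg]
  intro h
  have := Nat.mod_eq_zero_of_dvd h
  omega

/-- the row part of the cost is at least the run cost -/
theorem row_cost_ge (dlt : ℕ → ℕ → ℕ → ℝ) (ac : ℕ → ℝ)
    (hd : ∀ r < D.R, ∀ j < D.J, ∀ i i', i ≤ i' → i' < D.m r → dlt r j i ≤ dlt r j i')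
    (σ : D.Ag → D.It) :
    ∑ r ∈ Finset.range D.R, ∑ j ∈ Finset.range D.J, ∑ i ∈ Finset.range (D.kk σ r (D.L * j + 2)), dlt r j i
      ≤ ∑ s : (Σ p : Fin D.R × Fin (D.L * D.J), Fin (D.m p.1 + D.ex p.1 p.2)),
        D.cst dlt ac (.inl s) (σ (.inl s)) := by
  classical
  rw [Fintype.sum_sigma, Fintype.sum_prod_type, Finset.sum_range]
  refine Finset.sum_le_sum fun r _ => ?_
  have h1 : ∑ j ∈ Finset.range D.J, ∑ i ∈ Finset.range (D.kk σ r (D.L * j + 2)), dlt r j i
      = ∑ x : Fin (D.L * D.J), (if (x : ℕ) % D.L = 1 then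
        ∑ i ∈ Finset.range (D.kk σ r ((x : ℕ) + 1)), dlt r ((x : ℕ) / D.L) i else 0) := by
    rw [← Finset.sum_range (fun x => if x % D.L = 1 then
        ∑ i ∈ Finset.range (D.kk σ r (x + 1)), dlt r (x / D.L) i else 0), sum_col D.L D.J D.hL]
    refine Finset.sum_congr rfl fun j _ => ?_
    have hL := D.hL
    have : (D.L * j + 1) / D.L = j := by
      rw [Nat.mul_add_div (by omega)]
      rw [Nat.div_eq_of_lt (by omega)]; omega
    rw [this]
  rw [h1]
  refine Finset.sum_le_sum fun x _ => ?_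
  by_cases hx : (x : ℕ) % D.L = 1
  · rw [if_pos hx, D.kk_succ σ r x]
    have h2 := sum_range_card_le (n := D.m r + D.ex r x) (fun i => dlt r ((x : ℕ) / D.L) i)
      (fun i j hij hj => by
        rw [D.ex_eq_zero hx, Nat.add_zero] at hj
        refine hd r r.2 _ ?_ i j hij hj
        have := x.2
        exact Nat.div_lt_of_lt_mul this)
      (Finset.univ.filter (fun i : Fin (D.m r + D.ex r x) =>
        D.locI (σ (.inl ⟨(r, x), i⟩)) = .row r (x + 1)))
    refine h2.trans (le_of_eq ?_)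
    rw [Finset.sum_filter]
    refine Finset.sum_congr rfl fun i _ => ?_
    simp only [cst, hx, true_and]
  · rw [if_neg hx]
    refine le_of_eq (Eq.symm ?_)
    refine Finset.sum_eq_zero fun i _ => ?_
    simp only [cst, hx, false_and, if_false]

/-- the row part of the cost is the run cost when exactly the first agents go right -/
theorem row_cost_eq (dlt : ℕ → ℕ → ℕ → ℝ) (ac : ℕ → ℝ) (σ : D.Ag → D.It)
    (hfirst : ∀ (r : Fin D.R) (x : Fin (D.L * D.J)) (i : Fin (D.m r + D.ex r x)), (x : ℕ) % D.L = 1 →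
      (D.locI (σ (.inl ⟨(r, x), i⟩)) = .row r (x + 1) ↔ (i : ℕ) < D.kk σ r (x + 1))) :
    ∑ s : (Σ p : Fin D.R × Fin (D.L * D.J), Fin (D.m p.1 + D.ex p.1 p.2)),
        D.cst dlt ac (.inl s) (σ (.inl s))
    = ∑ r ∈ Finset.range D.R, ∑ j ∈ Finset.range D.J, ∑ i ∈ Finset.range (D.kk σ r (D.L * j + 2)), dlt r j i := by
  classical
  rw [Fintype.sum_sigma, Fintype.sum_prod_type, Finset.sum_range]
  refine Finset.sum_congr rfl fun r _ => ?_
  have h1 : ∑ j ∈ Finset.range D.J, ∑ i ∈ Finset.range (D.kk σ r (D.L * j + 2)), dlt r j i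
      = ∑ x : Fin (D.L * D.J), (if (x : ℕ) % D.L = 1 then
        ∑ i ∈ Finset.range (D.kk σ r ((x : ℕ) + 1)), dlt r ((x : ℕ) / D.L) i else 0) := by
    rw [← Finset.sum_range (fun x => if x % D.L = 1 then
        ∑ i ∈ Finset.range (D.kk σ r (x + 1)), dlt r (x / D.L) i else 0), sum_col D.L D.J D.hL]
    refine Finset.sum_congr rfl fun j _ => ?_
    have hL := D.hL
    have : (D.L * j + 1) / D.L = j := by
      rw [Nat.mul_add_div (by omega)]
      rw [Nat.div_eq_of_lt (by omega)]; omega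
    rw [this]
  rw [h1]
  refine Finset.sum_congr rfl fun x _ => ?_
  by_cases hx : (x : ℕ) % D.L = 1
  · rw [if_pos hx]
    have hle : D.kk σ r (x + 1) ≤ D.m r + D.ex r x := by
      rw [D.kk_succ σ r x]
      refine (Finset.card_le_univ _).trans ?_
      simp
    have h3 : ∑ i ∈ Finset.range (D.kk σ r ((x : ℕ) + 1)), dlt r ((x : ℕ) / D.L) i
        = ∑ i ∈ Finset.range (D.m r + D.ex r x), if i < D.kk σ r ((x : ℕ) + 1) then
          dlt r ((x : ℕ) / D.L) i else 0 := by
      rw [← Finset.sum_filter]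
      refine Finset.sum_congr ?_ fun _ _ => rfl
      ext i
      simp only [Finset.mem_range, Finset.mem_filter]
      omega
    rw [h3, Finset.sum_range]
    refine Finset.sum_congr rfl fun i _ => ?_
    have := hfirst r x i hx
    simp only [cst, hx, true_and]
    by_cases h4 : D.locI (σ (.inl ⟨(r, x), i⟩)) = .row r (x + 1)
    · rw [if_pos h4, if_pos (this.1 h4)]
    · rw [if_neg h4, if_neg (fun h5 => h4 (this.2 h5))]
  · rw [if_neg hx]
    refine Finset.sum_eq_zero fun i _ => ?_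
    simp only [cst, hx, false_and, if_false]


/-! ### legs -/

variable {D}

theorem mem_T_iff {b : D.It} : b ∈ D.T ↔ ∃ j, D.locI b = .real j := by
  constructor
  · rintro ⟨j, rfl⟩; exact ⟨_, rfl⟩
  · rintro ⟨j, h⟩
    rcases b with s | s | s
    · simp [locI] at h
    · simp [locI] at h
    · exact ⟨s, rfl⟩

theorem locI_leg_inj {b b' : D.It} {j i : ℕ} (h : D.locI b = .leg j i) (h' : D.locI b' = .leg j i) :
    b = b' := by
  rcases b with s | ⟨⟨j1, i1⟩⟩ | s
  · simp [locI] at h
  · rcases b' with s' | ⟨⟨j2, i2⟩⟩ | s'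
    · simp [locI] at h'
    · simp only [locI, ItLoc.leg.injEq] at h h'
      obtain ⟨h1, h2⟩ := h
      obtain ⟨h3, h4⟩ := h'
      have e1 : j1 = j2 := Fin.ext (h1.trans h3.symm)
      subst e1
      have e2 : i1 = i2 := Fin.ext (h2.trans h4.symm)
      subst e2
      rfl
    · simp [locI] at h'
  · simp [locI] at h

theorem locA_leg_inj {a a' : D.Ag} {j i : ℕ} (h : D.locA a = .leg j i) (h' : D.locA a' = .leg j i) :
    a = a' := by
  rcases a with s | ⟨j1, i1⟩
  · simp [locA] at h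
  · rcases a' with s' | ⟨j2, i2⟩
    · simp [locA] at h'
    · simp only [locA, AgLoc.leg.injEq] at h h'
      obtain ⟨h1, h2⟩ := h
      obtain ⟨h3, h4⟩ := h'
      have e1 : j1 = j2 := Fin.ext (h1.trans h3.symm)
      subst e1
      have e2 : i1 = i2 := Fin.ext (h2.trans h4.symm)
      subst e2
      rfl

/-- a leg item is covered, by the hub of its end or by a leg agent next to it -/
theorem leg_cover {σ : D.Ag ↪ D.It} (hσ : H5RN.Good D.Adj D.T σ) (j : Fin D.J) (i : ℕ)
    (hi : i < D.legI j) : ∃ a, D.locI (σ a) = .leg j i ∧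
      ((D.locA a = .row (D.row j) (D.L * j) ∧ i = 0) ∨
       (D.locA a = .row (D.row j + 1) (D.L * j) ∧ i = 3) ∨
       (∃ i', D.locA a = .leg j i' ∧ (i = i' ∨ i = i' + 1))) := by
  have hT : (Sum.inr (Sum.inl ⟨j, ⟨i, hi⟩⟩) : D.It) ∉ D.T := by
    rw [mem_T_iff]; rintro ⟨j', h⟩; simp [locI] at h
  obtain ⟨a, ha⟩ := hσ.2 _ hT
  have hloc : D.locI (σ a) = .leg j i := by rw [ha]; rfl
  refine ⟨a, hloc, ?_⟩
  have hadj := hσ.1 a
  unfold Adj at hadj
  rw [hloc] at hadj
  rcases h : D.locA a with ⟨r, x⟩ | ⟨j', i'⟩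
  · rw [h] at hadj
    simp only [adj] at hadj
    obtain ⟨h1, h2 | h2⟩ := hadj
    · left; exact ⟨by rw [h1, h2.1], h2.2⟩
    · right; left; exact ⟨by rw [h1, h2.1], h2.2⟩
  · rw [h] at hadj
    simp only [adj] at hadj
    right; right
    refine ⟨i', ?_, hadj.2⟩
    rw [hadj.1]

/-- where a leg agent goes -/
theorem leg_agent {σ : D.Ag ↪ D.It} (hσ : H5RN.Good D.Adj D.T σ) {a : D.Ag} {j i : ℕ}
    (ha : D.locA a = .leg j i) :
    D.locI (σ a) = .leg j i ∨ D.locI (σ a) = .leg j (i + 1) ∨ D.locI (σ a) = .real j := by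
  have hadj := hσ.1 a
  unfold Adj at hadj
  rw [ha] at hadj
  rcases h : D.locI (σ a) with ⟨r, x⟩ | ⟨j', i'⟩ | j'
  · rw [h] at hadj; simp [adj] at hadj
  · rw [h] at hadj
    simp only [adj] at hadj
    obtain ⟨h1, h2 | h2⟩ := hadj
    · left; rw [h1, h2]
    · right; left; rw [h1, h2]
  · rw [h] at hadj
    simp only [adj] at hadj
    right; right; rw [hadj]

theorem leaf_iff {σ : D.Ag ↪ D.It} (hσ : H5RN.Good D.Adj D.T σ) (j : Fin D.J)
    (hl : D.leaf j = true) (a : D.Ag) (ha : D.locA a = .leg j 0) :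
    D.locI (σ a) = .real j ↔ D.bit σ j = true := by
  have hI : D.legI j = 1 := by simp [legI, hl]
  have hbit : D.bit σ j = true ↔
      ∃ a, D.locA a = .row (D.row j) (D.L * j) ∧ D.locI (σ a) = .leg j 0 := by
    simp [bit]
  rw [hbit]
  constructor
  · intro h
    obtain ⟨a', h1, h2 | h2 | ⟨i', h2, h3⟩⟩ := leg_cover hσ j 0 (by omega)
    · exact ⟨a', h2.1, h1⟩
    · omega
    · exfalso
      have : i' = 0 := by omega
      subst this
      have := locA_leg_inj ha h2
      subst this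
      rw [h1] at h
      exact absurd h (by simp)
  · rintro ⟨a', h1, h2⟩
    rcases leg_agent hσ ha with h | h | h
    · exfalso
      have := σ.injective (locI_leg_inj h h2)
      subst this
      rw [ha] at h1
      exact absurd h1 (by simp)
    · exfalso
      have := locI_leg_lt D h
      omega
    · exact h

theorem bridge_iff {σ : D.Ag ↪ D.It} (hσ : H5RN.Good D.Adj D.T σ) (j : Fin D.J)
    (hl : D.leaf j = false) (a : D.Ag) (ha : D.locA a = .leg j 1) :
    D.locI (σ a) = .leg j 2 ↔ D.bit σ j = true := by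
  have hI : D.legI j = 4 := by simp [legI, hl]
  have hA : D.legA j = 3 := by simp [legA, hl]
  have hbit : D.bit σ j = true ↔
      ∃ a, D.locA a = .row (D.row j) (D.L * j) ∧ D.locI (σ a) = .leg j 0 := by
    simp [bit]
  rw [hbit]
  have ha0 : D.locA (Sum.inr ⟨j, ⟨0, by omega⟩⟩ : D.Ag) = .leg j 0 := rfl
  have hnr : ∀ b : D.It, D.locI b ≠ .real j := fun b h => by
    have := locI_real_leaf D h
    rw [hl] at this; exact absurd this (by simp)
  constructor
  · intro h
    obtain ⟨a', h1, h2 | h2 | ⟨i', h2, h3⟩⟩ := leg_cover hσ j 0 (by omega)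
    · exact ⟨a', h2.1, h1⟩
    · omega
    · exfalso
      have : i' = 0 := by omega
      subst this
      -- agent 0 takes item 0, so item 1 must be taken by agent 1
      obtain ⟨a'', h4, h5 | h5 | ⟨i'', h5, h6⟩⟩ := leg_cover hσ j 1 (by omega)
      · omega
      · omega
      · rcases h6 with h6 | h6
        · subst h6
          have := locA_leg_inj ha h5
          subst this
          rw [h4] at h
          exact absurd h (by simp)
        · have : i'' = 0 := by omega
          subst this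
          have := locA_leg_inj h2 h5
          subst this
          rw [h1] at h4
          exact absurd h4 (by simp)
  · rintro ⟨a', h1, h2⟩
    have h3 : D.locI (σ (Sum.inr ⟨j, ⟨0, by omega⟩⟩)) = .leg j 1 := by
      rcases leg_agent hσ ha0 with h | h | h
      · exfalso
        have := σ.injective (locI_leg_inj h h2)
        rw [← this] at h1
        exact absurd h1 (by simp [locA])
      · exact h
      · exact absurd h (hnr _)
    rcases leg_agent hσ ha with h | h | h
    · exfalso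
      have := σ.injective (locI_leg_inj h h3)
      rw [this] at ha
      rw [ha0] at ha
      exact absurd ha (by simp)
    · exact h
    · exact absurd h (hnr _)

theorem sum_fin_one {n : ℕ} (h : 1 < n) (F : Fin n → ℝ) (hF : ∀ i : Fin n, (i : ℕ) ≠ 1 → F i = 0) :
    ∑ i, F i = F ⟨1, h⟩ := by
  refine Finset.sum_eq_single (⟨1, h⟩ : Fin n) ?_ ?_
  · intro b _ hb
    refine hF b fun h1 => hb (Fin.ext h1)
  · intro h1; exact absurd (Finset.mem_univ _) h1

theorem sum_fin_zero {n : ℕ} (h : n = 1) (F : Fin n → ℝ) : ∑ i, F i = F ⟨0, by omega⟩ := by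
  subst h
  simp

/-- the leg part of the cost -/
theorem leg_cost (dlt : ℕ → ℕ → ℕ → ℝ) (ac : ℕ → ℝ) {σ : D.Ag ↪ D.It}
    (hσ : H5RN.Good D.Adj D.T σ) :
    ∑ s : (Σ j : Fin D.J, Fin (D.legA j)), D.cst dlt ac (.inr s) (σ (.inr s))
      = ∑ j ∈ Finset.range D.J, if D.bit σ j = true then ac j else 0 := by
  rw [Fintype.sum_sigma, Finset.sum_range]
  refine Finset.sum_congr rfl fun j _ => ?_
  cases hl : D.leaf j with
  | true =>
    have hA : D.legA j = 1 := by simp [legA, hl]
    rw [sum_fin_zero hA]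
    have := leaf_iff hσ j hl (Sum.inr ⟨j, ⟨0, by omega⟩⟩ : D.Ag) rfl
    simp only [cst, hl, if_true]
    by_cases hb : D.bit σ j = true
    · rw [if_pos (this.2 hb), if_pos hb]
    · rw [if_neg (fun h => hb (this.1 h)), if_neg hb]
  | false =>
    have hA : D.legA j = 3 := by simp [legA, hl]
    rw [sum_fin_one (by omega)]
    · have := bridge_iff hσ j hl (Sum.inr ⟨j, ⟨1, by omega⟩⟩ : D.Ag) rfl
      simp only [cst, hl, true_and, Bool.false_eq_true, if_false]
      by_cases hb : D.bit σ j = true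
      · rw [if_pos (this.2 hb), if_pos hb]
      · rw [if_neg (fun h => hb (this.1 h)), if_neg hb]
    · intro i hi
      simp only [cst, hl, hi, false_and, Bool.false_eq_true, if_false]

/-- the spot term -/
theorem used_cost {σ : D.Ag ↪ D.It} (hσ : H5RN.Good D.Adj D.T σ) [DecidablePred (· ∈ D.T)]
    (g : ItLoc → ℝ) :
    ∑ a, (if σ a ∈ D.T then g (D.locI (σ a)) else 0)
      = ∑ j ∈ Finset.range D.J, if (D.leaf j = true ∧ D.bit σ j = true) then g (.real j) else 0 := by
  rw [Fintype.sum_sum_type]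
  have h0 : ∑ s : (Σ p : Fin D.R × Fin (D.L * D.J), Fin (D.m p.1 + D.ex p.1 p.2)),
      (if σ (.inl s) ∈ D.T then g (D.locI (σ (.inl s))) else 0) = 0 := by
    refine Finset.sum_eq_zero fun s _ => ?_
    rw [if_neg]
    rw [mem_T_iff]
    rintro ⟨j, h⟩
    have := hσ.1 (.inl s)
    unfold Adj at this
    rw [h] at this
    simp [locA, adj] at this
  rw [h0, zero_add, Fintype.sum_sigma, Finset.sum_range]
  refine Finset.sum_congr rfl fun j _ => ?_
  cases hl : D.leaf j with
  | true =>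
    have hA : D.legA j = 1 := by simp [legA, hl]
    rw [sum_fin_zero hA]
    have h1 := leaf_iff hσ j hl (Sum.inr ⟨j, ⟨0, by omega⟩⟩ : D.Ag) rfl
    by_cases hb : D.bit σ j = true
    · have h2 := h1.2 hb
      rw [if_pos (mem_T_iff.2 ⟨_, h2⟩), h2, if_pos ⟨rfl, hb⟩]
    · have hR : ¬ (true = true ∧ D.bit σ j = true) := fun h => hb h.2
      rw [if_neg hR, if_neg]
      rw [mem_T_iff]
      rintro ⟨j', h⟩
      have h3 := hσ.1 (Sum.inr ⟨j, ⟨0, by omega⟩⟩)
      unfold Adj at h3
      rw [h] at h3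
      simp only [locA, adj] at h3
      rw [h3] at h
      exact hb (h1.1 h)
  | false =>
    rw [if_neg (by simp)]
    refine Finset.sum_eq_zero fun i _ => ?_
    rw [if_neg]
    rw [mem_T_iff]
    rintro ⟨j', h⟩
    have h3 := hσ.1 (Sum.inr ⟨j, i⟩)
    unfold Adj at h3
    rw [h] at h3
    simp only [locA, adj] at h3
    rw [h3] at h
    have := locI_real_leaf D h
    rw [hl] at this
    exact absurd this (by simp)

/-- RN7b3: the cost of a good matching is at least the cost of its run -/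
theorem gcost_ge (dlt : ℕ → ℕ → ℕ → ℝ) (ac : ℕ → ℝ)
    (hd : ∀ r < D.R, ∀ j < D.J, ∀ i i', i ≤ i' → i' < D.m r → dlt r j i ≤ dlt r j i')
    {σ : D.Ag ↪ D.It} (hσ : H5RN.Good D.Adj D.T σ) [DecidablePred (· ∈ D.T)] (t : H5RN.E2) :
    (∑ j ∈ Finset.range D.J, if D.bit σ j = true then ac j else 0)
    + (∑ r ∈ Finset.range D.R, ∑ j ∈ Finset.range D.J,
        ∑ i ∈ Finset.range (D.kk σ r (D.L * j + 2)), dlt r j i)
    + (∑ j ∈ Finset.range D.J, if (D.leaf j = true ∧ D.bit σ j = true) then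
        2 * inner ℝ (D.posB (.real j)) t else 0)
    ≤ H5RN.gcost D.T (fun b => D.posB (D.locI b)) (D.cst dlt ac) t σ := by
  unfold H5RN.gcost
  rw [used_cost hσ (fun l => 2 * inner ℝ (D.posB l) t), Fintype.sum_sum_type, leg_cost dlt ac hσ]
  have := D.row_cost_ge dlt ac hd σ
  linarith

/-- RN7b3: the cost of a good matching is the cost of its run if the first agents go right -/
theorem gcost_eq (dlt : ℕ → ℕ → ℕ → ℝ) (ac : ℕ → ℝ)
    {σ : D.Ag ↪ D.It} (hσ : H5RN.Good D.Adj D.T σ) [DecidablePred (· ∈ D.T)] (t : H5RN.E2)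
    (hfirst : ∀ (r : Fin D.R) (x : Fin (D.L * D.J)) (i : Fin (D.m r + D.ex r x)), (x : ℕ) % D.L = 1 →
      (D.locI (σ (.inl ⟨(r, x), i⟩)) = .row r (x + 1) ↔ (i : ℕ) < D.kk σ r (x + 1))) :
    H5RN.gcost D.T (fun b => D.posB (D.locI b)) (D.cst dlt ac) t σ =
    (∑ j ∈ Finset.range D.J, if D.bit σ j = true then ac j else 0)
    + (∑ r ∈ Finset.range D.R, ∑ j ∈ Finset.range D.J,
        ∑ i ∈ Finset.range (D.kk σ r (D.L * j + 2)), dlt r j i)
    + (∑ j ∈ Finset.range D.J, if (D.leaf j = true ∧ D.bit σ j = true) then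
        2 * inner ℝ (D.posB (.real j)) t else 0) := by
  unfold H5RN.gcost
  rw [used_cost hσ (fun l => 2 * inner ℝ (D.posB l) t), Fintype.sum_sum_type, leg_cost dlt ac hσ,
    D.row_cost_eq dlt ac σ hfirst]
  ring

/-- the first order costs are realised by displacements -/
theorem cst_hc (dlt : ℕ → ℕ → ℕ → ℝ) (ac : ℕ → ℝ) (a : D.Ag) :
    ∃ (p : H5RN.E2) (k : ℝ), ∀ b, D.Adj a b →
      inner ℝ (D.posB (D.locI b)) p + k = D.cst dlt ac a b := by
  rcases a with s | s
  · by_cases hx : (s.1.2 : ℕ) % D.L = 1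
    · obtain ⟨p, k, h⟩ := D.hc (.inl s) (fun r x h hd => by
        simp only [locA, AgLoc.row.injEq] at h
        rw [← h.2] at hd
        have := Nat.mod_eq_zero_of_dvd hd
        omega) (fun l => if (s.1.2 : ℕ) % D.L = 1 ∧ l = .row s.1.1 ((s.1.2 : ℕ) + 1) then
          dlt s.1.1 ((s.1.2 : ℕ) / D.L) s.2 else 0)
      exact ⟨p, k, fun b hb => h b hb⟩
    · refine ⟨0, 0, fun b _ => ?_⟩
      simp [cst, hx]
  · obtain ⟨p, k, h⟩ := D.hc (.inr s) (fun r x h => by simp [locA] at h)
      (fun l => if D.leaf s.1 = true then (if l = .real s.1 then ac s.1 else 0)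
      else (if (s.2 : ℕ) = 1 ∧ l = .leg s.1 2 then ac s.1 else 0))
    exact ⟨p, k, fun b hb => h b hb⟩

end Draw

end Pool.Agent.RN
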