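import Pool.Agent.H87.RN.Price

set_option autoImplicit false

/-!
# Project RN (Rote negative, MP_bd0985_co, S11118): thick words

A *thick word* is a list of letters acting on the states of rows.  The state of a row is one
integer `k` (number of particles).  A run is one bit per letter; the bit `true` always means
the (lower) hub takes the leg:

* `leaf r c`   : real item hanging above row `r`; `k_r := k_r + c - z`; item used iff `z`;
* `br a b c d` : wire between row `a` (lower) and row `b` (upper): `k_a := k_a + c - z`,
                 `k_b := k_b + d - 1 + z` (exactly one of the two hubs takes the wire).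

All states are `0` at the start and at the end and stay between `0` and the capacity.
-/

namespace TW

open Finset

/-- the integer of a bit -/
def bz (z : Bool) : ℤ := if z then 1 else 0

/-- letters of a thick word -/
inductive Lt
  | leaf (r : ℕ) (c : Bool)
  | br (a b : ℕ) (c d : Bool)
  deriving DecidableEq

/-- effect of a letter (with its bit) on the state -/
def Lt.eff : Lt → Bool → ℕ → ℤ
  | .leaf r c, z, i => if i = r then bz c - bz z else 0
  | .br a b c d, z, i =>
      (if i = a then bz c - bz z else 0) + (if i = b then bz d - 1 + bz z else 0)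

/-- is the letter a leaf (real item)? -/
def Lt.isLeaf : Lt → Bool
  | .leaf _ _ => true
  | .br _ _ _ _ => false

/-- An event: a letter, its position `x` (and `y`, only relevant for leaves), the cost `w` of
the bit `true`, and the cost `φ r k` of the state `k` of row `r` in the gap AFTER the letter. -/
structure Ev where
  lt : Lt
  x : ℝ
  y : ℝ
  w : ℝ
  φ : ℕ → ℤ → ℝ

/-- states -/
abbrev St := ℕ → ℤ

/-- the state is within the capacities (rows `< R`) -/
def Ok (R : ℕ) (cap : ℕ → ℕ) (σ : St) : Prop := ∀ r < R, 0 ≤ σ r ∧ σ r ≤ (cap r : ℤ)

/-- `Run R cap w zs σ`: the bits `zs` form a valid run of the word `w` from the state `σ`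
(down to the zero state). -/
def Run (R : ℕ) (cap : ℕ → ℕ) : List Ev → List Bool → St → Prop
  | [], [], σ => ∀ r < R, σ r = 0
  | e :: w, z :: zs, σ => Ok R cap (σ + e.lt.eff z) ∧ Run R cap w zs (σ + e.lt.eff z)
  | [], _ :: _, _ => False
  | _ :: _, [], _ => False

/-- cost of the bit of an event at the translation `t` -/
noncomputable def Ev.use (t : ℝ × ℝ) (e : Ev) : Bool → ℝ
  | false => 0
  | true => e.w + (if e.lt.isLeaf then t.1 * e.x + t.2 * e.y else 0)

/-- cost of a run at the translation `t` -/
noncomputable def cost (R : ℕ) (t : ℝ × ℝ) : List Ev → List Bool → St → ℝ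
  | e :: w, z :: zs, σ =>
      e.use t z + (∑ r ∈ range R, e.φ r ((σ + e.lt.eff z) r)) +
        cost R t w zs (σ + e.lt.eff z)
  | _, _, _ => 0

/-- the used real items of a run (bits of the leaves, `false` at the other letters) -/
def used (w : List Ev) (zs : List Bool) : List Bool :=
  List.zipWith (fun e z => e.lt.isLeaf && z) w zs

/-- there are `n` translations with unique optimal used sets, pairwise different -/
def Vis (R : ℕ) (cap : ℕ → ℕ) (w : List Ev) (n : ℕ) : Prop :=
  (∃ zs, Run R cap w zs 0) ∧
  ∃ (t : Fin n → ℝ × ℝ) (S : Fin n → List Bool), Function.Injective S ∧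
    ∀ i zs, Run R cap w zs 0 →
      (∀ zs', Run R cap w zs' 0 → cost R (t i) w zs 0 ≤ cost R (t i) w zs' 0) →
      used w zs = S i

/-- gap costs vanish at `0` and are convex up to the capacity -/
def Cvx (R : ℕ) (cap : ℕ → ℕ) (w : List Ev) : Prop :=
  ∀ e ∈ w, ∀ r < R, e.φ r 0 = 0 ∧
    ∀ k : ℤ, 0 ≤ k → k + 2 ≤ (cap r : ℤ) →
      e.φ r (k + 1) - e.φ r k ≤ e.φ r (k + 2) - e.φ r (k + 1)

/-! ## Nets (structure only) and the step -/

/-- A net: rows `< R`, capacities (`0` = row unused), static rows, word. -/
structure Net where
  R : ℕ
  cap : ℕ → ℕ
  st : ℕ → Bool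
  w : List Lt

/-- well-formed letter: rows in use, bridges join neighbouring used rows -/
def Lt.WF (R : ℕ) (cap : ℕ → ℕ) : Lt → Prop
  | .leaf r _ => r < R ∧ 0 < cap r
  | .br a b _ _ => a < b ∧ b < R ∧ 0 < cap a ∧ 0 < cap b ∧ ∀ i, a < i → i < b → cap i = 0

/-- well-formed nets -/
structure Net.WF (N : Net) : Prop where
  cap_out : ∀ r, N.R ≤ r → N.cap r = 0
  st_pos : ∀ r, N.st r = true → 0 < N.cap r
  lt : ∀ ℓ ∈ N.w, ℓ.WF N.R N.cap

/-- the next step creates new real items -/
def Net.Live (N : Net) : Prop := N.w ≠ [] ∨ ∃ r < N.R, 0 < N.cap r ∧ N.st r = false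

/-- The block of new letters replacing a letter.  Row `r` becomes `3r+1`, the new row above a
static row `r` is `3r+2`, the new row below it is `3r`.  In a run of the new word which is tight
(for one of the two signs) all bridges of the block and the old leaf carry the bit of the old
letter; the new leaves with `c = true` are the `Q` items (used at the left spot, not used at the
right spot), those with `c = false` the `P` items (used at the right spot only).

The *main letter* of a block (it inherits the position `x`): see `mainIdx`. -/
def blk (st : ℕ → Bool) : Lt → List Lt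
  | .leaf r c =>
      if st r then
        [.leaf (3 * r + 2) true, .br (3 * r + 1) (3 * r + 2) c true,
         .leaf (3 * r + 2) false, .leaf (3 * r + 2) false]
      else [.leaf (3 * r + 1) c]
  | .br a b c d =>
      if st a then
        if st b then
          [.leaf (3 * a + 2) true, .leaf (3 * b) true,
           .br (3 * a + 1) (3 * a + 2) c true, .br (3 * b) (3 * b + 1) true d,
           .br (3 * a + 2) (3 * b) false false,
           .leaf (3 * a + 2) false, .leaf (3 * b) false]
        else
          [.leaf (3 * a + 2) true, .br (3 * a + 1) (3 * a + 2) c true,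
           .br (3 * a + 2) (3 * b + 1) false d, .leaf (3 * a + 2) false]
      else
        if st b then
          [.leaf (3 * b) true, .br (3 * b) (3 * b + 1) true d,
           .br (3 * a + 1) (3 * b) c false, .leaf (3 * b) false]
        else [.br (3 * a + 1) (3 * b + 1) c d]

/-- index of the main letter in the block: the old leaf, or the outside bridge -/
def mainIdx (st : ℕ → Bool) : Lt → ℕ
  | .leaf r _ => if st r then 2 else 0
  | .br a b _ _ => if st a then (if st b then 4 else 2) else (if st b then 2 else 0)

/-- new leaves at the left end (`c = true`) / right end (`c = false`): `cap r` of them on every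
young row `r` -/
def ends (N : Net) (c : Bool) : List Lt :=
  (List.range N.R).flatMap fun r =>
    if N.st r then [] else List.replicate (N.cap r) (Lt.leaf (3 * r + 1) c)

/-- one level -/
def Net.step (N : Net) : Net where
  R := 3 * N.R
  cap i :=
    if i % 3 = 1 then (if N.st (i / 3) then N.cap (i / 3) else 2 * N.cap (i / 3))
    else (if N.st (i / 3) then 2 else 0)
  st i := decide (i % 3 = 1) && N.st (i / 3)
  w := ends N true ++ N.w.flatMap (blk N.st) ++ ends N false

/-- all used rows become static -/
def Net.freeze (N : Net) : Net := { N with st := fun r => decide (0 < N.cap r) }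

/-- one row of capacity one, empty word -/
def Net.base : Net where
  R := 1
  cap r := if r = 0 then 1 else 0
  st _ := false
  w := []

/-- the net after `E + 1` epochs of `K` levels -/
def net (K : ℕ) : ℕ → Net
  | 0 => Net.step^[K] Net.base
  | E + 1 => Net.step^[K] (net K E).freeze

/-- number of used rows -/
def Net.rows (N : Net) : ℕ := ((range N.R).filter fun r => 0 < N.cap r).card

/-- positions of the main letters: `xs` = positions of the letters of `w.flatMap (blk st)` -/
noncomputable def restr (st : ℕ → Bool) : List Lt → List ℝ → List ℝ
  | [], _ => []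
  | ℓ :: w, xs => (xs.drop (mainIdx st ℓ)).headD 0 :: restr st w (xs.drop (blk st ℓ).length)

/-- THE CLAIM: whatever the (strictly increasing) positions `xs` of the letters, there are costs
such that `n` pairwise different used sets are visible. -/
def Claim (N : Net) (n : ℕ) : Prop :=
  ∀ xs : List ℝ, xs.length = N.w.length → xs.Pairwise (· < ·) →
    ∃ ev : List Ev, ev.map Ev.lt = N.w ∧ ev.map Ev.x = xs ∧
      Cvx N.R N.cap ev ∧ Vis N.R N.cap ev n

/-- What the drawing has to provide for a net: positions `xs` such that every costed word with
these positions is realised by a price instance with at most `bound` items. -/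
def Drawn (N : Net) (bound : ℕ) : Prop :=
  ∃ xs : List ℝ, xs.length = N.w.length ∧ xs.Pairwise (· < ·) ∧
    ∀ (ev : List Ev) (n : ℕ), ev.map Ev.lt = N.w → ev.map Ev.x = xs →
      Cvx N.R N.cap ev → Vis N.R N.cap ev n →
      ∃ (ι κ τ : Type) (_ : Fintype ι) (_ : Fintype κ) (_ : Fintype τ),
        Nonempty (H87RN.Inst ι κ τ) ∧ Fintype.card ι ≤ Fintype.card κ ∧
          Fintype.card κ ≤ bound ∧ n ≤ Fintype.card τ

end TW
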