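import Pool.Agent.RN.Perturb

set_option autoImplicit false

/-!
# Rote's matching problem (MP_bd0985_co), project RN, module 7a: the drawing of a thick word

Rows are vertical translates (by 4) of one polyline `f`, all letters sit at the columns `L * j + 1/2`.
`Draw.tight_eq` (h1) and `Draw.tight_lt` (h2): squared distance plus price is `u` on the network and
bigger elsewhere.  `Draw.hc_row`, `Draw.hc_leg`, `Draw.hc_zero`: costs by displacement.
-/

namespace Pool.Agent.RN

/-- places of agents: `row r x` on row `r` between the items `x` and `x + 1`; `leg j i` on the leg of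
letter `j` -/
inductive AgLoc
  | row (r x : ℕ)
  | leg (j i : ℕ)
  deriving DecidableEq

/-- places of items: `row r x` on row `r`, `leg j i` on the leg of letter `j`, `real j` the real item of
the leaf letter `j` -/
inductive ItLoc
  | row (r x : ℕ)
  | leg (j i : ℕ)
  | real (j : ℕ)
  deriving DecidableEq

/-- the drawing of a word with `J` letters on `R` rows of capacities `m`: letter `j` is a leaf on row
`row j` (`c1 j` extra agents) or a bridge between the rows `row j` (`c1 j` extra agents) and
`row j + 1` (`c2 j` extra agents) -/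
structure Draw where
  R : ℕ
  J : ℕ
  L : ℕ
  hL : 2 ≤ L
  m : ℕ → ℕ
  row : ℕ → ℕ
  leaf : ℕ → Bool
  c1 : ℕ → ℕ
  c2 : ℕ → ℕ
  hrow : ∀ j, j < J → row j < R
  hrow' : ∀ j, j < J → leaf j = false → row j + 1 < R
  f : ℕ → ℤ
  lip : ∀ x, |f (x + 1) - f x| ≤ 1
  flat : ∀ j, j < J → f (L * j + 1) = f (L * j)
  hleaf : ∀ j, j < J → leaf j = true → f (L * j) = -(4 * (row j : ℤ) + 2)
  y : ℕ → ℝ
  hy : ∀ j, |y j| ≤ 1 / 8

namespace Draw

variable (D : Draw)

/-- number of extra agents in the group `(r, x)` -/
def ex (r x : ℕ) : ℕ :=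
  if D.L ∣ x then
    (if r = D.row (x / D.L) then D.c1 (x / D.L)
      else if D.leaf (x / D.L) = false ∧ r = D.row (x / D.L) + 1 then D.c2 (x / D.L) else 0)
  else 0

/-- number of agents on the leg of letter `j` -/
def legA (j : ℕ) : ℕ := if D.leaf j = true then 1 else 3

/-- number of dummy items on the leg of letter `j` -/
def legI (j : ℕ) : ℕ := if D.leaf j = true then 1 else 4

/-- the agents: `m r + ex r x` at the place `row r x` (`r < R`, `x < L * J`), one at each leg place -/
abbrev Ag : Type :=
  (Σ p : Fin D.R × Fin (D.L * D.J), Fin (D.m p.1 + D.ex p.1 p.2)) ⊕ (Σ j : Fin D.J, Fin (D.legA j))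

/-- the items: `m r` at the place `row r x` (`r < R`, `x < L * J`), one at each leg place, the real
items -/
abbrev It : Type :=
  (Σ p : Fin D.R × Fin (D.L * D.J), Fin (D.m p.1)) ⊕
    ((Σ j : Fin D.J, Fin (D.legI j)) ⊕ {j : Fin D.J // D.leaf j = true})

/-- the place of an agent -/
def locA : D.Ag → AgLoc
  | .inl s => .row s.1.1 s.1.2
  | .inr s => .leg s.1 s.2

/-- the place of an item -/
def locI : D.It → ItLoc
  | .inl s => .row s.1.1 s.1.2
  | .inr (.inl s) => .leg s.1 s.2
  | .inr (.inr j) => .real j.1

/-- the edges of the network (places) -/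
def adj : AgLoc → ItLoc → Prop
  | .row r x, .row r' x' => r' = r ∧ (x' = x ∨ x' = x + 1)
  | .row r x, .leg j i => x = D.L * j ∧ ((r = D.row j ∧ i = 0) ∨ (r = D.row j + 1 ∧ i = 3))
  | .row _ _, .real _ => False
  | .leg _ _, .row _ _ => False
  | .leg j i, .leg j' i' => j' = j ∧ (i' = i ∨ i' = i + 1)
  | .leg j _, .real j' => j' = j

/-- the edges of the network -/
def Adj (a : D.Ag) (b : D.It) : Prop := D.adj (D.locA a) (D.locI b)

/-- the real items -/
def T : Set D.It := {b | ∃ j, b = .inr (.inr j)}

/-- vertical correction of the leaf agents (the real item sits at height `y j`) -/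
noncomputable def alpha (j : ℕ) : ℝ :=
  if D.leaf j = true then (2 * D.y j + D.y j ^ 2) / (3 + 2 * D.y j) else 0

/-- coordinates of the agents -/
noncomputable def ax : AgLoc → ℝ
  | .row _ x => x + 1 / 2
  | .leg j _ => D.L * j + 1 / 2

/-- coordinates of the agents -/
noncomputable def ay : AgLoc → ℝ
  | .row r x => ((D.f x : ℝ) + D.f (x + 1)) / 2 + 4 * r
  | .leg j i => D.f (D.L * j) + 4 * D.row j + i + 1 + D.alpha j

/-- coordinates of the items -/
noncomputable def bx : ItLoc → ℝ
  | .row _ x => x
  | .leg j _ => D.L * j + 1 / 2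
  | .real j => D.L * j + 1 / 2

/-- coordinates of the items -/
noncomputable def by' : ItLoc → ℝ
  | .row r x => D.f x + 4 * r
  | .leg j i => D.f (D.L * j) + 4 * D.row j + i + 1 / 2
  | .real j => D.y j

/-- positions of the agents -/
noncomputable def posA (a : AgLoc) : E2 := !₂[D.ax a, D.ay a]

/-- positions of the items -/
noncomputable def posB (b : ItLoc) : E2 := !₂[D.bx b, D.by' b]

/-- prices: `3/4` for the dummy items -/
noncomputable def price : ItLoc → ℝ
  | .row _ _ => 3 / 4
  | .leg _ _ => 3 / 4
  | .real _ => 0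

/-- dual value of the agents -/
noncomputable def u : AgLoc → ℝ
  | .row _ x => 1 + ((D.f (x + 1) : ℝ) - D.f x) ^ 2 / 4
  | .leg j _ => (1 / 2 + D.alpha j) ^ 2 + 3 / 4

/-- squared distance -/
noncomputable def d2 (a : AgLoc) (b : ItLoc) : ℝ := (D.ax a - D.bx b) ^ 2 + (D.ay a - D.by' b) ^ 2

theorem norm_sq (a : AgLoc) (b : ItLoc) : ‖D.posA a - D.posB b‖ ^ 2 = D.d2 a b := by
  rw [EuclideanSpace.norm_sq_eq]
  simp [posA, posB, d2, Fin.sum_univ_two]

theorem inner_posB (b : ItLoc) (p q : ℝ) :
    inner ℝ (D.posB b) (!₂[p, q] : E2) = D.bx b * p + D.by' b * q := by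
  simp [posB, EuclideanSpace.inner_eq_star_dotProduct, dotProduct, Fin.sum_univ_two]
  ring

/-- agent places that occur -/
def okA : AgLoc → Prop
  | .row _ _ => True
  | .leg j i => j < D.J ∧ i < 3 ∧ (D.leaf j = true → i = 0)

/-- item places that occur -/
def okI : ItLoc → Prop
  | .row _ _ => True
  | .leg j i => j < D.J ∧ i < 4 ∧ (D.leaf j = true → i = 0)
  | .real j => j < D.J ∧ D.leaf j = true

theorem okA_loc (a : D.Ag) : D.okA (D.locA a) := by
  rcases a with s | s
  · trivial
  · have h := s.2.2
    refine ⟨s.1.2, ?_, fun hl => ?_⟩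
    · have h3 : D.legA s.1 ≤ 3 := by unfold legA; split <;> omega
      exact lt_of_lt_of_le h h3
    · have h1 : D.legA s.1 = 1 := by unfold legA; rw [if_pos hl]
      exact Nat.lt_one_iff.mp (lt_of_lt_of_eq h h1)

theorem okI_loc (b : D.It) : D.okI (D.locI b) := by
  rcases b with s | s | s
  · trivial
  · have h := s.2.2
    refine ⟨s.1.2, ?_, fun hl => ?_⟩
    · have h3 : D.legI s.1 ≤ 4 := by unfold legI; split <;> omega
      exact lt_of_lt_of_le h h3
    · have h1 : D.legI s.1 = 1 := by unfold legI; rw [if_pos hl]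
      exact Nat.lt_one_iff.mp (lt_of_lt_of_eq h h1)
  · exact ⟨s.1.2, s.2⟩

theorem sq_ge_one {n : ℤ} (h : n ≠ 0) : (1 : ℝ) ≤ (n : ℝ) ^ 2 := by
  have h1 : (1 : ℤ) ≤ n ^ 2 := by nlinarith [Int.one_le_abs h, sq_abs n, abs_nonneg n]
  exact_mod_cast h1

theorem half_sq {n : ℤ} (h0 : n ≠ 0) (h1 : n ≠ -1) : (9 / 4 : ℝ) ≤ ((n : ℝ) + 1 / 2) ^ 2 := by
  have : (2 : ℤ) ≤ n * (n + 1) := by
    rcases lt_or_ge n 0 with h | h
    · have : n ≤ -2 := by omega
      nlinarith
    · have : 1 ≤ n := by omega
      nlinarith
  have h2 : (2 : ℝ) ≤ (n : ℝ) * (n + 1) := by exact_mod_cast this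
  nlinarith

theorem shift_sq {n : ℤ} (h : n ≠ 0) {e : ℝ} (he : |e| ≤ 1 / 8) : (3 / 4 : ℝ) ≤ ((n : ℝ) + e) ^ 2 := by
  rw [abs_le] at he
  rcases lt_or_ge n 0 with h' | h'
  · have : (n : ℝ) ≤ -1 := by exact_mod_cast (show n ≤ -1 by omega)
    nlinarith
  · have : (1 : ℝ) ≤ n := by exact_mod_cast (show 1 ≤ n by omega)
    nlinarith

theorem slope_sq (x : ℕ) : ((D.f (x + 1) : ℝ) - D.f x) ^ 2 ≤ 1 := by
  have h := D.lip x
  have h1 : (D.f (x + 1) - D.f x) ^ 2 ≤ (1 : ℤ) := by
    nlinarith [abs_le.mp h]
  exact_mod_cast h1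

theorem alpha_bound (j : ℕ) : |D.alpha j| ≤ 1 / 8 := by
  unfold alpha
  split
  · have h := abs_le.mp (D.hy j)
    have h3 : 0 < 3 + 2 * D.y j := by linarith [h.1]
    rw [abs_le, le_div_iff₀ h3, div_le_iff₀ h3]
    constructor <;> nlinarith [h.1, h.2]
  · norm_num

theorem alpha_eq {j : ℕ} (hl : D.leaf j = true) :
    (1 - D.alpha j + D.y j) ^ 2 = (1 / 2 + D.alpha j) ^ 2 + 3 / 4 := by
  have h := abs_le.mp (D.hy j)
  have h3 : 3 + 2 * D.y j ≠ 0 := by linarith [h.1]
  have ha : D.alpha j * (3 + 2 * D.y j) = 2 * D.y j + D.y j ^ 2 := by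
    unfold alpha; rw [if_pos hl]; field_simp
  nlinarith [ha]

theorem u_row_le (r x : ℕ) : D.u (.row r x) ≤ 5 / 4 := by
  simp only [u]; nlinarith [D.slope_sq x]

theorem u_leg_le (j i : ℕ) : D.u (.leg j i) ≤ 5 / 4 := by
  have h := abs_le.mp (D.alpha_bound j)
  simp only [u]; nlinarith [h.1, h.2]

/-- on the network the reduced costs vanish (places) -/
theorem tight_eq' {a : AgLoc} {b : ItLoc} (ha : D.okA a) (hb : D.okI b) (h : D.adj a b) :
    D.d2 a b + price b = D.u a := by
  cases a with
  | row r x =>
    cases b with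
    | row r' x' =>
      obtain ⟨rfl, rfl | rfl⟩ := h
      · simp only [d2, ax, bx, ay, by', price, u]; ring
      · simp only [d2, ax, bx, ay, by', price, u]; push_cast; ring
    | leg j i =>
      obtain ⟨rfl, h⟩ := h
      have hf := D.flat j hb.1
      rcases h with ⟨rfl, rfl⟩ | ⟨rfl, rfl⟩
      · simp only [d2, ax, bx, ay, by', price, u, hf]; push_cast; ring
      · simp only [d2, ax, bx, ay, by', price, u, hf]; push_cast; ring
    | real j => exact absurd h id
  | leg j i =>
    cases b with
    | row r x => exact absurd h id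
    | leg j' i' =>
      obtain ⟨rfl, rfl | rfl⟩ := h
      · simp only [d2, ax, bx, ay, by', price, u]; ring
      · have hl : ¬ D.leaf j' = true := fun hl => by have := hb.2.2 hl; omega
        have h0 : D.alpha j' = 0 := by unfold alpha; rw [if_neg hl]
        simp only [d2, ax, bx, ay, by', price, u, h0]; push_cast; ring
    | real j' =>
      have h' : j' = j := h
      subst h'
      have hi : i = 0 := ha.2.2 hb.2
      subst hi
      have hl := D.hleaf j' hb.1 hb.2
      have hl' : (D.f (D.L * j') : ℝ) = -(4 * (D.row j' : ℝ) + 2) := by exact_mod_cast hl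
      have hα := D.alpha_eq hb.2
      simp only [d2, ax, bx, ay, by', price, u, hl']
      push_cast
      nlinarith [hα]

theorem cast_ne {a b : ℕ} (h : a ≠ b) : (1 : ℝ) ≤ ((a : ℝ) - b) ^ 2 := by
  have : ((a : ℤ) - b) ≠ 0 := by omega
  simpa using sq_ge_one this

theorem cols_far {j j' : ℕ} (hj : j' ≠ j) :
    (4 : ℝ) ≤ ((D.L : ℝ) * j + 1 / 2 - (D.L * j' + 1 / 2)) ^ 2 := by
  have h3 := cast_ne (Ne.symm hj)
  have h4 : (2 : ℝ) ≤ D.L := by exact_mod_cast D.hL
  have h5 : (4 : ℝ) ≤ (D.L : ℝ) ^ 2 := by nlinarith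
  calc (4 : ℝ) ≤ (D.L : ℝ) ^ 2 * ((j : ℝ) - j') ^ 2 := by nlinarith
    _ = _ := by ring

/-- outside the network the reduced costs are positive (places) -/
theorem tight_lt' {a : AgLoc} {b : ItLoc} (ha : D.okA a) (hb : D.okI b) (h : ¬ D.adj a b) :
    D.u a < D.d2 a b + price b := by
  cases a with
  | row r x =>
    have hu := D.u_row_le r x
    have hs := D.slope_sq x
    cases b with
    | row r' x' =>
      by_cases hx : x' = x ∨ x' = x + 1
      · have hr : ((r : ℤ) - r') ≠ 0 := fun e => h ⟨by omega, hx⟩
        have key : ∀ e : ℤ, |e| ≤ 1 → (3 : ℝ) ≤ ((e : ℝ) / 2 + 4 * ((r : ℝ) - r')) ^ 2 := by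
          intro e he
          rw [abs_le] at he
          have h3 : (49 : ℤ) ≤ (e + 8 * ((r : ℤ) - r')) ^ 2 := by
            rcases lt_or_gt_of_ne hr with hr | hr
            · have : (r : ℤ) - r' ≤ -1 := by omega
              nlinarith
            · have : 1 ≤ (r : ℤ) - r' := by omega
              nlinarith
          have h4 : (49 : ℝ) ≤ ((e : ℝ) + 8 * ((r : ℝ) - r')) ^ 2 := by exact_mod_cast h3
          nlinarith
        rcases hx with rfl | rfl
        · have := key (D.f (x' + 1) - D.f x') (D.lip x')
          push_cast at this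
          simp only [d2, ax, bx, ay, by', price]
          nlinarith [sq_nonneg ((x' : ℝ) + 1 / 2 - x')]
        · have := key (D.f x - D.f (x + 1)) (by rw [abs_sub_comm]; exact D.lip x)
          push_cast at this
          simp only [d2, ax, bx, ay, by', price]
          push_cast
          nlinarith [sq_nonneg ((x : ℝ) + 1 / 2 - (x + 1))]
      · have h1 : ((x : ℤ) - x') ≠ 0 := by omega
        have h2 : ((x : ℤ) - x') ≠ -1 := by omega
        have := half_sq h1 h2
        push_cast at this
        simp only [d2, ax, bx, ay, by', price]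
        nlinarith [sq_nonneg (((D.f x : ℝ) + D.f (x + 1)) / 2 + 4 * r - (D.f x' + 4 * r'))]
    | leg j i =>
      by_cases hx : x = D.L * j
      · subst hx
        have hf := D.flat j hb.1
        have hi := hb.2.1
        have h0 : ((4 : ℤ) * ((r : ℤ) - D.row j) - i - 1) ≠ 0 := by
          intro e
          apply h
          refine ⟨rfl, Or.inr ?_⟩
          omega
        have h1 : ((4 : ℤ) * ((r : ℤ) - D.row j) - i - 1) ≠ -1 := by
          intro e
          apply h
          refine ⟨rfl, Or.inl ?_⟩
          omega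
        have := half_sq h0 h1
        push_cast at this
        simp only [d2, ax, bx, ay, by', price, hf]
        nlinarith [this, hu]
      · have h1 : (1 : ℝ) ≤ ((x : ℝ) - (D.L * j : ℕ)) ^ 2 := cast_ne hx
        push_cast at h1
        simp only [d2, ax, bx, ay, by', price]
        nlinarith [sq_nonneg (((D.f x : ℝ) + D.f (x + 1)) / 2 + 4 * r -
          (D.f (D.L * j) + 4 * D.row j + i + 1 / 2))]
    | real j =>
      have hl := D.hleaf j hb.1 hb.2
      have hf := D.flat j hb.1
      have hy := abs_le.mp (D.hy j)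
      have hl' : (D.f (D.L * j) : ℝ) = -(4 * (D.row j : ℝ) + 2) := by exact_mod_cast hl
      -- the agents in the columns next to `j` are at least 11/8 away vertically
      have key : ∀ e : ℤ, |e| ≤ 1 →
          (3 / 2 : ℝ) ≤ ((e : ℝ) / 2 + 4 * ((r : ℝ) - D.row j) - 2 - D.y j) ^ 2 := by
        intro e he
        rw [abs_le] at he
        rcases lt_or_ge (r : ℤ) (D.row j + 1) with hr | hr
        · have h3 : (e + 8 * ((r : ℤ) - D.row j) - 4) ≤ -3 := by omega
          have h4 : ((e : ℝ) + 8 * ((r : ℝ) - D.row j) - 4) ≤ -3 := by exact_mod_cast h3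
          nlinarith
        · have h3 : 3 ≤ (e + 8 * ((r : ℤ) - D.row j) - 4) := by omega
          have h4 : 3 ≤ ((e : ℝ) + 8 * ((r : ℝ) - D.row j) - 4) := by exact_mod_cast h3
          nlinarith
      by_cases hx : x = D.L * j
      · subst hx
        have hk := key 0 (by norm_num)
        push_cast at hk
        have hu0 : D.u (.row r (D.L * j)) = 1 := by simp [u, hf]
        rw [hu0]
        simp only [d2, ax, bx, ay, by', price, hf, hl']
        nlinarith [hk, sq_nonneg (((D.L * j : ℕ) : ℝ) + 1 / 2 - (D.L * j + 1 / 2))]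
      · by_cases hx1 : x = D.L * j + 1
        · subst hx1
          have hk := key (D.f (D.L * j + 1 + 1) - D.f (D.L * j + 1)) (D.lip _)
          have hf' : (D.f (D.L * j + 1) : ℝ) = -(4 * (D.row j : ℝ) + 2) := by rw [hf, hl']
          simp only [d2, ax, bx, ay, by', price]
          push_cast at hk ⊢
          rw [hf'] at hk ⊢
          nlinarith [hk]
        · by_cases hx2 : x + 1 = D.L * j
          · have hk := key (D.f x - D.f (x + 1)) (by
              rw [abs_sub_comm]; exact D.lip _)
            have hl2 : (D.f (x + 1) : ℝ) = -(4 * (D.row j : ℝ) + 2) := by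
              rw [hx2]; exact_mod_cast hl
            have hxr : (D.L : ℝ) * j = x + 1 := by exact_mod_cast hx2.symm
            simp only [d2, ax, bx, ay, by', price, hxr]
            push_cast at hk ⊢
            rw [hl2] at hk ⊢
            nlinarith [hk]
          · have h2 : (4 : ℤ) ≤ ((x : ℤ) - (D.L * j : ℕ)) ^ 2 := by
              rcases lt_or_ge (x : ℤ) (D.L * j : ℕ) with hh | hh
              · have : ((x : ℤ) - (D.L * j : ℕ)) ≤ -2 := by omega
                nlinarith
              · have : 2 ≤ ((x : ℤ) - (D.L * j : ℕ)) := by omega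
                nlinarith
            have h3 : (4 : ℝ) ≤ ((x : ℝ) - (D.L * j : ℕ)) ^ 2 := by exact_mod_cast h2
            push_cast at h3
            simp only [d2, ax, bx, ay, by', price]
            nlinarith [sq_nonneg (((D.f x : ℝ) + D.f (x + 1)) / 2 + 4 * r - D.y j)]
  | leg j i =>
    have hu := D.u_leg_le j i
    have hα := D.alpha_bound j
    cases b with
    | row r x =>
      by_cases hx : x = D.L * j ∨ x = D.L * j + 1
      · have hf := D.flat j ha.1
        have hfx : D.f x = D.f (D.L * j) := by
          rcases hx with rfl | rfl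
          · rfl
          · exact hf
        have h0 : ((4 : ℤ) * ((D.row j : ℤ) - r) + i + 1) ≠ 0 := by
          have := ha.2.1
          omega
        have := shift_sq h0 hα
        push_cast at this
        simp only [d2, ax, bx, ay, by', price, hfx]
        have hq : (1 / 4 : ℝ) ≤ ((D.L : ℝ) * j + 1 / 2 - x) ^ 2 := by
          rcases hx with rfl | rfl
          · push_cast; nlinarith
          · push_cast; nlinarith
        nlinarith [this, hq]
      · have h1 : (((D.L * j : ℕ) : ℤ) - x) ≠ 0 := by omega
        have h2 : (((D.L * j : ℕ) : ℤ) - x) ≠ -1 := by omega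
        have := half_sq h1 h2
        push_cast at this
        simp only [d2, ax, bx, ay, by', price]
        nlinarith [sq_nonneg ((D.f (D.L * j) : ℝ) + 4 * D.row j + i + 1 + D.alpha j -
          (D.f x + 4 * r))]
    | leg j' i' =>
      by_cases hj : j' = j
      · subst hj
        have h0 : ((i : ℤ) - i') ≠ 0 := by
          intro e; apply h; exact ⟨rfl, Or.inl (by omega)⟩
        have h1 : ((i : ℤ) - i') ≠ -1 := by
          intro e; apply h; exact ⟨rfl, Or.inr (by omega)⟩
        have hl : ¬ D.leaf j' = true := fun hl => by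
          have h5 := ha.2.2 hl
          have h6 := hb.2.2 hl
          apply h0; omega
        have hα0 : D.alpha j' = 0 := by unfold alpha; rw [if_neg hl]
        have := half_sq h0 h1
        push_cast at this
        simp only [d2, ax, bx, ay, by', price, hα0]
        nlinarith [this]
      · have h2 := D.cols_far hj
        simp only [d2, ax, bx, ay, by', price]
        nlinarith [sq_nonneg ((D.f (D.L * j) : ℝ) + 4 * D.row j + i + 1 + D.alpha j -
          (D.f (D.L * j') + 4 * D.row j' + i' + 1 / 2))]
    | real j' =>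
      have hj : j' ≠ j := h
      have h2 := D.cols_far hj
      simp only [d2, ax, bx, ay, by', price]
      nlinarith [sq_nonneg ((D.f (D.L * j) : ℝ) + 4 * D.row j + i + 1 + D.alpha j - D.y j')]

/-- (h1) on the network squared distance plus price is `u` -/
theorem tight_eq {a : D.Ag} {b : D.It} (h : D.Adj a b) :
    ‖D.posA (D.locA a) - D.posB (D.locI b)‖ ^ 2 + price (D.locI b) = D.u (D.locA a) := by
  rw [norm_sq]; exact D.tight_eq' (D.okA_loc a) (D.okI_loc b) h

/-- (h2) outside the network squared distance plus price is bigger than `u` -/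
theorem tight_lt {a : D.Ag} {b : D.It} (h : ¬ D.Adj a b) :
    D.u (D.locA a) < ‖D.posA (D.locA a) - D.posB (D.locI b)‖ ^ 2 + price (D.locI b) := by
  rw [norm_sq]; exact D.tight_lt' (D.okA_loc a) (D.okI_loc b) h

/-- (hp) -/
theorem price_pos {b : D.It} (h : b ∉ D.T) : 0 < price (D.locI b) := by
  rcases b with s | s | s
  · norm_num [locI, price]
  · norm_num [locI, price]
  · exact absurd ⟨s, rfl⟩ h

/-- (hT) -/
theorem price_T {b : D.It} (h : b ∈ D.T) : price (D.locI b) = 0 := by
  obtain ⟨j, rfl⟩ := h
  rfl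

/-- (hc) for the agents in the groups `x` not divisible by `L` and for the leg agents: every cost
function is realised by a displacement -/
theorem hc (a : D.Ag) (ha : ∀ r x, D.locA a = .row r x → ¬ D.L ∣ x) (c : ItLoc → ℝ) :
    ∃ p : E2, ∃ k : ℝ, ∀ b : D.It, D.Adj a b → inner ℝ (D.posB (D.locI b)) p + k = c (D.locI b) := by
  have hoka := D.okA_loc a
  unfold Adj
  generalize D.locA a = la at *
  cases la with
  | row r x =>
    have hx := ha r x rfl
    refine ⟨!₂[c (.row r (x + 1)) - c (.row r x), 0],
      c (.row r x) - x * (c (.row r (x + 1)) - c (.row r x)), fun b hb => ?_⟩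
    rw [inner_posB]
    generalize D.locI b = lb at *
    cases lb with
    | row r' x' =>
      obtain ⟨rfl, rfl | rfl⟩ := hb
      · simp only [bx]; ring
      · simp only [bx]; push_cast; ring
    | leg j i => exact absurd ⟨j, hb.1⟩ hx
    | real j => exact absurd hb id
  | leg j i =>
    by_cases hl : D.leaf j = true
    · have hi : i = 0 := hoka.2.2 hl
      subst hi
      have hy := abs_le.mp (D.hy j)
      have hf := D.hleaf j hoka.1 hl
      have hl' : (D.f (D.L * j) : ℝ) = -(4 * (D.row j : ℝ) + 2) := by exact_mod_cast hf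
      have hne : D.y j + 3 / 2 ≠ 0 := by linarith [hy.1]
      refine ⟨!₂[0, (c (.real j) - c (.leg j 0)) / (D.y j + 3 / 2)],
        c (.leg j 0) + 3 / 2 * ((c (.real j) - c (.leg j 0)) / (D.y j + 3 / 2)), fun b hb => ?_⟩
      rw [inner_posB]
      have hokb := D.okI_loc b
      generalize D.locI b = lb at *
      cases lb with
      | row r' x' => exact absurd hb id
      | leg j' i' =>
        obtain ⟨rfl, hi'⟩ := hb
        have : i' = 0 := hokb.2.2 hl
        subst this
        simp only [by', hl']; push_cast; ring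
      | real j' =>
        have hj : j' = j := hb
        subst hj
        have hq := div_mul_cancel₀ (c (.real j') - c (.leg j' 0)) hne
        simp only [by']
        linarith
    · refine ⟨!₂[0, c (.leg j (i + 1)) - c (.leg j i)],
        c (.leg j i) - (D.f (D.L * j) + 4 * D.row j + i + 1 / 2) * (c (.leg j (i + 1)) - c (.leg j i)),
        fun b hb => ?_⟩
      rw [inner_posB]
      have hokb := D.okI_loc b
      generalize D.locI b = lb at *
      cases lb with
      | row r' x' => exact absurd hb id
      | leg j' i' =>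
        obtain ⟨rfl, rfl | rfl⟩ := hb
        · simp only [by']; ring
        · simp only [by']; push_cast; ring
      | real j' =>
        have hj : j' = j := hb
        subst hj
        exact absurd hokb.2 hl

end Draw

end Pool.Agent.RN
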