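import Pool.Agent.RN.Draw

set_option autoImplicit false

/-!
# Rote's matching problem (MP_bd0985_co), project RN, module 7a: the polyline and the number of points
-/

namespace Pool.Agent.RN

namespace Draw

/-- the polyline with the value `v j` at `L * j` and `L * j + 1` -/
def poly (L : ℕ) (v : ℕ → ℤ) (x : ℕ) : ℤ :=
  if x % L = 0 then v (x / L)
  else v (x / L) + max (-((x % L : ℕ) - 1 : ℤ)) (min ((x % L : ℕ) - 1 : ℤ) (v (x / L + 1) - v (x / L)))

theorem poly_col {L : ℕ} (hL : 0 < L) (v : ℕ → ℤ) (j : ℕ) : poly L v (L * j) = v j := by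
  unfold poly
  rw [Nat.mul_mod_right, if_pos rfl, Nat.mul_div_cancel_left j hL]

theorem poly_mid {L : ℕ} (v : ℕ → ℤ) (j i : ℕ) (hi : i + 1 < L) :
    poly L v (L * j + (i + 1)) = v j + max (-(i : ℤ)) (min (i : ℤ) (v (j + 1) - v j)) := by
  have hL : 0 < L := by omega
  have h1 : (L * j + (i + 1)) % L = i + 1 := by
    rw [Nat.mul_add_mod, Nat.mod_eq_of_lt hi]
  have h2 : (L * j + (i + 1)) / L = j := by
    rw [Nat.mul_add_div hL, Nat.div_eq_of_lt hi, add_zero]
  unfold poly
  rw [h1, h2, if_neg (by omega)]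
  push_cast
  congr 2 <;> ring_nf

theorem poly_flat {L : ℕ} (hL : 2 ≤ L) (v : ℕ → ℤ) (j : ℕ) :
    poly L v (L * j + 1) = poly L v (L * j) := by
  rw [poly_col (by omega), show L * j + 1 = L * j + (0 + 1) by ring, poly_mid v j 0 (by omega)]
  rcases le_total 0 (v (j + 1) - v j) with h | h
  · simp [h]
  · simp [h]

theorem poly_lip {L : ℕ} (hL : 2 ≤ L) (v : ℕ → ℤ) (hv : ∀ j, |v (j + 1) - v j| ≤ (L : ℤ) - 2) (x : ℕ) :
    |poly L v (x + 1) - poly L v x| ≤ 1 := by
  obtain ⟨j, i, hi, rfl⟩ : ∃ j i, i < L ∧ x = L * j + i :=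
    ⟨x / L, x % L, Nat.mod_lt _ (by omega), (Nat.div_add_mod x L).symm⟩
  have hvj := abs_le.mp (hv j)
  rcases Nat.eq_zero_or_pos i with rfl | hi0
  · rw [add_zero, poly_flat hL]; simp
  · obtain ⟨i, rfl⟩ : ∃ i', i = i' + 1 := ⟨i - 1, by omega⟩
    rw [poly_mid v j i hi]
    rcases Nat.lt_or_ge (i + 2) L with h2 | h2
    · rw [show L * j + (i + 1) + 1 = L * j + ((i + 1) + 1) by ring, poly_mid v j (i + 1) (by omega)]
      rw [abs_le]
      push_cast
      constructor
      · rcases max_cases (-((i : ℤ) + 1)) (min ((i : ℤ) + 1) (v (j + 1) - v j)) with h | h <;>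
        rcases max_cases (-(i : ℤ)) (min (i : ℤ) (v (j + 1) - v j)) with h' | h' <;>
        rcases min_cases ((i : ℤ) + 1) (v (j + 1) - v j) with h'' | h'' <;>
        rcases min_cases (i : ℤ) (v (j + 1) - v j) with h''' | h''' <;> omega
      · rcases max_cases (-((i : ℤ) + 1)) (min ((i : ℤ) + 1) (v (j + 1) - v j)) with h | h <;>
        rcases max_cases (-(i : ℤ)) (min (i : ℤ) (v (j + 1) - v j)) with h' | h' <;>
        rcases min_cases ((i : ℤ) + 1) (v (j + 1) - v j) with h'' | h'' <;>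
        rcases min_cases (i : ℤ) (v (j + 1) - v j) with h''' | h''' <;> omega
    · have hL2 : L = i + 2 := by omega
      rw [show L * j + (i + 1) + 1 = L * (j + 1) by rw [hL2]; ring, poly_col (by omega)]
      have hb : (i : ℤ) = (L : ℤ) - 2 := by rw [hL2]; push_cast; ring
      rw [← hb] at hvj
      rw [min_eq_right (by omega), max_eq_right (by omega)]
      simp

/-- the heights of row 0 at the letters -/
def vOf (J : ℕ) (row : ℕ → ℕ) (leaf : ℕ → Bool) (j : ℕ) : ℤ :=
  if j < J ∧ leaf j = true then -(4 * (row j : ℤ) + 2) else -2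

theorem vOf_bound {R J : ℕ} {row : ℕ → ℕ} {leaf : ℕ → Bool} (hrow : ∀ j, j < J → row j < R) (j : ℕ) :
    -(4 * (R : ℤ)) - 2 ≤ vOf J row leaf j ∧ vOf J row leaf j ≤ -2 := by
  unfold vOf
  split
  · rename_i h
    have := hrow j h.1
    constructor <;> omega
  · constructor <;> omega

/-- the drawing of a word -/
def ofData (R J L : ℕ) (m row : ℕ → ℕ) (leaf : ℕ → Bool) (c1 c2 : ℕ → ℕ)
    (hL : 4 * R + 2 ≤ L) (hrow : ∀ j, j < J → row j < R)
    (hrow' : ∀ j, j < J → leaf j = false → row j + 1 < R) (y : ℕ → ℝ) (hy : ∀ j, |y j| ≤ 1 / 8) :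
    Draw where
  R := R
  J := J
  L := L
  hL := by omega
  m := m
  row := row
  leaf := leaf
  c1 := c1
  c2 := c2
  hrow := hrow
  hrow' := hrow'
  f := poly L (vOf J row leaf)
  lip := poly_lip (by omega) _ (fun j => by
    have hb : ∀ j, -(4 * (R : ℤ) - 2) ≤ vOf J row leaf j ∧ vOf J row leaf j ≤ -2 ∨ R = 0 := by
      intro j
      unfold vOf
      split
      · rename_i h
        have := hrow j h.1
        left; constructor <;> omega
      · rcases Nat.eq_zero_or_pos R with h | h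
        · right; exact h
        · left; constructor <;> omega
    rcases hb j with h1 | h1
    · rcases hb (j + 1) with h2 | h2
      · rw [abs_le]; constructor <;> omega
      · omega
    · have h3 : ∀ j, vOf J row leaf j = -2 := by
        intro j
        unfold vOf
        split
        · rename_i h
          have := hrow j h.1
          omega
        · rfl
      rw [h3, h3]
      simp
      omega)
  flat := fun j _ => poly_flat (by omega) _ j
  hleaf := fun j hj hl => by
    rw [poly_col (by omega)]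
    unfold vOf
    rw [if_pos ⟨hj, hl⟩]
  y := y
  hy := hy

variable (D : Draw)

theorem card_It_le (M : ℕ) (hM : ∀ r, r < D.R → D.m r ≤ M) :
    Fintype.card D.It ≤ D.R * (D.L * D.J) * M + 5 * D.J := by
  rw [Fintype.card_sum, Fintype.card_sum, Fintype.card_sigma, Fintype.card_sigma]
  have h1 : ∑ p : Fin D.R × Fin (D.L * D.J), Fintype.card (Fin (D.m p.1)) ≤ D.R * (D.L * D.J) * M := by
    refine (Finset.sum_le_card_nsmul _ _ M (fun p _ => ?_)).trans ?_
    · rw [Fintype.card_fin]; exact hM _ p.1.2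
    · simp [Fintype.card_prod]
  have h2 : ∑ j : Fin D.J, Fintype.card (Fin (D.legI j)) ≤ D.J * 4 := by
    refine (Finset.sum_le_card_nsmul _ _ 4 (fun j _ => ?_)).trans ?_
    · rw [Fintype.card_fin]; unfold legI; split <;> omega
    · simp
  have h3 : Fintype.card {j : Fin D.J // D.leaf j = true} ≤ D.J := by
    simpa using Fintype.card_subtype_le (fun j : Fin D.J => D.leaf j = true)
  omega

theorem ex_le (C : ℕ) (hC : ∀ j, j < D.J → D.c1 j ≤ C ∧ D.c2 j ≤ C) (r x : ℕ) (hx : x < D.L * D.J) :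
    D.ex r x ≤ C := by
  have hj : x / D.L < D.J := Nat.div_lt_of_lt_mul hx
  unfold ex
  split
  · split
    · exact (hC _ hj).1
    · split
      · exact (hC _ hj).2
      · exact Nat.zero_le _
  · exact Nat.zero_le _

theorem card_Ag_le (M C : ℕ) (hM : ∀ r, r < D.R → D.m r ≤ M)
    (hC : ∀ j, j < D.J → D.c1 j ≤ C ∧ D.c2 j ≤ C) :
    Fintype.card D.Ag ≤ D.R * (D.L * D.J) * (M + C) + 3 * D.J := by
  rw [Fintype.card_sum, Fintype.card_sigma, Fintype.card_sigma]
  have h1 : ∑ p : Fin D.R × Fin (D.L * D.J), Fintype.card (Fin (D.m p.1 + D.ex p.1 p.2)) ≤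
      D.R * (D.L * D.J) * (M + C) := by
    refine (Finset.sum_le_card_nsmul _ _ (M + C) (fun p _ => ?_)).trans ?_
    · rw [Fintype.card_fin]; exact Nat.add_le_add (hM _ p.1.2) (D.ex_le C hC _ _ p.2.2)
    · simp [Fintype.card_prod]
  have h2 : ∑ j : Fin D.J, Fintype.card (Fin (D.legA j)) ≤ D.J * 3 := by
    refine (Finset.sum_le_card_nsmul _ _ 3 (fun j _ => ?_)).trans ?_
    · rw [Fintype.card_fin]; unfold legA; split <;> omega
    · simp
  omega

end Draw

end Pool.Agent.RN
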