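import Pool.Agent.RN.GeoB

/-!
# Project RN, module 7d: every thick word is realised by a price instance (`TW.drawing`)
-/

set_option autoImplicit false

namespace TW

open Finset Pool.Agent.RN

/-- the positions of the letters -/
noncomputable def Net.xs (N : Net) : List ℝ :=
  List.ofFn (fun j : Fin N.w.length => (4 * (N.rows : ℝ) + 2) * ((j : ℕ) : ℝ) + 1 / 2)

theorem Net.xs_length (N : Net) : N.xs.length = N.w.length := by simp [Net.xs]

theorem Net.xs_pairwise (N : Net) : N.xs.Pairwise (· < ·) := by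
  unfold Net.xs
  rw [List.pairwise_ofFn]
  intro i j hij
  have h1 : ((i : ℕ) : ℝ) < ((j : ℕ) : ℝ) := by exact_mod_cast hij
  have h2 : (0 : ℝ) < 4 * (N.rows : ℝ) + 2 := by positivity
  nlinarith

theorem Net.x_of_xs {N : Net} {ev : List Ev}
    (hx : ev.map Ev.x = N.xs) (j : ℕ) (hj : j < N.w.length) :
    (ev.getD j ev0).x = (4 * (N.rows : ℝ) + 2) * j + 1 / 2 := by
  have h1 : (ev.map Ev.x).getD j (Ev.x ev0) = (ev.getD j ev0).x := by rw [List.getD_map]
  rw [← h1, hx]
  unfold Net.xs
  rw [List.getD_eq_getElem _ _ (by simpa using hj)]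
  simp

/-- scaling of the heights -/
theorem exists_scale (J : ℕ) (g : ℕ → ℝ) : ∃ μ : ℝ, 0 < μ ∧ ∀ j < J, |μ * g j| ≤ 1 / 8 := by
  set B := ∑ i ∈ range J, |g i| with hB
  have hB0 : 0 ≤ B := Finset.sum_nonneg fun i _ => abs_nonneg _
  refine ⟨1 / (8 * (B + 1)), by positivity, fun j hj => ?_⟩
  have h1 : |g j| ≤ B := Finset.single_le_sum (f := fun i => |g i|) (fun i _ => abs_nonneg _)
    (Finset.mem_range.mpr hj)
  rw [abs_mul, abs_of_pos (by positivity : (0 : ℝ) < 1 / (8 * (B + 1)))]
  rw [div_mul_eq_mul_div, one_mul, div_le_div_iff₀ (by positivity) (by norm_num)]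
  nlinarith

/-- optimal runs exist -/
theorem exists_opt {R : ℕ} {cap : ℕ → ℕ} {ev : List Ev} (hex : ∃ zs, Run R cap ev zs 0)
    (t : ℝ × ℝ) : ∃ zs, Run R cap ev zs 0 ∧
      ∀ zs', Run R cap ev zs' 0 → cost R t ev zs 0 ≤ cost R t ev zs' 0 := by
  have hfin : ({zs : List Bool | Run R cap ev zs 0}).Finite := by
    refine (List.finite_length_eq Bool ev.length).subset ?_
    intro zs hz
    exact ((geo_run_iff R cap ev zs 0).mp hz).1
  obtain ⟨zs, h1, h2⟩ := Set.exists_min_image _ (fun zs => cost R t ev zs 0) hfin hex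
  exact ⟨zs, h1, h2⟩

section

variable {N : Net} (h : N.WF) (y : ℕ → ℝ) (hy : ∀ j, |y j| ≤ 1 / 8)

theorem Net.dlt_mono {ev : List Ev} (hlt : ev.map Ev.lt = N.w) (hc : Cvx N.R N.cap ev) :
    ∀ r < (N.draw h y hy).R, ∀ j < (N.draw h y hy).J, ∀ i i', i ≤ i' → i' < (N.draw h y hy).m r →
      dltf N ev r j i ≤ dltf N ev r j i' := by
  intro r hr j hj i i' hii' hi'
  have hr' : r < N.rows := hr
  have hj' : j < ev.length := by
    rw [ev_length hlt]
    exact hj
  have hm : i' < N.cap (N.un r) := hi'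
  have hev := (hc _ (ev_mem (ev := ev) (j := j) hj') _ (Net.un_lt h hr')).2
  obtain ⟨k, rfl⟩ := Nat.exists_eq_add_of_le hii'
  clear hii' hi'
  induction k with
  | zero => exact le_rfl
  | succ k ih =>
    refine (ih (by omega)).trans ?_
    have h3 := hev ((i + k : ℕ) : ℤ) (by positivity) (by push_cast; omega)
    unfold dltf
    have e1 : (((i + k + 1 : ℕ)) : ℤ) = ((i + k : ℕ) : ℤ) + 1 := by push_cast; ring
    have e2 : (((i + (k + 1) + 1 : ℕ)) : ℤ) = ((i + k : ℕ) : ℤ) + 2 := by push_cast; ring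
    have e3 : (((i + (k + 1) : ℕ)) : ℤ) = ((i + k : ℕ) : ℤ) + 1 := by push_cast; ring
    rw [e1, e2, e3]
    exact h3

end

open Classical in
/-- a costed word is realised by a price instance -/
theorem Net.inst_of_vis {N : Net} (h : N.WF) {M : ℕ} (hM : ∀ r, N.cap r ≤ M) (ev : List Ev) (n : ℕ)
    (hlt : ev.map Ev.lt = N.w) (hx : ev.map Ev.x = N.xs) (hc : Cvx N.R N.cap ev)
    (hv : Vis N.R N.cap ev n) :
    ∃ (ι κ τ : Type) (_ : Fintype ι) (_ : Fintype κ) (_ : Fintype τ),
      Nonempty (H87RN.Inst ι κ τ) ∧ Fintype.card ι ≤ Fintype.card κ ∧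
        Fintype.card κ ≤ N.rows * ((4 * N.rows + 2) * N.w.length) * M + 5 * N.w.length ∧
          n ≤ Fintype.card τ := by
  obtain ⟨hex, t, S, hinj, hS⟩ := hv
  obtain ⟨μ, hμ, hμy⟩ := exists_scale N.w.length (fun j => (ev.getD j ev0).y)
  let y : ℕ → ℝ := fun j => if j < N.w.length then μ * (ev.getD j ev0).y else 0
  have hy : ∀ j, |y j| ≤ 1 / 8 := by
    intro j
    show |if j < N.w.length then μ * (ev.getD j ev0).y else 0| ≤ 1 / 8
    split_ifs with hj
    · exact hμy j hj
    · norm_num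
  have hyy : ∀ j < N.w.length, y j = μ * (ev.getD j ev0).y := fun j hj => if_pos hj
  have hxx := Net.x_of_xs hx
  set D := N.draw h y hy with hD
  let c := D.cst (dltf N ev) (acf ev)
  let tt : Fin n → H5RN.E2 := fun s => !₂[(t s).1 / 2, (t s).2 / (2 * μ)]
  -- the cost of a good matching is at least the cost of its run
  have hge : ∀ (s : Fin n) (σ : D.Ag ↪ D.It), H5RN.Good D.Adj D.T σ →
      cost N.R (t s) ev (bl N.w.length (D.bit σ)) 0
        ≤ H5RN.gcost D.T (fun b => D.posB (D.locI b)) c (tt s) σ := by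
    intro s σ hσ
    have h1 := Draw.gcost_ge (D := D) (dltf N ev) (acf ev) (Net.dlt_mono h y hy hlt hc) hσ (tt s)
    have h2 := Net.gsum_eq h y hy hlt hc hμ.ne' hxx hyy (Draw.isRun_of_good hσ) (t s)
    rw [← h2]
    exact h1
  -- every run is realised
  have hre : ∀ zs, Run N.R N.cap ev zs 0 → ∃ σ : D.Ag ↪ D.It, H5RN.Good D.Adj D.T σ ∧
      ∀ s : Fin n, H5RN.gcost D.T (fun b => D.posB (D.locI b)) c (tt s) σ
        = cost N.R (t s) ev zs 0 := by
    intro zs hz
    obtain ⟨hb, K, hK⟩ := Net.isRun_bl h y hy hlt hz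
    obtain ⟨σ, hσ, hbit, hkk, -, hfst⟩ := Draw.exists_good hK
    refine ⟨σ, hσ, fun s => ?_⟩
    have h1 := Draw.gcost_eq (D := D) (dltf N ev) (acf ev) hσ (tt s) (fun r x i hxL => by
      have hnd : ¬ D.L ∣ (x : ℕ) := by
        intro hd
        have := Nat.mod_eq_zero_of_dvd hd
        omega
      have h3 := hfst ⟨(r, x), i⟩ hnd
      rw [h3, hkk r (x + 1) r.2 x.2])
    have h2 := Net.gsum_eq h y hy hlt hc hμ.ne' hxx hyy (Draw.isRun_of_good hσ) (t s)
    have h3 : bl N.w.length (D.bit σ) = zs := by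
      rw [hb]
      unfold bl
      congr 1
      funext j
      exact hbit j j.2
    rw [← h3, ← h2]
    exact h1
  -- the used sets
  let U : Fin n → Finset D.It := fun s => Finset.univ.filter
    (fun b => ∀ j, b = Sum.inr (Sum.inr j) → (S s).getD j.1 false = true)
  have hused : ∀ (s : Fin n) (σ : D.Ag ↪ D.It), H5RN.Good D.Adj D.T σ →
      used ev (bl N.w.length (D.bit σ)) = S s → Finset.univ.map σ = U s := by
    intro s σ hσ hu
    ext b
    simp only [Finset.mem_map, Finset.mem_univ, true_and, U, Finset.mem_filter]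
    constructor
    · rintro ⟨a, ha⟩ j rfl
      have h1 := (Draw.real_iff_of_good hσ j).mp ⟨a, ha⟩
      have hj : (j.1 : ℕ) < N.w.length := j.1.2
      rw [← hu, used_getD ev _ (by rw [bl_length, ev_length hlt]) _ (by rw [ev_length hlt]; exact hj),
        ltf_eq hlt, btf_bl hj, h1]
      have h2 : (N.lw j.1).isLeaf = true := j.2
      rw [h2]
      rfl
    · intro hb
      by_cases hT : b ∈ D.T
      · obtain ⟨j, rfl⟩ := hT
        have h1 := hb j rfl
        have hj : (j.1 : ℕ) < N.w.length := j.1.2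
        rw [← hu, used_getD ev _ (by rw [bl_length, ev_length hlt]) _
          (by rw [ev_length hlt]; exact hj), ltf_eq hlt, btf_bl hj] at h1
        have h2 : D.bit σ j.1 = true := by
          have := (Bool.and_eq_true _ _).mp h1
          exact this.2
        exact (Draw.real_iff_of_good hσ j).mpr h2
      · exact hσ.2 b hT
  have hUinj : Function.Injective U := by
    intro s s' hss
    apply hinj
    have hlist : ∀ s, ∃ zs, zs.length = ev.length ∧ S s = used ev zs := by
      intro s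
      obtain ⟨zs, h1, h2⟩ := exists_opt hex (t s)
      exact ⟨zs, ((geo_run_iff _ _ _ _ _).mp h1).1, (hS s zs h1 h2).symm⟩
    obtain ⟨zs, hz1, hz2⟩ := hlist s
    obtain ⟨zs', hz1', hz2'⟩ := hlist s'
    have key : ∀ j < ev.length, (S s).getD j false = (S s').getD j false := by
      intro j hj
      have hj' : j < N.w.length := by rw [← ev_length hlt]; exact hj
      by_cases hl : (N.lw j).isLeaf = true
      · have hm : ∀ s, (Sum.inr (Sum.inr (⟨⟨j, hj'⟩, hl⟩ : {j : Fin D.J // D.leaf j = true})) : D.It)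
            ∈ U s ↔ (S s).getD j false = true := by
          intro s
          simp only [U, Finset.mem_filter, Finset.mem_univ, true_and]
          constructor
          · intro hh
            exact hh _ rfl
          · intro hh j' hj'
            have e1 := Sum.inr_injective (Sum.inr_injective hj')
            rw [← e1]
            exact hh
        have h1 := hm s
        have h2 := hm s'
        rw [hss] at h1
        have h3 := h1.symm.trans h2
        cases e1 : (S s).getD j false <;> cases e2 : (S s').getD j false <;> simp_all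
      · rw [hz2, hz2', used_getD ev zs hz1 j hj, used_getD ev zs' hz1' j hj, ltf_eq hlt]
        have hl' : (N.lw j).isLeaf = false := by simpa using hl
        rw [hl']
        rfl
    have hl1 : (S s).length = ev.length := by rw [hz2, geo_used_length ev zs hz1]
    have hl2 : (S s').length = ev.length := by rw [hz2', geo_used_length ev zs' hz1']
    apply List.ext_getElem (by rw [hl1, hl2])
    intro i hi1 hi2
    have := key i (by omega)
    rwa [List.getD_eq_getElem _ _ hi1, List.getD_eq_getElem _ _ hi2] at this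
  obtain ⟨zs0, hzs0⟩ := hex
  obtain ⟨σ0, hσ0, -⟩ := hre zs0 hzs0
  have hinst : Nonempty (H87RN.Inst D.Ag D.It (Fin n)) := by
    refine H5RN.inst_of_geo (fun a => D.posA (D.locA a)) (fun b => D.posB (D.locI b)) D.Adj
      (fun a => D.u (D.locA a)) (fun b => Draw.price (D.locI b)) D.T
      (fun a b hab => D.tight_eq hab) (fun a b hab => D.tight_lt hab)
      (fun b hb => D.price_pos hb) (fun b hb => D.price_T hb) c
      (fun a => Draw.cst_hc (D := D) (dltf N ev) (acf ev) a) tt U hUinj ⟨σ0, hσ0⟩ ?_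
    intro s σ hσ hopt
    refine hused s σ hσ ?_
    refine hS s _ (Net.run_bl h y hy hlt (Draw.isRun_of_good hσ)) ?_
    intro zs' hz'
    obtain ⟨σ', hσ', hco⟩ := hre zs' hz'
    calc cost N.R (t s) ev (bl N.w.length (D.bit σ)) 0
        ≤ H5RN.gcost D.T (fun b => D.posB (D.locI b)) c (tt s) σ := hge s σ hσ
      _ ≤ H5RN.gcost D.T (fun b => D.posB (D.locI b)) c (tt s) σ' := hopt σ' hσ'
      _ = cost N.R (t s) ev zs' 0 := hco s
  refine ⟨D.Ag, D.It, Fin n, inferInstance, inferInstance, inferInstance, hinst,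
    Fintype.card_le_of_embedding σ0, ?_, ?_⟩
  · exact D.card_It_le M (fun r hr => hM _)
  · rw [Fintype.card_fin]

/-- **7d.** every thick word is realised by a price instance of size linear in the number of
letters -/
theorem drawing : ∃ c : ℕ, ∀ N : Net, N.WF → ∀ M : ℕ, 1 ≤ M → (∀ r, N.cap r ≤ M) →
    Drawn N (c * (N.w.length + 1) * (N.rows + 1) ^ 2 * M) := by
  refine ⟨9, fun N h M hM1 hM => ⟨N.xs, N.xs_length, N.xs_pairwise, ?_⟩⟩
  intro ev n hlt hx hc hv
  obtain ⟨ι, κ, τ, i1, i2, i3, h1, h2, h3, h4⟩ := Net.inst_of_vis h hM ev n hlt hx hc hv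
  refine ⟨ι, κ, τ, i1, i2, i3, h1, h2, h3.trans ?_, h4⟩
  generalize N.rows = R at *
  generalize N.w.length = J at *
  have e1 : R * ((4 * R + 2) * J) ≤ 4 * ((J + 1) * (R + 1) ^ 2) := by
    nlinarith [Nat.zero_le (J * R), Nat.zero_le R, Nat.zero_le J]
  have e2 : 5 * J ≤ 5 * ((J + 1) * (R + 1) ^ 2) * M := by
    have e3 : J ≤ (J + 1) * (R + 1) ^ 2 := by
      nlinarith [Nat.zero_le (J * R), Nat.zero_le (J * R ^ 2)]
    calc 5 * J ≤ 5 * ((J + 1) * (R + 1) ^ 2) := by omega
      _ ≤ 5 * ((J + 1) * (R + 1) ^ 2) * M := Nat.le_mul_of_pos_right _ hM1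
  calc R * ((4 * R + 2) * J) * M + 5 * J
      ≤ 4 * ((J + 1) * (R + 1) ^ 2) * M + 5 * ((J + 1) * (R + 1) ^ 2) * M :=
        Nat.add_le_add (Nat.mul_le_mul_right _ e1) e2
    _ = 9 * (J + 1) * (R + 1) ^ 2 * M := by ring

end TW
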