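import Pool.Agent.RN.BodyT

/-!
# T2: the transported old cost of a tight path of the body
-/

set_option autoImplicit false
set_option linter.unusedSimpArgs false
set_option linter.unusedTactic false
set_option linter.unreachableTactic false

namespace TW

open Finset

theorem sum_three {M : Type*} [AddCommMonoid M] (R : ℕ) (g : ℕ → M) :
    ∑ i ∈ range (3 * R), g i = ∑ q ∈ range R, (g (3 * q) + g (3 * q + 1) + g (3 * q + 2)) := by
  induction R with
  | zero => simp
  | succ R ih =>
    rw [Finset.sum_range_succ, ← ih, show 3 * (R + 1) = 3 * R + 1 + 1 + 1 by ring,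
      Finset.sum_range_succ, Finset.sum_range_succ, Finset.sum_range_succ, add_assoc, add_assoc,
      add_assoc]

/-- constant of one block -/
noncomputable def oldK (N : Net) (s : Bool) (e : Ev) : ℝ :=
  ∑ r ∈ range N.R, (if s && !N.st r then e.φ r (N.cap r) else 0)

theorem sum_fO (N : Net) (s : Bool) (e : Ev) (τ : St) (h1 : Ok N.R N.cap τ)
    (hφ : ∀ r < N.R, e.φ r 0 = 0) :
    ∑ i ∈ range N.step.R, fO N e.φ i (sim N s τ i)
      = ∑ r ∈ range N.R, e.φ r (τ r) + oldK N s e := by
  have hR : N.step.R = 3 * N.R := rfl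
  rw [hR, sum_three, oldK, ← Finset.sum_add_distrib]
  refine Finset.sum_congr rfl fun q hq => ?_
  have hq' : q < N.R := Finset.mem_range.1 hq
  have H := h1 q hq'
  have F := hφ q hq'
  have e0 : fO N e.φ (3 * q) (sim N s τ (3 * q)) = 0 := by
    unfold fO; rw [if_neg (by omega)]
  have e2 : fO N e.φ (3 * q + 2) (sim N s τ (3 * q + 2)) = 0 := by
    unfold fO; rw [if_neg (by omega)]
  rw [e0, e2, sim1]
  unfold fO jp
  rw [if_pos (by omega), show (3 * q + 1) / 3 = q by omega]
  cases hs : N.st q
  · cases s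
    · simp only [Bool.false_and, Bool.false_eq_true, if_false, add_zero, Bool.not_false,
        Bool.and_true, zero_add]
      rw [min_eq_left H.2, max_eq_right (by omega), F, add_zero]
    · simp only [Bool.true_and, Bool.false_eq_true, if_false, add_zero, Bool.not_false, if_true,
        zero_add]
      rw [min_eq_right (by omega), max_eq_left (by omega),
        show τ q + (N.cap q : ℤ) - (N.cap q : ℤ) = τ q by ring, add_comm]
  · simp

/-- old cost of one block -/
theorem oldc_blk (N : Net) (s z : Bool) (s0 top x nxt : ℝ) (e : Ev) (hb : List ℝ)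
    (hℓ : e.lt.WF N.R N.cap) (σ : St) (h1 : Ok N.R N.cap (σ + e.lt.eff z))
    (hφ : ∀ r < N.R, e.φ r 0 = 0) :
    oldc N.step.R (tBlk N s0 top x nxt e hb) (blkBits s N.st e.lt z) (sim N s σ)
      = (if z then e.w else 0) + ∑ r ∈ range N.R, e.φ r ((σ + e.lt.eff z) r) + oldK N s e := by
  have hf := blk_fin N e.lt hℓ s z σ
  rw [add_assoc, ← sum_fO N s e _ h1 hφ, ← hf]
  unfold tBlk
  cases hlt : e.lt with
  | leaf r c =>
    cases hs : N.st r <;>
      simp only [blk, blkBits, hs, if_true, Bool.false_eq_true, if_false, oldc, tc, tQ, tF, tP,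
        fin, fZ, Finset.sum_const_zero, add_zero, ite_self, zero_add]
  | br a b c d =>
    cases hsa : N.st a <;> cases hsb : N.st b <;>
      simp only [blk, blkBits, hsa, hsb, if_true, Bool.false_eq_true, if_false, oldc, tc, tQ, tF,
        tP, fin, fZ, Finset.sum_const_zero, add_zero, ite_self, zero_add]

theorem use_zero (e : Ev) (z : Bool) : e.use (0, 0) z = if z then e.w else 0 := by
  cases z <;> simp [Ev.use]

/-- **T2.** old cost of a tight path of the body -/
theorem old_body (N : Net) (s : Bool) (s0 top : ℝ) (A : List (Ev × ℝ × List ℝ))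
    (hA : ∀ a ∈ A, a.1.lt.WF N.R N.cap) (hφ : ∀ a ∈ A, ∀ r < N.R, a.1.φ r 0 = 0) :
    ∃ c : ℝ, ∀ (zv : List Bool) (σ : St),
      Path N.R N.cap (A.map (fun a => a.1.lt)) zv σ →
      oldc N.step.R (tBody N s0 top A) (bodyBits s N.st (A.map (fun a => a.1.lt)) zv)
        (sim N s σ) = cost N.R (0, 0) (A.map (fun a => a.1)) zv σ + c := by
  induction A with
  | nil =>
    refine ⟨0, fun zv σ _ => ?_⟩
    cases zv <;> simp [tBody, oldc, tc, cost]
  | cons a A ih =>
    obtain ⟨c, hc⟩ := ih (fun x hx => hA x (List.mem_cons_of_mem _ hx))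
      (fun x hx => hφ x (List.mem_cons_of_mem _ hx))
    refine ⟨oldK N s a.1 + c, fun zv σ hp => ?_⟩
    cases zv with
    | nil => simp [Path] at hp
    | cons z zv =>
      obtain ⟨h1, h2⟩ := hp
      have hℓ := hA a List.mem_cons_self
      simp only [List.map_cons, bodyBits, tBody, cost]
      have h3 := hc zv _ h2
      have h4 := oldc_blk N s z s0 top a.2.1 (nx top A) a.1 a.2.2 hℓ σ h1
        (hφ a List.mem_cons_self)
      simp only [oldc] at h3 h4 ⊢
      rw [tc_append _ _ _ _ _ _ _ _ (by rw [blkBits_length, tBlk_length]), tBlk_lt,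
        blk_fin N a.1.lt hℓ s z σ, h3, h4, use_zero]
      ring

end TW
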