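import Pool.Agent.RN.LevelF
import Pool.Agent.RN.LevelCvx
import Pool.Agent.RN.OldC

/-!
# The level lemma for every well-formed net
-/

set_option autoImplicit false

namespace TW

open Finset

/-- **The level lemma** (RN2 + RN3). -/
theorem levelOK (N : Net) (hN : N.WF) : LevelOK N := by
  refine levelOK_of ?_ ?_ ?_ N hN
  · intro N _ s s0 top A hA ys σ hl
    refine tight_body N s s0 top A hA ys σ ?_
    rw [hl, ← tBody_lt N s0 top A, List.length_map]
  · intro N _ s s0 top A hA hc
    obtain ⟨c, h⟩ := old_body N s s0 top A hA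
      (fun a ha r hr => (hc a.1 (List.mem_map.2 ⟨a, ha, rfl⟩) r hr).1)
    exact ⟨c, fun zv σ _ hp => h zv σ hp⟩
  · intro N _ s0 top A _ hc hA hp hQ hP
    obtain ⟨M0, _, h⟩ := cvx_all N s0 top A hQ hP hc hp (fun a ha => (hA a ha).1)
      (fun a ha => (hA a ha).2)
    exact ⟨M0, h⟩

end TW

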