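import Pool.Agent.RN.Struct
import Pool.Agent.RN94.CountNet
import Pool.Agent.RN94.Arith
import Pool.Agent.RN.LevelOK
import Pool.Agent.H80.RN.ClaimStep
import Pool.Agent.RN.Geo

set_option autoImplicit false

/-! Final assembly of plan A of project RN: an independent second proof of the frozen statement
S11118 (`TW.final`); the hand-in is Pool/Agent/S11118.lean (plan C). -/

namespace TW

open Finset

/-- RN4 (with RN2, RN3): one level doubles the number of visible used sets. -/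
theorem Claim_step (N : Net) (h : N.WF) (hl : N.Live) (n : ℕ) (hc : Claim N n) :
    Claim N.step (2 * n) := Claim_step_of N h hl (levelOK N h) n hc

/-! ASSEMBLY -/

theorem Claim_base : Claim Net.base 1 := by
  intro xs hx _
  have : xs = [] := by
    have : Net.base.w = [] := rfl
    rw [this] at hx
    simpa using hx
  subst this
  refine ⟨[], rfl, rfl, ?_, ⟨[], fun r _ => rfl⟩, fun _ => (0, 0), fun _ => [], ?_, ?_⟩
  · intro e he; simp at he
  · intro i j _; exact Subsingleton.elim i j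
  · intro i zs h _
    cases zs with
    | nil => rfl
    | cons z zs => exact absurd h (by simp [Run])

theorem Claim_freeze (N : Net) (n : ℕ) (h : Claim N n) : Claim N.freeze n := h

theorem iter_aux (K : ℕ) : ∀ (N : Net) (n : ℕ), N.WF → N.Live → Claim N n →
    (Net.step^[K] N).WF ∧ Claim (Net.step^[K] N) (2 ^ K * n) ∧
      (1 ≤ K → (Net.step^[K] N).w ≠ []) := by
  induction K with
  | zero => intro N n h1 h2 h3; refine ⟨h1, ?_, fun h => by omega⟩; simpa using h3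
  | succ K ih =>
    intro N n h1 h2 h3
    have hw := w_ne_step N h1 h2
    obtain ⟨a, b, c⟩ := ih N.step (2 * n) (WF_step N h1) (Or.inl hw) (Claim_step N h1 h2 n h3)
    rw [Function.iterate_succ_apply]
    refine ⟨a, ?_, fun _ => ?_⟩
    · have : 2 ^ (K + 1) * n = 2 ^ K * (2 * n) := by ring
      rw [this]; exact b
    · rcases Nat.eq_zero_or_pos K with h0 | h0
      · subst h0; simpa using hw
      · exact c h0

theorem net_all (K : ℕ) (hK : 1 ≤ K) (E : ℕ) :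
    (net K E).WF ∧ Claim (net K E) (2 ^ (K * (E + 1))) ∧ (net K E).w ≠ [] := by
  induction E with
  | zero =>
    have hl : Net.base.Live := Or.inr ⟨0, by decide, by decide, rfl⟩
    obtain ⟨a, b, c⟩ := iter_aux K Net.base 1 WF_base hl Claim_base
    refine ⟨a, ?_, c hK⟩
    simpa [net] using b
  | succ E ih =>
    obtain ⟨a, b, c⟩ := ih
    obtain ⟨a', b', c'⟩ := iter_aux K (net K E).freeze _ (WF_freeze _ a) (Or.inl c)
      (Claim_freeze _ _ b)
    refine ⟨a', ?_, c' hK⟩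
    have : 2 ^ (K * (E + 1 + 1)) = 2 ^ K * 2 ^ (K * (E + 1)) := by
      rw [← pow_add]; congr 1; ring
    rw [this]; exact b'

theorem final :
    ¬ (∃ C : ℝ, ∃ d₁ d₂ : ℕ, ∀ m n : ℕ, m ≤ n →
      ∀ (A : Fin m → EuclideanSpace ℝ (Fin 2)) (B : Fin n → EuclideanSpace ℝ (Fin 2)),
        ((({π : Fin m ↪ Fin n | ∃ t : EuclideanSpace ℝ (Fin 2),
            ∀ σ : Fin m ↪ Fin n, σ ≠ π →
              ∑ i, ‖A i - (B (π i) + t)‖ ^ 2 < ∑ i, ‖A i - (B (σ i) + t)‖ ^ 2}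
            : Set (Fin m ↪ Fin n)).ncard : ℕ) : ℝ)
          ≤ C * ((m : ℝ) + 1) ^ d₁ * ((n : ℝ) + 1) ^ d₂) := by
  refine H87RN.not_poly_of_inst fun C d => ?_
  obtain ⟨C₁, hC₁⟩ := count (2 * d)
  obtain ⟨c₁, hc₁⟩ := drawing
  -- bound ≤ c * K^a * 4^K
  set c := c₁ * (2 * (C₁ + 1)) * (2 * (C₁ + 1)) ^ 2 with hc
  obtain ⟨K, hK, hlt⟩ := arith (max C 0) c (3 * (2 * d)) d
  obtain ⟨hWF, hClaim, _⟩ := net_all K hK (2 * d)
  obtain ⟨hJ, hU, hcap⟩ := hC₁ K hK
  obtain ⟨xs, hxl, hxs, hdr⟩ := hc₁ (net K (2 * d)) hWF (2 ^ K) Nat.one_le_two_pow hcap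
  obtain ⟨ev, e1, e2, e3, e4⟩ := hClaim xs hxl hxs
  obtain ⟨ι, κ, τ, i1, i2, i3, hI, hpq, hq, hn⟩ := hdr ev _ e1 e2 e3 e4
  refine ⟨ι, κ, τ, i1, i2, i3, hI, hpq, ?_⟩
  have hb : c₁ * ((net K (2 * d)).w.length + 1) * ((net K (2 * d)).rows + 1) ^ 2 * 2 ^ K
      ≤ c * K ^ (3 * (2 * d)) * 4 ^ K := by
    have hKE : 1 ≤ K ^ (2 * d) := Nat.one_le_pow _ _ hK
    have h2K : 1 ≤ 2 ^ K := Nat.one_le_two_pow
    have a1 : (net K (2 * d)).w.length + 1 ≤ 2 * (C₁ + 1) * (K ^ (2 * d) * 2 ^ K) := by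
      have : 1 ≤ K ^ (2 * d) * 2 ^ K := Nat.one_le_iff_ne_zero.mpr (by positivity)
      nlinarith [hJ]
    have a2 : (net K (2 * d)).rows + 1 ≤ 2 * (C₁ + 1) * K ^ (2 * d) := by nlinarith [hU]
    calc c₁ * ((net K (2 * d)).w.length + 1) * ((net K (2 * d)).rows + 1) ^ 2 * 2 ^ K
        ≤ c₁ * (2 * (C₁ + 1) * (K ^ (2 * d) * 2 ^ K)) * (2 * (C₁ + 1) * K ^ (2 * d)) ^ 2
          * 2 ^ K := by gcongr
      _ = c * K ^ (3 * (2 * d)) * 4 ^ K := by
          rw [hc]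
          have : (4 : ℕ) ^ K = 2 ^ K * 2 ^ K := by rw [← mul_pow]; norm_num
          rw [this, pow_mul' K 3 (2 * d)]
          ring
  have hq' : (Fintype.card κ : ℝ) ≤ ((c * K ^ (3 * (2 * d)) * 4 ^ K : ℕ) : ℝ) := by
    exact_mod_cast hq.trans hb
  calc C * ((Fintype.card κ : ℝ) + 1) ^ d
      ≤ max C 0 * (((c * K ^ (3 * (2 * d)) * 4 ^ K : ℕ) : ℝ) + 1) ^ d := by
        gcongr
        exact le_max_left _ _
    _ < (2 : ℝ) ^ (K * (2 * d + 1)) := hlt
    _ ≤ (Fintype.card τ : ℝ) := by exact_mod_cast hn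

end TW
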