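import Pool.Agent.RN.Defs

/-!
# Project RN, module 7d (2): ranks of the used rows
-/

set_option autoImplicit false

namespace TW

open Finset

/-- rank of a row among the used rows -/
def Net.rk (N : Net) (r : ℕ) : ℕ := Nat.count (fun i => 0 < N.cap i) r

/-- the used row of a given rank -/
noncomputable def Net.un (N : Net) (q : ℕ) : ℕ := Nat.nth (fun i => 0 < N.cap i) q

variable {N : Net}

theorem Net.lt_R (h : N.WF) {r : ℕ} (hr : 0 < N.cap r) : r < N.R := by
  by_contra hc
  have := h.cap_out r (by omega)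
  omega

theorem Net.rows_eq (N : Net) : N.rows = Nat.count (fun i => 0 < N.cap i) N.R := by
  rw [Nat.count_eq_card_filter_range]
  rfl

theorem Net.rk_lt (h : N.WF) {r : ℕ} (hr : 0 < N.cap r) : N.rk r < N.rows := by
  rw [N.rows_eq]
  exact Nat.count_strict_mono (p := fun i => 0 < N.cap i) hr (Net.lt_R h hr)

theorem Net.un_rk {r : ℕ} (hr : 0 < N.cap r) : N.un (N.rk r) = r :=
  Nat.nth_count (p := fun i => 0 < N.cap i) hr

theorem Net.fin_aux (h : N.WF) (S : Set ℕ) (hS : ∀ i, i ∈ S ↔ 0 < N.cap i) (hf : S.Finite) :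
    hf.toFinset.card = N.rows := by
  unfold Net.rows
  congr 1
  ext i
  rw [Set.Finite.mem_toFinset, hS, Finset.mem_filter, Finset.mem_range]
  exact ⟨fun hi => ⟨Net.lt_R h hi, hi⟩, fun hi => hi.2⟩

theorem Net.cap_un (h : N.WF) {q : ℕ} (hq : q < N.rows) : 0 < N.cap (N.un q) :=
  Nat.nth_mem (p := fun i => 0 < N.cap i) q (fun hf => by
    rw [Net.fin_aux h _ (fun _ => Iff.rfl) hf]; exact hq)

theorem Net.rk_un (h : N.WF) {q : ℕ} (hq : q < N.rows) : N.rk (N.un q) = q :=
  Nat.count_nth (p := fun i => 0 < N.cap i) (fun hf => by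
    rw [Net.fin_aux h _ (fun _ => Iff.rfl) hf]; exact hq)

theorem Net.un_lt (h : N.WF) {q : ℕ} (hq : q < N.rows) : N.un q < N.R :=
  Net.lt_R h (Net.cap_un h hq)

theorem Net.rk_succ {a b : ℕ} (hab : a < b) (ha : 0 < N.cap a)
    (hn : ∀ i, a < i → i < b → N.cap i = 0) : N.rk b = N.rk a + 1 := by
  have key : ∀ n, a + 1 + n ≤ b → N.rk (a + 1 + n) = N.rk a + 1 := by
    intro n
    induction n with
    | zero =>
      intro _
      unfold Net.rk
      rw [Nat.add_zero, Nat.count_succ, if_pos ha]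
    | succ n ih =>
      intro hle
      have h1 := ih (by omega)
      unfold Net.rk at h1 ⊢
      rw [show a + 1 + (n + 1) = (a + 1 + n) + 1 by ring, Nat.count_succ, h1]
      have h2 : N.cap (a + 1 + n) = 0 := hn _ (by omega) (by omega)
      rw [if_neg (by omega)]
  have := key (b - (a + 1)) (by omega)
  rwa [show a + 1 + (b - (a + 1)) = b by omega] at this

theorem Net.rk_inj {r r' : ℕ} (hr : 0 < N.cap r) (hr' : 0 < N.cap r') (h : N.rk r = N.rk r') :
    r = r' := by
  rw [← Net.un_rk hr, ← Net.un_rk hr', h]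

/-- sums over the rows reduce to sums over the ranks -/
theorem Net.sum_rows (h : N.WF) (g : ℕ → ℝ) (hg : ∀ r < N.R, N.cap r = 0 → g r = 0) :
    ∑ r ∈ range N.R, g r = ∑ q ∈ range N.rows, g (N.un q) := by
  have h1 : ∑ r ∈ range N.R, g r = ∑ r ∈ (range N.R).filter (fun r => 0 < N.cap r), g r := by
    rw [Finset.sum_filter]
    refine Finset.sum_congr rfl fun r hr => ?_
    split_ifs with hc
    · rfl
    · exact hg r (Finset.mem_range.mp hr) (by omega)
  rw [h1]
  refine Finset.sum_nbij' (fun r => N.rk r) (fun q => N.un q) ?_ ?_ ?_ ?_ ?_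
  · intro r hr
    rw [Finset.mem_filter] at hr
    exact Finset.mem_range.mpr (Net.rk_lt h hr.2)
  · intro q hq
    have hq' := Finset.mem_range.mp hq
    rw [Finset.mem_filter, Finset.mem_range]
    exact ⟨Net.un_lt h hq', Net.cap_un h hq'⟩
  · intro r hr
    rw [Finset.mem_filter] at hr
    exact Net.un_rk hr.2
  · intro q hq
    exact Net.rk_un h (Finset.mem_range.mp hq)
  · intro r hr
    rw [Finset.mem_filter] at hr
    rw [Net.un_rk hr.2]

end TW
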