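import Pool.Agent.RN.Defs

/-!
# Project RN, module 7d (1): runs and costs of thick words in indexed form
-/

set_option autoImplicit false

namespace TW

open Finset

/-- default event -/
noncomputable def ev0 : Ev := ⟨.leaf 0 false, 0, 0, 0, fun _ _ => 0⟩

/-- state after `j` letters (start `0`) -/
def sta (f : ℕ → Lt) (z : ℕ → Bool) (j : ℕ) : St := fun r => ∑ i ∈ range j, (f i).eff (z i) r

theorem sta_zero (f : ℕ → Lt) (z : ℕ → Bool) : sta f z 0 = 0 := by
  funext r
  simp [sta]

theorem sta_succ (f : ℕ → Lt) (z : ℕ → Bool) (j : ℕ) :
    sta f z (j + 1) = sta f z j + (f j).eff (z j) := by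
  funext r
  simp [sta, Finset.sum_range_succ]

theorem sta_succ' (f : ℕ → Lt) (z : ℕ → Bool) (j : ℕ) :
    sta f z (j + 1) = (f 0).eff (z 0) + sta (fun i => f (i + 1)) (fun i => z (i + 1)) j := by
  funext r
  simp [sta, Finset.sum_range_succ']
  ring

/-- letters of an event list, indexed -/
noncomputable def ltf (ev : List Ev) (i : ℕ) : Lt := (ev.getD i ev0).lt

/-- bits, indexed -/
def btf (zs : List Bool) (i : ℕ) : Bool := zs.getD i false

theorem geo_run_iff (R : ℕ) (cap : ℕ → ℕ) (ev : List Ev) : ∀ (zs : List Bool) (σ : St),
    Run R cap ev zs σ ↔ zs.length = ev.length ∧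
      (∀ j < ev.length, Ok R cap (σ + sta (ltf ev) (btf zs) (j + 1))) ∧
      ∀ r < R, (σ + sta (ltf ev) (btf zs) ev.length) r = 0 := by
  induction ev with
  | nil =>
    intro zs σ
    cases zs with
    | nil => simp [Run, sta]
    | cons z zs => simp [Run]
  | cons e w ih =>
    intro zs σ
    cases zs with
    | nil => simp [Run]
    | cons z zs =>
      have e0 : ltf (e :: w) 0 = e.lt := by simp [ltf]
      have e1 : (fun i => ltf (e :: w) (i + 1)) = ltf w := by
        funext i
        simp [ltf]
      have b0 : btf (z :: zs) 0 = z := by simp [btf]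
      have b1 : (fun i => btf (z :: zs) (i + 1)) = btf zs := by
        funext i
        simp [btf]
      have key : ∀ j, σ + sta (ltf (e :: w)) (btf (z :: zs)) (j + 1)
          = (σ + e.lt.eff z) + sta (ltf w) (btf zs) j := by
        intro j
        rw [sta_succ', e0, e1, b0, b1, add_assoc]
      simp only [Run, ih, List.length_cons, key]
      constructor
      · rintro ⟨h1, h2, h3, h4⟩
        refine ⟨by omega, ?_, h4⟩
        intro j hj
        cases j with
        | zero => rw [sta_zero, add_zero]; exact h1
        | succ j => exact h3 j (by omega)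
      · rintro ⟨h1, h2, h3⟩
        refine ⟨?_, by omega, fun j hj => h2 (j + 1) (by omega), h3⟩
        have := h2 0 (by omega)
        rwa [sta_zero, add_zero] at this

theorem cost_eq (R : ℕ) (t : ℝ × ℝ) (ev : List Ev) : ∀ (zs : List Bool) (σ : St),
    zs.length = ev.length →
    cost R t ev zs σ = ∑ j ∈ range ev.length, ((ev.getD j ev0).use t (btf zs j)
      + ∑ r ∈ range R, (ev.getD j ev0).φ r ((σ + sta (ltf ev) (btf zs) (j + 1)) r)) := by
  induction ev with
  | nil =>
    intro zs σ h
    cases zs with
    | nil => simp [cost]
    | cons z zs => simp at h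
  | cons e w ih =>
    intro zs σ h
    cases zs with
    | nil => simp at h
    | cons z zs =>
      have e0 : ltf (e :: w) 0 = e.lt := by simp [ltf]
      have e1 : (fun i => ltf (e :: w) (i + 1)) = ltf w := by
        funext i
        simp [ltf]
      have b0 : btf (z :: zs) 0 = z := by simp [btf]
      have b1 : (fun i => btf (z :: zs) (i + 1)) = btf zs := by
        funext i
        simp [btf]
      have key : ∀ j, σ + sta (ltf (e :: w)) (btf (z :: zs)) (j + 1)
          = (σ + e.lt.eff z) + sta (ltf w) (btf zs) j := by
        intro j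
        rw [sta_succ', e0, e1, b0, b1, add_assoc]
      rw [List.length_cons, Finset.sum_range_succ', cost, ih zs _ (by simpa using h)]
      simp only [key, sta_zero, add_zero, List.getD_cons_succ, List.getD_cons_zero, b0]
      have b2 : ∀ i, btf (z :: zs) (i + 1) = btf zs i := fun i => congrFun b1 i
      simp only [b2]
      ring

theorem geo_used_length (ev : List Ev) (zs : List Bool) (h : zs.length = ev.length) :
    (used ev zs).length = ev.length := by
  simp [used, h]

theorem used_getD (ev : List Ev) (zs : List Bool) (h : zs.length = ev.length) (j : ℕ)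
    (hj : j < ev.length) :
    (used ev zs).getD j false = ((ltf ev j).isLeaf && btf zs j) := by
  have h1 : j < (used ev zs).length := by rw [geo_used_length ev zs h]; exact hj
  have h2 : j < zs.length := by omega
  rw [List.getD_eq_getElem _ _ h1]
  simp only [used, List.getElem_zipWith]
  unfold ltf btf
  rw [List.getD_eq_getElem _ _ hj, List.getD_eq_getElem _ _ h2]

end TW
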