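import Pool.Agent.RN.MatchRun

set_option autoImplicit false

/-!
# Project RN, module 7b2: a run gives a matching of the drawing

`Mat` = the matching of a run as an explicit relation, `exists_matching`, and the final form
`exists_good` (bits and counts of helper98's `MatchRun`).
-/

namespace Pool.Agent.RN.Draw

open scoped Classical

variable (D : Draw)

/-- the column states of a run -/
structure Cols (low : ℕ → Bool) (K : ℕ → ℕ → ℕ) : Prop where
  le : ∀ r x, r < D.R → x ≤ D.L * D.J → K r x ≤ D.m r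
  zero : ∀ r, r < D.R → K r 0 = 0
  last : ∀ r, r < D.R → K r (D.L * D.J) = 0
  step : ∀ r x, r < D.R → x < D.L * D.J → K r (x + 1) + D.legs low r x = K r x + D.ex r x

theorem legs_le_one (low : ℕ → Bool) (r x : ℕ) : D.legs low r x ≤ 1 := by
  unfold legs
  split_ifs <;> simp [Bool.toNat_le]

variable {D}

theorem row_div (j : ℕ) : D.L * j / D.L = j :=
  Nat.mul_div_cancel_left j (lt_of_lt_of_le (by norm_num) D.hL)

theorem legs_low (low : ℕ → Bool) (j : ℕ) : D.legs low (D.row j) (D.L * j) = (low j).toNat := by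
  unfold legs
  rw [if_pos (Dvd.intro j rfl), row_div, if_pos rfl]

theorem legs_up (low : ℕ → Bool) (j : ℕ) (hj : D.leaf j = false) :
    D.legs low (D.row j + 1) (D.L * j) = (!low j).toNat := by
  unfold legs
  rw [if_pos (Dvd.intro j rfl), row_div, if_neg (by omega), if_pos ⟨hj, rfl⟩]

/-- a row agent -/
def agRow (D : Draw) (r x a : ℕ) (hr : r < D.R) (hx : x < D.L * D.J) (ha : a < D.m r + D.ex r x) :
    D.Ag := Sum.inl ⟨(⟨r, hr⟩, ⟨x, hx⟩), ⟨a, ha⟩⟩

/-- a leg agent -/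
def agLeg (D : Draw) (j i : ℕ) (hj : j < D.J) (hi : i < D.legA j) : D.Ag :=
  Sum.inr ⟨⟨j, hj⟩, ⟨i, hi⟩⟩

/-- a row item -/
def itRow (D : Draw) (r x a : ℕ) (hr : r < D.R) (hx : x < D.L * D.J) (ha : a < D.m r) :
    D.It := Sum.inl ⟨(⟨r, hr⟩, ⟨x, hx⟩), ⟨a, ha⟩⟩

/-- a leg item -/
def itLeg (D : Draw) (j i : ℕ) (hj : j < D.J) (hi : i < D.legI j) : D.It :=
  Sum.inr (Sum.inl ⟨⟨j, hj⟩, ⟨i, hi⟩⟩)

/-- a real item -/
def itReal (D : Draw) (j : ℕ) (hj : j < D.J) (hl : D.leaf j = true) : D.It :=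
  Sum.inr (Sum.inr ⟨⟨j, hj⟩, hl⟩)

/-- the matching relation of a run, on codes -/
def Mat (D : Draw) (low : ℕ → Bool) (K : ℕ → ℕ → ℕ) : D.Ag → D.It → Prop
  | Sum.inl s, Sum.inl q => (q.1.1 : ℕ) = s.1.1 ∧
      (((q.1.2 : ℕ) = s.1.2 + 1 ∧ (q.2 : ℕ) = s.2 ∧ (s.2 : ℕ) < K s.1.1 (s.1.2 + 1)) ∨
       ((q.1.2 : ℕ) = s.1.2 ∧ K s.1.1 s.1.2 ≤ q.2 ∧
          (s.2 : ℕ) = K s.1.1 (s.1.2 + 1) + (q.2 - K s.1.1 s.1.2)))
  | Sum.inl s, Sum.inr (Sum.inl q) => (s.1.2 : ℕ) = D.L * q.1 ∧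
      (s.2 : ℕ) = K s.1.1 (s.1.2 + 1) + (D.m s.1.1 - K s.1.1 s.1.2) ∧
      (((s.1.1 : ℕ) = D.row q.1 ∧ (q.2 : ℕ) = 0 ∧ low q.1 = true) ∨
       (D.leaf q.1 = false ∧ (s.1.1 : ℕ) = D.row q.1 + 1 ∧ (q.2 : ℕ) = 3 ∧ low q.1 = false))
  | Sum.inl _, Sum.inr (Sum.inr _) => False
  | Sum.inr _, Sum.inl _ => False
  | Sum.inr s, Sum.inr (Sum.inl q) => (q.1 : ℕ) = s.1 ∧
      ((low s.1 = true ∧ D.leaf s.1 = false ∧ (q.2 : ℕ) = s.2 + 1) ∨
       (low s.1 = false ∧ (q.2 : ℕ) = s.2))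
  | Sum.inr s, Sum.inr (Sum.inr q) => (q.1 : ℕ) = s.1 ∧ low s.1 = true

theorem sig_ext {α : Type*} {n : α → ℕ} {s s' : Σ p, Fin (n p)} (h : s.1 = s'.1)
    (h2 : (s.2 : ℕ) = s'.2) : s = s' := by
  obtain ⟨p, i⟩ := s
  obtain ⟨p', i'⟩ := s'
  obtain rfl : p = p' := h
  obtain rfl : i = i' := Fin.ext h2
  rfl

theorem mat_adj {low : ℕ → Bool} {K : ℕ → ℕ → ℕ} {a : D.Ag} {b : D.It} (h : Mat D low K a b) :
    D.Adj a b := by
  rcases a with s | s <;> rcases b with q | q | q <;>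
    simp only [Mat, Adj, locA, locI, adj] at h ⊢
  · obtain ⟨h1, h2 | h2⟩ := h
    · exact ⟨h1, Or.inr h2.1⟩
    · exact ⟨h1, Or.inl h2.1⟩
  · obtain ⟨h1, h2, h3 | h3⟩ := h
    · exact ⟨h1, Or.inl ⟨h3.1, h3.2.1⟩⟩
    · exact ⟨h1, Or.inr ⟨h3.2.1, h3.2.2.1⟩⟩
  · obtain ⟨h1, h2 | h2⟩ := h
    · exact ⟨h1, Or.inr h2.2.2⟩
    · exact ⟨h1, Or.inl h2.2⟩
  · exact h.1

/-- what it means that a hub takes a leg -/
theorem legs_pos {low : ℕ → Bool} {r x : ℕ} (h : 0 < D.legs low r x) (hx : x < D.L * D.J) :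
    ∃ j, j < D.J ∧ x = D.L * j ∧ ((r = D.row j ∧ low j = true) ∨
      (D.leaf j = false ∧ r = D.row j + 1 ∧ low j = false)) := by
  unfold legs at h
  split_ifs at h with h1 h2 h3
  · obtain ⟨j, rfl⟩ := h1
    rw [row_div] at h h2
    refine ⟨j, Nat.lt_of_mul_lt_mul_left hx, rfl, Or.inl ⟨h2, ?_⟩⟩
    cases hl : low j <;> simp_all
  · obtain ⟨j, rfl⟩ := h1
    rw [row_div] at h h2 h3
    refine ⟨j, Nat.lt_of_mul_lt_mul_left hx, rfl, Or.inr ⟨h3.1, h3.2, ?_⟩⟩
    cases hl : low j <;> simp_all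
  · omega
  · omega

theorem mat_total {low : ℕ → Bool} {K : ℕ → ℕ → ℕ} (h : Cols D low K) (a : D.Ag) :
    ∃ b, Mat D low K a b := by
  rcases a with ⟨⟨⟨r, hr⟩, ⟨x, hx⟩⟩, ⟨a, ha⟩⟩ | ⟨⟨j, hj⟩, ⟨i, hi⟩⟩
  · simp only at ha
    have hs := h.step r x hr hx
    have hl := D.legs_le_one low r x
    have hk := h.le r x hr hx.le
    have hk' := h.le r (x + 1) hr hx
    by_cases c1 : a < K r (x + 1)
    · have hx1 : x + 1 < D.L * D.J := by
        rcases Nat.lt_or_ge (x + 1) (D.L * D.J) with h1 | h1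
        · exact h1
        · have : x + 1 = D.L * D.J := le_antisymm hx h1
          rw [this, h.last r hr] at c1
          omega
      refine ⟨itRow D r (x + 1) a hr hx1 (by omega), ?_⟩
      simp only [Mat, itRow]
      exact ⟨trivial, Or.inl ⟨trivial, trivial, c1⟩⟩
    by_cases c2 : a - K r (x + 1) < D.m r - K r x
    · refine ⟨itRow D r x (K r x + (a - K r (x + 1))) hr hx (by omega), ?_⟩
      simp only [Mat, itRow]
      exact ⟨trivial, Or.inr ⟨trivial, by omega, by omega⟩⟩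
    · have hl1 : 0 < D.legs low r x := by omega
      obtain ⟨j, hj, rfl, h3⟩ := legs_pos hl1 hx
      have hae : a = K r (D.L * j + 1) + (D.m r - K r (D.L * j)) := by omega
      rcases h3 with h3 | h3
      · have hi : 0 < D.legI j := by unfold legI; split_ifs <;> norm_num
        refine ⟨itLeg D j 0 hj hi, ?_⟩
        simp only [Mat, itLeg]
        exact ⟨trivial, hae, Or.inl ⟨h3.1, trivial, h3.2⟩⟩
      · have hi : 3 < D.legI j := by unfold legI; rw [if_neg (by simp [h3.1])]; norm_num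
        refine ⟨itLeg D j 3 hj hi, ?_⟩
        simp only [Mat, itLeg]
        exact ⟨trivial, hae, Or.inr ⟨h3.1, h3.2.1, trivial, h3.2.2⟩⟩
  · simp only at hi
    cases hl : low j
    · have hi' : i < D.legI j := by
        unfold legA at hi; unfold legI
        split_ifs at hi ⊢ <;> omega
      refine ⟨itLeg D j i hj hi', ?_⟩
      simp only [Mat, itLeg]
      exact ⟨trivial, Or.inr ⟨hl, trivial⟩⟩
    · cases hf : D.leaf j
      · have hi' : i + 1 < D.legI j := by
          unfold legA at hi; unfold legI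
          simp only [hf] at hi ⊢
          simp at hi ⊢
          omega
        refine ⟨itLeg D j (i + 1) hj hi', ?_⟩
        simp only [Mat, itLeg]
        exact ⟨trivial, Or.inl ⟨hl, hf, trivial⟩⟩
      · refine ⟨itReal D j hj hf, ?_⟩
        simp only [Mat, itReal]
        exact ⟨trivial, hl⟩

theorem mat_fun {low : ℕ → Bool} {K : ℕ → ℕ → ℕ} (h : Cols D low K) {a : D.Ag} {b b' : D.It}
    (hb : Mat D low K a b) (hb' : Mat D low K a b') : b = b' := by
  rcases a with ⟨⟨⟨r, hr⟩, ⟨x, hx⟩⟩, ⟨a, ha⟩⟩ | ⟨⟨j, hj⟩, ⟨i, hi⟩⟩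
  · simp only at ha
    have hs := h.step r x hr hx
    have hl := D.legs_le_one low r x
    have hk := h.le r x hr hx.le
    have hk' := h.le r (x + 1) hr hx
    rcases b with ⟨⟨⟨r1, hr1⟩, ⟨x1, hx1⟩⟩, ⟨a1, ha1⟩⟩ | ⟨⟨j1, hj1⟩, ⟨i1, hi1⟩⟩ | ⟨⟨j1, hj1⟩, hl1⟩ <;>
    rcases b' with ⟨⟨⟨r2, hr2⟩, ⟨x2, hx2⟩⟩, ⟨a2, ha2⟩⟩ | ⟨⟨j2, hj2⟩, ⟨i2, hi2⟩⟩ | ⟨⟨j2, hj2⟩, hl2⟩ <;>
    simp only [Mat] at hb hb'
    · obtain ⟨rfl, hb⟩ := hb
      obtain ⟨rfl, hb'⟩ := hb'
      congr 1
      refine sig_ext (Prod.ext rfl (Fin.ext ?_)) ?_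
      · simp only
        omega
      · simp only
        omega
    · exfalso
      simp only at ha1
      obtain ⟨rfl, hb⟩ := hb
      omega
    · exfalso
      simp only at ha2
      obtain ⟨rfl, hb'⟩ := hb'
      omega
    · congr 2
      have hj12 : j1 = j2 := by
        have := hb.1
        have := hb'.1
        exact Nat.eq_of_mul_eq_mul_left (lt_of_lt_of_le (by norm_num) D.hL) (by omega : D.L * j1 = D.L * j2)
      subst hj12
      refine sig_ext rfl ?_
      simp only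
      omega
  · rcases b with ⟨⟨⟨r1, hr1⟩, ⟨x1, hx1⟩⟩, ⟨a1, ha1⟩⟩ | ⟨⟨j1, hj1⟩, ⟨i1, hi1⟩⟩ | ⟨⟨j1, hj1⟩, hl1⟩ <;>
    rcases b' with ⟨⟨⟨r2, hr2⟩, ⟨x2, hx2⟩⟩, ⟨a2, ha2⟩⟩ | ⟨⟨j2, hj2⟩, ⟨i2, hi2⟩⟩ | ⟨⟨j2, hj2⟩, hl2⟩ <;>
    simp only [Mat] at hb hb'
    · obtain ⟨rfl, hb⟩ := hb
      obtain ⟨rfl, hb'⟩ := hb'
      congr 2
      refine sig_ext rfl ?_
      simp only
      rcases hb with hb | hb <;> rcases hb' with hb' | hb' <;> simp_all
    · exfalso
      obtain ⟨rfl, hb⟩ := hb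
      obtain ⟨rfl, hb'⟩ := hb'
      simp_all
    · exfalso
      obtain ⟨rfl, hb⟩ := hb
      obtain ⟨rfl, hb'⟩ := hb'
      simp_all
    · obtain ⟨rfl, hb⟩ := hb
      obtain ⟨rfl, hb'⟩ := hb'
      rfl

theorem mat_inj {low : ℕ → Bool} {K : ℕ → ℕ → ℕ} {a a' : D.Ag} {b : D.It}
    (ha : Mat D low K a b) (ha' : Mat D low K a' b) : a = a' := by
  rcases b with ⟨⟨⟨r, hr⟩, ⟨x, hx⟩⟩, ⟨i, hi⟩⟩ | ⟨⟨j, hj⟩, ⟨i, hi⟩⟩ | ⟨⟨j, hj⟩, hl⟩
  · rcases a with ⟨⟨⟨r1, hr1⟩, ⟨x1, hx1⟩⟩, ⟨a1, ha1⟩⟩ | ⟨⟨j1, hj1⟩, ⟨i1, hi1⟩⟩ <;>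
    rcases a' with ⟨⟨⟨r2, hr2⟩, ⟨x2, hx2⟩⟩, ⟨a2, ha2⟩⟩ | ⟨⟨j2, hj2⟩, ⟨i2, hi2⟩⟩ <;>
    simp only [Mat] at ha ha'
    obtain ⟨rfl, ha⟩ := ha
    obtain ⟨rfl, ha'⟩ := ha'
    congr 1
    rcases ha with ⟨e1, e2, e3⟩ | ⟨e1, e2, e3⟩ <;> rcases ha' with ⟨f1, f2, f3⟩ | ⟨f1, f2, f3⟩
    · have : x1 = x2 := by omega
      subst this
      exact sig_ext rfl (by simp only; omega)
    · exfalso
      subst f1 e1
      omega
    · exfalso
      subst f1 e1
      omega
    · have : x1 = x2 := by omega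
      subst this
      exact sig_ext rfl (by simp only; omega)
  · rcases a with ⟨⟨⟨r1, hr1⟩, ⟨x1, hx1⟩⟩, ⟨a1, ha1⟩⟩ | ⟨⟨j1, hj1⟩, ⟨i1, hi1⟩⟩ <;>
    rcases a' with ⟨⟨⟨r2, hr2⟩, ⟨x2, hx2⟩⟩, ⟨a2, ha2⟩⟩ | ⟨⟨j2, hj2⟩, ⟨i2, hi2⟩⟩ <;>
    simp only [Mat] at ha ha'
    · obtain ⟨e1, e2, e3⟩ := ha
      obtain ⟨f1, f2, f3⟩ := ha'
      congr 1
      have hx12 : x1 = x2 := by omega
      subst hx12
      have hr12 : r1 = r2 := by
        rcases e3 with e3 | e3 <;> rcases f3 with f3 | f3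
        · omega
        · omega
        · omega
        · omega
      subst hr12
      exact sig_ext rfl (by simp only; omega)
    · exfalso
      obtain ⟨e1, e2, e3⟩ := ha
      obtain ⟨rfl, f3⟩ := ha'
      rcases e3 with e3 | e3 <;> rcases f3 with f3 | f3
      · omega
      · have := e3.2.2
        have := f3.1
        simp_all
      · have := e3.2.2.2
        have := f3.1
        simp_all
      · simp only at hi2
        unfold legA at hi2
        rw [if_neg (by simp [e3.1])] at hi2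
        omega
    · exfalso
      obtain ⟨e1, e2, e3⟩ := ha'
      obtain ⟨rfl, f3⟩ := ha
      rcases e3 with e3 | e3 <;> rcases f3 with f3 | f3
      · omega
      · have := e3.2.2
        have := f3.1
        simp_all
      · have := e3.2.2.2
        have := f3.1
        simp_all
      · simp only at hi1
        unfold legA at hi1
        rw [if_neg (by simp [e3.1])] at hi1
        omega
    · obtain ⟨rfl, ha⟩ := ha
      obtain ⟨rfl, ha'⟩ := ha'
      congr 1
      refine sig_ext rfl ?_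
      simp only
      rcases ha with ha | ha <;> rcases ha' with ha' | ha'
      · omega
      · have := ha.1
        have := ha'.1
        simp_all
      · have := ha.1
        have := ha'.1
        simp_all
      · omega
  · rcases a with ⟨⟨⟨r1, hr1⟩, ⟨x1, hx1⟩⟩, ⟨a1, ha1⟩⟩ | ⟨⟨j1, hj1⟩, ⟨i1, hi1⟩⟩ <;>
    rcases a' with ⟨⟨⟨r2, hr2⟩, ⟨x2, hx2⟩⟩, ⟨a2, ha2⟩⟩ | ⟨⟨j2, hj2⟩, ⟨i2, hi2⟩⟩ <;>
    simp only [Mat] at ha ha'
    obtain ⟨rfl, ha⟩ := ha
    obtain ⟨rfl, ha'⟩ := ha'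
    congr 1
    refine sig_ext rfl ?_
    simp only at hi1 hi2 ⊢
    unfold legA at hi1 hi2
    rw [if_pos hl] at hi1 hi2
    omega

theorem mat_surj {low : ℕ → Bool} {K : ℕ → ℕ → ℕ} (h : Cols D low K) (b : D.It)
    (hb : (∃ q, b = Sum.inr (Sum.inr q) ∧ low q.1 = false) → False) :
    ∃ a, Mat D low K a b := by
  rcases b with ⟨⟨⟨r, hr⟩, ⟨x, hx⟩⟩, ⟨i, hi⟩⟩ | ⟨⟨j, hj⟩, ⟨i, hi⟩⟩ | ⟨⟨j, hj⟩, hl⟩
  · simp only at hi
    have hs := h.step r x hr hx
    have hk := h.le r x hr hx.le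
    by_cases c1 : i < K r x
    · have hx0 : 0 < x := by
        rcases Nat.eq_zero_or_pos x with h0 | h0
        · rw [h0, h.zero r hr] at c1
          omega
        · exact h0
      refine ⟨agRow D r (x - 1) i hr (by omega) (by omega), ?_⟩
      simp only [Mat, agRow]
      have e : x - 1 + 1 = x := by omega
      rw [e]
      exact ⟨trivial, Or.inl ⟨rfl, trivial, c1⟩⟩
    · refine ⟨agRow D r x (K r (x + 1) + (i - K r x)) hr hx (by omega), ?_⟩
      simp only [Mat, agRow]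
      exact ⟨trivial, Or.inr ⟨trivial, not_lt.mp c1, trivial⟩⟩
  · simp only at hi
    have hLj : D.L * j < D.L * D.J :=
      Nat.mul_lt_mul_of_pos_left hj (lt_of_lt_of_le (by norm_num) D.hL)
    have hrow := D.hrow j hj
    have hs := h.step (D.row j) (D.L * j) hrow hLj
    have hk := h.le (D.row j) (D.L * j) hrow hLj.le
    rw [legs_low] at hs
    unfold legI at hi
    cases hf : D.leaf j
    · rw [if_neg (by simp [hf])] at hi
      have hrow' := D.hrow' j hj hf
      have hs' := h.step (D.row j + 1) (D.L * j) hrow' hLj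
      have hk' := h.le (D.row j + 1) (D.L * j) hrow' hLj.le
      rw [legs_up low j hf] at hs'
      have hA : D.legA j = 3 := by unfold legA; rw [if_neg (by simp [hf])]
      cases hl : low j
      · rw [hl] at hs'
        simp only [Bool.not_false, Bool.toNat_true] at hs'
        rcases Nat.lt_or_ge i 3 with h3 | h3
        · refine ⟨agLeg D j i hj (by omega), ?_⟩
          simp only [Mat, agLeg]
          exact ⟨trivial, Or.inr ⟨hl, trivial⟩⟩
        · refine ⟨agRow D (D.row j + 1) (D.L * j)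
            (K (D.row j + 1) (D.L * j + 1) + (D.m (D.row j + 1) - K (D.row j + 1) (D.L * j)))
            hrow' hLj (by omega), ?_⟩
          simp only [Mat, agRow]
          exact ⟨trivial, trivial, Or.inr ⟨hf, trivial, by omega, hl⟩⟩
      · rw [hl] at hs
        simp only [Bool.toNat_true] at hs
        rcases Nat.eq_zero_or_pos i with h3 | h3
        · refine ⟨agRow D (D.row j) (D.L * j)
            (K (D.row j) (D.L * j + 1) + (D.m (D.row j) - K (D.row j) (D.L * j)))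
            hrow hLj (by omega), ?_⟩
          simp only [Mat, agRow]
          exact ⟨trivial, trivial, Or.inl ⟨trivial, h3, hl⟩⟩
        · refine ⟨agLeg D j (i - 1) hj (by omega), ?_⟩
          simp only [Mat, agLeg]
          exact ⟨trivial, Or.inl ⟨hl, hf, by omega⟩⟩
    · rw [if_pos hf] at hi
      have hA : D.legA j = 1 := by unfold legA; rw [if_pos hf]
      cases hl : low j
      · refine ⟨agLeg D j i hj (by omega), ?_⟩
        simp only [Mat, agLeg]
        exact ⟨trivial, Or.inr ⟨hl, trivial⟩⟩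
      · rw [hl] at hs
        simp only [Bool.toNat_true] at hs
        refine ⟨agRow D (D.row j) (D.L * j)
            (K (D.row j) (D.L * j + 1) + (D.m (D.row j) - K (D.row j) (D.L * j)))
            hrow hLj (by omega), ?_⟩
        simp only [Mat, agRow]
        exact ⟨trivial, trivial, Or.inl ⟨trivial, by omega, hl⟩⟩
  · have hl' : low j = true := by
      cases hlj : low j
      · exact absurd ⟨_, rfl, hlj⟩ hb
      · rfl
    have hA : D.legA j = 1 := by unfold legA; rw [if_pos hl]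
    refine ⟨agLeg D j 0 hj (by omega), ?_⟩
    simp only [Mat, agLeg]
    exact ⟨trivial, hl'⟩

/-- **A run gives a matching of the drawing.** -/
theorem exists_matching {low : ℕ → Bool} {K : ℕ → ℕ → ℕ} (h : Cols D low K) :
    ∃ σ : D.Ag ↪ D.It,
      (∀ a b, σ a = b ↔ Mat D low K a b) ∧
      (∀ a, D.Adj a (σ a)) ∧
      (∀ b : D.It, (∀ q, b ≠ Sum.inr (Sum.inr q)) → ∃ a, σ a = b) ∧
      (∀ q : {j : Fin D.J // D.leaf j = true},
        (∃ a, σ a = Sum.inr (Sum.inr q)) ↔ low q.1 = true) := by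
  choose f hf using mat_total h
  refine ⟨⟨f, fun a a' haa => mat_inj (hf a) (haa ▸ hf a')⟩, ?_, ?_, ?_, ?_⟩
  · intro a b
    constructor
    · rintro rfl
      exact hf a
    · intro hab
      exact mat_fun h (hf a) hab
  · intro a
    exact mat_adj (hf a)
  · intro b hb
    obtain ⟨a, ha⟩ := mat_surj h b (by
      rintro ⟨q, hq, -⟩
      exact hb q hq)
    exact ⟨a, mat_fun h (hf a) ha⟩
  · intro q
    constructor
    · rintro ⟨a, ha⟩
      have hm := hf a
      simp only [Function.Embedding.coeFn_mk] at ha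
      rw [ha] at hm
      rcases a with s | s
      · exact absurd hm (by simp [Mat])
      · simp only [Mat] at hm
        rw [hm.1]
        exact hm.2
    · intro hq
      obtain ⟨a, ha⟩ := mat_surj h (Sum.inr (Sum.inr q)) (by
        rintro ⟨q', hq', hlow⟩
        have : q = q' := by simpa using hq'
        rw [this, hlow] at hq
        exact Bool.false_ne_true hq)
      exact ⟨a, mat_fun h (hf a) ha⟩

/-- in the slope groups the first `K r (x + 1)` agents go to the right -/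
theorem mat_right {low : ℕ → Bool} {K : ℕ → ℕ → ℕ} {s : Σ p : Fin D.R × Fin (D.L * D.J),
    Fin (D.m p.1 + D.ex p.1 p.2)} {q : Σ p : Fin D.R × Fin (D.L * D.J), Fin (D.m p.1)}
    (hm : Mat D low K (Sum.inl s) (Sum.inl q)) :
    (q.1.2 : ℕ) = s.1.2 + 1 ↔ (s.2 : ℕ) < K s.1.1 (s.1.2 + 1) := by
  simp only [Mat] at hm
  obtain ⟨h1, h2 | h2⟩ := hm
  · exact ⟨fun _ => h2.2.2, fun _ => h2.1⟩
  · constructor
    · intro h3
      omega
    · intro h3
      omega


theorem IsRun.cols {y : ℕ → Bool} {k : ℕ → ℕ → ℕ} (h : D.IsRun y k) : Cols D y k where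
  le r x hr _ := h.le r hr x
  zero r _ := h.zero r
  last r _ := h.last r
  step r x hr hx := h.step r hr x hx

theorem kk_eq {low : ℕ → Bool} {K : ℕ → ℕ → ℕ} (h : Cols D low K) {σ : D.Ag → D.It}
    (hσ : ∀ a b, σ a = b ↔ Mat D low K a b) (r x : ℕ) (hr : r < D.R) (hx : x ≤ D.L * D.J) :
    D.kk σ r x = K r x := by
  unfold kk
  rcases Nat.eq_zero_or_pos x with h0 | h0
  · subst h0
    rw [h.zero r hr]
    simp
  rcases Nat.lt_or_ge x (D.L * D.J) with hx1 | hx1
  swap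
  · have hxe : x = D.L * D.J := le_antisymm hx hx1
    rw [hxe, h.last r hr, Finset.card_eq_zero, Finset.filter_eq_empty_iff]
    rintro a - ⟨-, -, h3⟩
    rcases hb : σ a with q | q | q <;> rw [hb] at h3 <;> simp only [locI] at h3
    · have := q.1.2.2
      injection h3 with h4 h5
      omega
    · exact absurd h3 (by simp)
    · exact absurd h3 (by simp)
  set A : Finset D.Ag := Finset.univ.filter fun a : D.Ag => 0 < x ∧
    D.locA a = AgLoc.row r (x - 1) ∧ D.locI (σ a) = ItLoc.row r x with hA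
  -- the index of an agent
  let g : D.Ag → ℕ := fun a => match a with
    | Sum.inl s => (s.2 : ℕ)
    | Sum.inr _ => 0
  have key : ∀ a ∈ A, ∃ s, a = Sum.inl s ∧ (s.1.1 : ℕ) = r ∧ (s.1.2 : ℕ) = x - 1 ∧
      (s.2 : ℕ) < K r x := by
    intro a ha
    rw [hA, Finset.mem_filter] at ha
    obtain ⟨-, -, h2, h3⟩ := ha
    rcases a with s | s
    · refine ⟨s, rfl, ?_⟩
      simp only [locA] at h2
      injection h2 with e1 e2
      rcases hb : σ (Sum.inl s) with q | q | q <;> rw [hb] at h3 <;> simp only [locI] at h3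
      · injection h3 with f1 f2
        have hm := (hσ _ _).mp hb
        simp only [Mat] at hm
        refine ⟨e1, e2, ?_⟩
        have ex : (s.1.2 : ℕ) + 1 = x := by omega
        rcases hm with ⟨-, hm | hm⟩
        · rw [← e1, ← ex]
          exact hm.2.2
        · exfalso
          omega
      · exact absurd h3 (by simp)
      · exact absurd h3 (by simp)
    · simp [locA] at h2
  have hinj : Set.InjOn g A := by
    intro a ha a' ha' haa
    obtain ⟨s, rfl, e1, e2, -⟩ := key a ha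
    obtain ⟨s', rfl, e1', e2', -⟩ := key a' ha'
    congr 1
    exact sig_ext (Prod.ext (Fin.ext (by omega)) (Fin.ext (by omega))) haa
  have himg : A.image g = Finset.range (K r x) := by
    ext i
    rw [Finset.mem_image, Finset.mem_range]
    constructor
    · rintro ⟨a, ha, rfl⟩
      obtain ⟨s, rfl, -, -, h3⟩ := key a ha
      exact h3
    · intro hi
      have hm1 := h.le r x hr hx
      have hx2 : x - 1 < D.L * D.J := by omega
      refine ⟨agRow D r (x - 1) i hr hx2 (by omega), ?_, rfl⟩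
      rw [hA, Finset.mem_filter]
      refine ⟨Finset.mem_univ _, h0, rfl, ?_⟩
      have hmat : Mat D low K (agRow D r (x - 1) i hr hx2 (by omega))
          (itRow D r x i hr hx1 (by omega)) := by
        simp only [Mat, agRow, itRow]
        refine ⟨trivial, Or.inl ⟨by omega, trivial, ?_⟩⟩
        rw [show x - 1 + 1 = x by omega]
        exact hi
      rw [(hσ _ _).mpr hmat]
      rfl
  rw [← Finset.card_image_of_injOn hinj, himg, Finset.card_range]

theorem bit_eq {low : ℕ → Bool} {K : ℕ → ℕ → ℕ} (h : Cols D low K) {σ : D.Ag → D.It}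
    (hσ : ∀ a b, σ a = b ↔ Mat D low K a b) (j : ℕ) (hj : j < D.J) :
    D.bit σ j = low j := by
  unfold bit
  cases hl : low j
  · rw [decide_eq_false_iff_not]
    rintro ⟨a, h2, h3⟩
    rcases a with s | s
    · rcases hb : σ (Sum.inl s) with q | q | q <;> rw [hb] at h3 <;> simp only [locI] at h3
      · exact absurd h3 (by simp)
      · injection h3 with f1 f2
        have hm := (hσ _ _).mp hb
        simp only [Mat] at hm
        obtain ⟨e1, e2, e3 | e3⟩ := hm
        · have e4 := e3.2.2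
          rw [f1, hl] at e4
          exact Bool.false_ne_true e4
        · omega
      · exact absurd h3 (by simp)
    · simp [locA] at h2
  · rw [decide_eq_true_iff]
    have hLj : D.L * j < D.L * D.J :=
      Nat.mul_lt_mul_of_pos_left hj (lt_of_lt_of_le (by norm_num) D.hL)
    have hi : 0 < D.legI j := by unfold legI; split_ifs <;> norm_num
    obtain ⟨a, ha⟩ := mat_surj h (itLeg D j 0 hj hi) (by
      rintro ⟨q, hq, -⟩
      simp [itLeg] at hq)
    rcases a with s | s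
    · have hm := ha
      simp only [Mat, itLeg] at hm
      obtain ⟨e1, e2, e3 | e3⟩ := hm
      · refine ⟨Sum.inl s, ?_, ?_⟩
        · simp only [locA]
          rw [e1, e3.1]
        · rw [(hσ _ _).mpr ha]
          rfl
      · omega
    · exfalso
      simp only [Mat, itLeg] at ha
      obtain ⟨e1, e2 | e2⟩ := ha
      · omega
      · have := e2.1
        rw [← e1, hl] at this
        exact Bool.false_ne_true this.symm

/-- **7b2**: a run gives a matching of the network with the prescribed bits and counts -/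
theorem exists_good {y : ℕ → Bool} {k : ℕ → ℕ → ℕ} (h : D.IsRun y k) :
    ∃ σ : D.Ag ↪ D.It,
      H5RN.Good D.Adj D.T σ ∧
      (∀ j, j < D.J → D.bit σ j = y j) ∧
      (∀ r x, r < D.R → x ≤ D.L * D.J → D.kk σ r x = k r x) ∧
      (∀ j : {j : Fin D.J // D.leaf j = true},
        (∃ a, σ a = Sum.inr (Sum.inr j)) ↔ y j.1 = true) ∧
      (∀ s : Σ p : Fin D.R × Fin (D.L * D.J), Fin (D.m p.1 + D.ex p.1 p.2),
        ¬ D.L ∣ (s.1.2 : ℕ) →
        (D.locI (σ (Sum.inl s)) = ItLoc.row s.1.1 (s.1.2 + 1) ↔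
          (s.2 : ℕ) < k s.1.1 (s.1.2 + 1))) := by
  obtain ⟨σ, h1, h2, h3, h4⟩ := exists_matching h.cols
  refine ⟨σ, ⟨h2, ?_⟩, ?_, ?_, h4, ?_⟩
  · intro b hb
    refine h3 b ?_
    rintro q rfl
    exact hb ⟨q, rfl⟩
  · intro j hj
    exact bit_eq h.cols h1 j hj
  · intro r x hr hx
    exact kk_eq h.cols h1 r x hr hx
  · intro s hs
    rcases hb : σ (Sum.inl s) with q | q | q
    · have hm := (h1 _ _).mp hb
      have hr := mat_right hm
      have hm' := hm
      simp only [Mat] at hm'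
      rw [← hr]
      simp only [locI]
      constructor
      · intro e
        injection e
      · intro e
        rw [e, hm'.1]
    · exfalso
      have hm := (h1 _ _).mp hb
      simp only [Mat] at hm
      exact hs ⟨_, hm.1⟩
    · exfalso
      have hm := (h1 _ _).mp hb
      simp only [Mat] at hm

end Pool.Agent.RN.Draw
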