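import Pool.Agent.RN.DrawF
import Pool.Agent.RN.RunMatch
import Pool.Agent.RN.GeoRun
import Pool.Agent.RN.GeoRank

/-!
# Project RN, module 7d (3): the drawing of a net, runs of the word and runs of the drawing
-/

set_option autoImplicit false

namespace TW

open Finset Pool.Agent.RN

/-- lower row of a letter -/
def Lt.lo : Lt → ℕ
  | .leaf r _ => r
  | .br a _ _ _ => a

/-- extra agents at the lower hub -/
def Lt.n1 : Lt → ℕ
  | .leaf _ c => c.toNat
  | .br _ _ c _ => c.toNat

/-- extra agents at the upper hub -/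
def Lt.n2 : Lt → ℕ
  | .leaf _ _ => 0
  | .br _ _ _ d => d.toNat

/-- letters of the word, indexed -/
def Net.lw (N : Net) (j : ℕ) : Lt := N.w.getD j (.leaf 0 false)

theorem Net.lw_mem {N : Net} {j : ℕ} (hj : j < N.w.length) : N.lw j ∈ N.w := by
  unfold Net.lw
  rw [List.getD_eq_getElem _ _ hj]
  exact List.getElem_mem _

theorem Lt.WF.lo_pos {R : ℕ} {cap : ℕ → ℕ} {l : Lt} (h : l.WF R cap) : 0 < cap l.lo := by
  cases l with
  | leaf r c => exact h.2
  | br a b c d => exact h.2.2.1

theorem Net.un_eq_iff {N : Net} (h : N.WF) {r q : ℕ} (hr : 0 < N.cap r) (hq : q < N.rows) :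
    N.un q = r ↔ q = N.rk r := by
  constructor
  · rintro rfl
    exact (Net.rk_un h hq).symm
  · rintro rfl
    exact Net.un_rk hr

theorem Net.eff_rank {N : Net} (h : N.WF) {l : Lt} (hl : l.WF N.R N.cap) (z : Bool) {q : ℕ}
    (hq : q < N.rows) :
    l.eff z (N.un q) + ((if q = N.rk l.lo then z.toNat
        else if l.isLeaf = false ∧ q = N.rk l.lo + 1 then (!z).toNat else 0 : ℕ) : ℤ)
      = ((if q = N.rk l.lo then l.n1
        else if l.isLeaf = false ∧ q = N.rk l.lo + 1 then l.n2 else 0 : ℕ) : ℤ) := by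
  have hz : ∀ b : Bool, bz b = (b.toNat : ℤ) := by intro b; cases b <;> rfl
  have hz' : ∀ b : Bool, (((!b).toNat : ℕ) : ℤ) = 1 - (b.toNat : ℤ) := by intro b; cases b <;> rfl
  cases l with
  | leaf r c =>
    have e := Net.un_eq_iff h (r := r) hl.2 hq
    by_cases hqr : q = N.rk (Lt.leaf r c).lo
    · rw [if_pos hqr, if_pos hqr]
      simp only [Lt.eff, Lt.n1, hz]
      rw [if_pos (e.mpr hqr)]
      ring
    · rw [if_neg hqr, if_neg hqr, if_neg (fun hh => Bool.noConfusion hh.1),
        if_neg (fun hh => Bool.noConfusion hh.1)]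
      simp only [Lt.eff]
      rw [if_neg (fun he => hqr (e.mp he))]
      simp
  | br a b c d =>
    obtain ⟨hab, hbR, ha, hb, hn⟩ := hl
    have ea := Net.un_eq_iff h (r := a) ha hq
    have eb := Net.un_eq_iff h (r := b) hb hq
    have hs := Net.rk_succ hab ha hn
    have hlo : (Lt.br a b c d).lo = a := rfl
    by_cases hqa : q = N.rk a
    · have hqb : q ≠ N.rk b := by omega
      have hqa' : q = N.rk (Lt.br a b c d).lo := hqa
      rw [if_pos hqa', if_pos hqa']
      simp only [Lt.eff, Lt.n1, hz]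
      rw [if_pos (ea.mpr hqa), if_neg (fun he => hqb (eb.mp he))]
      ring
    · have hqa' : ¬ q = N.rk (Lt.br a b c d).lo := hqa
      rw [if_neg hqa', if_neg hqa']
      by_cases hqb : q = N.rk b
      · have hq' : (Lt.br a b c d).isLeaf = false ∧ q = N.rk (Lt.br a b c d).lo + 1 :=
          ⟨rfl, by rw [hlo]; omega⟩
        rw [if_pos hq', if_pos hq', hz']
        simp only [Lt.eff, Lt.n2, hz]
        rw [if_pos (eb.mpr hqb), if_neg (fun he => hqa (ea.mp he))]
        ring
      · have hq' : ¬ ((Lt.br a b c d).isLeaf = false ∧ q = N.rk (Lt.br a b c d).lo + 1) := by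
          rw [hlo]
          rintro ⟨-, h2⟩
          omega
        rw [if_neg hq', if_neg hq']
        simp only [Lt.eff]
        rw [if_neg (fun he => hqb (eb.mp he)), if_neg (fun he => hqa (ea.mp he))]
        simp

theorem Net.eff_zero {N : Net} {l : Lt} (hl : l.WF N.R N.cap) (z : Bool) {r : ℕ}
    (hr : N.cap r = 0) : l.eff z r = 0 := by
  cases l with
  | leaf r' c =>
    have : r ≠ r' := by
      rintro rfl
      have := hl.2
      omega
    simp [Lt.eff, this]
  | br a b c d =>
    obtain ⟨hab, hbR, ha, hb, hn⟩ := hl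
    have h1 : r ≠ a := by rintro rfl; omega
    have h2 : r ≠ b := by rintro rfl; omega
    simp [Lt.eff, h1, h2]

theorem sta_congr {f f' : ℕ → Lt} {z z' : ℕ → Bool} {j : ℕ} (hf : ∀ i < j, f i = f' i)
    (hz : ∀ i < j, z i = z' i) : sta f z j = sta f' z' j := by
  funext r
  refine Finset.sum_congr rfl fun i hi => ?_
  have hi' := Finset.mem_range.mp hi
  rw [hf i hi', hz i hi']

theorem Net.sta_unused {N : Net} (h : N.WF) (z : ℕ → Bool) {j : ℕ} (hj : j ≤ N.w.length) {r : ℕ}
    (hr : N.cap r = 0) : sta N.lw z j r = 0 := by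
  refine Finset.sum_eq_zero fun i hi => ?_
  have hi' := Finset.mem_range.mp hi
  exact Net.eff_zero (h.lt _ (Net.lw_mem (by omega))) _ hr

/-- the drawing of a net -/
noncomputable def Net.draw (N : Net) (h : N.WF) (y : ℕ → ℝ) (hy : ∀ j, |y j| ≤ 1 / 8) : Draw :=
  Draw.ofData N.rows N.w.length (4 * N.rows + 2) (fun q => N.cap (N.un q))
    (fun j => N.rk (N.lw j).lo) (fun j => (N.lw j).isLeaf) (fun j => (N.lw j).n1)
    (fun j => (N.lw j).n2) le_rfl
    (fun j hj => Net.rk_lt h (h.lt _ (Net.lw_mem hj)).lo_pos)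
    (fun j hj hl => by
      have hw := h.lt _ (Net.lw_mem hj)
      revert hw hl
      generalize N.lw j = l
      cases l with
      | leaf r c => intro hl; simp [Lt.isLeaf] at hl
      | br a b c d =>
        intro _ hw
        obtain ⟨hab, hbR, ha, hb, hn⟩ := hw
        have h1 := Net.rk_succ hab ha hn
        have h2 := Net.rk_lt h hb
        simp only [Lt.lo]
        omega)
    y hy

section

variable {N : Net} (h : N.WF) (y : ℕ → ℝ) (hy : ∀ j, |y j| ≤ 1 / 8)

/-- states of the word from a run of the drawing -/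
theorem Net.sta_of_isRun {low : ℕ → Bool} {K : ℕ → ℕ → ℕ} (hK : (N.draw h y hy).IsRun low K) :
    ∀ j ≤ N.w.length, ∀ q < N.rows, sta N.lw low j (N.un q) = (K q ((4 * N.rows + 2) * j) : ℤ) := by
  intro j
  induction j with
  | zero =>
    intro _ q _
    rw [sta_zero, Nat.mul_zero, hK.zero]
    rfl
  | succ j ih =>
    intro hj q hq
    have h1 := ih (by omega) q hq
    have h2 := hK.letter (r := q) hq (j := j) (show j < N.w.length by omega)
    have h3 := Net.eff_rank h (h.lt _ (Net.lw_mem (j := j) (by omega))) (low j) hq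
    have h2' : K q ((4 * N.rows + 2) * (j + 1)) +
        (if q = N.rk (N.lw j).lo then (low j).toNat
          else if (N.lw j).isLeaf = false ∧ q = N.rk (N.lw j).lo + 1 then (!low j).toNat else 0)
        = K q ((4 * N.rows + 2) * j) + (if q = N.rk (N.lw j).lo then (N.lw j).n1
          else if (N.lw j).isLeaf = false ∧ q = N.rk (N.lw j).lo + 1 then (N.lw j).n2 else 0) := h2
    have h4 := congrArg (Nat.cast : ℕ → ℤ) h2'
    rw [Nat.cast_add, Nat.cast_add] at h4
    rw [sta_succ, Pi.add_apply, h1]
    linarith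

/-- a run of the drawing is a run of the word -/
theorem Net.run_of_isRun {low : ℕ → Bool} {K : ℕ → ℕ → ℕ} (hK : (N.draw h y hy).IsRun low K) :
    (∀ j < N.w.length, Ok N.R N.cap (sta N.lw low (j + 1))) ∧
      ∀ r < N.R, sta N.lw low N.w.length r = 0 := by
  have key := Net.sta_of_isRun h y hy hK
  constructor
  · intro j hj r hr
    by_cases hc : N.cap r = 0
    · rw [Net.sta_unused h low (by omega) hc, hc]
      simp
    · have hc' : 0 < N.cap r := by omega
      have h1 := key (j + 1) (by omega) (N.rk r) (Net.rk_lt h hc')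
      rw [Net.un_rk hc'] at h1
      rw [h1]
      have h2 : K (N.rk r) ((4 * N.rows + 2) * (j + 1)) ≤ N.cap (N.un (N.rk r)) :=
        hK.le (N.rk r) (Net.rk_lt h hc') ((4 * N.rows + 2) * (j + 1))
      rw [Net.un_rk hc'] at h2
      exact ⟨Nat.cast_nonneg _, by exact_mod_cast h2⟩
  · intro r hr
    by_cases hc : N.cap r = 0
    · exact Net.sta_unused h low le_rfl hc
    · have hc' : 0 < N.cap r := by omega
      have h1 := key N.w.length le_rfl (N.rk r) (Net.rk_lt h hc')
      rw [Net.un_rk hc'] at h1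
      rw [h1]
      have h2 : K (N.rk r) ((4 * N.rows + 2) * N.w.length) = 0 := hK.last (N.rk r)
      rw [h2]
      rfl

/-- the states as natural numbers -/
noncomputable def Net.SS (N : Net) (low : ℕ → Bool) (q j : ℕ) : ℕ :=
  if q < N.rows ∧ j ≤ N.w.length then (sta N.lw low j (N.un q)).toNat else 0

/-- a run of the word is a run of the drawing -/
theorem Net.isRun_of_run {low : ℕ → Bool}
    (h1 : ∀ j < N.w.length, Ok N.R N.cap (sta N.lw low (j + 1)))
    (h2 : ∀ r < N.R, sta N.lw low N.w.length r = 0) :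
    (N.draw h y hy).IsRun low
      (fun q x => N.SS low q ((x + (4 * N.rows + 2 - 1)) / (4 * N.rows + 2))) := by
  have hok : ∀ j ≤ N.w.length, ∀ q < N.rows, 0 ≤ sta N.lw low j (N.un q) ∧
      sta N.lw low j (N.un q) ≤ (N.cap (N.un q) : ℤ) := by
    intro j hj q hq
    cases j with
    | zero =>
      rw [sta_zero]
      exact ⟨le_refl (0 : ℤ), by simp⟩
    | succ j => exact h1 j (by omega) _ (Net.un_lt h hq)
  refine Draw.isRun_of_letters (N.draw h y hy) low (N.SS low) ?_ ?_ ?_ ?_
  · intro r
    unfold Net.SS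
    split_ifs
    · rw [sta_zero]; rfl
    · rfl
  · intro q hq j hj
    have hq' : q < N.rows := hq
    have hj' : j < N.w.length := hj
    have h3 := Net.eff_rank h (h.lt _ (Net.lw_mem (j := j) hj')) (low j) hq'
    have h4 := hok j hj'.le q hq'
    have h5 := hok (j + 1) hj' q hq'
    have e1 : ((N.SS low q (j + 1) : ℕ) : ℤ) = sta N.lw low (j + 1) (N.un q) := by
      unfold Net.SS
      rw [if_pos ⟨hq', hj'⟩, Int.toNat_of_nonneg h5.1]
    have e2 : ((N.SS low q j : ℕ) : ℤ) = sta N.lw low j (N.un q) := by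
      unfold Net.SS
      rw [if_pos ⟨hq', hj'.le⟩, Int.toNat_of_nonneg h4.1]
    have e3 : sta N.lw low (j + 1) (N.un q) = sta N.lw low j (N.un q) +
        (N.lw j).eff (low j) (N.un q) := by rw [sta_succ]; rfl
    have goal' : N.SS low q (j + 1) +
        (if q = N.rk (N.lw j).lo then (low j).toNat
          else if (N.lw j).isLeaf = false ∧ q = N.rk (N.lw j).lo + 1 then (!low j).toNat else 0)
        = N.SS low q j + (if q = N.rk (N.lw j).lo then (N.lw j).n1
          else if (N.lw j).isLeaf = false ∧ q = N.rk (N.lw j).lo + 1 then (N.lw j).n2 else 0) := by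
      apply Nat.cast_injective (R := ℤ)
      rw [Nat.cast_add, Nat.cast_add, e1, e2]
      linarith
    exact goal'
  · intro q hq n
    have hq' : q < N.rows := hq
    have goal' : N.SS low q n ≤ N.cap (N.un q) := by
      unfold Net.SS
      split_ifs with hc
      · have := hok n hc.2 q hq'
        omega
      · omega
    exact goal'
  · intro q
    have goal' : N.SS low q N.w.length = 0 := by
      unfold Net.SS
      split_ifs with hc
      · rw [h2 _ (Net.un_lt h hc.1)]
        rfl
      · rfl
    exact goal'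

end

end TW
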