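import Pool.Agent.RN.GeoA
import Pool.Agent.RN.CostGe

/-!
# Project RN, module 7d (4): the first order cost of a run of the drawing is the cost of the word
-/

set_option autoImplicit false

namespace TW

open Finset Pool.Agent.RN

/-- increments of the gap costs -/
noncomputable def dltf (N : Net) (ev : List Ev) (q j i : ℕ) : ℝ :=
  (ev.getD j ev0).φ (N.un q) ((i + 1 : ℕ) : ℤ) - (ev.getD j ev0).φ (N.un q) ((i : ℕ) : ℤ)

/-- costs of the bits -/
noncomputable def acf (ev : List Ev) (j : ℕ) : ℝ := (ev.getD j ev0).w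

/-- bits as a list -/
def bl (J : ℕ) (low : ℕ → Bool) : List Bool := List.ofFn (fun j : Fin J => low j)

theorem bl_length (J : ℕ) (low : ℕ → Bool) : (bl J low).length = J := by simp [bl]

theorem btf_bl {J : ℕ} {low : ℕ → Bool} {j : ℕ} (hj : j < J) : btf (bl J low) j = low j := by
  unfold btf bl
  rw [List.getD_eq_getElem _ _ (by simpa using hj)]
  simp

theorem ltf_eq {N : Net} {ev : List Ev} (hlt : ev.map Ev.lt = N.w) : ltf ev = N.lw := by
  funext i
  unfold ltf Net.lw
  rw [← hlt, show (Lt.leaf 0 false) = Ev.lt ev0 from rfl, List.getD_map]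

theorem ev_length {N : Net} {ev : List Ev} (hlt : ev.map Ev.lt = N.w) :
    ev.length = N.w.length := by
  rw [← hlt, List.length_map]

theorem ev_mem {ev : List Ev} {j : ℕ} (hj : j < ev.length) : ev.getD j ev0 ∈ ev := by
  rw [List.getD_eq_getElem _ _ hj]
  exact List.getElem_mem _

section

variable {N : Net} (h : N.WF) (y : ℕ → ℝ) (hy : ∀ j, |y j| ≤ 1 / 8)
  {ev : List Ev} (hlt : ev.map Ev.lt = N.w) (hc : Cvx N.R N.cap ev)

include hlt in
/-- a run of the drawing is a run of the word (list form) -/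
theorem Net.run_bl {low : ℕ → Bool} {K : ℕ → ℕ → ℕ} (hK : (N.draw h y hy).IsRun low K) :
    Run N.R N.cap ev (bl N.w.length low) 0 := by
  have hr := Net.run_of_isRun h y hy hK
  rw [geo_run_iff]
  have hst : ∀ j ≤ N.w.length, sta (ltf ev) (btf (bl N.w.length low)) j = sta N.lw low j := by
    intro j hj
    rw [ltf_eq hlt]
    exact sta_congr (fun _ _ => rfl) (fun i hi => btf_bl (by omega))
  refine ⟨by rw [bl_length, ev_length hlt], ?_, ?_⟩
  · intro j hj
    rw [ev_length hlt] at hj
    rw [zero_add, hst (j + 1) hj]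
    exact hr.1 j hj
  · intro r hr'
    rw [zero_add, ev_length hlt, hst _ le_rfl]
    exact hr.2 r hr'

include hlt in
/-- a run of the word is a run of the drawing (list form) -/
theorem Net.isRun_bl {zs : List Bool} (hz : Run N.R N.cap ev zs 0) :
    zs = bl N.w.length (btf zs) ∧ ∃ K, (N.draw h y hy).IsRun (btf zs) K := by
  rw [geo_run_iff, ltf_eq hlt, ev_length hlt] at hz
  obtain ⟨h1, h2, h3⟩ := hz
  refine ⟨?_, _, Net.isRun_of_run h y hy (low := btf zs) ?_ ?_⟩
  · apply List.ext_getElem
    · rw [bl_length, h1]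
    · intro i hi1 hi2
      have : i < N.w.length := by omega
      have e := btf_bl (low := btf zs) this
      rw [← List.getD_eq_getElem _ false hi1, ← List.getD_eq_getElem _ false hi2]
      exact e.symm
  · intro j hj
    have := h2 j hj
    rwa [zero_add] at this
  · intro r hr
    have := h3 r hr
    rwa [zero_add] at this

include hlt hc in
/-- the cost formula -/
theorem Net.gsum_eq {μ : ℝ} (hμ : μ ≠ 0)
    (hx : ∀ j < N.w.length, (ev.getD j ev0).x = (4 * (N.rows : ℝ) + 2) * j + 1 / 2)
    (hyy : ∀ j < N.w.length, y j = μ * (ev.getD j ev0).y)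
    {low : ℕ → Bool} {K : ℕ → ℕ → ℕ} (hK : (N.draw h y hy).IsRun low K) (t : ℝ × ℝ) :
    (∑ j ∈ range N.w.length, if low j = true then acf ev j else 0)
    + (∑ q ∈ range N.rows, ∑ j ∈ range N.w.length,
        ∑ i ∈ range (K q ((4 * N.rows + 2) * j + 2)), dltf N ev q j i)
    + (∑ j ∈ range N.w.length, if ((N.lw j).isLeaf = true ∧ low j = true) then
        2 * inner ℝ ((N.draw h y hy).posB (.real j)) (!₂[t.1 / 2, t.2 / (2 * μ)] : H5RN.E2) else 0)
    = cost N.R t ev (bl N.w.length low) 0 := by
  have hJ := ev_length hlt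
  have hst : ∀ j ≤ N.w.length, sta (ltf ev) (btf (bl N.w.length low)) j = sta N.lw low j := by
    intro j hj
    rw [ltf_eq hlt]
    exact sta_congr (fun _ _ => rfl) (fun i hi => btf_bl (by omega))
  have hkey := Net.sta_of_isRun h y hy hK
  rw [cost_eq N.R t ev _ 0 (by rw [bl_length, hJ]), hJ]
  -- the states
  have hrow : ∀ j ∈ range N.w.length,
      ∑ r ∈ range N.R, (ev.getD j ev0).φ r ((0 + sta (ltf ev) (btf (bl N.w.length low)) (j + 1)) r)
        = ∑ q ∈ range N.rows, ∑ i ∈ range (K q ((4 * N.rows + 2) * j + 2)), dltf N ev q j i := by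
    intro j hj
    have hj' := Finset.mem_range.mp hj
    rw [zero_add, hst (j + 1) hj']
    have hev := hc _ (ev_mem (ev := ev) (j := j) (by omega))
    rw [Net.sum_rows h _ (fun r hr hcap => by
      rw [Net.sta_unused h low hj' hcap]
      exact (hev r hr).1)]
    refine Finset.sum_congr rfl fun q hq => ?_
    have hq' := Finset.mem_range.mp hq
    have e1 : K q ((4 * N.rows + 2) * j + 2) = K q ((4 * N.rows + 2) * j + 1) := by
      refine hK.const (r := q) hq' (j := j) hj' ?_ ?_
      · show (4 * N.rows + 2) * j < (4 * N.rows + 2) * j + 2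
        omega
      · show (4 * N.rows + 2) * j + 2 ≤ (4 * N.rows + 2) * (j + 1)
        rw [Nat.mul_add, Nat.mul_one]
        omega
    have e2 : K q ((4 * N.rows + 2) * (j + 1)) = K q ((4 * N.rows + 2) * j + 1) := by
      refine hK.const (r := q) hq' (j := j) hj' ?_ le_rfl
      show (4 * N.rows + 2) * j < (4 * N.rows + 2) * (j + 1)
      rw [Nat.mul_add, Nat.mul_one]
      omega
    rw [hkey (j + 1) hj' q hq', e1, ← e2]
    unfold dltf
    rw [Finset.sum_range_sub (fun i : ℕ => (ev.getD j ev0).φ (N.un q) ((i : ℕ) : ℤ))]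
    have h0 := (hev _ (Net.un_lt h hq')).1
    rw [Nat.cast_zero, h0, sub_zero]
  rw [Finset.sum_add_distrib, Finset.sum_congr rfl hrow, Finset.sum_comm (s := range N.w.length)]
  -- the uses
  have huse : ∑ j ∈ range N.w.length, (ev.getD j ev0).use t (btf (bl N.w.length low) j)
      = (∑ j ∈ range N.w.length, if low j = true then acf ev j else 0)
      + (∑ j ∈ range N.w.length, if ((N.lw j).isLeaf = true ∧ low j = true) then
        2 * inner ℝ ((N.draw h y hy).posB (.real j)) (!₂[t.1 / 2, t.2 / (2 * μ)] : H5RN.E2)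
          else 0) := by
    rw [← Finset.sum_add_distrib]
    refine Finset.sum_congr rfl fun j hj => ?_
    have hj' := Finset.mem_range.mp hj
    rw [btf_bl hj']
    have e1 : (ev.getD j ev0).lt = N.lw j := congrFun (ltf_eq hlt) j
    have e2 : 2 * inner ℝ ((N.draw h y hy).posB (.real j))
        (!₂[t.1 / 2, t.2 / (2 * μ)] : H5RN.E2) = t.1 * (ev.getD j ev0).x
          + t.2 * (ev.getD j ev0).y := by
      have e3 := (N.draw h y hy).inner_posB (.real j) (t.1 / 2) (t.2 / (2 * μ))
      have e4 : (N.draw h y hy).bx (.real j) = (4 * (N.rows : ℝ) + 2) * j + 1 / 2 := by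
        show (((4 * N.rows + 2 : ℕ) : ℝ)) * j + 1 / 2 = _
        push_cast
        ring
      have e5 : (N.draw h y hy).by' (.real j) = y j := rfl
      rw [e4, e5, hyy j hj', ← hx j hj'] at e3
      have e6 : inner ℝ ((N.draw h y hy).posB (.real j))
          (!₂[t.1 / 2, t.2 / (2 * μ)] : H5RN.E2)
          = (ev.getD j ev0).x * (t.1 / 2) + μ * (ev.getD j ev0).y * (t.2 / (2 * μ)) := e3
      rw [e6]
      field_simp
    cases hb : low j with
    | false => simp [Ev.use]
    | true =>
      simp only [Ev.use, e1, acf, if_true, and_true]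
      rw [e2]
  rw [huse]
  ring

end

end TW
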