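import Pool.Agent.RN.LevelStmt
import Pool.Agent.RN.Struct

/-!
# Level lemma, part A: annotated events, summation by parts, pointwise minima

An annotated event `TE` carries the letter, the level cost (`a` for the bit `true`, `f r k` for
the gap after the letter), the old cost (`a'`, `f'`), the height `h` (only used at leaves), the
potential `G` of the rows at this letter and, for both signs, the tightness conditions `bc s z`
(for the bit) and `gc s σ` (for the state after the letter).
-/

set_option autoImplicit false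

namespace TW

open Finset

/-- annotated events -/
structure TE where
  lt : Lt
  a : ℝ
  f : ℕ → ℤ → ℝ
  a' : ℝ
  f' : ℕ → ℤ → ℝ
  h : ℝ
  G : ℕ → ℝ
  bc : Bool → Bool → Prop
  gc : Bool → St → Prop

/-- the event with cost `M * level + old` -/
noncomputable def TE.ev (M : ℝ) (e : TE) : Ev where
  lt := e.lt
  x := 0
  y := 0
  w := M * e.a + e.a'
  φ := fun r k => M * e.f r k + e.f' r k

/-- general cost of a list of letters with bit costs `a` and gap costs `f` -/
noncomputable def tc (R : ℕ) (a : TE → ℝ) (f : TE → ℕ → ℤ → ℝ) : List TE → List Bool → St → ℝ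
  | e :: w, z :: zs, σ =>
      (if z then a e else 0) + (∑ r ∈ range R, f e r ((σ + e.lt.eff z) r)) +
        tc R a f w zs (σ + e.lt.eff z)
  | _, _, _ => 0

/-- the level cost -/
noncomputable abbrev topc (R : ℕ) : List TE → List Bool → St → ℝ := tc R TE.a TE.f

/-- the transported old cost -/
noncomputable abbrev oldc (R : ℕ) : List TE → List Bool → St → ℝ := tc R TE.a' TE.f'

theorem cost_ev (R : ℕ) (M : ℝ) (L : List TE) (zs : List Bool) (σ : St) :
    cost R (0, 0) (L.map (TE.ev M)) zs σ = M * topc R L zs σ + oldc R L zs σ := by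
  induction L generalizing zs σ with
  | nil => simp [cost, topc, oldc, tc]
  | cons e L ih =>
    cases zs with
    | nil => simp [cost, topc, oldc, tc]
    | cons z zs =>
      simp only [List.map_cons, cost, topc, oldc, tc] at ih ⊢
      rw [ih]
      have h1 : (TE.ev M e).lt = e.lt := rfl
      rw [h1]
      have h2 : ∑ r ∈ range R, (TE.ev M e).φ r ((σ + e.lt.eff z) r)
          = M * ∑ r ∈ range R, e.f r ((σ + e.lt.eff z) r)
            + ∑ r ∈ range R, e.f' r ((σ + e.lt.eff z) r) := by
        rw [Finset.mul_sum, ← Finset.sum_add_distrib]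
        rfl
      rw [h2]
      cases z
      · simp only [Ev.use]
        simp
        ring
      · have h3 : Ev.use (0, 0) (TE.ev M e) true = M * e.a + e.a' := by
          simp only [Ev.use]
          split_ifs <;> simp [TE.ev]
        rw [h3]
        simp
        ring

/-- final state -/
def fin : List Lt → List Bool → St → St
  | ℓ :: w, z :: zs, σ => fin w zs (σ + ℓ.eff z)
  | _, _, σ => σ

/-- path: all intermediate states are within the capacities (no final condition) -/
def Path (R : ℕ) (cap : ℕ → ℕ) : List Lt → List Bool → St → Prop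
  | [], [], _ => True
  | ℓ :: w, z :: zs, σ => Ok R cap (σ + ℓ.eff z) ∧ Path R cap w zs (σ + ℓ.eff z)
  | [], _ :: _, _ => False
  | _ :: _, [], _ => False

theorem run_iff (R : ℕ) (cap : ℕ → ℕ) (w : List Ev) (zs : List Bool) (σ : St) :
    Run R cap w zs σ ↔ Path R cap (w.map Ev.lt) zs σ ∧
      ∀ r < R, fin (w.map Ev.lt) zs σ r = 0 := by
  induction w generalizing zs σ with
  | nil =>
    cases zs with
    | nil => simp [Run, Path, fin]
    | cons z zs => simp [Run, Path]
  | cons e w ih =>
    cases zs with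
    | nil => simp [Run, Path]
    | cons z zs =>
      simp only [Run, List.map_cons, Path, fin]
      rw [ih]
      tauto

theorem Path.length {R : ℕ} {cap : ℕ → ℕ} {w : List Lt} {zs : List Bool} {σ : St}
    (h : Path R cap w zs σ) : zs.length = w.length := by
  induction w generalizing zs σ with
  | nil =>
    cases zs with
    | nil => rfl
    | cons z zs => simp [Path] at h
  | cons ℓ w ih =>
    cases zs with
    | nil => simp [Path] at h
    | cons z zs => simp only [Path] at h; simp [ih h.2]

theorem fin_append (w w' : List Lt) (zs zs' : List Bool) (σ : St) (h : zs.length = w.length) :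
    fin (w ++ w') (zs ++ zs') σ = fin w' zs' (fin w zs σ) := by
  induction w generalizing zs σ with
  | nil =>
    have : zs = [] := List.length_eq_zero_iff.1 h
    subst this; rfl
  | cons ℓ w ih =>
    cases zs with
    | nil => simp at h
    | cons z zs => simp only [List.cons_append, fin]; exact ih _ _ (by simpa using h)

theorem path_append (R : ℕ) (cap : ℕ → ℕ) (w w' : List Lt) (zs zs' : List Bool) (σ : St)
    (h : zs.length = w.length) :
    Path R cap (w ++ w') (zs ++ zs') σ ↔ Path R cap w zs σ ∧ Path R cap w' zs' (fin w zs σ) := by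
  induction w generalizing zs σ with
  | nil =>
    have : zs = [] := List.length_eq_zero_iff.1 h
    subst this; simp [Path, fin]
  | cons ℓ w ih =>
    cases zs with
    | nil => simp at h
    | cons z zs =>
      simp only [List.cons_append, Path, fin]
      rw [ih _ _ (by simpa using h)]
      tauto

theorem path_append_split {R : ℕ} {cap : ℕ → ℕ} {w w' : List Lt} {zs : List Bool} {σ : St}
    (h : Path R cap (w ++ w') zs σ) :
    ∃ z1 z2, zs = z1 ++ z2 ∧ z1.length = w.length ∧ z2.length = w'.length := by
  have hl := h.length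
  rw [List.length_append] at hl
  exact ⟨zs.take w.length, zs.drop w.length, (List.take_append_drop _ _).symm,
    by rw [List.length_take]; omega, by rw [List.length_drop]; omega⟩

theorem tc_append (R : ℕ) (a : TE → ℝ) (f : TE → ℕ → ℤ → ℝ) (L L' : List TE)
    (zs zs' : List Bool) (σ : St) (h : zs.length = L.length) :
    tc R a f (L ++ L') (zs ++ zs') σ =
      tc R a f L zs σ + tc R a f L' zs' (fin (L.map TE.lt) zs σ) := by
  induction L generalizing zs σ with
  | nil =>
    have : zs = [] := List.length_eq_zero_iff.1 h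
    subst this; simp [tc, fin]
  | cons e L ih =>
    cases zs with
    | nil => simp at h
    | cons z zs =>
      simp only [List.cons_append, tc, List.map_cons, fin]
      rw [ih _ _ (by simpa using h)]
      ring

/-- `∑ G r * eff r` of a letter -/
noncomputable def effG (G : ℕ → ℝ) : Lt → Bool → ℝ
  | .leaf r c, z => G r * ((bz c - bz z : ℤ) : ℝ)
  | .br a b c d, z => G a * ((bz c - bz z : ℤ) : ℝ) + G b * ((bz d - 1 + bz z : ℤ) : ℝ)

theorem sum_single {R : ℕ} (G : ℕ → ℝ) {r0 : ℕ} (hr : r0 < R) (x : ℤ) :
    ∑ i ∈ range R, G i * (((if i = r0 then x else 0 : ℤ)) : ℝ) = G r0 * (x : ℝ) := by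
  rw [Finset.sum_eq_single r0]
  · simp
  · intro b _ hb
    simp [hb]
  · intro hn
    exact absurd (Finset.mem_range.2 hr) hn

theorem sum_effG {R : ℕ} {cap : ℕ → ℕ} (G : ℕ → ℝ) {ℓ : Lt} (h : ℓ.WF R cap) (z : Bool) :
    ∑ r ∈ range R, G r * ((ℓ.eff z r : ℤ) : ℝ) = effG G ℓ z := by
  cases ℓ with
  | leaf r c => exact sum_single G h.1 _
  | br a b c d =>
    have hab : a < b := h.1
    have hb : b < R := h.2.1
    have h1 : ∀ r ∈ range R, G r * (((Lt.br a b c d).eff z r : ℤ) : ℝ) =
        G r * (((if r = a then bz c - bz z else 0 : ℤ)) : ℝ)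
          + G r * (((if r = b then bz d - 1 + bz z else 0 : ℤ)) : ℝ) := by
      intro r _
      simp only [Lt.eff]
      push_cast
      ring
    rw [Finset.sum_congr rfl h1, Finset.sum_add_distrib, sum_single G (by omega : a < R),
      sum_single G hb]
    rfl

/-- potential of the first letter (or `Gf`) -/
def hdG (Gf : ℕ → ℝ) : List TE → ℕ → ℝ
  | [] => Gf
  | e :: _ => e.G

@[simp] theorem hdG_cons (Gf : ℕ → ℝ) (e : TE) (L : List TE) : hdG Gf (e :: L) = e.G := rfl

@[simp] theorem hdG_nil (Gf : ℕ → ℝ) : hdG Gf [] = Gf := rfl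

/-- the letter term of sign `s` -/
noncomputable def TE.lterm (e : TE) (s z : Bool) : ℝ :=
  (if z then e.a else 0) - (if s then (if z && e.lt.isLeaf then e.h else 0) + effG e.G e.lt z else 0)

/-- the gap term of sign `s` (next potential `G'`) -/
noncomputable def TE.gterm (e : TE) (s : Bool) (G' : ℕ → ℝ) (r : ℕ) (k : ℤ) : ℝ :=
  e.f r k - (if s then (G' r - e.G r) * (k : ℝ) else 0)

/-- sum of the one-variable terms -/
noncomputable def tsum (R : ℕ) (s : Bool) (Gf : ℕ → ℝ) : List TE → List Bool → St → ℝ
  | e :: w, z :: zs, σ =>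
      e.lterm s z + (∑ r ∈ range R, e.gterm s (hdG Gf w) r ((σ + e.lt.eff z) r)) +
        tsum R s Gf w zs (σ + e.lt.eff z)
  | _, _, _ => 0

/-- the level objective of sign `s` -/
noncomputable def obj (R : ℕ) (s : Bool) (L : List TE) (zs : List Bool) (σ : St) : ℝ :=
  topc R L zs σ - (if s then dot (List.zipWith (fun e z => e.lt.isLeaf && z) L zs) (L.map TE.h)
    else 0)

/-- **summation by parts** -/
theorem obj_eq (R : ℕ) (cap : ℕ → ℕ) (s : Bool) (Gf : ℕ → ℝ) (L : List TE) (zs : List Bool)
    (σ : St) (hlen : zs.length = L.length) (hwf : ∀ e ∈ L, e.lt.WF R cap) :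
    obj R s L zs σ = tsum R s Gf L zs σ +
      (if s then (∑ r ∈ range R, Gf r * ((fin (L.map TE.lt) zs σ r : ℤ) : ℝ))
        - ∑ r ∈ range R, hdG Gf L r * ((σ r : ℤ) : ℝ) else 0) := by
  induction L generalizing zs σ with
  | nil =>
    have : zs = [] := List.length_eq_zero_iff.1 hlen
    subst this
    simp [obj, topc, tc, tsum, dot, fin, hdG]
  | cons e L ih =>
    cases zs with
    | nil => simp at hlen
    | cons z zs =>
      have h1 := ih zs (σ + e.lt.eff z) (by simpa using hlen)
        (fun x hx => hwf x (List.mem_cons_of_mem _ hx))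
      have h2 := sum_effG e.G (hwf e List.mem_cons_self) z
      have h3 : obj R s (e :: L) (z :: zs) σ = obj R s L zs (σ + e.lt.eff z)
          + (if z then e.a else 0) - (if s then (if z && e.lt.isLeaf then e.h else 0) else 0)
          + ∑ r ∈ range R, e.f r ((σ + e.lt.eff z) r) := by
        simp only [obj, topc, tc, List.zipWith_cons_cons, List.map_cons, dot]
        cases s <;> cases z <;> simp <;> ring
      rw [h3, h1]
      simp only [tsum, List.map_cons, fin, hdG_cons, TE.lterm, TE.gterm]
      cases s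
      · simp
        ring
      · simp only [if_true]
        rw [Finset.sum_sub_distrib]
        have h4 : ∑ r ∈ range R, (hdG Gf L r - e.G r) * (((σ + e.lt.eff z) r : ℤ) : ℝ)
            = ∑ r ∈ range R, hdG Gf L r * (((σ + e.lt.eff z) r : ℤ) : ℝ)
              - (∑ r ∈ range R, e.G r * ((σ r : ℤ) : ℝ) + effG e.G e.lt z) := by
          rw [← h2, ← Finset.sum_add_distrib, ← Finset.sum_sub_distrib]
          refine Finset.sum_congr rfl fun r _ => ?_
          simp only [Pi.add_apply, Int.cast_add]
          ring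
        rw [h4]
        ring

/-- tight runs of sign `s` -/
def Tight (s : Bool) : List TE → List Bool → St → Prop
  | e :: w, z :: zs, σ =>
      e.bc s z ∧ e.gc s (σ + e.lt.eff z) ∧ Tight s w zs (σ + e.lt.eff z)
  | _, _, _ => True

/-- The event is fine for sign `s`: letter term and gap terms have their minimum exactly on the
tightness conditions. -/
def TE.Fine (R : ℕ) (cap : ℕ → ℕ) (s : Bool) (G' : ℕ → ℝ) (e : TE) (ml mg : ℝ) : Prop :=
  (∀ z, ml ≤ e.lterm s z) ∧ (∀ z, e.lterm s z = ml ↔ e.bc s z) ∧
  (∀ σ : St, Ok R cap σ → mg ≤ ∑ r ∈ range R, e.gterm s G' r (σ r)) ∧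
  (∀ σ : St, Ok R cap σ → ((∑ r ∈ range R, e.gterm s G' r (σ r)) = mg ↔ e.gc s σ))

/-- all events are fine -/
def AllFine (R : ℕ) (cap : ℕ → ℕ) (s : Bool) (Gf : ℕ → ℝ) : List TE → Prop
  | [] => True
  | e :: w => (∃ ml mg, e.Fine R cap s (hdG Gf w) ml mg) ∧ AllFine R cap s Gf w

theorem tsum_min (R : ℕ) (cap : ℕ → ℕ) (s : Bool) (Gf : ℕ → ℝ) (L : List TE)
    (h : AllFine R cap s Gf L) : ∃ m : ℝ, ∀ (zs : List Bool) (σ : St),
      Path R cap (L.map TE.lt) zs σ →
      m ≤ tsum R s Gf L zs σ ∧ (tsum R s Gf L zs σ = m ↔ Tight s L zs σ) := by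
  induction L with
  | nil =>
    refine ⟨0, fun zs σ hp => ?_⟩
    simp [tsum, Tight]
  | cons e L ih =>
    obtain ⟨⟨ml, mg, f1, f2, f3, f4⟩, h'⟩ := h
    obtain ⟨m, hm⟩ := ih h'
    refine ⟨ml + mg + m, fun zs σ hp => ?_⟩
    cases zs with
    | nil => simp [Path] at hp
    | cons z zs =>
      simp only [List.map_cons, Path] at hp
      obtain ⟨hok, hp⟩ := hp
      obtain ⟨g1, g2⟩ := hm zs _ hp
      have a1 := f1 z
      have a3 := f3 _ hok
      simp only [tsum, Tight]
      refine ⟨by linarith, ?_⟩
      rw [← f2, ← f4 _ hok, ← g2]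
      constructor
      · intro h
        exact ⟨by linarith, by linarith, by linarith⟩
      · rintro ⟨h1, h2, h3⟩
        linarith

/-- **Part A.** For runs of the whole word the objective of sign `s` is at least a constant, with
equality iff the run is tight. -/
theorem obj_min (R : ℕ) (cap : ℕ → ℕ) (s : Bool) (Gf : ℕ → ℝ) (L : List TE)
    (h : AllFine R cap s Gf L) (hwf : ∀ e ∈ L, e.lt.WF R cap) : ∃ m : ℝ, ∀ zs : List Bool,
      Path R cap (L.map TE.lt) zs 0 → (∀ r < R, fin (L.map TE.lt) zs 0 r = 0) →
      m ≤ obj R s L zs 0 ∧ (obj R s L zs 0 = m ↔ Tight s L zs 0) := by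
  obtain ⟨m, hm⟩ := tsum_min R cap s Gf L h
  refine ⟨m, fun zs hp h0 => ?_⟩
  have hlen : zs.length = L.length := by rw [hp.length, List.length_map]
  rw [obj_eq R cap s Gf L zs 0 hlen hwf]
  have h1 : ∑ r ∈ range R, Gf r * ((fin (L.map TE.lt) zs 0 r : ℤ) : ℝ) = 0 := by
    refine Finset.sum_eq_zero fun r hr => ?_
    rw [h0 r (Finset.mem_range.1 hr)]
    simp
  have h2 : ∑ r ∈ range R, hdG Gf L r * (((0 : St) r : ℤ) : ℝ) = 0 := by
    refine Finset.sum_eq_zero fun r hr => ?_
    simp
  rw [h1, h2]
  simpa using hm zs 0 hp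

end TW
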