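import Pool.Agent.RN.LevelB

/-!
# Level lemma, part C: all events of the annotated step word are fine (both signs)
-/

set_option autoImplicit false

namespace TW

open Finset

/-- letter part of `Fine` -/
def TE.LF (e : TE) (s : Bool) : Prop :=
  ∃ ml : ℝ, (∀ z, ml ≤ e.lterm s z) ∧ ∀ z, (e.lterm s z = ml ↔ e.bc s z)

/-- gap part of `Fine` -/
def TE.GF (R : ℕ) (cap : ℕ → ℕ) (s : Bool) (G' : ℕ → ℝ) (e : TE) : Prop :=
  ∃ mg : ℝ, (∀ σ : St, Ok R cap σ → mg ≤ ∑ r ∈ range R, e.gterm s G' r (σ r)) ∧
  (∀ σ : St, Ok R cap σ → ((∑ r ∈ range R, e.gterm s G' r (σ r)) = mg ↔ e.gc s σ))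

theorem fine_of {R : ℕ} {cap : ℕ → ℕ} {s : Bool} {G' : ℕ → ℝ} {e : TE} (h1 : e.LF s)
    (h2 : e.GF R cap s G') : ∃ ml mg, e.Fine R cap s G' ml mg := by
  obtain ⟨ml, a1, a2⟩ := h1
  obtain ⟨mg, b1, b2⟩ := h2
  exact ⟨ml, mg, a1, a2, b1, b2⟩

theorem hdG_append (Gf : ℕ → ℝ) (A B : List TE) : hdG Gf (A ++ B) = hdG (hdG Gf B) A := by
  cases A <;> rfl

theorem allFine_append (R : ℕ) (cap : ℕ → ℕ) (s : Bool) (Gf : ℕ → ℝ) (A B : List TE) :
    AllFine R cap s Gf (A ++ B) ↔ AllFine R cap s (hdG Gf B) A ∧ AllFine R cap s Gf B := by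
  induction A with
  | nil => simp [AllFine]
  | cons e A ih =>
    simp only [List.cons_append, AllFine, ih, hdG_append]
    tauto

theorem lf_Q (e : TE) (s : Bool) (s0 : ℝ) (r : ℕ) (hlt : e.lt = .leaf r true)
    (ha : e.a = (e.h - s0) / 2) (hbc : e.bc = fun s z => z = !s) (hh : e.h < s0)
    (hG : s0 ≤ e.G r) : e.LF s := by
  cases s
  · refine ⟨e.a, fun z => ?_, fun z => ?_⟩
    · cases z
      · simp only [TE.lterm, ha]; simp; linarith
      · simp [TE.lterm]
    · cases z
      · simp only [TE.lterm, hbc, ha]; simp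
        intro h; linarith
      · simp [TE.lterm, hbc]
  · refine ⟨-(e.G r), fun z => ?_, fun z => ?_⟩
    · cases z
      · simp [TE.lterm, hlt, effG, bz, Lt.isLeaf]
      · simp only [TE.lterm, hlt, effG, bz, Lt.isLeaf, ha]; simp; linarith
    · cases z
      · simp [TE.lterm, hlt, effG, bz, Lt.isLeaf, hbc]
      · simp only [TE.lterm, hlt, effG, bz, Lt.isLeaf, ha, hbc]; simp
        intro h; linarith

theorem lf_P (e : TE) (s : Bool) (top : ℝ) (r : ℕ) (hlt : e.lt = .leaf r false)
    (ha : e.a = (e.h - top) / 2) (hbc : e.bc = fun s z => z = s) (hh : top < e.h)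
    (hG : e.G r ≤ top) : e.LF s := by
  cases s
  · refine ⟨0, fun z => ?_, fun z => ?_⟩
    · cases z
      · simp [TE.lterm]
      · simp only [TE.lterm, ha]; simp; linarith
    · cases z
      · simp [TE.lterm, hbc]
      · simp only [TE.lterm, hbc, ha]; simp
        intro h; linarith
  · refine ⟨e.a - e.h + e.G r, fun z => ?_, fun z => ?_⟩
    · cases z
      · simp only [TE.lterm, hlt, effG, bz, Lt.isLeaf, ha]; simp; linarith
      · simp only [TE.lterm, hlt, effG, bz, Lt.isLeaf, ha]; simp; linarith
    · cases z
      · simp only [TE.lterm, hlt, effG, bz, Lt.isLeaf, ha, hbc]; simp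
        intro h; linarith
      · simp only [TE.lterm, hlt, effG, bz, Lt.isLeaf, ha, hbc]; simp; ring

theorem lf_F_leaf (e : TE) (s : Bool) (r : ℕ) (c : Bool) (hlt : e.lt = .leaf r c)
    (ha : e.a = 0) (hbc : e.bc = fun _ _ => True) (hh : e.h = e.G r) : e.LF s := by
  cases s
  · refine ⟨0, fun z => ?_, fun z => ?_⟩ <;> cases z <;> simp [TE.lterm, ha, hbc]
  · have key : ∀ z, e.lterm true z = -(e.G r * (bz c : ℝ)) := by
      intro z
      cases z <;> cases c <;> simp [TE.lterm, hlt, effG, ha, hh, Lt.isLeaf, bz]
    exact ⟨_, fun z => (key z).ge, fun z => by simp [hbc, key z]⟩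

theorem lf_F_br (e : TE) (s : Bool) (a b : ℕ) (c d : Bool) (hlt : e.lt = .br a b c d)
    (ha : e.a = 0) (hbc : e.bc = fun _ _ => True) (hh : e.G a = e.G b) : e.LF s := by
  cases s
  · refine ⟨0, fun z => ?_, fun z => ?_⟩ <;> cases z <;> simp [TE.lterm, ha, hbc]
  · have key : ∀ z, e.lterm true z = -(e.G b * ((bz c : ℝ) + bz d - 1)) := by
      intro z
      cases z <;> cases c <;> cases d <;>
        simp [TE.lterm, hlt, effG, ha, hh, Lt.isLeaf, bz]
    exact ⟨_, fun z => (key z).ge, fun z => by simp [hbc, key z]⟩

/-- one-variable minima, summed over the rows -/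
theorem gf_of_rows (R : ℕ) (cap : ℕ → ℕ) (s : Bool) (G' : ℕ → ℝ) (e : TE) (mg : ℕ → ℝ)
    (C : ℕ → ℤ → Prop)
    (h : ∀ r < R, ∀ k : ℤ, 0 ≤ k → k ≤ (cap r : ℤ) →
      mg r ≤ e.gterm s G' r k ∧ (e.gterm s G' r k = mg r ↔ C r k))
    (hgc : ∀ σ : St, e.gc s σ ↔ ∀ r < R, C r (σ r)) : e.GF R cap s G' := by
  refine ⟨∑ r ∈ range R, mg r, fun σ hσ => ?_, fun σ hσ => ?_⟩
  · refine Finset.sum_le_sum fun r hr => ?_
    have hr' := Finset.mem_range.1 hr
    exact (h r hr' (σ r) (hσ r hr').1 (hσ r hr').2).1
  · rw [hgc]
    have h1 : ∀ r ∈ range R, mg r ≤ e.gterm s G' r (σ r) := fun r hr =>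
      (h r (Finset.mem_range.1 hr) (σ r) (hσ r (Finset.mem_range.1 hr)).1
        (hσ r (Finset.mem_range.1 hr)).2).1
    rw [eq_comm, Finset.sum_eq_sum_iff_of_le h1]
    constructor
    · intro h2 r hr
      exact (h r hr (σ r) (hσ r hr).1 (hσ r hr).2).2.1 (h2 r (Finset.mem_range.2 hr)).symm
    · intro h2 r hr
      have hr' := Finset.mem_range.1 hr
      exact ((h r hr' (σ r) (hσ r hr').1 (hσ r hr').2).2.2 (h2 r hr')).symm

theorem gf_Z (R : ℕ) (cap : ℕ → ℕ) (s : Bool) (G' : ℕ → ℝ) (e : TE) (hf : e.f = fZ)
    (hgc : e.gc = gT) (hG : G' = e.G) : e.GF R cap s G' := by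
  refine gf_of_rows R cap s G' e (fun _ => 0) (fun _ _ => True) (fun r _ k _ _ => ?_) ?_
  · cases s <;> simp [TE.gterm, hf, fZ, hG]
  · intro σ; simp [hgc, gT]

theorem gf_M (N : Net) (s : Bool) (s0 x : ℝ) (hx : s0 < x) (ℓ : Lt) (e : TE)
    (hf : e.f = fM N s0 x ℓ) (hgc : e.gc = gM N ℓ) (hG : e.G = PY N s0 x) :
    e.GF N.step.R N.step.cap s (PM N s0 x ℓ) := by
  refine gf_of_rows _ _ s _ e (fun r => if s && cvr N.st ℓ r then -(x - s0) else 0)
    (cM N ℓ s) (fun r hr k hk hk' => ?_) ?_
  · by_cases hc : cvr N.st ℓ r = true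
    · have hm := cvr_mod hc
      have h1 : PM N s0 x ℓ r = x := by simp [PM, hc]
      have h2 : PY N s0 x r = s0 := PY_new N s0 x hm
      have hcap : k ≤ 2 := by
        have h3 : N.step.cap r ≤ 2 := by
          show (if r % 3 = 1 then _ else _) ≤ 2
          rw [if_neg hm]
          split_ifs <;> omega
        omega
      have hD : 0 < x - s0 := by linarith
      have hk3 : k = 0 ∨ k = 1 ∨ k = 2 := by omega
      rcases hk3 with rfl | rfl | rfl
      · cases s
        · simp [TE.gterm, hf, fM, hc, jp, cM]
        · simp only [TE.gterm, hf, fM, hc, jp, cM, h1, hG, h2]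
          simp
          constructor
          · linarith
          · intro h; linarith
      · cases s
        · simp [TE.gterm, hf, fM, hc, jp, cM]
        · simp only [TE.gterm, hf, fM, hc, jp, cM, h1, hG, h2]
          simp
      · cases s
        · simp only [TE.gterm, hf, fM, hc, jp, cM]
          simp
          constructor
          · linarith
          · intro h; linarith
        · simp only [TE.gterm, hf, fM, hc, jp, cM, h1, hG, h2]
          norm_num
          constructor
          · linarith
          · ring
    · have h1 : PM N s0 x ℓ r = PY N s0 x r := by simp [PM, hc]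
      cases s <;> simp [TE.gterm, hf, fM, hc, cM, h1, hG]
  · intro σ; simp only [hgc, gM]

theorem gf_E (N : Net) (s : Bool) (s0 x nxt : ℝ) (hx : s0 < x) (hn : x < nxt) (ℓ : Lt) (e : TE)
    (hf : e.f = fE N (nxt - x)) (hgc : e.gc = gE N) (hG : e.G = PM N s0 x ℓ) :
    e.GF N.step.R N.step.cap s (PY N s0 nxt) := by
  refine gf_of_rows _ _ s _ e
    (fun r => if s = true ∧ r % 3 = 1 ∧ N.st (r / 3) = false then
      -((nxt - x) * (N.cap (r / 3) : ℝ)) else 0)
    (cE N s) (fun r hr k hk hk' => ?_) ?_
  · have hD : 0 < nxt - x := by linarith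
    by_cases hm : r % 3 = 1
    · by_cases hst : N.st (r / 3) = true
      · have h1 : PM N s0 x ℓ r = s0 := by
          have hc : cvr N.st ℓ r = false := by
            by_contra hc
            exact cvr_mod (by simpa using hc) hm
          simp [PM, hc, PY, hst]
        have h2 : PY N s0 nxt r = s0 := by simp [PY, hst]
        cases s <;> simp [TE.gterm, hf, fE, hm, hst, cE, h1, h2, hG]
      · have hst' : N.st (r / 3) = false := by simpa using hst
        have h1 : PM N s0 x ℓ r = x := by
          have hc : cvr N.st ℓ r = false := by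
            by_contra hc
            exact cvr_mod (by simpa using hc) hm
          simp [PM, hc, PY, hst', hm]
        have h2 : PY N s0 nxt r = nxt := by simp [PY, hst', hm]
        set m := N.cap (r / 3) with hmd
        rcases le_or_gt k (m : ℤ) with hkm | hkm
        · have hj : jp m k = 0 := by simp only [jp]; omega
          cases s
          · simp [TE.gterm, hf, fE, hm, hst', cE, hj, ← hmd, hkm]
          · simp only [TE.gterm, hf, fE, hm, hst', cE, hj, ← hmd, h1, h2, hG]
            have hkr : (k : ℝ) ≤ (m : ℝ) := by exact_mod_cast hkm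
            simp
            constructor
            · nlinarith
            · constructor
              · intro h
                rcases h with h | h
                · have : (k : ℝ) = m := h
                  have h' : k = (m : ℤ) := by exact_mod_cast this
                  omega
                · linarith
              · intro h
                have h' : k = (m : ℤ) := by omega
                left
                rw [h']; simp
        · have hj : jp m k = k - m := by simp only [jp]; omega
          have hkr : (m : ℝ) < (k : ℝ) := by exact_mod_cast hkm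
          cases s
          · simp only [TE.gterm, hf, fE, hm, hst', cE, hj, ← hmd]
            simp
            constructor
            · nlinarith
            · constructor
              · intro h
                rcases h with h | h
                · linarith
                · linarith
              · intro h
                omega
          · simp only [TE.gterm, hf, fE, hm, hst', cE, hj, ← hmd, h1, h2, hG]
            simp
            constructor
            · nlinarith
            · constructor
              · intro _; omega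
              · intro _; ring
    · have h2 : PY N s0 nxt r = s0 := PY_new N s0 nxt hm
      have h1 : s0 ≤ PM N s0 x ℓ r := by
        unfold PM
        split_ifs
        · linarith
        · rw [PY_new N s0 x hm]
      have hkr : (0 : ℝ) ≤ (k : ℝ) := by exact_mod_cast hk
      cases s
      · simp [TE.gterm, hf, fE, hm, cE, hkr]
      · simp only [TE.gterm, hf, fE, hm, cE, h2, hG]
        simp
        constructor
        · nlinarith
        · constructor
          · intro h
            have h3 : (k : ℝ) * (1 + (PM N s0 x ℓ r - s0)) = 0 := by linarith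
            rcases mul_eq_zero.1 h3 with h4 | h4
            · exact_mod_cast h4
            · linarith
          · intro h
            subst h
            simp
  · intro σ; simp only [hgc, gE]

end TW
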