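import Pool.Agent.RN.LevelC

/-!
# Level lemma, part D: `AllFine` for the annotated step word
-/

set_option autoImplicit false

namespace TW

open Finset

theorem PY_ge (N : Net) {s0 x : ℝ} (h : s0 ≤ x) (i : ℕ) : s0 ≤ PY N s0 x i := by
  unfold PY; split_ifs <;> linarith

theorem PY_le (N : Net) {s0 x top : ℝ} (h : x ≤ top) (h0 : s0 ≤ top) (i : ℕ) :
    PY N s0 x i ≤ top := by
  unfold PY; split_ifs <;> linarith

theorem PM_le (N : Net) {s0 x top : ℝ} (ℓ : Lt) (h : x ≤ top) (h0 : s0 ≤ top) (i : ℕ) :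
    PM N s0 x ℓ i ≤ top := by
  unfold PM; split_ifs
  · exact h
  · exact PY_le N h h0 i

theorem PM_cvr (N : Net) (s0 x : ℝ) {ℓ : Lt} {i : ℕ} (h : cvr N.st ℓ i = true) :
    PM N s0 x ℓ i = x := by simp [PM, h]

theorem PY_st (N : Net) (s0 x : ℝ) {r : ℕ} (h : N.st r = true) : PY N s0 x (3 * r + 1) = s0 := by
  have h1 : (3 * r + 1) / 3 = r := by omega
  simp [PY, h1, h]

theorem PY_yg (N : Net) (s0 x : ℝ) {r : ℕ} (h : N.st r = false) :
    PY N s0 x (3 * r + 1) = x := by
  have h1 : (3 * r + 1) / 3 = r := by omega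
  have h2 : (3 * r + 1) % 3 = 1 := by omega
  simp [PY, h1, h, h2]

theorem PM_yg (N : Net) (s0 x : ℝ) (ℓ : Lt) {r : ℕ} (h : N.st r = false) :
    PM N s0 x ℓ (3 * r + 1) = x := by
  unfold PM
  split_ifs
  · rfl
  · exact PY_yg N s0 x h

theorem PY_1 (N : Net) (s0 x : ℝ) (r : ℕ) : PY N s0 x (3 * r + 2) = s0 :=
  PY_new N s0 x (by omega)

theorem PY_0 (N : Net) (s0 x : ℝ) (r : ℕ) : PY N s0 x (3 * r) = s0 :=
  PY_new N s0 x (by omega)

theorem pm_eq_py (N : Net) (s0 x : ℝ) (ℓ : Lt) (h : ∀ i, cvr N.st ℓ i = false) :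
    PM N s0 x ℓ = PY N s0 x := by
  funext i; simp [PM, h i]

theorem allFine_blk (N : Net) (s : Bool) (s0 top x nxt : ℝ) (e : Ev) (hb : List ℝ)
    (h0 : s0 < x) (h1 : x < nxt) (h2 : nxt ≤ top) (hB : BlkHt N.st s0 top e.lt x hb) :
    AllFine N.step.R N.step.cap s (PY N s0 nxt) (tBlk N s0 top x nxt e hb) := by
  unfold tBlk
  unfold BlkHt at hB
  have hxt : x ≤ top := by linarith
  have h0t : s0 ≤ top := by linarith
  cases hl : e.lt with
  | leaf r c =>
    rw [hl] at hB
    by_cases hr : N.st r = true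
    · simp only [hr, if_true] at hB ⊢
      obtain ⟨q, b, p, rfl, hq, hp⟩ := hB
      have hc : cvr N.st (.leaf r c) (3 * r + 2) = true := by simp [cvr, hr]
      refine ⟨fine_of (lf_Q _ s s0 (3 * r + 2) rfl rfl rfl (by simpa [tQ] using hq) ?_)
        (gf_Z _ _ s _ _ rfl rfl rfl), ?_, ?_, ?_, trivial⟩
      · show s0 ≤ PY N s0 x (3 * r + 2)
        exact PY_ge N h0.le _
      · refine fine_of (lf_F_br _ s _ _ _ _ rfl rfl rfl ?_)
          (gf_M N s s0 x h0 (.leaf r c) _ rfl rfl rfl)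
        show PY N s0 x (3 * r + 1) = PY N s0 x (3 * r + 2)
        rw [PY_st N s0 x hr, PY_1]
      · refine fine_of (lf_F_leaf _ s _ _ rfl rfl rfl ?_) (gf_Z _ _ s _ _ rfl rfl rfl)
        show _ = PM N s0 x (.leaf r c) (3 * r + 2)
        rw [PM_cvr N s0 x hc]
        rfl
      · refine fine_of (lf_P _ s top (3 * r + 2) rfl rfl rfl (by simpa [tP] using hp) ?_)
          (gf_E N s s0 x nxt h0 h1 (.leaf r c) _ rfl rfl rfl)
        exact PM_le N _ hxt h0t _
    · have hr' : N.st r = false := by simpa using hr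
      simp only [hr', Bool.false_eq_true, if_false] at hB ⊢
      subst hB
      refine ⟨fine_of (lf_F_leaf _ s (3 * r + 1) c rfl rfl rfl ?_)
        (gf_E N s s0 x nxt h0 h1 (.leaf r c) _ rfl rfl rfl), trivial⟩
      show _ = PM N s0 x (.leaf r c) (3 * r + 1)
      rw [PM_yg N s0 x _ hr']
      rfl
  | br a b c d =>
    rw [hl] at hB
    by_cases ha : N.st a = true <;> by_cases hb' : N.st b = true
    · simp only [ha, hb', if_true] at hB ⊢
      obtain ⟨q, q', b1, b2, p, p', rfl, hq, hq', hp, hp'⟩ := hB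
      have hca : cvr N.st (.br a b c d) (3 * a + 2) = true := by simp [cvr, ha]
      have hcb : cvr N.st (.br a b c d) (3 * b) = true := by simp [cvr, hb']
      refine ⟨fine_of (lf_Q _ s s0 (3 * a + 2) rfl rfl rfl (by simpa [tQ] using hq)
          (PY_ge N h0.le _)) (gf_Z _ _ s _ _ rfl rfl rfl),
        fine_of (lf_Q _ s s0 (3 * b) rfl rfl rfl (by simpa [tQ] using hq')
          (PY_ge N h0.le _)) (gf_Z _ _ s _ _ rfl rfl rfl),
        fine_of (lf_F_br _ s _ _ _ _ rfl rfl rfl ?_) (gf_Z _ _ s _ _ rfl rfl rfl),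
        fine_of (lf_F_br _ s _ _ _ _ rfl rfl rfl ?_)
          (gf_M N s s0 x h0 (.br a b c d) _ rfl rfl rfl),
        fine_of (lf_F_br _ s _ _ _ _ rfl rfl rfl ?_) (gf_Z _ _ s _ _ rfl rfl rfl),
        fine_of (lf_P _ s top (3 * a + 2) rfl rfl rfl (by simpa [tP] using hp)
          (PM_le N _ hxt h0t _)) (gf_Z _ _ s _ _ rfl rfl rfl),
        fine_of (lf_P _ s top (3 * b) rfl rfl rfl (by simpa [tP] using hp')
          (PM_le N _ hxt h0t _)) (gf_E N s s0 x nxt h0 h1 (.br a b c d) _ rfl rfl rfl),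
        trivial⟩
      · show PY N s0 x (3 * a + 1) = PY N s0 x (3 * a + 2)
        rw [PY_st N s0 x ha, PY_1]
      · show PY N s0 x (3 * b) = PY N s0 x (3 * b + 1)
        rw [PY_st N s0 x hb', PY_0]
      · show PM N s0 x (.br a b c d) (3 * a + 2) = PM N s0 x (.br a b c d) (3 * b)
        rw [PM_cvr N s0 x hca, PM_cvr N s0 x hcb]
    · have hb2 : N.st b = false := by simpa using hb'
      simp only [ha, hb2, if_true, Bool.false_eq_true, if_false] at hB ⊢
      obtain ⟨q, b1, p, rfl, hq, hp⟩ := hB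
      have hca : cvr N.st (.br a b c d) (3 * a + 2) = true := by simp [cvr, ha]
      refine ⟨fine_of (lf_Q _ s s0 (3 * a + 2) rfl rfl rfl (by simpa [tQ] using hq)
          (PY_ge N h0.le _)) (gf_Z _ _ s _ _ rfl rfl rfl),
        fine_of (lf_F_br _ s _ _ _ _ rfl rfl rfl ?_)
          (gf_M N s s0 x h0 (.br a b c d) _ rfl rfl rfl),
        fine_of (lf_F_br _ s _ _ _ _ rfl rfl rfl ?_) (gf_Z _ _ s _ _ rfl rfl rfl),
        fine_of (lf_P _ s top (3 * a + 2) rfl rfl rfl (by simpa [tP] using hp)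
          (PM_le N _ hxt h0t _)) (gf_E N s s0 x nxt h0 h1 (.br a b c d) _ rfl rfl rfl),
        trivial⟩
      · show PY N s0 x (3 * a + 1) = PY N s0 x (3 * a + 2)
        rw [PY_st N s0 x ha, PY_1]
      · show PM N s0 x (.br a b c d) (3 * a + 2) = PM N s0 x (.br a b c d) (3 * b + 1)
        rw [PM_cvr N s0 x hca, PM_yg N s0 x _ hb2]
    · have ha2 : N.st a = false := by simpa using ha
      simp only [ha2, hb', if_true, Bool.false_eq_true, if_false] at hB ⊢
      obtain ⟨q, b1, p, rfl, hq, hp⟩ := hB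
      have hcb : cvr N.st (.br a b c d) (3 * b) = true := by simp [cvr, hb']
      refine ⟨fine_of (lf_Q _ s s0 (3 * b) rfl rfl rfl (by simpa [tQ] using hq)
          (PY_ge N h0.le _)) (gf_Z _ _ s _ _ rfl rfl rfl),
        fine_of (lf_F_br _ s _ _ _ _ rfl rfl rfl ?_)
          (gf_M N s s0 x h0 (.br a b c d) _ rfl rfl rfl),
        fine_of (lf_F_br _ s _ _ _ _ rfl rfl rfl ?_) (gf_Z _ _ s _ _ rfl rfl rfl),
        fine_of (lf_P _ s top (3 * b) rfl rfl rfl (by simpa [tP] using hp)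
          (PM_le N _ hxt h0t _)) (gf_E N s s0 x nxt h0 h1 (.br a b c d) _ rfl rfl rfl),
        trivial⟩
      · show PY N s0 x (3 * b) = PY N s0 x (3 * b + 1)
        rw [PY_st N s0 x hb', PY_0]
      · show PM N s0 x (.br a b c d) (3 * a + 1) = PM N s0 x (.br a b c d) (3 * b)
        rw [PM_cvr N s0 x hcb, PM_yg N s0 x _ ha2]
    · have ha2 : N.st a = false := by simpa using ha
      have hb2 : N.st b = false := by simpa using hb'
      simp only [ha2, hb2, Bool.false_eq_true, if_false] at hB ⊢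
      subst hB
      refine ⟨fine_of (lf_F_br _ s (3 * a + 1) (3 * b + 1) c d rfl rfl rfl ?_)
        (gf_E N s s0 x nxt h0 h1 (.br a b c d) _ rfl rfl rfl), trivial⟩
      show PM N s0 x (.br a b c d) (3 * a + 1) = PM N s0 x (.br a b c d) (3 * b + 1)
      rw [PM_yg N s0 x _ ha2, PM_yg N s0 x _ hb2]

theorem nx_bounds (s0 top : ℝ) (h0 : s0 < top) (A : List (Ev × ℝ × List ℝ))
    (hA : ∀ a ∈ A, s0 < a.2.1 ∧ a.2.1 < top) : s0 < nx top A ∧ nx top A ≤ top := by
  cases A with
  | nil => exact ⟨h0, le_refl _⟩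
  | cons a A => exact ⟨(hA a List.mem_cons_self).1, (hA a List.mem_cons_self).2.le⟩

theorem hdG_tBlk (N : Net) (Gf : ℕ → ℝ) (s0 top x nxt : ℝ) (e : Ev) (hb : List ℝ) :
    hdG Gf (tBlk N s0 top x nxt e hb) = PY N s0 x := by
  unfold tBlk
  cases e.lt with
  | leaf r c =>
    by_cases hr : N.st r = true
    · simp only [hr, if_true]; rfl
    · have hr' : N.st r = false := by simpa using hr
      simp only [hr', Bool.false_eq_true, if_false]
      show PM N s0 x (.leaf r c) = _
      exact pm_eq_py N s0 x _ (fun i => by simp [cvr, hr'])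
  | br a b c d =>
    by_cases ha : N.st a = true <;> by_cases hb' : N.st b = true
    · simp only [ha, hb', if_true]; rfl
    · have hb2 : N.st b = false := by simpa using hb'
      simp only [ha, hb2, if_true, Bool.false_eq_true, if_false]; rfl
    · have ha2 : N.st a = false := by simpa using ha
      simp only [ha2, hb', if_true, Bool.false_eq_true, if_false]; rfl
    · have ha2 : N.st a = false := by simpa using ha
      have hb2 : N.st b = false := by simpa using hb'
      simp only [ha2, hb2, Bool.false_eq_true, if_false]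
      show PM N s0 x (.br a b c d) = _
      exact pm_eq_py N s0 x _ (fun i => by simp [cvr, ha2, hb2])

theorem hdG_tBody (N : Net) (s0 top : ℝ) (A : List (Ev × ℝ × List ℝ)) :
    hdG (PY N s0 top) (tBody N s0 top A) = PY N s0 (nx top A) := by
  cases A with
  | nil => rfl
  | cons a A => rw [tBody, hdG_append, hdG_tBlk]; rfl

theorem allFine_body (N : Net) (s : Bool) (s0 top : ℝ) (h0 : s0 < top)
    (A : List (Ev × ℝ × List ℝ)) (hA : ∀ a ∈ A, s0 < a.2.1 ∧ a.2.1 < top)
    (hp : (A.map (fun a => a.2.1)).Pairwise (· < ·))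
    (hB : ∀ a ∈ A, BlkHt N.st s0 top a.1.lt a.2.1 a.2.2) :
    AllFine N.step.R N.step.cap s (PY N s0 top) (tBody N s0 top A) := by
  induction A with
  | nil => trivial
  | cons a A ih =>
    rw [tBody, allFine_append]
    have hA' : ∀ a ∈ A, s0 < a.2.1 ∧ a.2.1 < top := fun b hb => hA b (List.mem_cons_of_mem _ hb)
    rw [List.map_cons, List.pairwise_cons] at hp
    refine ⟨?_, ih hA' hp.2 (fun b hb => hB b (List.mem_cons_of_mem _ hb))⟩
    rw [hdG_tBody]
    have ha := hA a List.mem_cons_self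
    refine allFine_blk N s s0 top a.2.1 _ a.1 a.2.2 ha.1 ?_ (nx_bounds s0 top h0 A hA').2
      (hB a List.mem_cons_self)
    cases A with
    | nil => exact ha.2
    | cons b A => exact hp.1 _ (by simp [nx])

theorem allFine_start (R : ℕ) (cap : ℕ → ℕ) (s : Bool) (s0 : ℝ) (G : ℕ → ℝ) (lts : List Lt)
    (hs : List ℝ) (hl : ∀ ℓ ∈ lts, ∃ r, ℓ = .leaf r true) (hG : ∀ r, s0 ≤ G r)
    (hh : ∀ y ∈ hs, y < s0) : AllFine R cap s G (tStart s0 G lts hs) := by
  induction lts generalizing hs with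
  | nil => simp [tStart, AllFine]
  | cons ℓ lts ih =>
    cases hs with
    | nil => simp [tStart, AllFine]
    | cons y hs =>
      have hi := ih hs (fun ℓ h => hl ℓ (List.mem_cons_of_mem _ h))
        (fun z hz => hh z (List.mem_cons_of_mem _ hz))
      obtain ⟨r, rfl⟩ := hl ℓ List.mem_cons_self
      refine ⟨fine_of (lf_Q _ s s0 r rfl rfl rfl (hh y List.mem_cons_self) (hG r))
        (gf_Z _ _ s _ _ rfl rfl ?_), hi⟩
      show hdG G (List.zipWith (tSt s0 G) lts hs) = G
      cases lts with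
      | nil => rfl
      | cons a l =>
        cases hs with
        | nil => rfl
        | cons b l' => rfl

theorem allFine_end (R : ℕ) (cap : ℕ → ℕ) (s : Bool) (top : ℝ) (G : ℕ → ℝ) (lts : List Lt)
    (hs : List ℝ) (hl : ∀ ℓ ∈ lts, ∃ r, ℓ = .leaf r false) (hG : ∀ r, G r ≤ top)
    (hh : ∀ y ∈ hs, top < y) : AllFine R cap s G (tEnd top G lts hs) := by
  induction lts generalizing hs with
  | nil => simp [tEnd, AllFine]
  | cons ℓ lts ih =>
    cases hs with
    | nil => simp [tEnd, AllFine]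
    | cons y hs =>
      have hi := ih hs (fun ℓ h => hl ℓ (List.mem_cons_of_mem _ h))
        (fun z hz => hh z (List.mem_cons_of_mem _ hz))
      obtain ⟨r, rfl⟩ := hl ℓ List.mem_cons_self
      refine ⟨fine_of (lf_P _ s top r rfl rfl rfl (hh y List.mem_cons_self) (hG r))
        (gf_Z _ _ s _ _ rfl rfl ?_), hi⟩
      show hdG G (List.zipWith (tEn top G) lts hs) = G
      cases lts with
      | nil => rfl
      | cons a l =>
        cases hs with
        | nil => rfl
        | cons b l' => rfl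

theorem mem_ends {N : Net} {c : Bool} {ℓ : Lt} (h : ℓ ∈ ends N c) :
    ∃ r < N.R, N.st r = false ∧ ℓ = .leaf (3 * r + 1) c := by
  obtain ⟨r, hr, hm⟩ := List.mem_flatMap.1 h
  by_cases hs : N.st r = true
  · rw [if_pos hs] at hm; simp at hm
  · rw [if_neg hs] at hm
    obtain ⟨_, rfl⟩ := List.mem_replicate.1 hm
    exact ⟨r, List.mem_range.1 hr, by simpa using hs, rfl⟩

theorem hdG_tEnd (top : ℝ) (G : ℕ → ℝ) (lts : List Lt) (hs : List ℝ) :
    hdG G (tEnd top G lts hs) = G := by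
  cases lts with
  | nil => rfl
  | cons a l =>
    cases hs with
    | nil => rfl
    | cons b l' => rfl

/-- **All events of the annotated step word are fine.** -/
theorem allFine_all (N : Net) (s : Bool) (s0 top : ℝ) (h0 : s0 < top)
    (A : List (Ev × ℝ × List ℝ)) (hA : ∀ a ∈ A, s0 < a.2.1 ∧ a.2.1 < top)
    (hp : (A.map (fun a => a.2.1)).Pairwise (· < ·))
    (hB : ∀ a ∈ A, BlkHt N.st s0 top a.1.lt a.2.1 a.2.2) (hQ hP : List ℝ)
    (hQ' : ∀ y ∈ hQ, y < s0) (hP' : ∀ y ∈ hP, top < y) :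
    AllFine N.step.R N.step.cap s (PY N s0 top) (tAll N s0 top A hQ hP) := by
  have hn := nx_bounds s0 top h0 A hA
  rw [tAll, allFine_append, allFine_append]
  refine ⟨⟨?_, ?_⟩, ?_⟩
  · rw [hdG_tEnd, hdG_tBody]
    exact allFine_start _ _ s s0 _ _ _ (fun ℓ h => by
      obtain ⟨r, _, _, h⟩ := mem_ends h
      exact ⟨_, h⟩) (PY_ge N hn.1.le) hQ'
  · rw [hdG_tEnd]
    exact allFine_body N s s0 top h0 A hA hp hB
  · exact allFine_end _ _ s top _ _ _ (fun ℓ h => by
      obtain ⟨r, _, _, h⟩ := mem_ends h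
      exact ⟨_, h⟩) (PY_le N le_rfl h0.le) hP'

end TW
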