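import Pool.Agent.RN.LevelD
import Pool.Agent.RN.Ends
import Pool.Agent.RN.Conv

/-!
# Level lemma, part E: assembly (abstract form)

The three inputs (body up/down, old costs, convexity) are hypotheses `BodyUp`, `BodyDown`,
`OldCost`, `AllCvx` of the theorems here.
-/

set_option autoImplicit false

namespace TW

open Finset

/-- letters of the annotated old word -/
def lts (A : List (Ev × ℝ × List ℝ)) : List Lt := A.map (fun a => a.1.lt)

/-- input T1, up -/
def BodyUp (N : Net) (s : Bool) (T : List TE) (w : List Lt) (bits : List Bool → List Bool) :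
    Prop :=
  ∀ zv, Path N.R N.cap w zv 0 →
    Path N.step.R N.step.cap (T.map TE.lt) (bits zv) (sim N s 0) ∧
    Tight s T (bits zv) (sim N s 0) ∧
    fin (T.map TE.lt) (bits zv) (sim N s 0) = sim N s (fin w zv 0)

/-- input T1, down -/
def BodyDown (N : Net) (s : Bool) (T : List TE) (w : List Lt) (bits : List Bool → List Bool) :
    Prop :=
  ∀ ys, Path N.step.R N.step.cap (T.map TE.lt) ys (sim N s 0) → Tight s T ys (sim N s 0) →
    ∃ zv, ys = bits zv ∧ Path N.R N.cap w zv 0

theorem fin_map_ends (N : Net) (T : List TE) (c : Bool) (h : T.map TE.lt = ends N c) :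
    T.length = (ends N c).length := by rw [← h, List.length_map]

/-- assembly for one sign -/
theorem sign_assembly (N : Net) (hN : N.WF) (s : Bool) (ev : List Ev) (hev : ev.map Ev.lt = N.w)
    (TS TB TT : List TE) (hS : TS.map TE.lt = ends N true)
    (hB : TB.map TE.lt = N.w.flatMap (blk N.st)) (hT : TT.map TE.lt = ends N false)
    (hSb : ∀ e ∈ TS, e.bc = (fun s z => z = !s) ∧ e.gc = gT ∧ e.a' = 0 ∧ e.f' = fZ)
    (hTb : ∀ e ∈ TT, e.bc = (fun s z => z = s) ∧ e.gc = gT ∧ e.a' = 0 ∧ e.f' = fZ)
    (bits : List Bool → List Bool) (hup : BodyUp N s TB N.w bits) (hdown : BodyDown N s TB N.w bits)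
    (hbits : ∀ zv, zv.length = N.w.length →
      usedL (N.w.flatMap (blk N.st)) (bits zv) = bodyUsed s N.st N.w (usedL N.w zv))
    (c : ℝ) (hold : ∀ zv, Path N.R N.cap N.w zv 0 →
      oldc N.step.R TB (bits zv) (sim N s 0) = cost N.R (0, 0) ev zv 0 + c)
    (m : ℝ) (hm : ∀ zs, Path N.step.R N.step.cap ((TS ++ TB ++ TT).map TE.lt) zs 0 →
      (∀ r < N.step.R, fin ((TS ++ TB ++ TT).map TE.lt) zs 0 r = 0) →
      m ≤ obj N.step.R s (TS ++ TB ++ TT) zs 0 ∧
        (obj N.step.R s (TS ++ TB ++ TT) zs 0 = m ↔ Tight s (TS ++ TB ++ TT) zs 0)) :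
    SignOK N ev (fun zs => obj N.step.R s (TS ++ TB ++ TT) zs 0)
      (fun zs => oldc N.step.R (TS ++ TB ++ TT) zs 0) s m c := by
  set L := TS ++ TB ++ TT with hL
  have hLlt : L.map TE.lt = N.step.w := by
    rw [hL, List.map_append, List.map_append, hS, hB, hT]; rfl
  have hlS : TS.length = (ends N true).length := by rw [← hS, List.length_map]
  have hlT : TT.length = (ends N false).length := by rw [← hT, List.length_map]
  have hlB : TB.length = (N.w.flatMap (blk N.st)).length := by rw [← hB, List.length_map]
  -- the glued bit list of an old run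
  set G : List Bool → List Bool := fun zv =>
    List.replicate (ends N true).length (!s) ++ bits zv ++
      List.replicate (ends N false).length s with hG
  have hsim : simE N s 0 = sim N s 0 := rfl
  -- used bits
  have hused : ∀ (evW : List Ev), evW.map Ev.lt = N.step.w → ∀ zv,
      Path N.R N.cap N.w zv 0 → (bits zv).length = (N.w.flatMap (blk N.st)).length →
      used evW (G zv) = glue s N (used ev zv) := by
    intro evW hW zv hzv hlen
    have hzl : zv.length = N.w.length := hzv.length
    rw [used_eq_usedL, hW, used_eq_usedL, hev]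
    show usedL (ends N true ++ N.w.flatMap (blk N.st) ++ ends N false) (G zv) = _
    rw [hG]
    simp only
    rw [usedL_append _ _ _ _ (by simp [hlen]), usedL_append _ _ _ _ (by simp)]
    unfold glue
    rw [hbits zv hzl]
    have hl : ∀ (c b : Bool), usedL (ends N c) (List.replicate (ends N c).length b)
        = List.replicate (ends N c).length b := by
      intro c b
      have h1 := ends_isLeaf N c
      generalize ends N c = w at h1
      induction w with
      | nil => rfl
      | cons e w ih =>
        rw [List.length_cons, List.replicate_succ]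
        show (e.isLeaf && b) :: usedL w (List.replicate w.length b) = _
        rw [ih fun x hx => h1 x (List.mem_cons_of_mem _ hx), h1 e List.mem_cons_self,
          Bool.true_and]
    rw [hl, hl]
  -- old costs
  have holdG : ∀ zv, Path N.R N.cap N.w zv 0 →
      (bits zv).length = (N.w.flatMap (blk N.st)).length →
      oldc N.step.R L (G zv) 0 = cost N.R (0, 0) ev zv 0 + c := by
    intro zv hzv hlen
    rw [hL, hG]
    simp only [oldc]
    rw [tc_append _ _ _ (TS ++ TB) TT _ _ _ (by simp [hlS, hlB, hlen]),
      tc_append _ _ _ TS TB _ _ _ (by simp [hlS])]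
    rw [tc_zero _ _ _ TS (fun e he => ⟨(hSb e he).2.2.1, fun r k => by
        rw [(hSb e he).2.2.2]; rfl⟩),
      tc_zero _ _ _ TT (fun e he => ⟨(hTb e he).2.2.1, fun r k => by
        rw [(hTb e he).2.2.2]; rfl⟩)]
    rw [hS, start_fin N hN s, hsim]
    have := hold zv hzv
    simp only [oldc] at this
    rw [this]
    ring
  -- down: structure of tight runs
  have hdec : ∀ zs, Path N.step.R N.step.cap (L.map TE.lt) zs 0 →
      (∀ r < N.step.R, fin (L.map TE.lt) zs 0 r = 0) → Tight s L zs 0 →
      ∃ zv, Path N.R N.cap N.w zv 0 ∧ (∀ r < N.R, fin N.w zv 0 r = 0) ∧ zs = G zv ∧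
        (bits zv).length = (N.w.flatMap (blk N.st)).length := by
    intro zs hp hf ht
    rw [hL, List.map_append, List.map_append] at hp hf
    obtain ⟨z12, z3, rfl, hl12, hl3⟩ := path_append_split hp
    rw [path_append _ _ _ _ _ _ _ hl12] at hp
    obtain ⟨hp12, hp3⟩ := hp
    obtain ⟨z1, z2, rfl, hl1, hl2⟩ := path_append_split hp12
    rw [path_append _ _ _ _ _ _ _ hl1] at hp12
    obtain ⟨hp1, hp2⟩ := hp12
    rw [hL, tight_append s (TS ++ TB) TT _ _ _ (by simpa using hl12),
      tight_append s TS TB _ _ _ (by simpa using hl1)] at ht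
    obtain ⟨⟨ht1, ht2⟩, ht3⟩ := ht
    have e1 : z1 = List.replicate (ends N true).length (!s) := by
      rw [← hlS]
      exact tight_forced s (!s) TS (fun e he z hz => by rw [(hSb e he).1] at hz; exact hz) z1 _
        (by simpa using hl1) ht1
    have e3 : z3 = List.replicate (ends N false).length s := by
      rw [← hlT]
      exact tight_forced s s TT (fun e he z hz => by rw [(hTb e he).1] at hz; exact hz) z3 _
        (by simpa using hl3) ht3
    have hfS : fin (TS.map TE.lt) z1 0 = sim N s 0 := by
      rw [hS, e1, start_fin N hN s, hsim]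
    rw [hfS] at hp2 ht2
    obtain ⟨zv, hzv, hpv⟩ := hdown z2 hp2 ht2
    obtain ⟨_, _, hfB⟩ := hup zv hpv
    have hlen : (bits zv).length = (N.w.flatMap (blk N.st)).length := by
      rw [← hzv, hl2, hB]
    refine ⟨zv, hpv, ?_, ?_, hlen⟩
    · rw [fin_append _ _ _ _ _ hl12, fin_append _ _ _ _ _ hl1, hfS, hzv, hfB, hT, e3] at hf
      have hback := end_back N hN s _ hf
      intro r hr
      have h3 := hback (3 * r + 1) (by show 3 * r + 1 < 3 * N.R; omega)
      rw [hsim, sim1, sim1] at h3
      have : (0 : St) r = 0 := rfl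
      rw [this] at h3
      linarith
    · rw [hG]
      simp only
      rw [e1, e3, hzv]
  refine ⟨?_, ?_, ?_⟩
  · intro evW hW zs hr
    rw [run_iff, hW, ← hLlt] at hr
    exact (hm zs hr.1 hr.2).1
  · intro evW hW zs hr hfm
    have hr' := hr
    rw [run_iff, hW, ← hLlt] at hr'
    have ht := ((hm zs hr'.1 hr'.2).2).1 hfm
    obtain ⟨zv, hpv, hfv, rfl, hlen⟩ := hdec zs hr'.1 hr'.2 ht
    refine ⟨zv, ?_, hused evW hW zv hpv hlen, holdG zv hpv hlen⟩
    rw [run_iff, hev]
    exact ⟨hpv, hfv⟩
  · intro evW hW zv hr
    rw [run_iff, hev] at hr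
    obtain ⟨hpv, hfv⟩ := hr
    obtain ⟨hpB, htB, hfB⟩ := hup zv hpv
    have hlen : (bits zv).length = (N.w.flatMap (blk N.st)).length := by
      rw [hpB.length, hB]
    have hsim0 : sim N s (fin N.w zv 0) = simE N s 0 ∨ True := Or.inr trivial
    have hfS : fin (TS.map TE.lt) (List.replicate (ends N true).length (!s)) 0 = sim N s 0 := by
      rw [hS, start_fin N hN s, hsim]
    -- the state before END
    have hst : ∀ r < N.step.R, fin (TT.map TE.lt) (List.replicate (ends N false).length s)
        (sim N s (fin N.w zv 0)) r = 0 := by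
      intro r hr
      rw [hT, fin_ends N hN]
      have he := congrFun (end_fin N hN s) r
      rw [fin_ends N hN] at he
      simp only at he ⊢
      have hr3 : r < 3 * N.R := hr
      obtain ⟨q, hq⟩ := row_cases r
      rcases hq with rfl | rfl | rfl
      · rw [sim0]
        rw [hsim, sim0] at he
        exact he
      · rw [sim1, hfv q (by omega)]
        rw [hsim, sim1] at he
        exact he
      · rw [sim2]
        rw [hsim, sim2] at he
        exact he
    have hpE : Path N.step.R N.step.cap (TT.map TE.lt)
        (List.replicate (ends N false).length s) (sim N s (fin N.w zv 0)) := by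
      rw [hT]
      have hl := ends_leaf N false
      refine path_leaves _ _ false s _ _ hl ?_ ?_
      · have : sim N s (fin N.w zv 0) = simE N s (fin N.w zv 0) := rfl
        rw [this]
        refine simE_ok N s _ ?_
        intro r hr
        rw [hfv r hr]
        exact ⟨le_rfl, by positivity⟩
      · intro r hr
        have := hst r hr
        rw [hT] at this
        rw [this]
        exact ⟨le_rfl, by positivity⟩
    have hpath : Path N.step.R N.step.cap (L.map TE.lt) (G zv) 0 := by
      rw [hL, hG, List.map_append, List.map_append]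
      simp only
      rw [path_append _ _ _ _ _ _ _ (by simp [hlS, hlB, hlen]),
        path_append _ _ _ _ _ _ _ (by simp [hlS]), fin_append _ _ _ _ _ (by simp [hlS]), hfS, hfB]
      refine ⟨⟨?_, hpB⟩, hpE⟩
      rw [hS]
      exact start_path N hN s
    have hfin : ∀ r < N.step.R, fin (L.map TE.lt) (G zv) 0 r = 0 := by
      rw [hL, hG, List.map_append, List.map_append]
      simp only
      rw [fin_append _ _ _ _ _ (by simp [hlS, hlB, hlen]), fin_append _ _ _ _ _ (by simp [hlS]),
        hfS, hfB]
      exact hst
    have htight : Tight s L (G zv) 0 := by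
      rw [hL, hG]
      simp only
      rw [tight_append s (TS ++ TB) TT _ _ _ (by simp [hlS, hlB, hlen]),
        tight_append s TS TB _ _ _ (by simp [hlS])]
      refine ⟨⟨?_, ?_⟩, ?_⟩
      · rw [← hlS]
        exact tight_replicate s (!s) TS (fun e he => ⟨by rw [(hSb e he).1],
          fun σ => by rw [(hSb e he).2.1]; trivial⟩) _
      · rw [hfS]; exact htB
      · rw [← hlT]
        exact tight_replicate s s TT (fun e he => ⟨by rw [(hTb e he).1],
          fun σ => by rw [(hTb e he).2.1]; trivial⟩) _
    refine ⟨G zv, ?_, ((hm _ hpath hfin).2).2 htight, hused evW hW zv hpv hlen,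
      holdG zv hpv hlen⟩
    rw [run_iff, hW, ← hLlt]
    exact ⟨hpath, hfin⟩

end TW
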