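import Pool.Agent.RN.LevelE
import Pool.Agent.RN.Body

/-!
# Level lemma, part F: `levelOK` from the three inputs

* `TightIff` (T1): tightness of the annotated body = `BodyTight`;
* `OldC` (T2): transported old costs of tight runs;
* `AllCvx` (T3): convexity for large `M`.
-/

set_option autoImplicit false

namespace TW

open Finset

/-- T1 -/
def TightIff : Prop := ∀ (N : Net) (_ : N.WF) (s : Bool) (s0 top : ℝ)
  (A : List (Ev × ℝ × List ℝ)) (_ : ∀ a ∈ A, a.1.lt.WF N.R N.cap) (ys : List Bool) (σ : St),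
  ys.length = (tBody N s0 top A).length →
    (Tight s (tBody N s0 top A) ys σ ↔ BodyTight N s (lts A) ys σ)

/-- T2 -/
def OldC : Prop := ∀ (N : Net) (_ : N.WF) (s : Bool) (s0 top : ℝ)
  (A : List (Ev × ℝ × List ℝ)) (_ : ∀ a ∈ A, a.1.lt.WF N.R N.cap)
  (_ : Cvx N.R N.cap (A.map (fun a => a.1))), ∃ c : ℝ, ∀ (zv : List Bool) (σ : St),
    Ok N.R N.cap σ → Path N.R N.cap (lts A) zv σ →
    oldc N.step.R (tBody N s0 top A) (bodyBits s N.st (lts A) zv) (sim N s σ) =
      cost N.R (0, 0) (A.map (fun a => a.1)) zv σ + c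

/-- T3 -/
def AllCvx : Prop := ∀ (N : Net) (_ : N.WF) (s0 top : ℝ)
  (A : List (Ev × ℝ × List ℝ)) (_ : ∀ a ∈ A, a.1.lt.WF N.R N.cap)
  (_ : Cvx N.R N.cap (A.map (fun a => a.1))) (_ : ∀ a ∈ A, s0 < a.2.1 ∧ a.2.1 < top)
  (_ : (A.map (fun a => a.2.1)).Pairwise (· < ·)) (hQ hP : List ℝ), ∃ M0 : ℝ, ∀ M, M0 ≤ M →
    Cvx N.step.R N.step.cap ((tAll N s0 top A hQ hP).map (TE.ev M))

theorem tStart_prop (s0 : ℝ) (G : ℕ → ℝ) (l : List Lt) (hs : List ℝ) :
    ∀ e ∈ tStart s0 G l hs, e.bc = (fun s z => z = !s) ∧ e.gc = gT ∧ e.a' = 0 ∧ e.f' = fZ := by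
  induction l generalizing hs with
  | nil => intro e he; simp [tStart] at he
  | cons ℓ l ih =>
    cases hs with
    | nil => intro e he; simp [tStart] at he
    | cons y hs =>
      intro e he
      have h1 : tStart s0 G (ℓ :: l) (y :: hs) = tSt s0 G ℓ y :: tStart s0 G l hs := rfl
      rw [h1] at he
      rcases List.mem_cons.1 he with rfl | he
      · exact ⟨rfl, rfl, rfl, rfl⟩
      · exact ih hs e he

theorem tEnd_prop (top : ℝ) (G : ℕ → ℝ) (l : List Lt) (hs : List ℝ) :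
    ∀ e ∈ tEnd top G l hs, e.bc = (fun s z => z = s) ∧ e.gc = gT ∧ e.a' = 0 ∧ e.f' = fZ := by
  induction l generalizing hs with
  | nil => intro e he; simp [tEnd] at he
  | cons ℓ l ih =>
    cases hs with
    | nil => intro e he; simp [tEnd] at he
    | cons y hs =>
      intro e he
      have h1 : tEnd top G (ℓ :: l) (y :: hs) = tEn top G ℓ y :: tEnd top G l hs := rfl
      rw [h1] at he
      rcases List.mem_cons.1 he with rfl | he
      · exact ⟨rfl, rfl, rfl, rfl⟩
      · exact ih hs e he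

theorem usedL_TE (L : List TE) (zs : List Bool) :
    List.zipWith (fun e z => e.lt.isLeaf && z) L zs = usedL (L.map TE.lt) zs := by
  simp [usedL, List.zipWith_map_left]

/-- **The level lemma.** -/
theorem levelOK_of (h1 : TightIff) (h2 : OldC) (h3 : AllCvx) (N : Net) (hN : N.WF) :
    LevelOK N := by
  intro ev H h s0 top hev hcvx hlen hpair hs0 htop h0t hht
  obtain ⟨hQ, hm, hP, rfl, hQl, hPl, hQ', hP', hB⟩ := hht
  rw [← hev] at hB
  obtain ⟨A, a1, a2, a3, a4⟩ := exists_ann N s0 top ev H hm hB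
  have hA : ∀ a ∈ A, s0 < a.2.1 ∧ a.2.1 < top := by
    intro a ha
    have : a.2.1 ∈ H := by rw [← a2]; exact List.mem_map.2 ⟨a, ha, rfl⟩
    exact ⟨hs0 _ this, htop _ this⟩
  have hp : (A.map (fun a => a.2.1)).Pairwise (· < ·) := by rw [a2]; exact hpair
  have hlts : lts A = N.w := by
    rw [← hev, ← a1, List.map_map]; rfl
  have hwf : ∀ a ∈ A, a.1.lt.WF N.R N.cap := by
    intro a ha
    apply hN.lt
    rw [← hlts]
    exact List.mem_map.2 ⟨a, ha, rfl⟩
  have hcvx' : Cvx N.R N.cap (A.map (fun a => a.1)) := by rw [a1]; exact hcvx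
  obtain ⟨M0, hM0⟩ := h3 N hN s0 top A hwf hcvx' hA hp hQ hP
  set TS := tStart s0 (PY N s0 (nx top A)) (ends N true) hQ with hTS
  set TB := tBody N s0 top A with hTB
  set TT := tEnd top (PY N s0 top) (ends N false) hP with hTT
  have eS : TS.map TE.lt = ends N true := tStart_lt _ _ _ _ hQl
  have eB : TB.map TE.lt = N.w.flatMap (blk N.st) := by
    rw [hTB, tBody_lt, ← hlts]; rfl
  have eT : TT.map TE.lt = ends N false := tEnd_lt _ _ _ _ hPl
  have hLlt : (TS ++ TB ++ TT).map TE.lt = N.step.w := by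
    rw [List.map_append, List.map_append, eS, eB, eT]; rfl
  have hLh : (TS ++ TB ++ TT).map TE.h = hQ ++ hm ++ hP := by
    rw [List.map_append, List.map_append, tStart_h _ _ _ _ hQl, a3, tEnd_h _ _ _ _ hPl]
  have hLwf : ∀ e ∈ TS ++ TB ++ TT, e.lt.WF N.step.R N.step.cap := by
    intro e he
    apply (WF_step N hN).lt
    rw [← hLlt]
    exact List.mem_map.2 ⟨e, he, rfl⟩
  have hfine : ∀ s, AllFine N.step.R N.step.cap s (PY N s0 top) (TS ++ TB ++ TT) := fun s =>
    allFine_all N s s0 top h0t A hA hp a4 hQ hP hQ' hP'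
  have hmin : ∀ s, ∃ m : ℝ, ∀ zs, Path N.step.R N.step.cap ((TS ++ TB ++ TT).map TE.lt) zs 0 →
      (∀ r < N.step.R, fin ((TS ++ TB ++ TT).map TE.lt) zs 0 r = 0) →
      m ≤ obj N.step.R s (TS ++ TB ++ TT) zs 0 ∧
        (obj N.step.R s (TS ++ TB ++ TT) zs 0 = m ↔ Tight s (TS ++ TB ++ TT) zs 0) := fun s =>
    obj_min _ _ s _ _ (hfine s) hLwf
  have hsign : ∀ s, ∃ m c : ℝ, SignOK N ev (fun zs => obj N.step.R s (TS ++ TB ++ TT) zs 0)
      (fun zs => oldc N.step.R (TS ++ TB ++ TT) zs 0) s m c := by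
    intro s
    obtain ⟨m, hm'⟩ := hmin s
    obtain ⟨c, hc⟩ := h2 N hN s s0 top A hwf hcvx'
    have hok0 : Ok N.R N.cap 0 := fun _ _ => ⟨le_rfl, by positivity⟩
    have hTBlen : TB.length = (N.w.flatMap (blk N.st)).length := by
      rw [← eB, List.length_map]
    refine ⟨m, c, sign_assembly N hN s ev hev TS TB TT eS eB eT (tStart_prop _ _ _ _)
      (tEnd_prop _ _ _ _) (fun zv => bodyBits s N.st N.w zv) ?_ ?_ ?_ c ?_ m hm'⟩
    · intro zv hzv
      obtain ⟨q1, q2, q3⟩ := body_up N s N.w hN.lt zv 0 hok0 hzv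
      refine ⟨by rw [eB]; exact q1, ?_, by rw [eB]; exact q3⟩
      rw [h1 N hN s s0 top A hwf _ _ (by rw [bodyBits_length _ _ _ _ hzv.length, hTBlen]), hlts]
      exact q2
    · intro ys hp' ht
      have hl : ys.length = TB.length := by rw [hp'.length, List.length_map]
      rw [h1 N hN s s0 top A hwf _ _ hl, hlts] at ht
      rw [eB] at hp'
      obtain ⟨zv, q1, q2, -⟩ := body_down N s N.w hN.lt ys 0 hp' ht
      exact ⟨zv, q2, q1⟩
    · intro zv hzv
      exact body_used s N.st N.w zv hzv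
    · intro zv hzv
      have := hc zv 0 hok0 (by rw [hlts]; exact hzv)
      rw [hlts, a1] at this
      exact this
  obtain ⟨mm, cm, hm1⟩ := hsign false
  obtain ⟨mp, cp, hp1⟩ := hsign true
  refine ⟨fun zs => topc N.step.R (TS ++ TB ++ TT) zs 0,
    fun zs => oldc N.step.R (TS ++ TB ++ TT) zs 0, M0, mm, mp, cm, cp, ?_, ?_, ?_⟩
  · intro M hM
    refine ⟨(TS ++ TB ++ TT).map (TE.ev M), ?_, hM0 M hM, fun zs _ => cost_ev _ _ _ _ _⟩
    rw [List.map_map, ← hLlt]
    rfl
  · have e1 : (fun zs => obj N.step.R false (TS ++ TB ++ TT) zs 0)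
        = fun zs => topc N.step.R (TS ++ TB ++ TT) zs 0 := by
      funext zs
      simp [obj]
    rw [e1] at hm1
    exact hm1
  · intro evW hW
    have e1 : (fun zs => obj N.step.R true (TS ++ TB ++ TT) zs 0)
        = fun zs => topc N.step.R (TS ++ TB ++ TT) zs 0 - dot (used evW zs) (hQ ++ hm ++ hP) := by
      funext zs
      simp only [obj, if_true]
      rw [usedL_TE, hLlt, hLh, used_eq_usedL, hW]
    rw [e1] at hp1
    exact hp1

end TW
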