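import Pool.Agent.RN.Draw
import Pool.Agent.H5.RN.Inst

set_option autoImplicit false

/-!
# Rote's matching problem (MP_bd0985_co), project RN, module 7b1: good matching -> run

`kk sigma r x` = number of items of the stack `(r, x)` matched to the left, `bit sigma j` = the lower
hub takes the leg of letter `j`.  `IsRun` is the balance equation of a run on the drawing.
-/

namespace Pool.Agent.RN.Draw

open Finset
open scoped Classical

variable (D : Draw)

/-- number of legs taken at the hub `(r, x)`; `low j` = the lower hub takes the leg item `0` -/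
def legs (low : ℕ → Bool) (r x : ℕ) : ℕ :=
  if D.L ∣ x then
    (if r = D.row (x / D.L) then (low (x / D.L)).toNat
     else if D.leaf (x / D.L) = false ∧ r = D.row (x / D.L) + 1 then (!low (x / D.L)).toNat else 0)
  else 0

/-- number of items of the stack `(r, x)` which are matched to the left -/
noncomputable def kk (σ : D.Ag → D.It) (r x : ℕ) : ℕ :=
  ((univ : Finset D.Ag).filter fun a =>
    0 < x ∧ D.locA a = AgLoc.row r (x - 1) ∧ D.locI (σ a) = ItLoc.row r x).card

/-- the lower hub of the letter `j` takes the leg item `0` -/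
noncomputable def bit (σ : D.Ag → D.It) (j : ℕ) : Bool :=
  decide (∃ a, D.locA a = AgLoc.row (D.row j) (D.L * j) ∧ D.locI (σ a) = ItLoc.leg j 0)

theorem card_locA_row {r x : ℕ} (hr : r < D.R) (hx : x < D.L * D.J) :
    ((univ : Finset D.Ag).filter fun a => D.locA a = AgLoc.row r x).card
      = D.m r + D.ex r x := by
  have : ((univ : Finset D.Ag).filter fun a => D.locA a = AgLoc.row r x)
      = (univ : Finset (Fin (D.m r + D.ex r x))).map
        ⟨fun i => (Sum.inl ⟨((⟨r, hr⟩ : Fin D.R), (⟨x, hx⟩ : Fin (D.L * D.J))), i⟩ : D.Ag), by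
          intro i j h
          simpa using h⟩ := by
    ext a
    simp only [mem_filter, mem_univ, true_and, mem_map]
    constructor
    · intro h
      rcases a with ⟨⟨⟨r', hr'⟩, ⟨x', hx'⟩⟩, i⟩ | s
      · simp only [locA, AgLoc.row.injEq] at h
        obtain ⟨h1, h2⟩ := h
        subst h1; subst h2
        exact ⟨i, rfl⟩
      · simp [locA] at h
    · rintro ⟨i, rfl⟩
      rfl
  rw [this, card_map, card_univ, Fintype.card_fin]

theorem card_locI_row {r x : ℕ} (hr : r < D.R) (hx : x < D.L * D.J) :
    ((univ : Finset D.It).filter fun b => D.locI b = ItLoc.row r x).card = D.m r := by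
  have : ((univ : Finset D.It).filter fun b => D.locI b = ItLoc.row r x)
      = (univ : Finset (Fin (D.m r))).map
        ⟨fun i => (Sum.inl ⟨((⟨r, hr⟩ : Fin D.R), (⟨x, hx⟩ : Fin (D.L * D.J))), i⟩ : D.It), by
          intro i j h
          simpa using h⟩ := by
    ext a
    simp only [mem_filter, mem_univ, true_and, mem_map]
    constructor
    · intro h
      rcases a with ⟨⟨⟨r', hr'⟩, ⟨x', hx'⟩⟩, i⟩ | (s | s)
      · simp only [locI, ItLoc.row.injEq] at h
        obtain ⟨h1, h2⟩ := h
        subst h1; subst h2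
        exact ⟨i, rfl⟩
      · simp [locI] at h
      · simp [locI] at h
    · rintro ⟨i, rfl⟩
      rfl
  rw [this, card_map, card_univ, Fintype.card_fin]

theorem locI_row_lt {b : D.It} {r x : ℕ} (h : D.locI b = ItLoc.row r x) :
    r < D.R ∧ x < D.L * D.J := by
  rcases b with ⟨⟨⟨r', hr'⟩, ⟨x', hx'⟩⟩, i⟩ | (s | s)
  · simp only [locI, ItLoc.row.injEq] at h
    exact ⟨h.1 ▸ hr', h.2 ▸ hx'⟩
  · simp [locI] at h
  · simp [locI] at h

theorem locA_row_lt {a : D.Ag} {r x : ℕ} (h : D.locA a = AgLoc.row r x) :
    r < D.R ∧ x < D.L * D.J := by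
  rcases a with ⟨⟨⟨r', hr'⟩, ⟨x', hx'⟩⟩, i⟩ | s
  · simp only [locA, AgLoc.row.injEq] at h
    exact ⟨h.1 ▸ hr', h.2 ▸ hx'⟩
  · simp [locA] at h

theorem exists_legA {j i : ℕ} (hj : j < D.J) (hi : i < D.legA j) :
    ∃ a : D.Ag, D.locA a = AgLoc.leg j i :=
  ⟨Sum.inr ⟨⟨j, hj⟩, ⟨i, hi⟩⟩, rfl⟩

theorem exists_legI {j i : ℕ} (hj : j < D.J) (hi : i < D.legI j) :
    ∃ b : D.It, D.locI b = ItLoc.leg j i :=
  ⟨Sum.inr (Sum.inl ⟨⟨j, hj⟩, ⟨i, hi⟩⟩), rfl⟩

theorem legA_unique {a a' : D.Ag} {j i : ℕ} (h : D.locA a = AgLoc.leg j i)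
    (h' : D.locA a' = AgLoc.leg j i) : a = a' := by
  rcases a with s | ⟨⟨j1, hj1⟩, ⟨i1, hi1⟩⟩
  · simp [locA] at h
  rcases a' with s | ⟨⟨j2, hj2⟩, ⟨i2, hi2⟩⟩
  · simp [locA] at h'
  simp only [locA, AgLoc.leg.injEq] at h h'
  obtain ⟨rfl, rfl⟩ := h
  obtain ⟨rfl, rfl⟩ := h'
  rfl

theorem legI_unique {b b' : D.It} {j i : ℕ} (h : D.locI b = ItLoc.leg j i)
    (h' : D.locI b' = ItLoc.leg j i) : b = b' := by
  rcases b with s | (⟨⟨j1, hj1⟩, ⟨i1, hi1⟩⟩ | s)
  · simp [locI] at h
  · rcases b' with s | (⟨⟨j2, hj2⟩, ⟨i2, hi2⟩⟩ | s)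
    · simp [locI] at h'
    · simp only [locI, ItLoc.leg.injEq] at h h'
      obtain ⟨rfl, rfl⟩ := h
      obtain ⟨rfl, rfl⟩ := h'
      rfl
    · simp [locI] at h'
  · simp [locI] at h

theorem locI_leg_lt {b : D.It} {j i : ℕ} (h : D.locI b = ItLoc.leg j i) :
    j < D.J ∧ i < D.legI j := by
  rcases b with s | (⟨⟨j1, hj1⟩, ⟨i1, hi1⟩⟩ | s)
  · simp [locI] at h
  · simp only [locI, ItLoc.leg.injEq] at h
    obtain ⟨rfl, rfl⟩ := h
    exact ⟨hj1, hi1⟩
  · simp [locI] at h

theorem locA_leg_lt {a : D.Ag} {j i : ℕ} (h : D.locA a = AgLoc.leg j i) :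
    j < D.J ∧ i < D.legA j := by
  rcases a with s | ⟨⟨j1, hj1⟩, ⟨i1, hi1⟩⟩
  · simp [locA] at h
  · simp only [locA, AgLoc.leg.injEq] at h
    obtain ⟨rfl, rfl⟩ := h
    exact ⟨hj1, hi1⟩

theorem locI_real_leaf {b : D.It} {j : ℕ} (h : D.locI b = ItLoc.real j) :
    j < D.J ∧ D.leaf j = true := by
  rcases b with s | (s | ⟨⟨j1, hj1⟩, hl⟩)
  · simp [locI] at h
  · simp [locI] at h
  · simp only [locI, ItLoc.real.injEq] at h
    subst h
    exact ⟨hj1, hl⟩

theorem realI_unique {b b' : D.It} {j : ℕ} (h : D.locI b = ItLoc.real j)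
    (h' : D.locI b' = ItLoc.real j) : b = b' := by
  rcases b with s | (s | ⟨⟨j1, hj1⟩, hl⟩)
  · simp [locI] at h
  · simp [locI] at h
  rcases b' with s | (s | ⟨⟨j2, hj2⟩, hl'⟩)
  · simp [locI] at h'
  · simp [locI] at h'
  simp only [locI, ItLoc.real.injEq] at h h'
  subst h
  subst h'
  rfl

section
variable {D} {σ : D.Ag → D.It} (hinj : Function.Injective σ)
  (hadj : ∀ a, D.Adj a (σ a))
  (hall : ∀ b : D.It, (∀ j, D.locI b ≠ ItLoc.real j) → ∃ a, σ a = b)

include hinj hadj hall in
/-- balance at an item stack -/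
theorem item_balance {r x : ℕ} (hr : r < D.R) (hx : x < D.L * D.J) :
    ((univ : Finset D.Ag).filter fun a =>
        D.locA a = AgLoc.row r x ∧ D.locI (σ a) = ItLoc.row r x).card + D.kk σ r x = D.m r := by
  have h1 : ((univ : Finset D.Ag).filter fun a => D.locI (σ a) = ItLoc.row r x).card = D.m r := by
    rw [← D.card_locI_row hr hx]
    refine card_bij (fun a _ => σ a) ?_ ?_ ?_
    · intro a ha; simpa using ha
    · intro a _ b _ h; exact hinj h
    · intro b hb
      simp only [mem_filter, mem_univ, true_and] at hb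
      obtain ⟨a, ha⟩ := hall b (by intro j; rw [hb]; simp)
      exact ⟨a, by simp [ha, hb], ha⟩
  rw [← h1, kk, ← card_union_of_disjoint]
  · congr 1
    ext a
    simp only [mem_union, mem_filter, mem_univ, true_and]
    constructor
    · rintro (⟨_, h⟩ | ⟨_, _, h⟩) <;> exact h
    · intro h
      have := hadj a
      unfold Adj at this
      rw [h] at this
      rcases ha : D.locA a with ⟨r', x'⟩ | ⟨j, i⟩
      · rw [ha] at this
        obtain ⟨e1, e2 | e2⟩ := this
        · left; exact ⟨by rw [e1, e2], h⟩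
        · right
          refine ⟨by omega, ?_, h⟩
          rw [e1, e2]; simp
      · rw [ha] at this
        exact absurd this (by simp [adj])
  · rw [disjoint_left]
    intro a ha ha'
    simp only [mem_filter, mem_univ, true_and] at ha ha'
    rw [ha.1] at ha'
    have := ha'.2.1
    simp only [AgLoc.row.injEq, true_and] at this
    omega

include hadj in
/-- balance at an agent stack -/
theorem agent_balance {r x : ℕ} (hr : r < D.R) (hx : x < D.L * D.J) :
    ((univ : Finset D.Ag).filter fun a =>
        D.locA a = AgLoc.row r x ∧ D.locI (σ a) = ItLoc.row r x).card + D.kk σ r (x + 1)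
      + ((univ : Finset D.Ag).filter fun a =>
        D.locA a = AgLoc.row r x ∧ ∃ j i, D.locI (σ a) = ItLoc.leg j i).card
      = D.m r + D.ex r x := by
  rw [← D.card_locA_row hr hx, kk, ← card_union_of_disjoint, ← card_union_of_disjoint]
  · congr 1
    ext a
    simp only [mem_union, mem_filter, mem_univ, true_and, Nat.add_sub_cancel]
    constructor
    · rintro ((⟨h, _⟩ | ⟨_, h, _⟩) | ⟨h, _⟩) <;> exact h
    · intro h
      have := hadj a
      unfold Adj at this
      rw [h] at this
      rcases ha : D.locI (σ a) with ⟨r', x'⟩ | ⟨j, i⟩ | j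
      · rw [ha] at this
        obtain ⟨e1, e2 | e2⟩ := this
        · left; left; exact ⟨h, by rw [e1, e2]⟩
        · left; right
          exact ⟨by omega, h, by rw [e1, e2]⟩
      · right; exact ⟨h, j, i, rfl⟩
      · rw [ha] at this
        exact absurd this (by simp [adj])
  · rw [disjoint_left]
    intro a ha ha'
    simp only [mem_union, mem_filter, mem_univ, true_and] at ha ha'
    obtain ⟨_, j, i, h⟩ := ha'
    rcases ha with ⟨_, h'⟩ | ⟨_, _, h'⟩ <;> rw [h] at h' <;> simp at h'
  · rw [disjoint_left]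
    intro a ha ha'
    simp only [mem_filter, mem_univ, true_and] at ha ha'
    rw [ha.2] at ha'
    have := ha'.2.2
    simp at this

include hadj in
/-- the two (or three) choices of a leg agent -/
theorem leg_cases {a : D.Ag} {j i : ℕ} (ha : D.locA a = AgLoc.leg j i) :
    D.locI (σ a) = ItLoc.leg j i ∨ D.locI (σ a) = ItLoc.leg j (i + 1) ∨
      D.locI (σ a) = ItLoc.real j := by
  have := hadj a
  unfold Adj at this
  rw [ha] at this
  rcases h : D.locI (σ a) with ⟨r', x'⟩ | ⟨j', i'⟩ | j'
  · rw [h] at this; exact absurd this (by simp [adj])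
  · rw [h] at this
    obtain ⟨rfl, rfl | rfl⟩ := this <;> simp
  · rw [h] at this
    simp only [adj] at this
    subst this; simp

include hadj in
/-- who takes a leg item -/
theorem item_cases {a : D.Ag} {j i : ℕ} (ha : D.locI (σ a) = ItLoc.leg j i) :
    (D.locA a = AgLoc.row (D.row j) (D.L * j) ∧ i = 0) ∨
    (D.locA a = AgLoc.row (D.row j + 1) (D.L * j) ∧ i = 3) ∨
    (D.locA a = AgLoc.leg j i) ∨ (0 < i ∧ D.locA a = AgLoc.leg j (i - 1)) := by
  have := hadj a
  unfold Adj at this
  rw [ha] at this
  rcases h : D.locA a with ⟨r', x'⟩ | ⟨j', i'⟩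
  · rw [h] at this
    obtain ⟨rfl, ⟨rfl, rfl⟩ | ⟨rfl, rfl⟩⟩ := this <;> simp
  · rw [h] at this
    obtain ⟨rfl, rfl | rfl⟩ := this <;> simp

end

end Pool.Agent.RN.Draw

namespace Pool.Agent.RN.Draw

open Finset
open scoped Classical

section
variable {D : Draw} {σ : D.Ag → D.It} (hinj : Function.Injective σ)
  (hadj : ∀ a, D.Adj a (σ a))
  (hall : ∀ b : D.It, (∀ j, D.locI b ≠ ItLoc.real j) → ∃ a, σ a = b)

theorem bit_eq_true_iff {σ : D.Ag → D.It} {j : ℕ} : D.bit σ j = true ↔
    ∃ a, D.locA a = AgLoc.row (D.row j) (D.L * j) ∧ D.locI (σ a) = ItLoc.leg j 0 := by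
  simp [bit]

theorem bit_eq_false_iff {σ : D.Ag → D.It} {j : ℕ} : D.bit σ j = false ↔
    ¬ ∃ a, D.locA a = AgLoc.row (D.row j) (D.L * j) ∧ D.locI (σ a) = ItLoc.leg j 0 := by
  simp [bit]

include hinj in
theorem agent_unique {a a' : D.Ag} {j i : ℕ} (h : D.locI (σ a) = ItLoc.leg j i)
    (h' : D.locI (σ a') = ItLoc.leg j i) : a = a' :=
  hinj (D.legI_unique h h')

include hinj hadj in
/-- lower hub takes the leg: the leg agents go up -/
theorem chain_true {j : ℕ} (hl : D.leaf j = false) (hb : D.bit σ j = true) :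
    ∀ i, ∀ a, D.locA a = AgLoc.leg j i → D.locI (σ a) = ItLoc.leg j (i + 1) := by
  obtain ⟨a0, h0, h0'⟩ := bit_eq_true_iff.1 hb
  intro i
  induction i with
  | zero =>
    intro a ha
    rcases leg_cases hadj ha with h | h | h
    · have := agent_unique hinj h h0'
      rw [this, h0] at ha
      simp at ha
    · exact h
    · have := (D.locI_real_leaf h).2
      simp [hl] at this
  | succ i ih =>
    intro a ha
    rcases leg_cases hadj ha with h | h | h
    · have hlt := D.locA_leg_lt ha
      obtain ⟨a', ha'⟩ := D.exists_legA hlt.1 (lt_trans (Nat.lt_succ_self i) hlt.2)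
      have := agent_unique hinj h (ih a' ha')
      rw [this, ha'] at ha
      simp at ha
    · exact h
    · have := (D.locI_real_leaf h).2
      simp [hl] at this

include hadj hall in
/-- lower hub does not take the leg: the leg agents go down -/
theorem chain_false {j : ℕ} (hb : D.bit σ j = false) :
    ∀ i, ∀ a, D.locA a = AgLoc.leg j i → i < 3 → D.locI (σ a) = ItLoc.leg j i := by
  have hn := bit_eq_false_iff.1 hb
  intro i
  induction i with
  | zero =>
    intro a ha _
    have hlt := D.locA_leg_lt ha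
    have hI : 0 < D.legI j := by unfold legI; split <;> omega
    obtain ⟨b, hb'⟩ := D.exists_legI hlt.1 hI
    obtain ⟨a', rfl⟩ := hall b (by intro j'; rw [hb']; simp)
    rcases item_cases hadj hb' with h | h | h | h
    · exact absurd ⟨a', h.1, hb'⟩ hn
    · simp at h
    · rw [D.legA_unique ha h]; exact hb'
    · simp at h
  | succ i ih =>
    intro a ha hi
    have hlt := D.locA_leg_lt ha
    have hA : D.legA j = 3 ∧ D.legI j = 4 := by
      have := hlt.2
      unfold legA legI at *
      split at this
      · omega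
      · simp_all
    obtain ⟨b, hb'⟩ := D.exists_legI hlt.1 (i := i + 1) (by rw [hA.2]; omega)
    obtain ⟨a', rfl⟩ := hall b (by intro j'; rw [hb']; simp)
    rcases item_cases hadj hb' with h | h | h | h
    · simp at h
    · omega
    · rw [D.legA_unique ha h]; exact hb'
    · have h2 := h.2
      simp only [Nat.add_sub_cancel] at h2
      have := ih a' h2 (by omega)
      rw [hb'] at this
      simp at this

include hinj hadj hall in
theorem legs_card {r x : ℕ} (hr : r < D.R) (hx : x < D.L * D.J) :
    ((univ : Finset D.Ag).filter fun a =>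
        D.locA a = AgLoc.row r x ∧ ∃ j i, D.locI (σ a) = ItLoc.leg j i).card
      = D.legs (D.bit σ) r x := by
  have hL : 0 < D.L := by have := D.hL; omega
  have hadj' : ∀ a j i, D.locA a = AgLoc.row r x → D.locI (σ a) = ItLoc.leg j i →
      x = D.L * j ∧ ((r = D.row j ∧ i = 0) ∨ (r = D.row j + 1 ∧ i = 3)) := by
    intro a j i h h'
    have := hadj a
    unfold Adj at this
    rw [h, h'] at this
    exact this
  by_cases hd : D.L ∣ x
  · obtain ⟨j, rfl⟩ := hd
    have hj : j < D.J := Nat.lt_of_mul_lt_mul_left hx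
    have hdiv : D.L * j / D.L = j := Nat.mul_div_cancel_left j hL
    simp only [legs, dvd_mul_right, if_true, hdiv]
    by_cases h1 : r = D.row j
    · rw [if_pos h1]
      subst h1
      have hset : ((univ : Finset D.Ag).filter fun a =>
          D.locA a = AgLoc.row (D.row j) (D.L * j) ∧ ∃ j i, D.locI (σ a) = ItLoc.leg j i)
          = ((univ : Finset D.Ag).filter fun a =>
          D.locA a = AgLoc.row (D.row j) (D.L * j) ∧ D.locI (σ a) = ItLoc.leg j 0) := by
        ext a
        simp only [mem_filter, mem_univ, true_and]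
        constructor
        · rintro ⟨h, j', i, h'⟩
          obtain ⟨e1, ⟨e2, e3⟩ | ⟨e2, e3⟩⟩ := hadj' a j' i h h'
          · have : j = j' := Nat.eq_of_mul_eq_mul_left hL e1
            subst this; subst e3; exact ⟨h, h'⟩
          · have : j = j' := Nat.eq_of_mul_eq_mul_left hL e1
            subst this; omega
        · rintro ⟨h, h'⟩; exact ⟨h, j, 0, h'⟩
      rw [hset]
      cases hb : D.bit σ j
      · rw [Bool.toNat_false, card_eq_zero, filter_eq_empty_iff]
        intro a _ h
        exact bit_eq_false_iff.1 hb ⟨a, h⟩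
      · obtain ⟨a0, h0, h0'⟩ := bit_eq_true_iff.1 hb
        rw [Bool.toNat_true, card_eq_one]
        refine ⟨a0, ?_⟩
        ext a
        simp only [mem_filter, mem_univ, true_and, mem_singleton]
        constructor
        · rintro ⟨_, h⟩; exact agent_unique hinj h h0'
        · rintro rfl; exact ⟨h0, h0'⟩
    · rw [if_neg h1]
      by_cases h2 : D.leaf j = false ∧ r = D.row j + 1
      · rw [if_pos h2]
        obtain ⟨hl, rfl⟩ := h2
        have hA : D.legA j = 3 ∧ D.legI j = 4 := by unfold legA legI; simp [hl]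
        have hset : ((univ : Finset D.Ag).filter fun a =>
            D.locA a = AgLoc.row (D.row j + 1) (D.L * j) ∧ ∃ j i, D.locI (σ a) = ItLoc.leg j i)
            = ((univ : Finset D.Ag).filter fun a =>
            D.locA a = AgLoc.row (D.row j + 1) (D.L * j) ∧ D.locI (σ a) = ItLoc.leg j 3) := by
          ext a
          simp only [mem_filter, mem_univ, true_and]
          constructor
          · rintro ⟨h, j', i, h'⟩
            obtain ⟨e1, ⟨e2, e3⟩ | ⟨e2, e3⟩⟩ := hadj' a j' i h h'
            · have : j = j' := Nat.eq_of_mul_eq_mul_left hL e1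
              subst this; omega
            · have : j = j' := Nat.eq_of_mul_eq_mul_left hL e1
              subst this; subst e3; exact ⟨h, h'⟩
          · rintro ⟨h, h'⟩; exact ⟨h, j, 3, h'⟩
        rw [hset]
        obtain ⟨a2, ha2⟩ := D.exists_legA hj (i := 2) (by rw [hA.1]; omega)
        cases hb : D.bit σ j
        · simp only [Bool.not_false, Bool.toNat_true]
          obtain ⟨b, hb'⟩ := D.exists_legI hj (i := 3) (by rw [hA.2]; omega)
          obtain ⟨a0, rfl⟩ := hall b (by intro j'; rw [hb']; simp)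
          have h0 : D.locA a0 = AgLoc.row (D.row j + 1) (D.L * j) := by
            rcases item_cases hadj hb' with h | h | h | h
            · simp at h
            · exact h.1
            · have := (D.locA_leg_lt h).2; omega
            · have h2 := h.2
              have := chain_false hadj hall hb 2 a0 h2 (by omega)
              rw [hb'] at this
              simp at this
          rw [card_eq_one]
          refine ⟨a0, ?_⟩
          ext a
          simp only [mem_filter, mem_univ, true_and, mem_singleton]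
          constructor
          · rintro ⟨_, h⟩; exact agent_unique hinj h hb'
          · rintro rfl; exact ⟨h0, hb'⟩
        · simp only [Bool.not_true, Bool.toNat_false]
          rw [card_eq_zero, filter_eq_empty_iff]
          intro a _ h
          have := agent_unique hinj h.2 (chain_true hinj hadj hl hb 2 a2 ha2)
          subst this
          rw [h.1] at ha2
          simp at ha2
      · rw [if_neg h2, card_eq_zero, filter_eq_empty_iff]
        rintro a _ ⟨h, j', i, h'⟩
        obtain ⟨e1, ⟨e2, e3⟩ | ⟨e2, e3⟩⟩ := hadj' a j' i h h'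
        · have : j = j' := Nat.eq_of_mul_eq_mul_left hL e1
          subst this; exact h1 e2
        · have : j = j' := Nat.eq_of_mul_eq_mul_left hL e1
          subst this; subst e3
          have hlt := (D.locI_leg_lt h').2
          unfold legI at hlt
          split at hlt
          · omega
          · rename_i hl
            exact h2 ⟨by simpa using hl, e2⟩
  · simp only [legs, if_neg hd]
    rw [card_eq_zero, filter_eq_empty_iff]
    rintro a _ ⟨h, j', i, h'⟩
    exact hd ⟨j', (hadj' a j' i h h').1⟩

include hinj hadj hall in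
/-- the balance equation of a good matching -/
theorem kk_step {r x : ℕ} (hr : r < D.R) (hx : x < D.L * D.J) :
    D.kk σ r (x + 1) + D.legs (D.bit σ) r x = D.kk σ r x + D.ex r x := by
  have h1 := item_balance hinj hadj hall hr hx
  have h2 := agent_balance hadj hr hx
  rw [legs_card hinj hadj hall hr hx] at h2
  omega

include hinj hadj hall in
theorem kk_le {r x : ℕ} (hr : r < D.R) (hx : x < D.L * D.J) : D.kk σ r x ≤ D.m r := by
  have h1 := item_balance hinj hadj hall hr hx
  omega

theorem kk_zero (σ : D.Ag → D.It) (r : ℕ) : D.kk σ r 0 = 0 := by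
  unfold kk
  rw [card_eq_zero, filter_eq_empty_iff]
  intro a _ h
  exact absurd h.1 (lt_irrefl 0)

theorem kk_out (σ : D.Ag → D.It) (r x : ℕ) (hx : D.L * D.J ≤ x) : D.kk σ r x = 0 := by
  unfold kk
  rw [card_eq_zero, filter_eq_empty_iff]
  intro a _ h
  have := (D.locI_row_lt h.2.2).2
  omega

theorem kk_out' (σ : D.Ag → D.It) (r x : ℕ) (hr : D.R ≤ r) : D.kk σ r x = 0 := by
  unfold kk
  rw [card_eq_zero, filter_eq_empty_iff]
  intro a _ h
  have := (D.locI_row_lt h.2.2).1
  omega

include hinj hadj hall in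
/-- the real item of a leaf is used iff the hub takes the leg -/
theorem real_used_iff {j : ℕ} (hj : j < D.J) (hl : D.leaf j = true) :
    (∃ a, D.locI (σ a) = ItLoc.real j) ↔ D.bit σ j = true := by
  obtain ⟨a1, ha1⟩ := D.exists_legA hj (i := 0) (by unfold legA; split <;> omega)
  constructor
  · rintro ⟨a, ha⟩
    by_contra hb
    have hb : D.bit σ j = false := by simpa using hb
    have h1 := chain_false hadj hall hb 0 a1 ha1 (by omega)
    have := hadj a
    unfold Adj at this
    rw [ha] at this
    rcases h : D.locA a with ⟨r', x'⟩ | ⟨j', i'⟩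
    · rw [h] at this; exact absurd this (by simp [adj])
    · rw [h] at this
      simp only [adj] at this
      subst this
      have hlt := (D.locA_leg_lt h).2
      unfold legA at hlt
      rw [if_pos hl] at hlt
      have : i' = 0 := by omega
      subst this
      have := D.legA_unique h ha1
      subst this
      rw [ha] at h1
      simp at h1
  · intro hb
    obtain ⟨a0, h0, h0'⟩ := bit_eq_true_iff.1 hb
    rcases leg_cases hadj ha1 with h | h | h
    · have := agent_unique hinj h h0'
      rw [this, h0] at ha1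
      simp at ha1
    · have hlt := (D.locI_leg_lt h).2
      unfold legI at hlt
      rw [if_pos hl] at hlt
      omega
    · exact ⟨a1, h⟩

include hinj hadj hall in
/-- leg agent of a leaf -/
theorem leaf_agent {j : ℕ} (hl : D.leaf j = true) {a : D.Ag} (ha : D.locA a = AgLoc.leg j 0) :
    D.locI (σ a) = if D.bit σ j = true then ItLoc.real j else ItLoc.leg j 0 := by
  cases hb : D.bit σ j
  · simpa using chain_false hadj hall hb 0 a ha (by omega)
  · simp only [if_true]
    obtain ⟨a0, h0, h0'⟩ := bit_eq_true_iff.1 hb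
    rcases leg_cases hadj ha with h | h | h
    · have := agent_unique hinj h h0'
      rw [this, h0] at ha
      simp at ha
    · have hlt := (D.locI_leg_lt h).2
      unfold legI at hlt
      rw [if_pos hl] at hlt
      omega
    · exact h

end

end Pool.Agent.RN.Draw

namespace Pool.Agent.RN.Draw

open Finset

/-- A run on the drawing: `K r x` = number of items of the stack `(r, x)` matched to the left,
`low j` = the lower hub takes the leg of letter `j`. -/
structure IsRun (D : Draw) (low : ℕ → Bool) (K : ℕ → ℕ → ℕ) : Prop where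
  zero : ∀ r, K r 0 = 0
  step : ∀ r < D.R, ∀ x < D.L * D.J, K r (x + 1) + D.legs low r x = K r x + D.ex r x
  le : ∀ r < D.R, ∀ x, K r x ≤ D.m r
  last : ∀ r, K r (D.L * D.J) = 0

/-- a good matching gives a run -/
theorem isRun_of_good {D : Draw} {σ : D.Ag ↪ D.It} (h : H5RN.Good D.Adj D.T σ) :
    D.IsRun (D.bit σ) (D.kk σ) := by
  have hall : ∀ b : D.It, (∀ j, D.locI b ≠ ItLoc.real j) → ∃ a, σ a = b := by
    intro b hb
    refine h.2 b ?_
    rintro ⟨j, rfl⟩
    exact hb j.1 rfl
  refine ⟨kk_zero σ, fun r hr x hx => kk_step σ.injective h.1 hall hr hx, ?_,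
    fun r => kk_out σ r _ le_rfl⟩
  intro r hr x
  rcases lt_or_ge x (D.L * D.J) with hx | hx
  · exact kk_le σ.injective h.1 hall hr hx
  · rw [kk_out σ r x hx]; exact Nat.zero_le _

/-- the used real items of a good matching -/
theorem real_iff_of_good {D : Draw} {σ : D.Ag ↪ D.It} (h : H5RN.Good D.Adj D.T σ)
    (j : {j : Fin D.J // D.leaf j = true}) :
    (∃ a, σ a = Sum.inr (Sum.inr j)) ↔ D.bit σ j.1 = true := by
  have hall : ∀ b : D.It, (∀ j, D.locI b ≠ ItLoc.real j) → ∃ a, σ a = b := by
    intro b hb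
    refine h.2 b ?_
    rintro ⟨j, rfl⟩
    exact hb j.1 rfl
  rw [← real_used_iff σ.injective h.1 hall j.1.2 j.2]
  constructor
  · rintro ⟨a, ha⟩; exact ⟨a, by rw [ha]; rfl⟩
  · rintro ⟨a, ha⟩
    exact ⟨a, D.realI_unique ha rfl⟩

/-- the leg agent of a leaf -/
theorem leaf_agent_of_good {D : Draw} {σ : D.Ag ↪ D.It} (h : H5RN.Good D.Adj D.T σ) {j : ℕ}
    (hl : D.leaf j = true) {a : D.Ag} (ha : D.locA a = AgLoc.leg j 0) :
    D.locI (σ a) = if D.bit σ j = true then ItLoc.real j else ItLoc.leg j 0 := by
  refine leaf_agent σ.injective h.1 ?_ hl ha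
  intro b hb
  refine h.2 b ?_
  rintro ⟨j, rfl⟩
  exact hb j.1 rfl

/-- the leg agents of a bridge -/
theorem bridge_agent_of_good {D : Draw} {σ : D.Ag ↪ D.It} (h : H5RN.Good D.Adj D.T σ) {j i : ℕ}
    (hl : D.leaf j = false) {a : D.Ag} (ha : D.locA a = AgLoc.leg j i) :
    D.locI (σ a) = if D.bit σ j = true then ItLoc.leg j (i + 1) else ItLoc.leg j i := by
  have hlt := D.locA_leg_lt ha
  have hi : i < 3 := by
    have h3 : D.legA j ≤ 3 := by unfold legA; split <;> omega
    omega
  cases hb : D.bit σ j
  · simp only [Bool.false_eq_true, if_false]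
    refine chain_false h.1 ?_ hb i a ha hi
    intro b hb
    refine h.2 b ?_
    rintro ⟨j, rfl⟩
    exact hb j.1 rfl
  · simp only [if_true]
    exact chain_true σ.injective h.1 hl hb i a ha

theorem legs_of_not_dvd (D : Draw) (low : ℕ → Bool) {r x : ℕ} (h : ¬ D.L ∣ x) :
    D.legs low r x = 0 := if_neg h

theorem ex_of_not_dvd (D : Draw) {r x : ℕ} (h : ¬ D.L ∣ x) : D.ex r x = 0 := if_neg h

theorem L_pos (D : Draw) : 0 < D.L := lt_of_lt_of_le (by norm_num) D.hL

theorem legs_letter (D : Draw) (low : ℕ → Bool) (r j : ℕ) : D.legs low r (D.L * j) =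
    if r = D.row j then (low j).toNat
    else if D.leaf j = false ∧ r = D.row j + 1 then (!low j).toNat else 0 := by
  simp only [legs, dvd_mul_right, if_true, Nat.mul_div_cancel_left j D.L_pos]

theorem ex_letter (D : Draw) (r j : ℕ) : D.ex r (D.L * j) =
    if r = D.row j then D.c1 j
    else if D.leaf j = false ∧ r = D.row j + 1 then D.c2 j else 0 := by
  simp only [ex, dvd_mul_right, if_true, Nat.mul_div_cancel_left j D.L_pos]

/-- `K r` is constant between two hubs -/
theorem IsRun.const {D : Draw} {low : ℕ → Bool} {K : ℕ → ℕ → ℕ} (h : D.IsRun low K) {r : ℕ}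
    (hr : r < D.R) {j : ℕ} (hj : j < D.J) {x : ℕ} (h1 : D.L * j < x) (h2 : x ≤ D.L * (j + 1)) :
    K r x = K r (D.L * j + 1) := by
  obtain ⟨i, rfl⟩ : ∃ i, x = D.L * j + 1 + i := ⟨x - (D.L * j + 1), by omega⟩
  induction i with
  | zero => rfl
  | succ i ih =>
    rw [← ih (by omega) (by omega)]
    have hlt : D.L * j + 1 + i < D.L * D.J := by
      have : D.L * (j + 1) ≤ D.L * D.J := Nat.mul_le_mul_left _ hj
      omega
    have hd : ¬ D.L ∣ D.L * j + 1 + i := by
      have e : D.L * (j + 1) = D.L * j + D.L := by ring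
      intro hd
      rw [show D.L * j + 1 + i = D.L * j + (1 + i) by ring, Nat.dvd_add_right (dvd_mul_right _ _)]
        at hd
      have := Nat.le_of_dvd (by omega) hd
      omega
    have := h.step r hr _ hlt
    rw [D.legs_of_not_dvd low hd, D.ex_of_not_dvd hd] at this
    rw [show D.L * j + 1 + (i + 1) = D.L * j + 1 + i + 1 by ring]
    omega

/-- the letter equation: `K r (L * j)` is the state before letter `j`, `K r (L * (j + 1))` the
state after it -/
theorem IsRun.letter {D : Draw} {low : ℕ → Bool} {K : ℕ → ℕ → ℕ} (h : D.IsRun low K) {r : ℕ}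
    (hr : r < D.R) {j : ℕ} (hj : j < D.J) :
    K r (D.L * (j + 1)) +
      (if r = D.row j then (low j).toNat
        else if D.leaf j = false ∧ r = D.row j + 1 then (!low j).toNat else 0)
      = K r (D.L * j) + (if r = D.row j then D.c1 j
        else if D.leaf j = false ∧ r = D.row j + 1 then D.c2 j else 0) := by
  have hL := D.L_pos
  have e : D.L * (j + 1) = D.L * j + D.L := by ring
  have h1 := h.step r hr (D.L * j) (Nat.mul_lt_mul_of_pos_left hj hL)
  rw [D.legs_letter, D.ex_letter] at h1
  rw [h.const hr hj (by omega) le_rfl]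
  exact h1

/-- runs on the drawing from the states between the letters: `S r n` = state of row `r` after `n`
letters -/
theorem isRun_of_letters (D : Draw) (low : ℕ → Bool) (S : ℕ → ℕ → ℕ) (h0 : ∀ r, S r 0 = 0)
    (hstep : ∀ r < D.R, ∀ j < D.J, S r (j + 1) +
      (if r = D.row j then (low j).toNat
        else if D.leaf j = false ∧ r = D.row j + 1 then (!low j).toNat else 0)
      = S r j + (if r = D.row j then D.c1 j
        else if D.leaf j = false ∧ r = D.row j + 1 then D.c2 j else 0))
    (hle : ∀ r < D.R, ∀ n, S r n ≤ D.m r) (hlast : ∀ r, S r D.J = 0) :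
    D.IsRun low (fun r x => S r ((x + (D.L - 1)) / D.L)) := by
  have hL := D.L_pos
  have key : ∀ j i, 1 ≤ i → i ≤ D.L → (D.L * j + i + (D.L - 1)) / D.L = j + 1 := by
    intro j i h1 h2
    rw [show D.L * j + i + (D.L - 1) = (i - 1) + D.L * (j + 1) by
      have : D.L * (j + 1) = D.L * j + D.L := by ring
      omega]
    rw [Nat.add_mul_div_left _ _ hL, Nat.div_eq_of_lt (by omega)]
    omega
  have key0 : ∀ j, (D.L * j + (D.L - 1)) / D.L = j := by
    intro j
    rw [show D.L * j + (D.L - 1) = (D.L - 1) + D.L * j by ring, Nat.add_mul_div_left _ _ hL,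
      Nat.div_eq_of_lt (by omega)]
    omega
  refine ⟨?_, ?_, fun r hr x => hle r hr _, ?_⟩
  · intro r
    have := key0 0
    simp only [Nat.mul_zero] at this
    simp only [this, h0]
  · intro r hr x hx
    set j := x / D.L with hjdef
    set i := x % D.L with hidef
    have hx' : x = D.L * j + i := (Nat.div_add_mod x D.L).symm
    have hi : i < D.L := Nat.mod_lt _ hL
    have hj : j < D.J := by
      rw [hjdef]
      exact Nat.div_lt_of_lt_mul hx
    rcases Nat.eq_zero_or_pos i with h | h
    · rw [h, Nat.add_zero] at hx'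
      rw [hx', D.legs_letter, D.ex_letter]
      have e1 := key j 1 le_rfl (by omega)
      simp only [e1, key0 j]
      exact hstep r hr j hj
    · have hd : ¬ D.L ∣ x := by
        intro hd
        have := Nat.mod_eq_zero_of_dvd hd
        omega
      rw [D.legs_of_not_dvd low hd, D.ex_of_not_dvd hd]
      have e1 := key j (i + 1) (by omega) (by omega)
      have e2 := key j i h hi.le
      have e3 : x + 1 + (D.L - 1) = D.L * j + (i + 1) + (D.L - 1) := by omega
      have e4 : x + (D.L - 1) = D.L * j + i + (D.L - 1) := by omega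
      simp only [e3, e4, e1, e2]
  · intro r
    simp only [key0 D.J]
    exact hlast r

end Pool.Agent.RN.Draw
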