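import Mathlib

set_option autoImplicit false

/-!
# Rote's matching problem (MP_bd0985_co), project RN: the final perturbation

`RN.exists_perturb`: points of `A` and `B` can be moved slightly so that for finitely many translations all
matchings have different costs and no new matching becomes optimal.
-/

open Filter Topology

namespace Pool.Agent.RN

/-- the plane -/
abbrev E2 := EuclideanSpace ℝ (Fin 2)

/-- least squares cost of a partial matching -/
noncomputable def cost {ι κ : Type*} [Fintype ι] (a : ι → E2) (b : κ → E2) (t : E2) (π : ι ↪ κ) : ℝ :=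
  ∑ i, ‖a i - (b (π i) + t)‖ ^ 2

/-- base `N` digits are determined by the number -/
theorem digits_inj {m N : ℕ} {f g : Fin m → ℕ} (hf : ∀ i, f i < N) (hg : ∀ i, g i < N)
    (h : ∑ i, f i * N ^ (i : ℕ) = ∑ i, g i * N ^ (i : ℕ)) : f = g := by
  induction m with
  | zero => exact Subsingleton.elim _ _
  | succ m ih =>
    have hN : 0 < N := lt_of_le_of_lt (Nat.zero_le _) (hf 0)
    rw [Fin.sum_univ_succ, Fin.sum_univ_succ] at h
    have e1 : ∑ i : Fin m, f i.succ * N ^ ((i.succ : Fin (m+1)) : ℕ)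
        = N * ∑ i : Fin m, f i.succ * N ^ (i : ℕ) := by
      rw [Finset.mul_sum]; refine Finset.sum_congr rfl fun i _ => ?_
      rw [Fin.val_succ, pow_succ]; ring
    have e2 : ∑ i : Fin m, g i.succ * N ^ ((i.succ : Fin (m+1)) : ℕ)
        = N * ∑ i : Fin m, g i.succ * N ^ (i : ℕ) := by
      rw [Finset.mul_sum]; refine Finset.sum_congr rfl fun i _ => ?_
      rw [Fin.val_succ, pow_succ]; ring
    rw [e1, e2] at h
    simp only [Fin.val_zero, pow_zero, mul_one] at h
    have h0 : f 0 = g 0 := by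
      have := congrArg (· % N) h
      simpa [Nat.add_mul_mod_self_left, Nat.mod_eq_of_lt (hf 0), Nat.mod_eq_of_lt (hg 0)] using this
    have h1 : ∑ i : Fin m, f i.succ * N ^ (i : ℕ) = ∑ i : Fin m, g i.succ * N ^ (i : ℕ) := by
      rw [h0] at h
      exact Nat.eq_of_mul_eq_mul_left hN (Nat.add_left_cancel h)
    have h2 := ih (f := fun i => f i.succ) (g := fun i => g i.succ) (fun i => hf _) (fun i => hg _) h1
    funext i
    refine Fin.cases h0 (fun j => ?_) i
    exact congrFun h2 j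

/-- the separating quadratic form -/
theorem quad_inj {m n : ℕ} : ∃ x : Fin m → ℝ, ∃ y : Fin n → ℝ, ∀ π σ : Fin m ↪ Fin n,
    ∑ i, (x i - y (π i)) ^ 2 = ∑ i, (x i - y (σ i)) ^ 2 → π = σ := by
  classical
  set N : ℕ := m * n ^ 2 + n + 1 with hN
  refine ⟨fun i => -((N : ℝ) ^ ((i : ℕ) + 1)) / 2, fun j => (j : ℕ), fun π σ h => ?_⟩
  have hexp : ∀ π : Fin m ↪ Fin n, ∑ i : Fin m, (-((N : ℝ) ^ ((i : ℕ) + 1)) / 2 - ((π i : Fin n) : ℕ)) ^ 2
      = ∑ i : Fin m, ((N : ℝ) ^ ((i : ℕ) + 1) / 2) ^ 2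
        + ((∑ i : Fin m, ((π i : ℕ)) ^ 2 + N * ∑ i : Fin m, (π i : ℕ) * N ^ (i : ℕ) : ℕ) : ℝ) := by
    intro π
    push_cast
    rw [Finset.mul_sum, ← Finset.sum_add_distrib, ← Finset.sum_add_distrib]
    refine Finset.sum_congr rfl fun i _ => ?_
    ring
  rw [hexp π, hexp σ] at h
  have h' : (∑ i : Fin m, ((π i : ℕ)) ^ 2 + N * ∑ i : Fin m, (π i : ℕ) * N ^ (i : ℕ))
      = (∑ i : Fin m, ((σ i : ℕ)) ^ 2 + N * ∑ i : Fin m, (σ i : ℕ) * N ^ (i : ℕ)) := by
    exact_mod_cast add_left_cancel h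
  have hsq : ∀ π : Fin m ↪ Fin n, ∑ i : Fin m, ((π i : ℕ)) ^ 2 < N := by
    intro π
    have : ∑ i : Fin m, ((π i : ℕ)) ^ 2 ≤ ∑ _i : Fin m, n ^ 2 :=
      Finset.sum_le_sum fun i _ => Nat.pow_le_pow_left (π i).isLt.le 2
    have h2 : ∑ _i : Fin m, n ^ 2 = m * n ^ 2 := by simp
    omega
  have hNpos : 0 < N := by omega
  have hmod := congrArg (· % N) h'
  have hs : ∑ i : Fin m, ((π i : ℕ)) ^ 2 = ∑ i : Fin m, ((σ i : ℕ)) ^ 2 := by
    simpa [Nat.add_mul_mod_self_left, Nat.mod_eq_of_lt (hsq π), Nat.mod_eq_of_lt (hsq σ)] using hmod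
  rw [hs] at h'
  have h3 : ∑ i : Fin m, (π i : ℕ) * N ^ (i : ℕ) = ∑ i : Fin m, (σ i : ℕ) * N ^ (i : ℕ) :=
    Nat.eq_of_mul_eq_mul_left hNpos (Nat.add_left_cancel h')
  have hlt : ∀ π : Fin m ↪ Fin n, ∀ i, ((π i : Fin n) : ℕ) < N := by
    intro π i
    have := (π i).isLt
    omega
  have h4 := digits_inj (hlt π) (hlt σ) h3
  ext i
  exact congrFun h4 i

/-- a real quadratic polynomial with nonzero leading coefficient has no small positive root -/
theorem eventually_quad_ne (c₀ c₁ c₂ : ℝ) (h : c₂ ≠ 0) :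
    ∀ᶠ e : ℝ in 𝓝[>] 0, c₀ + c₁ * e + c₂ * e ^ 2 ≠ 0 := by
  by_cases h0 : c₀ = 0
  · by_cases h1 : c₁ = 0
    · filter_upwards [self_mem_nhdsWithin] with e he
      have : (0 : ℝ) < e := he
      subst h0 h1
      simp only [zero_mul, zero_add]
      positivity
    · have hc : ContinuousAt (fun e : ℝ => c₁ + c₂ * e) 0 := by fun_prop
      have hne : ∀ᶠ e : ℝ in 𝓝 0, c₁ + c₂ * e ≠ 0 := hc.eventually_ne (by simpa using h1)
      filter_upwards [self_mem_nhdsWithin, nhdsWithin_le_nhds hne] with e he hne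
      have he' : e ≠ 0 := (ne_of_gt he)
      subst h0
      have : 0 + c₁ * e + c₂ * e ^ 2 = e * (c₁ + c₂ * e) := by ring
      rw [this]
      exact mul_ne_zero he' hne
  · have hc : ContinuousAt (fun e : ℝ => c₀ + c₁ * e + c₂ * e ^ 2) 0 := by fun_prop
    have hne : ∀ᶠ e : ℝ in 𝓝 0, c₀ + c₁ * e + c₂ * e ^ 2 ≠ 0 := hc.eventually_ne (by simpa using h0)
    exact nhdsWithin_le_nhds hne

theorem eventually_quad_pos (c₀ c₁ c₂ : ℝ) (h : 0 < c₀) :
    ∀ᶠ e : ℝ in 𝓝[>] 0, 0 < c₀ + c₁ * e + c₂ * e ^ 2 := by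
  have hc : ContinuousAt (fun e : ℝ => c₀ + c₁ * e + c₂ * e ^ 2) 0 := by fun_prop
  exact nhdsWithin_le_nhds (hc.eventually_const_lt (by simpa using h))

/-- expansion of the cost along a line -/
theorem cost_line {ι κ : Type*} [Fintype ι] (a : ι → E2) (b : κ → E2) (u : ι → E2) (v : κ → E2)
    (t : E2) (e : ℝ) (π : ι ↪ κ) :
    cost (fun i => a i + e • u i) (fun j => b j + e • v j) t π
      = cost a b t π + (∑ i, 2 * inner ℝ (a i - (b (π i) + t)) (u i - v (π i))) * e
        + (∑ i, ‖u i - v (π i)‖ ^ 2) * e ^ 2 := by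
  unfold cost
  rw [Finset.sum_mul, Finset.sum_mul, ← Finset.sum_add_distrib, ← Finset.sum_add_distrib]
  refine Finset.sum_congr rfl fun i _ => ?_
  have : a i + e • u i - (b (π i) + e • v (π i) + t)
      = (a i - (b (π i) + t)) + e • (u i - v (π i)) := by
    rw [smul_sub]; abel
  rw [this, norm_add_sq_real, inner_smul_right, norm_smul, mul_pow, Real.norm_eq_abs, sq_abs]
  ring

/-- **Perturbation.** Finitely many translations; after a small motion of all points all matchings have
different costs, and optimal matchings stay among the old optimal ones. -/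
theorem exists_perturb_fin {m n : ℕ} (a : Fin m → E2) (b : Fin n → E2) (T : Finset E2) :
    ∃ (a' : Fin m → E2) (b' : Fin n → E2), ∀ t ∈ T,
      (∀ π σ : Fin m ↪ Fin n, π ≠ σ → cost a' b' t π ≠ cost a' b' t σ) ∧
      (∀ π : Fin m ↪ Fin n, (∀ σ, cost a' b' t π ≤ cost a' b' t σ) → ∀ σ, cost a b t π ≤ cost a b t σ) := by
  classical
  obtain ⟨x, y, hxy⟩ := quad_inj (m := m) (n := n)
  let u : Fin m → E2 := fun i => EuclideanSpace.single 0 (x i)
  let v : Fin n → E2 := fun j => EuclideanSpace.single 0 (y j)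
  have huv : ∀ π : Fin m ↪ Fin n, ∑ i, ‖u i - v (π i)‖ ^ 2 = ∑ i, (x i - y (π i)) ^ 2 := by
    intro π
    refine Finset.sum_congr rfl fun i _ => ?_
    have : u i - v (π i) = EuclideanSpace.single 0 (x i - y (π i)) := by
      ext k
      fin_cases k <;> simp [u, v]
    rw [this, EuclideanSpace.norm_single, Real.norm_eq_abs, sq_abs]
  have key : ∀ᶠ e : ℝ in 𝓝[>] 0, ∀ t ∈ T, ∀ π σ : Fin m ↪ Fin n,
      (π ≠ σ → cost (fun i => a i + e • u i) (fun j => b j + e • v j) t π
        ≠ cost (fun i => a i + e • u i) (fun j => b j + e • v j) t σ) ∧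
      (cost a b t σ < cost a b t π → cost (fun i => a i + e • u i) (fun j => b j + e • v j) t σ
        < cost (fun i => a i + e • u i) (fun j => b j + e • v j) t π) := by
    rw [Filter.eventually_all_finset]
    intro t _
    rw [Filter.eventually_all]
    intro π
    rw [Filter.eventually_all]
    intro σ
    refine Filter.Eventually.and ?_ ?_
    · by_cases hne : π = σ
      · exact Filter.Eventually.of_forall fun _ h => absurd hne h
      · have h2 : (∑ i, ‖u i - v (π i)‖ ^ 2) - (∑ i, ‖u i - v (σ i)‖ ^ 2) ≠ 0 := by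
          rw [huv, huv]
          intro h
          exact hne (hxy π σ (sub_eq_zero.1 h))
        filter_upwards [eventually_quad_ne (cost a b t π - cost a b t σ)
          ((∑ i, 2 * inner ℝ (a i - (b (π i) + t)) (u i - v (π i)))
            - (∑ i, 2 * inner ℝ (a i - (b (σ i) + t)) (u i - v (σ i)))) _ h2] with e he _ heq
        apply he
        rw [cost_line, cost_line] at heq
        linear_combination heq
    · by_cases hlt : cost a b t σ < cost a b t π
      · filter_upwards [eventually_quad_pos (cost a b t π - cost a b t σ)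
          ((∑ i, 2 * inner ℝ (a i - (b (π i) + t)) (u i - v (π i)))
            - (∑ i, 2 * inner ℝ (a i - (b (σ i) + t)) (u i - v (σ i))))
          ((∑ i, ‖u i - v (π i)‖ ^ 2) - (∑ i, ‖u i - v (σ i)‖ ^ 2)) (sub_pos.2 hlt)] with e he _
        rw [cost_line, cost_line]
        linarith
      · exact Filter.Eventually.of_forall fun _ h => absurd h hlt
  obtain ⟨e, he⟩ := key.exists
  refine ⟨fun i => a i + e • u i, fun j => b j + e • v j, fun t ht => ⟨fun π σ h => (he t ht π σ).1 h, ?_⟩⟩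
  intro π hπ σ
  by_contra hcon
  push Not at hcon
  exact absurd ((he t ht π σ).2 hcon) (not_lt.2 (hπ σ))

/-- the set counted in the frozen statement -/
def Sopt {m n : ℕ} (A : Fin m → E2) (B : Fin n → E2) : Set (Fin m ↪ Fin n) :=
  {π | ∃ t : E2, ∀ σ : Fin m ↪ Fin n, σ ≠ π →
    ∑ i, ‖A i - (B (π i) + t)‖ ^ 2 < ∑ i, ‖A i - (B (σ i) + t)‖ ^ 2}

/-- If at finitely many translations the optimal matchings use pairwise different sets of items, then after a
perturbation there are at least as many unique optimal matchings. -/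
theorem exists_le_ncard_fin {m n : ℕ} (hmn : m ≤ n) {S : Type*} [Finite S] (a : Fin m → E2) (b : Fin n → E2)
    (t : S → E2) (U : S → Set (Fin n)) (hU : Function.Injective U)
    (h : ∀ s, ∀ π : Fin m ↪ Fin n, (∀ σ, cost a b (t s) π ≤ cost a b (t s) σ) → Set.range π = U s) :
    ∃ (a' : Fin m → E2) (b' : Fin n → E2), Nat.card S ≤ (Sopt a' b').ncard := by
  classical
  haveI := Fintype.ofFinite S
  obtain ⟨a', b', hab⟩ := exists_perturb_fin a b (Finset.univ.image t)
  refine ⟨a', b', ?_⟩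
  haveI : Nonempty (Fin m ↪ Fin n) := ⟨Fin.castLEEmb hmn⟩
  have hex : ∀ s, ∃ π : Fin m ↪ Fin n, ∀ σ, cost a' b' (t s) π ≤ cost a' b' (t s) σ := fun s =>
    Finite.exists_min _
  choose P hP using hex
  have ht : ∀ s, t s ∈ Finset.univ.image t := fun s => Finset.mem_image_of_mem _ (Finset.mem_univ s)
  have hmem : ∀ s, P s ∈ Sopt a' b' := by
    intro s
    refine ⟨t s, fun σ hσ => ?_⟩
    exact lt_of_le_of_ne (hP s σ) ((hab _ (ht s)).1 _ _ (Ne.symm hσ))
  have hrange : ∀ s, Set.range (P s) = U s := fun s => h s _ ((hab _ (ht s)).2 _ (hP s))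
  have hinj : Function.Injective P := by
    intro s s' hs
    apply hU
    rw [← hrange s, ← hrange s', hs]
  have hfin : (Sopt a' b').Finite := Set.toFinite _
  calc Nat.card S = (Set.range P).ncard := by
        rw [← Set.image_univ, Set.ncard_image_of_injective _ hinj, Set.ncard_univ]
    _ ≤ (Sopt a' b').ncard := Set.ncard_le_ncard (by rintro _ ⟨s, rfl⟩; exact hmem s) hfin

/-- The same for arbitrary finite index types of agents and items. -/
theorem exists_le_ncard {ι κ S : Type*} [Fintype ι] [Fintype κ] [Finite S]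
    (hmn : Fintype.card ι ≤ Fintype.card κ) (a : ι → E2) (b : κ → E2)
    (t : S → E2) (U : S → Set κ) (hU : Function.Injective U)
    (h : ∀ s, ∀ π : ι ↪ κ, (∀ σ, cost a b (t s) π ≤ cost a b (t s) σ) → Set.range π = U s) :
    ∃ (a' : Fin (Fintype.card ι) → E2) (b' : Fin (Fintype.card κ) → E2),
      Nat.card S ≤ (Sopt a' b').ncard := by
  classical
  let eι := Fintype.equivFin ι
  let eκ := Fintype.equivFin κ
  have hcost : ∀ (s : E2) (π : Fin (Fintype.card ι) ↪ Fin (Fintype.card κ)),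
      cost (a ∘ eι.symm) (b ∘ eκ.symm) s π
        = cost a b s ((eι.toEmbedding.trans π).trans eκ.symm.toEmbedding) := by
    intro s π
    unfold cost
    rw [← Equiv.sum_comp eι]
    simp
  refine exists_le_ncard_fin hmn (a ∘ eι.symm) (b ∘ eκ.symm) t (fun s => eκ.symm ⁻¹' (U s)) ?_ ?_
  · intro s s' hs
    apply hU
    exact (Set.preimage_injective.2 eκ.symm.surjective) hs
  · intro s π hπ
    have := h s ((eι.toEmbedding.trans π).trans eκ.symm.toEmbedding) (fun σ => by
      have h1 := hπ ((eι.symm.toEmbedding.trans σ).trans eκ.toEmbedding)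
      rw [hcost, hcost] at h1
      refine h1.trans (le_of_eq ?_)
      congr 1
      ext i
      simp)
    rw [← this]
    ext j
    simp only [Set.mem_range, Set.mem_preimage, Function.Embedding.trans_apply, Equiv.coe_toEmbedding]
    constructor
    · rintro ⟨i, rfl⟩
      exact ⟨eι.symm i, by simp⟩
    · rintro ⟨i, hi⟩
      exact ⟨eι i, by simpa using hi⟩

end Pool.Agent.RN
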